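import Pool.Agent.MP_56f843_an.Defs

set_option autoImplicit false

namespace Pool.Agent.MP_56f843_an

open Set Finset

variable {m : ℕ} {f : ℝ → ℝ}

theorem InClass.zero_le (h : InClass m f) : f 0 ≤ 0 := (le_max_left _ _).trans h.1

theorem InClass.one_le (h : InClass m f) : f 1 ≤ 0 := (le_max_right _ _).trans h.1

/-- the basic tuple `0, ..., 0, y, v, ..., v` with `b` copies of `v` -/
def tup (m b : ℕ) (y v : ℝ) (i : ℕ) : ℝ :=
  if i + b < m then 0 else if i + b = m then y else v

theorem sum_tup (g : ℝ → ℝ) (a b : ℕ) (y v : ℝ) :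
    ∑ i ∈ Finset.Icc 1 (a + 1 + b), g (tup (a + 1 + b) b y v i) = a * g 0 + g y + b * g v := by
  have h1 : Finset.Icc 1 (a + 1 + b) = Finset.Ico 1 (a + 1 + b + 1) := by
    ext i; simp only [Finset.mem_Icc, Finset.mem_Ico]; omega
  rw [h1, Finset.sum_Ico_eq_sum_range]
  have h2 : a + 1 + b + 1 - 1 = a + 1 + b := by omega
  rw [h2, Finset.sum_range_add, Finset.sum_range_succ]
  have h3 : ∀ i ∈ Finset.range a, g (tup (a + 1 + b) b y v (1 + i)) = g 0 := by
    intro i hi
    rw [Finset.mem_range] at hi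
    unfold tup
    rw [if_pos (by omega)]
  have h4 : g (tup (a + 1 + b) b y v (1 + a)) = g y := by
    unfold tup
    rw [if_neg (by omega), if_pos (by omega)]
  have h5 : ∀ i ∈ Finset.range b, g (tup (a + 1 + b) b y v (1 + (a + 1 + i))) = g v := by
    intro i hi
    unfold tup
    rw [if_neg (by omega), if_neg (by omega)]
  rw [Finset.sum_congr rfl h3, h4, Finset.sum_congr rfl h5]
  simp [Finset.sum_const, nsmul_eq_mul]

/-- The basic inequality for the tuple `0, ..., 0, y, v, ..., v`. -/
theorem InClass.tuple (h : InClass m f) {b : ℕ} (hb : b < m) {y v : ℝ} (hy : 0 ≤ y) (hyv : y ≤ v)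
    (hv : v ≤ 1) : f ((y + b * v) / m) ≤ (f y + b * f v) / m + v := by
  obtain ⟨a, rfl⟩ : ∃ a, m = a + 1 + b := ⟨m - 1 - b, by omega⟩
  have hv0 : 0 ≤ v := hy.trans hyv
  have h1 := h.2 (tup (a + 1 + b) b y v) ?_ ?_ ?_
  · have e1 := sum_tup (fun t => t) a b y v
    have e2 := sum_tup f a b y v
    rw [e1, e2] at h1
    rw [mul_zero, zero_add] at h1
    have h2 : tup (a + 1 + b) b y v (a + 1 + b) - tup (a + 1 + b) b y v 1 ≤ v := by
      have h3 : tup (a + 1 + b) b y v (a + 1 + b) ≤ v := by
        unfold tup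
        split_ifs <;> linarith
      have h4 : 0 ≤ tup (a + 1 + b) b y v 1 := by
        unfold tup
        split_ifs <;> linarith
      linarith
    have h5 : (a * f 0 + f y + b * f v) / ((a + 1 + b : ℕ) : ℝ) ≤
        (f y + b * f v) / ((a + 1 + b : ℕ) : ℝ) := by
      apply div_le_div_of_nonneg_right _ (Nat.cast_nonneg _)
      have := mul_nonpos_of_nonneg_of_nonpos (Nat.cast_nonneg (α := ℝ) a) h.zero_le
      linarith
    linarith
  · unfold tup
    split_ifs <;> linarith
  · intro i hi1 hi2
    unfold tup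
    split_ifs <;> first | omega | linarith
  · unfold tup
    split_ifs <;> linarith

/-- Values of a function of the class that is bounded above are at most `m / (m - 1)`. -/
theorem InClass.le_bound (h : InClass m f) (hm : 2 ≤ m) (hbd : BddAbove (f '' Set.Icc 0 1))
    {x : ℝ} (hx : x ∈ Set.Icc (0 : ℝ) 1) : f x ≤ m / (m - 1) := by
  have hm' : (2 : ℝ) ≤ m := by exact_mod_cast hm
  have hm0 : (0 : ℝ) < m := by linarith
  have hne : (f '' Set.Icc 0 1).Nonempty := ⟨f 0, 0, by simp, rfl⟩
  set s := sSup (f '' Set.Icc 0 1) with hs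
  have hle : ∀ t ∈ Set.Icc (0 : ℝ) 1, f t ≤ s := fun t ht => le_csSup hbd ⟨t, ht, rfl⟩
  have key : ∀ t ∈ Set.Icc (0 : ℝ) 1, f t ≤ s / m + 1 := by
    rintro t ⟨ht0, ht1⟩
    rcases ht1.lt_or_eq with ht | ht
    · have hmt : 0 ≤ m * t := by positivity
      set b := ⌊m * t⌋₊ with hb
      have hb1 : (b : ℝ) ≤ m * t := Nat.floor_le hmt
      have hb2 : m * t < b + 1 := Nat.lt_floor_add_one _
      have hbm : b < m := by
        have : (b : ℝ) < m := by nlinarith
        exact_mod_cast this
      have h1 := h.tuple hbm (y := m * t - b) (v := 1) (by linarith) (by linarith) le_rfl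
      have h2 : (m * t - b + b * 1) / (m : ℝ) = t := by
        field_simp
        ring
      rw [h2] at h1
      have h3 := hle (m * t - b) ⟨by linarith, by linarith⟩
      have h4 : (b : ℝ) * f 1 ≤ 0 :=
        mul_nonpos_of_nonneg_of_nonpos (Nat.cast_nonneg _) h.one_le
      have h5 : (f (m * t - b) + b * f 1) / (m : ℝ) ≤ s / m :=
        div_le_div_of_nonneg_right (by linarith) hm0.le
      linarith
    · have h1 := h.one_le
      rw [← ht] at h1
      have h3 : f t ≤ s := hle t ⟨ht0, ht1⟩
      rcases le_total s 0 with h4 | h4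
      · have h5 : s ≤ s / m := by
          rw [le_div_iff₀ hm0]
          nlinarith
        linarith
      · have h5 : 0 ≤ s / m := div_nonneg h4 hm0.le
        linarith
  have hs1 : s ≤ s / m + 1 := csSup_le hne (by rintro _ ⟨t, ht, rfl⟩; exact key t ht)
  have h1 : s ≤ m / (m - 1) := by
    rw [le_div_iff₀ (by linarith)]
    have : s * m ≤ s + m := by
      have := mul_le_mul_of_nonneg_right hs1 hm0.le
      rw [add_mul, div_mul_cancel₀ _ hm0.ne'] at this
      linarith
    linarith
  exact (hle x hx).trans h1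

end Pool.Agent.MP_56f843_an
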