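import Mathlib

set_option autoImplicit false

namespace Pool.Agent.MP_56f843_an

open Set

/-- `f` (of which only the values on `[0,1]` matter) belongs to the class `F_m`:
`max (f 0) (f 1) ≤ 0`, and for all `0 ≤ x 1 ≤ ... ≤ x m ≤ 1`
the value of `f` at the mean is at most the mean of the values plus `x m - x 1`. -/
def InClass (m : ℕ) (f : ℝ → ℝ) : Prop :=
  max (f 0) (f 1) ≤ 0 ∧
  ∀ x : ℕ → ℝ, 0 ≤ x 1 → (∀ i, 1 ≤ i → i < m → x i ≤ x (i + 1)) → x m ≤ 1 →
    f ((∑ i ∈ Finset.Icc 1 m, x i) / m) ≤ (∑ i ∈ Finset.Icc 1 m, f (x i)) / m + (x m - x 1)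

/-- The set of values at `x` of the functions of the class `F_m` that are bounded above
on `[0,1]`. -/
def values (m : ℕ) (x : ℝ) : Set ℝ :=
  {y | ∃ f : ℝ → ℝ, InClass m f ∧ BddAbove (f '' Icc 0 1) ∧ f x = y}

/-- The extremal function `F_m`. -/
noncomputable def extremal (m : ℕ) (x : ℝ) : ℝ := sSup (values m x)

/-- The distance from `t` to the nearest integer. -/
noncomputable def distInt (t : ℝ) : ℝ := |t - round t|

/-- The series `∑_{k ≥ 1} m ^ (-k) * min (‖m ^ (k-1) * x‖, 1 / m)`. -/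
noncomputable def series (m : ℕ) (x : ℝ) : ℝ :=
  ∑' k : ℕ, ((m : ℝ) ^ (k + 1))⁻¹ * min (distInt ((m : ℝ) ^ k * x)) (1 / m)

end Pool.Agent.MP_56f843_an
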