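import Pool.Agent.MP_56f843_an.Defs

set_option autoImplicit false

namespace Pool.Agent.MP_56f843_an

/-- With `d` the distance from `x` to the nearest integer: `(5/2) d` if `d ≤ 2/5`, and `5 d - 2`
otherwise. -/
noncomputable def stepFive (x : ℝ) : ℝ :=
  if distInt x ≤ 2 / 5 then 5 / 2 * distInt x else 5 * distInt x - 2

/-- With `d` the distance from `x` to the nearest integer: `2/5` if `d ≤ 2/5`, and `1/5`
otherwise. -/
noncomputable def weightFive (x : ℝ) : ℝ := if distInt x ≤ 2 / 5 then 2 / 5 else 1 / 5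

/-- The series `∑_{k ≥ 0} w(x) w(T x) ... w(T ^ (k-1) x) * min (1, (5/2) ‖T ^ k x‖)` with
`T = stepFive` and `w = weightFive`. -/
noncomputable def seriesFive (x : ℝ) : ℝ :=
  ∑' k : ℕ, (∏ j ∈ Finset.range k, weightFive (stepFive^[j] x)) *
    min 1 (5 / 2 * distInt (stepFive^[k] x))

end Pool.Agent.MP_56f843_an
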