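import Pool.Agent.MP_56f843_an.Four

set_option autoImplicit false

/-!
# The growth of the extremal functions at the end points, I: functions of the class

`osc c δ κ x = c x log (1 / x) + δ x (1 - cos (κ log x))` belongs to the class for small `δ`.
-/

namespace Pool.Agent.MP_56f843_an

open Set

/-- a criterion: reduction of the `m`-point inequality to two-valued tuples -/
theorem inClass_of_convex {m : ℕ} (hm : 2 ≤ m) {f : ℝ → ℝ} (h0 : f 0 = 0) (h1 : f 1 = 0)
    (hconv : ∀ b K : ℝ, 0 ≤ b → b ≤ K →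
      ConvexOn ℝ (Icc 0 b) fun y => (m : ℝ) * f ((K + y) / m) - f y)
    (hshift : ∀ a b l : ℝ, 0 ≤ a → a ≤ b → 0 ≤ l → l ≤ 1 →
      f ((1 - l) * a + l * b) - (1 - l) * f a - l * f b ≤ f (l * (b - a)) - l * f (b - a))
    (hend : ∀ (b : ℝ) (i : ℕ), 0 ≤ b → b ≤ 1 → 1 ≤ i → i < m →
      f ((i / m : ℝ) * b) - (i / m : ℝ) * f b ≤ b) : InClass m f := by
  have hm0 : (0 : ℝ) < m := by
    have : 0 < m := by omega
    exact_mod_cast this
  refine ⟨by rw [h0, h1, max_self], ?_⟩
  intro x hx1 hx2 hx3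
  have hmono : ∀ i j : ℕ, 1 ≤ i → i ≤ j → j ≤ m → x i ≤ x j := by
    intro i j hi hij
    induction j, hij using Nat.le_induction with
    | base => exact fun _ => le_rfl
    | succ j hij ih =>
      intro hj
      exact (ih (by omega)).trans (hx2 j (by omega) (by omega))
  set a := x 1 with ha
  set b := x m with hb
  have hab : a ≤ b := hmono 1 m le_rfl (by omega) le_rfl
  have key : ∀ (S : Finset ℕ), (∀ i ∈ S, x i ∈ Icc a b) → ∀ p q : ℕ, 1 ≤ p → 1 ≤ q →
      p + q + S.card = m →
      (m : ℝ) * f ((p * a + q * b + ∑ i ∈ S, x i) / m) - (p * f a + q * f b + ∑ i ∈ S, f (x i)) ≤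
        m * (b - a) := by
    intro S
    induction S using Finset.induction_on with
    | empty =>
      intro _ p q hp hq hpq
      rw [Finset.card_empty, add_zero] at hpq
      rw [Finset.sum_empty, Finset.sum_empty, add_zero, add_zero]
      have hpq' : (p : ℝ) = m - q := by
        rw [← hpq]
        push_cast
        ring
      have hl1 : (q / m : ℝ) ≤ 1 := by
        rw [div_le_one hm0]
        have : q ≤ m := by omega
        exact_mod_cast this
      have e1 := hshift a b (q / m) hx1 hab (by positivity) hl1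
      have e2 := hend (b - a) q (by linarith) (by linarith) hq (by omega)
      have e3 : (p * a + q * b) / (m : ℝ) = (1 - q / m) * a + q / m * b := by
        rw [hpq']
        field_simp
      have e4 : (p : ℝ) * f a + q * f b = m * ((1 - q / m) * f a + q / m * f b) := by
        rw [hpq']
        field_simp
      rw [e3, e4, ← mul_sub]
      refine mul_le_mul_of_nonneg_left ?_ hm0.le
      linarith
    | insert i S hi ih =>
      intro hS p q hp hq hpq
      rw [Finset.card_insert_of_notMem hi] at hpq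
      rw [Finset.sum_insert hi, Finset.sum_insert hi]
      have hxi : x i ∈ Icc a b := hS i (Finset.mem_insert_self _ _)
      have hS' : ∀ k ∈ S, x k ∈ Icc a b := fun k hk => hS k (Finset.mem_insert_of_mem hk)
      have hSnn : 0 ≤ ∑ k ∈ S, x k := Finset.sum_nonneg fun k hk => hx1.trans (hS' k hk).1
      obtain ⟨K, hK⟩ : ∃ K, K = p * a + q * b + ∑ k ∈ S, x k := ⟨_, rfl⟩
      have hb0 : 0 ≤ b := hx1.trans hab
      have hq' : (1 : ℝ) ≤ q := by exact_mod_cast hq
      have hKb : b ≤ K := by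
        rw [hK]
        have e1 : 0 ≤ (p : ℝ) * a := by positivity
        have e2 : b ≤ q * b := by nlinarith
        linarith
      have hc := hconv b K hb0 hKb
      have hmax := hc.le_max_of_mem_Icc (x := a) (y := b) (z := x i) ⟨hx1, hab⟩ ⟨hb0, le_rfl⟩ hxi
      have i1 := ih hS' (p + 1) q (by omega) hq (by omega)
      have i2 := ih hS' p (q + 1) hp (by omega) (by omega)
      push_cast at i1 i2
      have e1 : ((p : ℝ) + 1) * a + q * b + ∑ k ∈ S, x k = K + a := by rw [hK]; ring
      have e2 : (p : ℝ) * a + (q + 1) * b + ∑ k ∈ S, x k = K + b := by rw [hK]; ring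
      have e3 : (p : ℝ) * a + q * b + (x i + ∑ k ∈ S, x k) = K + x i := by rw [hK]; ring
      rw [e1] at i1
      rw [e2] at i2
      rw [e3]
      rcases le_max_iff.1 hmax with h | h
      · linarith
      · linarith
  have hIcc : Finset.Icc 1 m = insert 1 (insert m (Finset.Ioo 1 m)) := by
    ext i
    simp only [Finset.mem_Icc, Finset.mem_insert, Finset.mem_Ioo]
    omega
  have hn1 : (1 : ℕ) ∉ insert m (Finset.Ioo 1 m) := by
    simp only [Finset.mem_insert, Finset.mem_Ioo]
    omega
  have hn2 : m ∉ Finset.Ioo 1 m := by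
    simp only [Finset.mem_Ioo]
    omega
  rw [hIcc, Finset.sum_insert hn1, Finset.sum_insert hn2, Finset.sum_insert hn1,
    Finset.sum_insert hn2]
  have hk := key (Finset.Ioo 1 m) (fun i hi => by
    rw [Finset.mem_Ioo] at hi
    exact ⟨hmono 1 i le_rfl (by omega) (by omega), hmono i m (by omega) (by omega) le_rfl⟩) 1 1
    le_rfl le_rfl (by rw [Nat.card_Ioo]; omega)
  push_cast at hk
  rw [one_mul, one_mul, one_mul, one_mul] at hk
  have e1 : x 1 + (x m + ∑ i ∈ Finset.Ioo 1 m, x i) = a + b + ∑ i ∈ Finset.Ioo 1 m, x i := by ring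
  rw [e1]
  have h5 : f ((a + b + ∑ i ∈ Finset.Ioo 1 m, x i) / m) ≤
      (m * (b - a) + (f a + (f b + ∑ i ∈ Finset.Ioo 1 m, f (x i)))) / m := by
    rw [le_div_iff₀ hm0]
    linarith
  have h6 : (m * (b - a) + (f a + (f b + ∑ i ∈ Finset.Ioo 1 m, f (x i)))) / (m : ℝ) =
      (f a + (f b + ∑ i ∈ Finset.Ioo 1 m, f (x i))) / m + (b - a) := by
    field_simp
    ring
  rw [h6] at h5
  exact h5

/-- `c x log (1 / x) + δ x (1 - cos (κ log x))` -/
noncomputable def osc (c δ κ x : ℝ) : ℝ :=
  x * (c * -Real.log x + δ * (1 - Real.cos (κ * Real.log x)))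

theorem osc_zero (c δ κ : ℝ) : osc c δ κ 0 = 0 := by
  unfold osc
  rw [zero_mul]

theorem osc_one (c δ κ : ℝ) : osc c δ κ 1 = 0 := by
  unfold osc
  rw [Real.log_one, mul_zero, Real.cos_zero]
  ring

theorem continuous_osc (c δ κ : ℝ) : Continuous (osc c δ κ) := by
  have h1 : Continuous fun x : ℝ => x * Real.log x := Real.continuous_mul_log
  have h2 : Continuous fun x : ℝ => x * Real.cos (κ * Real.log x) := by
    rw [continuous_iff_continuousAt]
    intro x
    by_cases hx : x = 0
    · subst hx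
      rw [ContinuousAt, zero_mul]
      refine squeeze_zero_norm (a := fun x : ℝ => |x|) (fun x => ?_) ?_
      · rw [Real.norm_eq_abs, abs_mul]
        have := Real.abs_cos_le_one (κ * Real.log x)
        nlinarith [abs_nonneg x]
      · have := (continuous_abs (G := ℝ)).tendsto 0
        rwa [abs_zero] at this
    · exact continuousAt_id.mul (Real.continuous_cos.continuousAt.comp
        (continuousAt_const.mul (Real.continuousAt_log hx)))
  have h3 : osc c δ κ = fun x => -c * (x * Real.log x) + δ * (x - x * Real.cos (κ * Real.log x)) := by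
    funext x
    unfold osc
    ring
  rw [h3]
  exact (continuous_const.mul h1).add (continuous_const.mul (continuous_id.sub h2))

/-- the derivative of `osc` -/
noncomputable def osc1 (c δ κ x : ℝ) : ℝ :=
  c * -Real.log x - c + δ * (1 - Real.cos (κ * Real.log x)) + δ * κ * Real.sin (κ * Real.log x)

/-- `-x` times the second derivative of `osc` -/
noncomputable def oscW (c δ κ x : ℝ) : ℝ :=
  c - δ * κ * Real.sin (κ * Real.log x) - δ * κ ^ 2 * Real.cos (κ * Real.log x)

theorem hasDerivAt_osc (c δ κ : ℝ) {x : ℝ} (hx : x ≠ 0) :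
    HasDerivAt (osc c δ κ) (osc1 c δ κ x) x := by
  have hl := Real.hasDerivAt_log hx
  have h1 := ((hl.neg.const_mul c).add (((hl.const_mul κ).cos.const_sub 1).const_mul δ))
  have h2 := (hasDerivAt_id x).mul h1
  refine (h2.congr_deriv ?_)
  simp only [id, osc1, Pi.add_apply, Pi.neg_apply]
  field_simp
  ring

theorem hasDerivAt_osc1 (c δ κ : ℝ) {x : ℝ} (hx : x ≠ 0) :
    HasDerivAt (osc1 c δ κ) (-oscW c δ κ x / x) x := by
  have hl := Real.hasDerivAt_log hx
  have h1 := (((hl.neg.const_mul c).sub_const c).add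
    (((hl.const_mul κ).cos.const_sub 1).const_mul δ)).add ((hl.const_mul κ).sin.const_mul (δ * κ))
  refine (h1.congr_deriv ?_)
  simp only [oscW]
  field_simp
  ring

theorem hasDerivAt_osc2 (c δ κ : ℝ) {x : ℝ} (hx : x ≠ 0) :
    HasDerivAt (fun x => -oscW c δ κ x / x)
      ((c - δ * (κ + κ ^ 3) * Real.sin (κ * Real.log x)) / x ^ 2) x := by
  have hl := Real.hasDerivAt_log hx
  have h1 := (((hl.const_mul κ).sin.const_mul (δ * κ)).const_sub c).sub
    ((hl.const_mul κ).cos.const_mul (δ * κ ^ 2))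
  have h2 := h1.neg.div (hasDerivAt_id x) hx
  refine (h2.congr_deriv ?_)
  simp only [id, Pi.sub_apply, Pi.neg_apply]
  field_simp
  ring

theorem oscW_bounds {c δ κ : ℝ} (hδ : 0 ≤ δ) (hκ : 0 ≤ κ) (x : ℝ) :
    c - δ * (κ + κ ^ 2) ≤ oscW c δ κ x ∧ oscW c δ κ x ≤ c + δ * (κ + κ ^ 2) := by
  unfold oscW
  have h1 := Real.abs_sin_le_one (κ * Real.log x)
  have h2 := Real.abs_cos_le_one (κ * Real.log x)
  rw [abs_le] at h1 h2
  have h3 : 0 ≤ δ * κ := by positivity
  have h4 : 0 ≤ δ * κ ^ 2 := by positivity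
  constructor <;> nlinarith

theorem osc_conv {c δ κ : ℝ} (hδ : 0 ≤ δ) (hκ : 0 ≤ κ) (hc : 3 * (δ * (κ + κ ^ 2)) ≤ c) {m : ℕ}
    (hm : 0 < m) {b K : ℝ} (hbK : b ≤ K) :
    ConvexOn ℝ (Icc 0 b) fun y => (m : ℝ) * osc c δ κ ((K + y) / m) - osc c δ κ y := by
  have hm0 : (0 : ℝ) < m := by exact_mod_cast hm
  have hint : interior (Icc 0 b) = Ioo 0 b := interior_Icc
  refine convexOn_of_hasDerivWithinAt2_nonneg (convex_Icc 0 b)
    (f' := fun y => osc1 c δ κ ((K + y) / m) - osc1 c δ κ y)
    (f'' := fun y => -oscW c δ κ ((K + y) / m) / (K + y) + oscW c δ κ y / y) ?_ ?_ ?_ ?_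
  · refine Continuous.continuousOn ?_
    have h1 := continuous_osc c δ κ
    exact (continuous_const.mul (h1.comp ((continuous_const.add continuous_id).div_const _))).sub h1
  · intro y hy
    rw [hint] at hy ⊢
    have hKy : 0 < K + y := by linarith [hy.1, hy.2]
    have h1 := hasDerivAt_osc c δ κ (div_pos hKy hm0).ne'
    have h2 : HasDerivAt (fun y : ℝ => (K + y) / m) (1 / m) y :=
      ((hasDerivAt_id y).const_add K).div_const _
    have h3 := ((h1.comp y h2).const_mul (m : ℝ)).sub (hasDerivAt_osc c δ κ hy.1.ne')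
    refine (h3.congr_deriv ?_).hasDerivWithinAt
    field_simp
  · intro y hy
    rw [hint] at hy ⊢
    have hKy : 0 < K + y := by linarith [hy.1, hy.2]
    have h1 := hasDerivAt_osc1 c δ κ (div_pos hKy hm0).ne'
    have h2 : HasDerivAt (fun y : ℝ => (K + y) / m) (1 / m) y :=
      ((hasDerivAt_id y).const_add K).div_const _
    have h3 := (h1.comp y h2).sub (hasDerivAt_osc1 c δ κ hy.1.ne')
    refine (h3.congr_deriv ?_).hasDerivWithinAt
    have := hKy.ne'
    field_simp
    ring
  · intro y hy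
    rw [hint] at hy
    have hKy : 0 < K + y := by linarith [hy.1, hy.2]
    have h1 := (oscW_bounds (c := c) hδ hκ y).1
    have h2 := (oscW_bounds (c := c) hδ hκ ((K + y) / m)).2
    obtain ⟨e, he⟩ : ∃ e, e = δ * (κ + κ ^ 2) := ⟨_, rfl⟩
    have he0 : 0 ≤ e := by
      rw [he]
      positivity
    rw [← he] at h1 h2 hc
    have h3 : (c - e) / y ≤ oscW c δ κ y / y := div_le_div_of_nonneg_right h1 hy.1.le
    have h4 : oscW c δ κ ((K + y) / m) / (K + y) ≤ (c + e) / (K + y) :=
      div_le_div_of_nonneg_right h2 hKy.le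
    have h5 : (c + e) / (K + y) ≤ (c - e) / y := by
      rw [div_le_div_iff₀ hKy hy.1]
      nlinarith [hy.1, hy.2]
    rw [neg_div]
    linarith

theorem osc_shift {c δ κ : ℝ} (hc : δ * (κ + κ ^ 3) ≤ c) (hδ : 0 ≤ δ * (κ + κ ^ 3))
    {a b l : ℝ} (ha : 0 ≤ a) (hab : a ≤ b) (hl0 : 0 ≤ l) (hl1 : l ≤ 1) :
    osc c δ κ ((1 - l) * a + l * b) - (1 - l) * osc c δ κ a - l * osc c δ κ b ≤
      osc c δ κ (l * (b - a)) - l * osc c δ κ (b - a) := by
  have hcx : ConvexOn ℝ (Ioi 0) (osc1 c δ κ) := by
    refine convexOn_of_hasDerivWithinAt2_nonneg (convex_Ioi 0)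
      (f' := fun x => -oscW c δ κ x / x)
      (f'' := fun x => (c - δ * (κ + κ ^ 3) * Real.sin (κ * Real.log x)) / x ^ 2) ?_ ?_ ?_ ?_
    · intro x hx
      exact (hasDerivAt_osc1 c δ κ (ne_of_gt hx)).continuousAt.continuousWithinAt
    · intro x hx
      rw [interior_Ioi] at hx
      exact (hasDerivAt_osc1 c δ κ (ne_of_gt hx)).hasDerivWithinAt
    · intro x hx
      rw [interior_Ioi] at hx
      exact (hasDerivAt_osc2 c δ κ (ne_of_gt hx)).hasDerivWithinAt
    · intro x _
      refine div_nonneg ?_ (sq_nonneg x)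
      have := Real.sin_le_one (κ * Real.log x)
      nlinarith
  set F : ℝ → ℝ := fun s => osc c δ κ ((1 - l) * a + l * b + s) - (1 - l) * osc c δ κ (a + s) -
    l * osc c δ κ (b + s) with hF
  have hco := continuous_osc c δ κ
  have hcont : Continuous F := by
    have e : ∀ t : ℝ, Continuous fun s => osc c δ κ (t + s) := fun t =>
      hco.comp (continuous_const.add continuous_id)
    exact ((e _).sub (continuous_const.mul (e _))).sub (continuous_const.mul (e _))
  have hder : ∀ s ∈ Ioo (-a) 0, HasDerivAt F (osc1 c δ κ ((1 - l) * a + l * b + s) -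
      (1 - l) * osc1 c δ κ (a + s) - l * osc1 c δ κ (b + s)) s := by
    intro s hs
    have e : ∀ t : ℝ, 0 < t + s → HasDerivAt (fun s => osc c δ κ (t + s)) (osc1 c δ κ (t + s)) s := by
      intro t ht
      have h1 := (hasDerivAt_osc c δ κ ht.ne').comp s ((hasDerivAt_id s).const_add t)
      rwa [mul_one] at h1
    have h1 : 0 < a + s := by linarith [hs.1]
    have h2 : 0 < b + s := by linarith
    have h3 : 0 < (1 - l) * a + l * b + s := by nlinarith
    exact ((e _ h3).sub ((e _ h1).const_mul _)).sub ((e _ h2).const_mul _)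
  have hanti : AntitoneOn F (Icc (-a) 0) := by
    refine antitoneOn_of_deriv_nonpos (convex_Icc _ _) hcont.continuousOn ?_ ?_
    · intro s hs
      rw [interior_Icc] at hs
      exact (hder s hs).differentiableAt.differentiableWithinAt
    · intro s hs
      rw [interior_Icc] at hs
      rw [(hder s hs).deriv]
      have h1 : 0 < a + s := by linarith [hs.1]
      have h2 : 0 < b + s := by linarith
      have h3 := hcx.2 (show a + s ∈ Ioi 0 from h1) (show b + s ∈ Ioi 0 from h2)
        (show 0 ≤ 1 - l by linarith) hl0 (show 1 - l + l = 1 by ring)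
      simp only [smul_eq_mul] at h3
      have h4 : (1 - l) * (a + s) + l * (b + s) = (1 - l) * a + l * b + s := by ring
      rw [h4] at h3
      linarith
  have h1 := hanti ⟨le_rfl, by linarith⟩ ⟨by linarith, le_rfl⟩ (by linarith : -a ≤ 0)
  rw [hF] at h1
  simp only [add_zero] at h1
  have e1 : (1 - l) * a + l * b + -a = l * (b - a) := by ring
  have e2 : a + -a = 0 := by ring
  have e3 : b + -a = b - a := by ring
  rw [e1, e2, e3, osc_zero, mul_zero, sub_zero] at h1
  exact h1

theorem osc_mul {c δ κ : ℝ} {l b : ℝ} (hl : 0 < l) (hb : 0 < b) :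
    osc c δ κ (l * b) - l * osc c δ κ b =
      b * (c * (l * -Real.log l) + δ * l * (Real.cos (κ * Real.log b) -
        Real.cos (κ * Real.log b + κ * Real.log l))) := by
  unfold osc
  rw [Real.log_mul hl.ne' hb.ne', mul_add κ, add_comm (κ * Real.log l)]
  ring

/-- `osc` belongs to the class -/
theorem inClass_osc {m : ℕ} (hm : 2 ≤ m) {c δ κ : ℝ} (hδ : 0 ≤ δ) (hκ : 0 ≤ κ)
    (h1 : 3 * (δ * (κ + κ ^ 2)) ≤ c) (h2 : δ * (κ + κ ^ 3) ≤ c)
    (hmin : ∀ i : ℕ, 1 ≤ i → i < m → c * ((i / m : ℝ) * Real.log (m / i)) ≤ 1)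
    (hper : ∀ i : ℕ, 1 ≤ i → i < m → δ = 0 ∨ (∃ n : ℤ, κ * Real.log (m / i) = n * (2 * Real.pi)) ∨
      c * ((i / m : ℝ) * Real.log (m / i)) + 2 * δ ≤ 1) : InClass m (osc c δ κ) := by
  have hm0 : (0 : ℝ) < m := by
    have : 0 < m := by omega
    exact_mod_cast this
  refine inClass_of_convex hm (osc_zero _ _ _) (osc_one _ _ _)
    (fun b K _ hbK => osc_conv hδ hκ h1 (by omega) hbK)
    (fun a b l ha hab hl0 hl1 => osc_shift h2 (by positivity) ha hab hl0 hl1) ?_
  intro b i hb0 hb1 hi him
  rcases hb0.lt_or_eq with hb | hb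
  · have hi0 : (0 : ℝ) < i := by exact_mod_cast hi
    have hl : (0 : ℝ) < i / m := by positivity
    have hl1 : (i / m : ℝ) ≤ 1 := by
      rw [div_le_one hm0]
      exact_mod_cast him.le
    rw [osc_mul hl hb]
    have hlog : -Real.log (i / m) = Real.log (m / i) := by
      rw [← Real.log_inv, inv_div]
    have hlog' : Real.log (i / m) = -Real.log (m / i) := by
      rw [← hlog, neg_neg]
    rw [hlog]
    have h3 := hmin i hi him
    have key : c * ((i / m : ℝ) * Real.log (m / i)) + δ * (i / m) * (Real.cos (κ * Real.log b) -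
        Real.cos (κ * Real.log b + κ * Real.log (i / m))) ≤ 1 := by
      rcases hper i hi him with h4 | ⟨n, h4⟩ | h4
      · rw [h4, zero_mul, zero_mul, add_zero]
        exact h3
      · rw [hlog', mul_neg, h4, ← sub_eq_add_neg, Real.cos_sub_int_mul_two_pi, sub_self, mul_zero,
          add_zero]
        exact h3
      · have h5 := Real.cos_le_one (κ * Real.log b)
        have h6 := Real.neg_one_le_cos (κ * Real.log b + κ * Real.log (i / m))
        have h7 : δ * (i / m : ℝ) ≤ δ := by nlinarith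
        have h8 : 0 ≤ δ * (i / m : ℝ) := by positivity
        have h9 : δ * (i / m : ℝ) * (Real.cos (κ * Real.log b) -
            Real.cos (κ * Real.log b + κ * Real.log (i / m))) ≤ δ * (i / m : ℝ) * 2 :=
          mul_le_mul_of_nonneg_left (by linarith) h8
        linarith
    calc b * _ ≤ b * 1 := mul_le_mul_of_nonneg_left key hb.le
      _ = b := mul_one b
  · rw [← hb, mul_zero, osc_zero, mul_zero, sub_zero]

end Pool.Agent.MP_56f843_an
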