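import Pool.Agent.MP_56f843_an.EndA

set_option autoImplicit false

/-!
# The growth of the extremal functions at the end points, II: general properties of `extremal m`
-/

namespace Pool.Agent.MP_56f843_an

open Set Filter Topology

variable {m : ℕ} {f : ℝ → ℝ}

theorem bddAbove_values (hm : 2 ≤ m) {x : ℝ} (hx : x ∈ Icc (0 : ℝ) 1) : BddAbove (values m x) := by
  refine ⟨m / (m - 1), ?_⟩
  rintro _ ⟨f, hf, hbd, rfl⟩
  exact hf.le_bound hm hbd hx

theorem InClass.le_extremal (h : InClass m f) (hm : 2 ≤ m) (hbd : BddAbove (f '' Icc 0 1)) {x : ℝ}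
    (hx : x ∈ Icc (0 : ℝ) 1) : f x ≤ extremal m x :=
  le_csSup (bddAbove_values hm hx) ⟨f, h, hbd, rfl⟩

theorem extremal_nonneg (hm : 2 ≤ m) {x : ℝ} (hx : x ∈ Icc (0 : ℝ) 1) : 0 ≤ extremal m x :=
  (inClass_zero m (by omega)).le_extremal hm ⟨0, by rintro _ ⟨t, -, rfl⟩; exact le_rfl⟩ hx

theorem extremal_le (hm : 2 ≤ m) {x : ℝ} (hx : x ∈ Icc (0 : ℝ) 1) :
    extremal m x ≤ m / (m - 1) := by
  refine csSup_le (values_nonempty m (by omega) x) ?_
  rintro _ ⟨f, hf, hbd, rfl⟩
  exact hf.le_bound hm hbd hx

theorem extremal_bdd (hm : 2 ≤ m) : BddAbove (extremal m '' Icc 0 1) := by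
  refine ⟨m / (m - 1), ?_⟩
  rintro _ ⟨x, hx, rfl⟩
  exact extremal_le hm hx

/-- The extremal function belongs to the class. -/
theorem inClass_extremal (hm : 2 ≤ m) : InClass m (extremal m) := by
  refine ⟨max_le ?_ ?_, ?_⟩
  · refine csSup_le (values_nonempty m (by omega) 0) ?_
    rintro _ ⟨f, hf, -, rfl⟩
    exact hf.zero_le
  · refine csSup_le (values_nonempty m (by omega) 1) ?_
    rintro _ ⟨f, hf, -, rfl⟩
    exact hf.one_le
  · intro x hx1 hx2 hx3
    have hmono : ∀ i j : ℕ, 1 ≤ i → i ≤ j → j ≤ m → x i ≤ x j := by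
      intro i j hi hij
      induction j, hij using Nat.le_induction with
      | base => exact fun _ => le_rfl
      | succ j hij ih =>
        intro hj
        exact (ih (by omega)).trans (hx2 j (by omega) (by omega))
    refine csSup_le (values_nonempty m (by omega) _) ?_
    rintro _ ⟨f, hf, hbd, rfl⟩
    refine (hf.2 x hx1 hx2 hx3).trans ?_
    have h1 : ∑ i ∈ Finset.Icc 1 m, f (x i) ≤ ∑ i ∈ Finset.Icc 1 m, extremal m (x i) := by
      refine Finset.sum_le_sum fun i hi => ?_
      rw [Finset.mem_Icc] at hi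
      refine hf.le_extremal hm hbd ⟨hx1.trans (hmono 1 i le_rfl hi.1 hi.2), ?_⟩
      exact (hmono i m hi.1 hi.2 le_rfl).trans hx3
    have h2 := div_le_div_of_nonneg_right h1 (Nat.cast_nonneg (α := ℝ) m)
    linarith

theorem extremal_zero (hm : 2 ≤ m) : extremal m 0 = 0 :=
  le_antisymm (inClass_extremal hm).zero_le (extremal_nonneg hm ⟨le_rfl, zero_le_one⟩)

theorem extremal_one (hm : 2 ≤ m) : extremal m 1 = 0 :=
  le_antisymm (inClass_extremal hm).one_le (extremal_nonneg hm ⟨zero_le_one, le_rfl⟩)

theorem extremal_symm (hm : 2 ≤ m) {x : ℝ} (hx : x ∈ Icc (0 : ℝ) 1) :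
    extremal m (1 - x) = extremal m x := by
  have key : ∀ y ∈ Icc (0 : ℝ) 1, extremal m (1 - y) ≤ extremal m y := by
    intro y hy
    have h1 := (inClass_extremal hm).reflect (by omega)
    refine h1.le_extremal hm ⟨m / (m - 1), ?_⟩ hy
    rintro _ ⟨t, ht, rfl⟩
    exact extremal_le hm ⟨by linarith [ht.2], by linarith [ht.1]⟩
  refine le_antisymm (key x hx) ?_
  have h1 := key (1 - x) ⟨by linarith [hx.2], by linarith [hx.1]⟩
  rwa [sub_sub_cancel] at h1

/-- the affine inequality -/
theorem extremal_affine (hm : 2 ≤ m) {a b s : ℝ} (ha : 0 ≤ a) (hab : a ≤ b) (hb : b ≤ 1)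
    (hs : s ∈ Icc (0 : ℝ) 1) :
    extremal m ((1 - s) * a + s * b) ≤
      (1 - s) * extremal m a + s * extremal m b + (b - a) * extremal m s := by
  rcases hab.lt_or_eq with hlt | heq
  · have hm0 : (0 : ℝ) < m := by
      have : 0 < m := by omega
      exact_mod_cast this
    have hba : 0 < b - a := by linarith
    have hF := inClass_extremal hm
    have hmem : ∀ t ∈ Icc (0 : ℝ) 1, (1 - t) * a + t * b ∈ Icc (0 : ℝ) 1 := by
      intro t ht
      constructor
      · have h1 := mul_nonneg (sub_nonneg.2 ht.2) ha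
        have h2 := mul_nonneg ht.1 (ha.trans hab)
        linarith
      · have h1 : (1 - t) * a ≤ (1 - t) * b := mul_le_mul_of_nonneg_left hab (by linarith [ht.2])
        linarith
    have ha1 : a ∈ Icc (0 : ℝ) 1 := ⟨ha, by linarith⟩
    have hb1 : b ∈ Icc (0 : ℝ) 1 := ⟨by linarith, hb⟩
    set h : ℝ → ℝ := fun t => (extremal m ((1 - t) * a + t * b) - (1 - t) * extremal m a -
      t * extremal m b) / (b - a) with hh
    have hbd : BddAbove (h '' Icc 0 1) := by
      refine ⟨(m / (m - 1)) / (b - a), ?_⟩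
      rintro _ ⟨t, ht, rfl⟩
      refine div_le_div_of_nonneg_right ?_ hba.le
      have h1 := extremal_le hm (hmem t ht)
      have h2 := mul_nonneg (sub_nonneg.2 ht.2) (extremal_nonneg hm ha1)
      have h3 := mul_nonneg ht.1 (extremal_nonneg hm hb1)
      linarith
    have hcl : InClass m h := by
      refine ⟨max_le (le_of_eq ?_) (le_of_eq ?_), ?_⟩
      · simp [hh]
      · simp [hh]
      · intro x hx1 hx2 hx3
        have h1 := hF.2 (fun i => (1 - x i) * a + x i * b) ?_ ?_ ?_
        · have e1 : (∑ i ∈ Finset.Icc 1 m, ((1 - x i) * a + x i * b)) / (m : ℝ) =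
              (1 - (∑ i ∈ Finset.Icc 1 m, x i) / m) * a + (∑ i ∈ Finset.Icc 1 m, x i) / m * b := by
            rw [Finset.sum_add_distrib, ← Finset.sum_mul, ← Finset.sum_mul, Finset.sum_sub_distrib,
              Finset.sum_const, Nat.card_Icc, nsmul_eq_mul, Nat.add_sub_cancel, mul_one]
            field_simp
          have e2 : (∑ i ∈ Finset.Icc 1 m, h (x i)) / (m : ℝ) =
              ((∑ i ∈ Finset.Icc 1 m, extremal m ((1 - x i) * a + x i * b)) / m -
                (1 - (∑ i ∈ Finset.Icc 1 m, x i) / m) * extremal m a -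
                (∑ i ∈ Finset.Icc 1 m, x i) / m * extremal m b) / (b - a) := by
            rw [hh, ← Finset.sum_div, Finset.sum_sub_distrib, Finset.sum_sub_distrib,
              ← Finset.sum_mul, ← Finset.sum_mul, Finset.sum_sub_distrib,
              Finset.sum_const, Nat.card_Icc, nsmul_eq_mul, Nat.add_sub_cancel, mul_one]
            generalize (∑ i ∈ Finset.Icc 1 m, extremal m ((1 - x i) * a + x i * b)) = T
            field_simp
          rw [e2]
          show (extremal m ((1 - _) * a + _ * b) - (1 - _) * extremal m a - _ * extremal m b) /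
            (b - a) ≤ _
          rw [div_add' _ _ _ hba.ne']
          refine div_le_div_of_nonneg_right ?_ hba.le
          rw [e1] at h1
          have e3 : (1 - x m) * a + x m * b - ((1 - x 1) * a + x 1 * b) =
            (x m - x 1) * (b - a) := by ring
          rw [e3] at h1
          linarith
        · show 0 ≤ (1 - x 1) * a + x 1 * b
          have hmono : ∀ i j : ℕ, 1 ≤ i → i ≤ j → j ≤ m → x i ≤ x j := by
            intro i j hi hij
            induction j, hij using Nat.le_induction with
            | base => exact fun _ => le_rfl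
            | succ j hij ih =>
              intro hj
              exact (ih (by omega)).trans (hx2 j (by omega) (by omega))
          exact (hmem (x 1) ⟨hx1, (hmono 1 m le_rfl (by omega) le_rfl).trans hx3⟩).1
        · intro i hi1 hi2
          show (1 - x i) * a + x i * b ≤ (1 - x (i + 1)) * a + x (i + 1) * b
          have := mul_le_mul_of_nonneg_right (hx2 i hi1 hi2) hba.le
          linarith
        · show (1 - x m) * a + x m * b ≤ 1
          have := mul_le_mul_of_nonneg_right hx3 hba.le
          linarith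
    have h1 := hcl.le_extremal hm hbd hs
    rw [hh] at h1
    simp only at h1
    rw [div_le_iff₀ hba] at h1
    linarith
  · subst heq
    have e : (1 - s) * a + s * a = a := by ring
    rw [e, sub_self, zero_mul, add_zero]
    exact le_of_eq (by ring)

theorem extremal_mul (hm : 2 ≤ m) {x y : ℝ} (hx : x ∈ Icc (0 : ℝ) 1) (hy : y ∈ Icc (0 : ℝ) 1) :
    extremal m (x * y) ≤ x * extremal m y + y * extremal m x := by
  have h1 := extremal_affine hm le_rfl hy.1 hy.2 hx
  rw [extremal_zero hm] at h1
  simp only [mul_zero, zero_add, sub_zero] at h1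
  exact h1

end Pool.Agent.MP_56f843_an
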