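import Pool.Agent.MP_56f843_an.EndB

set_option autoImplicit false

/-!
# The growth of the extremal functions at the end points, III: the exact constant
-/

namespace Pool.Agent.MP_56f843_an

open Set Filter Topology

/-- `j` minimises `(m / i) / log (m / i)` over `1 ≤ i < m` -/
structure IsMin (m j : ℕ) : Prop where
  two_le : 2 ≤ m
  pos : 1 ≤ j
  lt : j < m
  min : ∀ i : ℕ, 1 ≤ i → i < m →
    ((m : ℝ) / j) / Real.log (m / j) ≤ ((m : ℝ) / i) / Real.log (m / i)

/-- the constant `c` -/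
noncomputable def cc (m j : ℕ) : ℝ := ((m : ℝ) / j) / Real.log (m / j)

/-- the period -/
noncomputable def LL (m j : ℕ) : ℝ := Real.log ((m : ℝ) / j)

theorem one_lt_div_of {m i : ℕ} (hi : 1 ≤ i) (him : i < m) : 1 < (m : ℝ) / i := by
  have h1 : (0 : ℝ) < i := by exact_mod_cast hi
  rw [one_lt_div h1]
  exact_mod_cast him

theorem log_div_pos {m i : ℕ} (hi : 1 ≤ i) (him : i < m) : 0 < Real.log ((m : ℝ) / i) :=
  Real.log_pos (one_lt_div_of hi him)

section
variable {m j : ℕ} (H : IsMin m j)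
include H

theorem IsMin.LL_pos : 0 < LL m j := log_div_pos H.pos H.lt

theorem IsMin.one_lt : 1 < (m : ℝ) / j := one_lt_div_of H.pos H.lt

theorem IsMin.cc_pos : 0 < cc m j := div_pos (one_pos.trans H.one_lt) H.LL_pos

theorem IsMin.cc_LL : cc m j * LL m j = m / j := by
  unfold cc LL
  exact div_mul_cancel₀ _ H.LL_pos.ne'

theorem IsMin.m_pos : (0 : ℝ) < m := by
  have := H.two_le
  have h : 0 < m := by omega
  exact_mod_cast h

theorem IsMin.j_pos : (0 : ℝ) < j := by exact_mod_cast H.pos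

theorem IsMin.min' (i : ℕ) (hi : 1 ≤ i) (him : i < m) :
    cc m j * ((i / m : ℝ) * Real.log (m / i)) ≤ 1 := by
  have h1 := H.min i hi him
  have h2 := log_div_pos hi him
  have hi0 : (0 : ℝ) < i := by exact_mod_cast hi
  have hm0 := H.m_pos
  rw [le_div_iff₀ h2] at h1
  have h3 := mul_le_mul_of_nonneg_left h1 (by positivity : (0 : ℝ) ≤ i / m)
  have h4 : (i / m : ℝ) * (m / i) = 1 := by field_simp
  rw [h4] at h3
  calc cc m j * ((i / m : ℝ) * Real.log (m / i)) = (i / m : ℝ) * (cc m j * Real.log (m / i)) := by ring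
    _ ≤ 1 := h3

end

/-- `exp t * F (exp (-t))` -/
noncomputable def gg (m : ℕ) (t : ℝ) : ℝ := Real.exp t * extremal m (Real.exp (-t))

/-- `exp t * F (exp (-t)) - c t` -/
noncomputable def GG (m j : ℕ) (t : ℝ) : ℝ := gg m t - cc m j * t

theorem exp_neg_mem {t : ℝ} (ht : 0 ≤ t) : Real.exp (-t) ∈ Icc (0 : ℝ) 1 :=
  ⟨(Real.exp_pos _).le, Real.exp_le_one_iff.2 (by linarith)⟩

theorem gg_add {m : ℕ} (hm : 2 ≤ m) {s t : ℝ} (hs : 0 ≤ s) (ht : 0 ≤ t) :
    gg m (s + t) ≤ gg m s + gg m t := by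
  have h1 := extremal_mul hm (exp_neg_mem hs) (exp_neg_mem ht)
  have h2 := mul_le_mul_of_nonneg_left h1 (Real.exp_pos (s + t)).le
  have e1 : Real.exp (-(s + t)) = Real.exp (-s) * Real.exp (-t) := by
    rw [← Real.exp_add]
    congr 1
    ring
  have e2 : Real.exp (s + t) * Real.exp (-s) = Real.exp t := by
    rw [← Real.exp_add]
    congr 1
    ring
  have e3 : Real.exp (s + t) * Real.exp (-t) = Real.exp s := by
    rw [← Real.exp_add]
    congr 1
    ring
  unfold gg
  rw [e1]
  refine h2.trans (le_of_eq ?_)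
  rw [mul_add, ← mul_assoc, ← mul_assoc, e2, e3]
  ring

theorem InClass.pow_le {m j : ℕ} {f : ℝ → ℝ} (hf : InClass m f) (hj : 1 ≤ j) (hjm : j < m) (k : ℕ) :
    f ((j / m : ℝ) ^ k) ≤ k * (j / m : ℝ) ^ (k - 1) := by
  have hm0 : (0 : ℝ) < m := by
    have : 0 < m := by omega
    exact_mod_cast this
  have hj0 : (0 : ℝ) < j := by exact_mod_cast hj
  have hr : (0 : ℝ) < j / m := by positivity
  have hr1 : (j / m : ℝ) ≤ 1 := by
    rw [div_le_one hm0]
    exact_mod_cast hjm.le
  induction k with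
  | zero =>
    rw [pow_zero, Nat.cast_zero, zero_mul]
    exact hf.one_le
  | succ k ih =>
    have h1 := hf.tuple hjm (y := 0) (v := (j / m : ℝ) ^ k) le_rfl (by positivity)
      (pow_le_one₀ hr.le hr1)
    have e1 : (0 + (j : ℝ) * (j / m : ℝ) ^ k) / m = (j / m : ℝ) ^ (k + 1) := by
      rw [pow_succ]
      ring
    rw [e1] at h1
    refine h1.trans ?_
    rw [Nat.add_sub_cancel]
    have h2 : (f 0 + j * f ((j / m : ℝ) ^ k)) / m ≤ (j / m : ℝ) * (k * (j / m : ℝ) ^ (k - 1)) := by
      have h3 : (j : ℝ) * f ((j / m : ℝ) ^ k) ≤ j * (k * (j / m : ℝ) ^ (k - 1)) :=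
        mul_le_mul_of_nonneg_left ih hj0.le
      have h4 : (j / m : ℝ) * (k * (j / m : ℝ) ^ (k - 1)) = (j * (k * (j / m : ℝ) ^ (k - 1))) / m := by
        ring
      rw [h4]
      exact div_le_div_of_nonneg_right (by linarith [hf.zero_le]) hm0.le
    have h5 : (j / m : ℝ) * (k * (j / m : ℝ) ^ (k - 1)) = k * (j / m : ℝ) ^ k := by
      rcases Nat.eq_zero_or_pos k with rfl | hk
      · simp
      · obtain ⟨n, rfl⟩ : ∃ n, k = n + 1 := ⟨k - 1, by omega⟩
        rw [Nat.add_sub_cancel, pow_succ]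
        ring
    rw [h5] at h2
    push_cast
    linarith

theorem osc_exp (c δ κ t : ℝ) : osc c δ κ (Real.exp (-t)) =
    Real.exp (-t) * (c * t + δ * (1 - Real.cos (κ * t))) := by
  unfold osc
  rw [Real.log_exp, neg_neg, mul_neg, Real.cos_neg]

section
variable {m j : ℕ} (H : IsMin m j)
include H

theorem IsMin.osc_le {δ κ : ℝ} (h : InClass m (osc (cc m j) δ κ)) {t : ℝ} (ht : 0 ≤ t) :
    δ * (1 - Real.cos (κ * t)) ≤ GG m j t := by
  have h1 := h.le_extremal H.two_le
    (isCompact_Icc.image (continuous_osc _ _ _)).bddAbove (exp_neg_mem ht)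
  rw [osc_exp] at h1
  have h2 := mul_le_mul_of_nonneg_left h1 (Real.exp_pos t).le
  rw [← mul_assoc, ← Real.exp_add, add_neg_cancel, Real.exp_zero, one_mul] at h2
  unfold GG gg
  linarith

theorem IsMin.inClass0 : InClass m (osc (cc m j) 0 0) := by
  refine inClass_osc H.two_le le_rfl le_rfl ?_ ?_ H.min' fun i _ _ => Or.inl rfl
  · rw [zero_mul, mul_zero]
    exact H.cc_pos.le
  · rw [zero_mul]
    exact H.cc_pos.le

theorem IsMin.nonneg {t : ℝ} (ht : 0 ≤ t) : 0 ≤ GG m j t := by
  have h1 := H.osc_le H.inClass0 ht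
  rwa [zero_mul] at h1

theorem IsMin.add {s t : ℝ} (hs : 0 ≤ s) (ht : 0 ≤ t) : GG m j (s + t) ≤ GG m j s + GG m j t := by
  have h1 := gg_add H.two_le hs ht
  unfold GG
  linarith

theorem IsMin.exp_mul (k : ℕ) : Real.exp (k * LL m j) = ((m : ℝ) / j) ^ k := by
  rw [mul_comm, Real.exp_mul, LL, Real.exp_log (one_pos.trans H.one_lt), Real.rpow_natCast]

theorem IsMin.exp_neg_mul (k : ℕ) : Real.exp (-(k * LL m j)) = ((j : ℝ) / m) ^ k := by
  rw [Real.exp_neg, H.exp_mul, ← inv_pow, inv_div]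

theorem IsMin.zero_at (k : ℕ) : GG m j (k * LL m j) = 0 := by
  refine le_antisymm ?_ (H.nonneg (mul_nonneg (Nat.cast_nonneg k) H.LL_pos.le))
  have h1 := (inClass_extremal H.two_le).pow_le H.pos H.lt k
  have h2 := mul_le_mul_of_nonneg_left h1 (Real.exp_pos (k * LL m j)).le
  have h3 : Real.exp (k * LL m j) * (k * (j / m : ℝ) ^ (k - 1)) = k * (m / j) := by
    rw [H.exp_mul]
    rcases Nat.eq_zero_or_pos k with rfl | hk
    · simp
    · obtain ⟨n, rfl⟩ : ∃ n, k = n + 1 := ⟨k - 1, by omega⟩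
      have e : ((m : ℝ) / j) ^ n * (j / m : ℝ) ^ n = 1 := by
        rw [← mul_pow, div_mul_div_cancel₀ H.j_pos.ne', div_self H.m_pos.ne', one_pow]
      rw [Nat.add_sub_cancel, pow_succ]
      linear_combination ((n + 1 : ℕ) : ℝ) * (m / j : ℝ) * e
  unfold GG gg
  rw [H.exp_neg_mul]
  rw [h3] at h2
  have h4 : cc m j * (k * LL m j) = k * (m / j) := by
    rw [← H.cc_LL]
    ring
  linarith

theorem IsMin.shift {t : ℝ} (ht : 0 ≤ t) (k : ℕ) : GG m j (t + k * LL m j) ≤ GG m j t := by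
  have h1 := H.add ht (mul_nonneg (Nat.cast_nonneg k) H.LL_pos.le)
  rwa [H.zero_at, add_zero] at h1

theorem IsMin.le {t : ℝ} (ht : 0 ≤ t) : GG m j t ≤ m / (m - 1) * (m / j) := by
  have hL := H.LL_pos
  set k := ⌊t / LL m j⌋₊ with hk
  have h1 : (k : ℝ) ≤ t / LL m j := Nat.floor_le (by positivity)
  have h2 : t / LL m j < k + 1 := Nat.lt_floor_add_one _
  rw [le_div_iff₀ hL] at h1
  rw [div_lt_iff₀ hL] at h2
  have hu : 0 ≤ t - k * LL m j := by linarith
  have h3 := H.shift hu k
  rw [sub_add_cancel] at h3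
  refine h3.trans ?_
  have h4 : GG m j (t - k * LL m j) ≤ gg m (t - k * LL m j) := by
    unfold GG
    have := mul_nonneg H.cc_pos.le hu
    linarith
  refine h4.trans ?_
  unfold gg
  rw [mul_comm]
  have h5 : Real.exp (t - k * LL m j) ≤ m / j := by
    have h6 : Real.exp (t - k * LL m j) ≤ Real.exp (LL m j) := Real.exp_le_exp.2 (by linarith)
    rwa [LL, Real.exp_log (one_pos.trans H.one_lt)] at h6
  have h7 := extremal_le H.two_le (exp_neg_mem hu)
  have hm1 : (0 : ℝ) < m - 1 := by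
    have : (2 : ℝ) ≤ m := by exact_mod_cast H.two_le
    linarith
  have hm0 := H.m_pos
  exact mul_le_mul h7 h5 (Real.exp_pos _).le (by positivity)

end

/-- the constant `C` -/
noncomputable def CC (m j : ℕ) : ℝ := m / (m - 1) * (m / j)

/-- `C x - c x log x` -/
noncomputable def hh (m j : ℕ) (x : ℝ) : ℝ := CC m j * x - cc m j * (x * Real.log x)

theorem continuous_hh (m j : ℕ) : Continuous (hh m j) :=
  (continuous_const.mul continuous_id).sub (continuous_const.mul Real.continuous_mul_log)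

theorem hh_zero (m j : ℕ) : hh m j 0 = 0 := by
  unfold hh
  simp

section
variable {m j : ℕ} (H : IsMin m j)
include H

theorem IsMin.extremal_le_hh {x : ℝ} (hx : x ∈ Icc (0 : ℝ) 1) : extremal m x ≤ hh m j x := by
  rcases hx.1.lt_or_eq with h | h
  · have ht : 0 ≤ -Real.log x := by
      have := Real.log_nonpos hx.1 hx.2
      linarith
    have h1 := H.le ht
    unfold GG gg at h1
    rw [neg_neg, Real.exp_neg, Real.exp_log h, inv_mul_eq_div] at h1
    have h2 : extremal m x / x ≤ CC m j - cc m j * Real.log x := by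
      unfold CC
      linarith
    rw [div_le_iff₀ h] at h2
    unfold hh
    refine h2.trans (le_of_eq ?_)
    ring
  · rw [← h, extremal_zero H.two_le, hh_zero]

theorem IsMin.CC_pos : 0 < CC m j := by
  have hm1 : (0 : ℝ) < m - 1 := by
    have : (2 : ℝ) ≤ m := by exact_mod_cast H.two_le
    linarith
  have hm0 := H.m_pos
  have hj0 := H.j_pos
  unfold CC
  positivity

theorem IsMin.upper {t h : ℝ} (ht : 0 ≤ t) (hh0 : 0 ≤ h) :
    GG m j (t + h) ≤ GG m j t + Real.exp h * hh m j (1 - Real.exp (-h)) := by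
  refine (H.add ht hh0).trans ?_
  have h1 := exp_neg_mem hh0
  have h2 := extremal_symm H.two_le h1
  have h3 := H.extremal_le_hh (x := 1 - Real.exp (-h)) ⟨by linarith [h1.2], by linarith [h1.1]⟩
  have h4 : GG m j h ≤ Real.exp h * hh m j (1 - Real.exp (-h)) := by
    unfold GG gg
    rw [← h2]
    have h5 := mul_le_mul_of_nonneg_left h3 (Real.exp_pos h).le
    have h6 := mul_nonneg H.cc_pos.le hh0
    linarith
  linarith

theorem IsMin.lower {t h : ℝ} (ht : Real.log 2 ≤ t) (hh0 : 0 ≤ h) (hh1 : h ≤ Real.log 2) :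
    GG m j t ≤ GG m j (t + h) + (2 * (Real.exp h - 1) * CC m j + hh m j (Real.exp h - 1) +
      cc m j * h) := by
  have hl2 : 0 < Real.log 2 := Real.log_pos (by norm_num)
  obtain ⟨s, hs⟩ : ∃ s, s = Real.exp h - 1 := ⟨_, rfl⟩
  have hs0 : 0 ≤ s := by
    rw [hs]
    have := Real.one_le_exp hh0
    linarith
  have hs1 : s ≤ 1 := by
    rw [hs]
    have h1 := Real.exp_le_exp.2 hh1
    rw [Real.exp_log (by norm_num)] at h1
    linarith
  obtain ⟨y, hy⟩ : ∃ y, y = Real.exp (-(t + h)) := ⟨_, rfl⟩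
  have hy0 : 0 < y := by
    rw [hy]
    exact Real.exp_pos _
  have e2y : Real.exp (-(t + h - Real.log 2)) = 2 * y := by
    rw [hy, show -(t + h - Real.log 2) = Real.log 2 + -(t + h) by ring, Real.exp_add,
      Real.exp_log (by norm_num)]
  have hy2 : 2 * y ≤ 1 := by
    rw [← e2y]
    exact (exp_neg_mem (by linarith)).2
  have h1 := extremal_affine H.two_le hy0.le (by linarith : y ≤ 2 * y) hy2 ⟨hs0, hs1⟩
  have e1 : (1 - s) * y + s * (2 * y) = Real.exp (-t) := by
    have h2 : Real.exp (-t) = Real.exp h * Real.exp (-(t + h)) := by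
      rw [← Real.exp_add]
      congr 1
      ring
    rw [h2, ← hy, hs]
    ring
  rw [e1] at h1
  have h2 := mul_le_mul_of_nonneg_left h1 (Real.exp_pos (t + h)).le
  have e3 : Real.exp (t + h) * extremal m (Real.exp (-t)) = (1 + s) * gg m t := by
    rw [Real.exp_add, hs, gg]
    ring
  have e4 : Real.exp (t + h) * extremal m y = gg m (t + h) := by
    rw [hy, gg]
  have e5 : Real.exp (t + h) * extremal m (2 * y) = 2 * gg m (t + h - Real.log 2) := by
    rw [gg, e2y, Real.exp_sub, Real.exp_log (by norm_num)]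
    ring
  have e6 : Real.exp (t + h) * ((2 * y - y) * extremal m s) = extremal m s := by
    have h3 : Real.exp (t + h) * y = 1 := by
      rw [hy, ← Real.exp_add, add_neg_cancel, Real.exp_zero]
    have h4 : Real.exp (t + h) * ((2 * y - y) * extremal m s) =
      (Real.exp (t + h) * y) * extremal m s := by ring
    rw [h4, h3, one_mul]
  have e7 : Real.exp (t + h) * ((1 - s) * extremal m y + s * extremal m (2 * y) +
      (2 * y - y) * extremal m s) = (1 - s) * gg m (t + h) + s * (2 * gg m (t + h - Real.log 2)) +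
      extremal m s := by
    linear_combination (1 - s) * e4 + s * e5 + e6
  rw [e3, e7] at h2
  have g1 : gg m t = GG m j t + cc m j * t := by unfold GG; ring
  have g2 : gg m (t + h) = GG m j (t + h) + cc m j * (t + h) := by unfold GG; ring
  have g3 : gg m (t + h - Real.log 2) = GG m j (t + h - Real.log 2) +
    cc m j * (t + h - Real.log 2) := by unfold GG; ring
  rw [g1, g2, g3] at h2
  have k1 := H.nonneg (t := t + h) (by linarith)
  have k2 := H.le (t := t + h - Real.log 2) (by linarith)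
  have k3 := H.extremal_le_hh (x := s) ⟨hs0, hs1⟩
  have k4 := extremal_nonneg H.two_le (x := s) ⟨hs0, hs1⟩
  change _ ≤ CC m j at k2
  rw [← hs]
  have hc := H.cc_pos
  have hC := H.CC_pos
  have k5 : s * GG m j (t + h - Real.log 2) ≤ s * CC m j := mul_le_mul_of_nonneg_left k2 hs0
  have k6 : 0 ≤ s * GG m j (t + h) := mul_nonneg hs0 k1
  have k7 : 0 ≤ cc m j * (s * Real.log 2) := by positivity
  have k8 : (1 + s) * (GG m j t - GG m j (t + h) - cc m j * h) ≤ 2 * s * CC m j + hh m j s := by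
    nlinarith
  by_cases hX : GG m j t - GG m j (t + h) - cc m j * h ≤ 0
  · have : 0 ≤ 2 * s * CC m j + hh m j s := by
      have := mul_nonneg hs0 hC.le
      linarith
    linarith
  · push Not at hX
    have := mul_nonneg hs0 hX.le
    linarith

end

end Pool.Agent.MP_56f843_an
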