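import Pool.Agent.MP_56f843_an.EndC

set_option autoImplicit false

/-!
# The growth of the extremal functions at the end points, IV: the periodic term
-/

namespace Pool.Agent.MP_56f843_an

open Set Filter Topology

/-- the periodic term -/
noncomputable def PP (m j : ℕ) (t : ℝ) : ℝ := limUnder atTop fun k : ℕ => GG m j (t + k * LL m j)

section
variable {m j : ℕ} (H : IsMin m j)
include H

theorem IsMin.exists_nat (t T : ℝ) : ∃ n : ℕ, ∀ k : ℕ, n ≤ k → T ≤ t + k * LL m j := by
  obtain ⟨n, hn⟩ := exists_nat_ge ((T - t) / LL m j)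
  refine ⟨n, fun k hk => ?_⟩
  have hL := H.LL_pos
  rw [div_le_iff₀ hL] at hn
  have h1 : (n : ℝ) * LL m j ≤ k * LL m j :=
    mul_le_mul_of_nonneg_right (by exact_mod_cast hk) hL.le
  linarith

theorem IsMin.tendsto_PP (t : ℝ) :
    Tendsto (fun k : ℕ => GG m j (t + k * LL m j)) atTop (𝓝 (PP m j t)) := by
  refine tendsto_nhds_limUnder ?_
  obtain ⟨n, hn⟩ := H.exists_nat t 0
  have hanti : Antitone fun k : ℕ => GG m j (t + ((k + n : ℕ) : ℝ) * LL m j) := by
    refine antitone_nat_of_succ_le fun k => ?_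
    have h1 := H.shift (hn (k + n) (Nat.le_add_left _ _)) 1
    have e : t + ((k + n : ℕ) : ℝ) * LL m j + ((1 : ℕ) : ℝ) * LL m j =
        t + ((k + 1 + n : ℕ) : ℝ) * LL m j := by
      push_cast
      ring
    rwa [e] at h1
  have hbdd : BddBelow (range fun k : ℕ => GG m j (t + ((k + n : ℕ) : ℝ) * LL m j)) := by
    refine ⟨0, ?_⟩
    rintro _ ⟨k, rfl⟩
    exact H.nonneg (hn (k + n) (Nat.le_add_left _ _))
  have h2 := tendsto_atTop_ciInf hanti hbdd
  exact ⟨_, (tendsto_add_atTop_iff_nat (f := fun k : ℕ => GG m j (t + k * LL m j)) n).1 h2⟩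

theorem IsMin.PP_add (t : ℝ) : PP m j (t + LL m j) = PP m j t := by
  have h1 := H.tendsto_PP (t + LL m j)
  have h2 := (tendsto_add_atTop_iff_nat (f := fun k : ℕ => GG m j (t + k * LL m j)) 1).2
    (H.tendsto_PP t)
  refine tendsto_nhds_unique h1 ?_
  refine h2.congr fun k => ?_
  congr 1
  push_cast
  ring

theorem IsMin.PP_nonneg (t : ℝ) : 0 ≤ PP m j t := by
  obtain ⟨n, hn⟩ := H.exists_nat t 0
  refine ge_of_tendsto (H.tendsto_PP t) ?_
  filter_upwards [eventually_ge_atTop n] with k hk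
  exact H.nonneg (hn k hk)

theorem IsMin.PP_zero : PP m j 0 = 0 := by
  refine tendsto_nhds_unique (H.tendsto_PP 0) ?_
  refine tendsto_const_nhds.congr fun k => ?_
  rw [zero_add, H.zero_at]

theorem IsMin.PP_le {t : ℝ} (ht : 0 ≤ t) : PP m j t ≤ GG m j t := by
  refine le_of_tendsto (H.tendsto_PP t) ?_
  filter_upwards with k
  exact H.shift ht k

/-- the lower bound for the periodic term -/
theorem IsMin.le_PP {δ : ℝ} (h : InClass m (osc (cc m j) δ (2 * Real.pi / LL m j))) (t : ℝ) :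
    δ * (1 - Real.cos (2 * Real.pi / LL m j * t)) ≤ PP m j t := by
  obtain ⟨n, hn⟩ := H.exists_nat t 0
  refine ge_of_tendsto (H.tendsto_PP t) ?_
  filter_upwards [eventually_ge_atTop n] with k hk
  have h1 := H.osc_le h (hn k hk)
  have e : 2 * Real.pi / LL m j * (t + k * LL m j) =
      2 * Real.pi / LL m j * t + k * (2 * Real.pi) := by
    have := H.LL_pos.ne'
    field_simp
  rwa [e, Real.cos_add_nat_mul_two_pi] at h1

/-- equicontinuity -/
theorem IsMin.equi {ε : ℝ} (hε : 0 < ε) : ∃ δ : ℝ, 0 < δ ∧ ∀ t h : ℝ, Real.log 2 ≤ t → 0 ≤ h →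
    h ≤ δ → |GG m j (t + h) - GG m j t| ≤ ε := by
  have hl2 : 0 < Real.log 2 := Real.log_pos (by norm_num)
  have hch := continuous_hh m j
  have c1 : Continuous fun h : ℝ => Real.exp h * hh m j (1 - Real.exp (-h)) :=
    Real.continuous_exp.mul (hch.comp (continuous_const.sub (Real.continuous_exp.comp continuous_neg)))
  have c2 : Continuous fun h : ℝ => 2 * (Real.exp h - 1) * CC m j + hh m j (Real.exp h - 1) +
      cc m j * h :=
    (((continuous_const.mul (Real.continuous_exp.sub continuous_const)).mul continuous_const).add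
      (hch.comp (Real.continuous_exp.sub continuous_const))).add
      (continuous_const.mul continuous_id)
  have t1 : ∀ᶠ h in 𝓝 (0 : ℝ), Real.exp h * hh m j (1 - Real.exp (-h)) < ε := by
    refine (c1.tendsto 0).eventually_lt_const ?_
    simp only [neg_zero, Real.exp_zero, sub_self, hh_zero, mul_zero]
    exact hε
  have t2 : ∀ᶠ h in 𝓝 (0 : ℝ), 2 * (Real.exp h - 1) * CC m j + hh m j (Real.exp h - 1) +
      cc m j * h < ε := by
    refine (c2.tendsto 0).eventually_lt_const ?_
    simp only [Real.exp_zero, sub_self, hh_zero, mul_zero, zero_mul, add_zero]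
    exact hε
  obtain ⟨δ, hδ, hball⟩ := Metric.eventually_nhds_iff.1 (t1.and t2)
  refine ⟨(δ / 2) ⊓ (Real.log 2), lt_inf_iff.2 ⟨half_pos hδ, hl2⟩, fun t h ht hh0 hh1 => ?_⟩
  have h1 : h ≤ δ / 2 := hh1.trans inf_le_left
  have h2 : h ≤ Real.log 2 := hh1.trans inf_le_right
  obtain ⟨b1, b2⟩ := hball (y := h) (by
    rw [Real.dist_eq, sub_zero, abs_of_nonneg hh0]
    linarith)
  have u1 := H.upper (t := t) (by linarith) hh0
  have u2 := H.lower ht hh0 h2
  rw [abs_le]
  constructor <;> linarith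

theorem IsMin.continuousOn_GG : ContinuousOn (GG m j) (Ici (Real.log 2)) := by
  intro t ht
  rw [Metric.continuousWithinAt_iff]
  intro ε hε
  obtain ⟨δ, hδ, h⟩ := H.equi (half_pos hε)
  refine ⟨δ, hδ, fun {s} hs hst => ?_⟩
  rw [Real.dist_eq] at hst ⊢
  rw [abs_lt] at hst
  rcases le_total t s with hts | hts
  · have h1 := h t (s - t) ht (by linarith) (by linarith)
    rw [add_sub_cancel] at h1
    linarith
  · have h1 := h s (t - s) hs (by linarith) (by linarith)
    rw [add_sub_cancel, abs_sub_comm] at h1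
    linarith

theorem IsMin.continuous_PP : Continuous (PP m j) := by
  rw [Metric.continuous_iff]
  intro t ε hε
  obtain ⟨δ, hδ, h⟩ := H.equi (half_pos hε)
  have key : ∀ s d : ℝ, 0 ≤ d → d ≤ δ → |PP m j (s + d) - PP m j s| ≤ ε / 2 := by
    intro s d hd0 hd1
    have h1 := ((H.tendsto_PP (s + d)).sub (H.tendsto_PP s)).abs
    refine le_of_tendsto h1 ?_
    obtain ⟨n, hn⟩ := H.exists_nat s (Real.log 2)
    filter_upwards [eventually_ge_atTop n] with k hk
    have h2 := h (s + k * LL m j) d (hn k hk) hd0 hd1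
    have e : s + k * LL m j + d = s + d + k * LL m j := by ring
    rwa [e] at h2
  refine ⟨δ, hδ, fun s hst => ?_⟩
  rw [Real.dist_eq] at hst ⊢
  rw [abs_lt] at hst
  rcases le_total t s with hts | hts
  · have h1 := key t (s - t) (by linarith) (by linarith)
    rw [add_sub_cancel] at h1
    linarith
  · have h1 := key s (t - s) (by linarith) (by linarith)
    rw [add_sub_cancel, abs_sub_comm] at h1
    linarith

theorem IsMin.PP_add_nat (t : ℝ) (k : ℕ) : PP m j (t + k * LL m j) = PP m j t := by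
  induction k with
  | zero => simp
  | succ k ih =>
    have e : t + ((k + 1 : ℕ) : ℝ) * LL m j = t + k * LL m j + LL m j := by
      push_cast
      ring
    rw [e, H.PP_add, ih]

theorem IsMin.tendsto_GG_sub : Tendsto (fun t => GG m j t - PP m j t) atTop (𝓝 0) := by
  have hL := H.LL_pos
  have hl2 : 0 < Real.log 2 := Real.log_pos (by norm_num)
  have hU := Antitone.tendstoUniformlyOn_of_forall_tendsto
    (F := fun (k : ℕ) (t : ℝ) => GG m j (t + k * LL m j)) (f := PP m j)
    (s := Icc (Real.log 2) (Real.log 2 + LL m j)) isCompact_Icc (fun k => by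
      refine H.continuousOn_GG.comp (continuous_id.add continuous_const).continuousOn ?_
      intro t ht
      have := mul_nonneg (Nat.cast_nonneg (α := ℝ) k) hL.le
      show Real.log 2 ≤ t + k * LL m j
      linarith [ht.1]) (fun t ht => by
      refine antitone_nat_of_succ_le fun k => ?_
      have h0 : 0 ≤ t + k * LL m j := by
        have := mul_nonneg (Nat.cast_nonneg (α := ℝ) k) hL.le
        linarith [ht.1]
      have h1 := H.shift h0 1
      have e : t + k * LL m j + ((1 : ℕ) : ℝ) * LL m j = t + ((k + 1 : ℕ) : ℝ) * LL m j := by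
        push_cast
        ring
      rwa [e] at h1) H.continuous_PP.continuousOn (fun t _ => H.tendsto_PP t)
  rw [Metric.tendstoUniformlyOn_iff] at hU
  rw [Metric.tendsto_atTop]
  intro ε hε
  obtain ⟨K, hK⟩ := eventually_atTop.1 (hU ε hε)
  refine ⟨Real.log 2 + K * LL m j, fun t ht => ?_⟩
  have ht0 : 0 ≤ t - Real.log 2 := by
    have := mul_nonneg (Nat.cast_nonneg (α := ℝ) K) hL.le
    linarith
  set k := ⌊(t - Real.log 2) / LL m j⌋₊ with hk
  have h1 : (k : ℝ) ≤ (t - Real.log 2) / LL m j := Nat.floor_le (by positivity)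
  have h2 : (t - Real.log 2) / LL m j < k + 1 := Nat.lt_floor_add_one _
  have h3 : K ≤ k := by
    rw [hk]
    refine Nat.le_floor ?_
    rw [le_div_iff₀ hL]
    linarith
  rw [le_div_iff₀ hL] at h1
  rw [div_lt_iff₀ hL] at h2
  have h4 := hK k h3 (t - k * LL m j) ⟨by linarith, by linarith⟩
  rw [sub_add_cancel] at h4
  have h5 := H.PP_add_nat (t - k * LL m j) k
  rw [sub_add_cancel] at h5
  rw [h5, Real.dist_eq, sub_zero, ← Real.dist_eq, dist_comm]
  exact h4

omit H in
theorem GG_log {x : ℝ} (hx : 0 < x) :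
    GG m j (Real.log (1 / x)) = extremal m x / x - cc m j * Real.log (1 / x) := by
  unfold GG gg
  rw [Real.exp_log (by positivity), Real.exp_neg, Real.exp_log (by positivity)]
  rw [one_div, inv_inv, inv_mul_eq_div]

theorem IsMin.tendsto_final : Tendsto (fun x => extremal m x / x - cc m j * Real.log (1 / x) -
    PP m j (Real.log (1 / x))) (𝓝[>] 0) (𝓝 0) := by
  have h1 : Tendsto (fun x : ℝ => Real.log (1 / x)) (𝓝[>] 0) atTop := by
    simp only [one_div]
    exact Real.tendsto_log_atTop.comp tendsto_inv_nhdsGT_zero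
  refine (H.tendsto_GG_sub.comp h1).congr' ?_
  filter_upwards [self_mem_nhdsWithin] with x hx
  rw [Function.comp_apply, GG_log hx]

/-- small admissible perturbations -/
theorem IsMin.exists_osc (halt : ∀ i : ℕ, 1 ≤ i → i < m →
    (∃ n : ℤ, Real.log ((m : ℝ) / i) = n * LL m j) ∨
      ((m : ℝ) / j) / Real.log (m / j) < ((m : ℝ) / i) / Real.log (m / i)) :
    ∃ δ : ℝ, 0 < δ ∧ InClass m (osc (cc m j) δ (2 * Real.pi / LL m j)) := by
  obtain ⟨κ, hκ⟩ : ∃ κ, κ = 2 * Real.pi / LL m j := ⟨_, rfl⟩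
  have hL := H.LL_pos
  have hκ0 : 0 < κ := by
    rw [hκ]
    have := Real.pi_pos
    positivity
  have hc := H.cc_pos
  have hm0 := H.m_pos
  have hstrict : ∀ i : ℕ, 1 ≤ i → i < m →
      ((m : ℝ) / j) / Real.log (m / j) < ((m : ℝ) / i) / Real.log (m / i) →
      cc m j * ((i / m : ℝ) * Real.log (m / i)) < 1 := by
    intro i hi him h1
    have h2 := log_div_pos hi him
    have hi0 : (0 : ℝ) < i := by exact_mod_cast hi
    rw [lt_div_iff₀ h2] at h1
    have h3 := mul_lt_mul_of_pos_left h1 (by positivity : (0 : ℝ) < i / m)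
    have h4 : (i / m : ℝ) * (m / i) = 1 := by field_simp
    rw [h4] at h3
    calc cc m j * ((i / m : ℝ) * Real.log (m / i)) = (i / m : ℝ) * (cc m j * Real.log (m / i)) := by
          ring
      _ < 1 := h3
  have e1 : ∀ᶠ δ in 𝓝[>] (0 : ℝ), 3 * (δ * (κ + κ ^ 2)) ≤ cc m j := by
    have hcont : Continuous fun δ : ℝ => 3 * (δ * (κ + κ ^ 2)) := by fun_prop
    have := (hcont.tendsto 0).eventually_lt_const (u := cc m j) (by simpa using hc)
    exact (this.filter_mono nhdsWithin_le_nhds).mono fun _ h => h.le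
  have e2 : ∀ᶠ δ in 𝓝[>] (0 : ℝ), δ * (κ + κ ^ 3) ≤ cc m j := by
    have hcont : Continuous fun δ : ℝ => δ * (κ + κ ^ 3) := by fun_prop
    have := (hcont.tendsto 0).eventually_lt_const (u := cc m j) (by simpa using hc)
    exact (this.filter_mono nhdsWithin_le_nhds).mono fun _ h => h.le
  have e3 : ∀ᶠ δ in 𝓝[>] (0 : ℝ), ∀ i ∈ (Finset.Ico 1 m).filter
      (fun i : ℕ => ((m : ℝ) / j) / Real.log (m / j) < ((m : ℝ) / i) / Real.log (m / i)),
      cc m j * ((i / m : ℝ) * Real.log (m / i)) + 2 * δ ≤ 1 := by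
    rw [Filter.eventually_all_finset]
    intro i hi
    rw [Finset.mem_filter, Finset.mem_Ico] at hi
    have h1 := hstrict i hi.1.1 hi.1.2 hi.2
    have hcont : Continuous fun δ : ℝ => cc m j * ((i / m : ℝ) * Real.log (m / i)) + 2 * δ := by
      fun_prop
    have := (hcont.tendsto 0).eventually_lt_const (u := 1) (by simpa using h1)
    exact (this.filter_mono nhdsWithin_le_nhds).mono fun _ h => h.le
  have e4 : ∀ᶠ δ in 𝓝[>] (0 : ℝ), 0 < δ := self_mem_nhdsWithin
  obtain ⟨δ, h1, h2, h3, h4⟩ := (e1.and (e2.and (e3.and e4))).exists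
  refine ⟨δ, h4, ?_⟩
  rw [← hκ]
  refine inClass_osc H.two_le h4.le hκ0.le h1 h2 H.min' fun i hi him => ?_
  rcases halt i hi him with ⟨n, hn⟩ | hs
  · refine Or.inr (Or.inl ⟨n, ?_⟩)
    rw [hn, hκ]
    field_simp
  · exact Or.inr (Or.inr (h3 i (Finset.mem_filter.2 ⟨Finset.mem_Ico.2 ⟨hi, him⟩, hs⟩)))

theorem IsMin.PP_eq_zero (halt : ∀ i : ℕ, 1 ≤ i → i < m →
    (∃ n : ℤ, Real.log ((m : ℝ) / i) = n * LL m j) ∨
      ((m : ℝ) / j) / Real.log (m / j) < ((m : ℝ) / i) / Real.log (m / i)) {t : ℝ}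
    (ht : PP m j t = 0) : ∃ n : ℤ, t = n * Real.log (m / j) := by
  obtain ⟨δ, hδ, h⟩ := H.exists_osc halt
  have h1 := H.le_PP h t
  rw [ht] at h1
  have h2 := Real.cos_le_one (2 * Real.pi / LL m j * t)
  have h3 : Real.cos (2 * Real.pi / LL m j * t) = 1 := by
    by_contra hne
    have h4 : 0 < 1 - Real.cos (2 * Real.pi / LL m j * t) := by
      have := lt_of_le_of_ne h2 hne
      linarith
    have := mul_pos hδ h4
    linarith
  obtain ⟨n, hn⟩ := (Real.cos_eq_one_iff _).1 h3
  refine ⟨n, ?_⟩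
  have hL := H.LL_pos
  have hpi := Real.pi_pos
  change t = n * LL m j
  field_simp at hn
  linarith

end

end Pool.Agent.MP_56f843_an
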