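import Pool.Agent.MP_56f843_an.EndD

set_option autoImplicit false

/-!
# The growth of the extremal functions at the end points, V: ties
-/

namespace Pool.Agent.MP_56f843_an

open Set Filter Topology

theorem ratio_log_eq {m i : ℕ} (hm : 0 < m) (hi : 1 ≤ i) :
    (i / m : ℝ) * Real.log (m / i) = Real.negMulLog (i / m) := by
  have hm0 : (0 : ℝ) < m := by exact_mod_cast hm
  have hi0 : (0 : ℝ) < i := by exact_mod_cast hi
  rw [Real.negMulLog, ← inv_div (i : ℝ) m, Real.log_inv]
  ring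

theorem IsMin.negMulLog_eq {m j : ℕ} (H : IsMin m j) :
    cc m j * Real.negMulLog (j / m) = 1 := by
  have hm := H.m_pos
  have hj := H.j_pos
  have h2 := H.two_le
  rw [← ratio_log_eq (by omega) H.pos]
  have h1 := H.cc_LL
  rw [LL] at h1
  calc cc m j * ((j / m : ℝ) * Real.log (m / j)) = (j / m : ℝ) * (cc m j * Real.log (m / j)) := by
        ring
    _ = 1 := by rw [h1]; field_simp

theorem IsMin.negMulLog_le {m j i : ℕ} (H : IsMin m j) (hi : 1 ≤ i) (him : i < m) :
    Real.negMulLog (i / m) ≤ Real.negMulLog (j / m) := by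
  have h2 := H.two_le
  have h1 := H.min' i hi him
  rw [ratio_log_eq (by omega) hi, ← H.negMulLog_eq] at h1
  exact le_of_mul_le_mul_left h1 H.cc_pos

/-- Two different minimisers exist only for `m = 4`. -/
theorem IsMin.tie {m i j : ℕ} (Hi : IsMin m i) (Hj : IsMin m j) (hij : i < j) :
    m = 4 ∧ i = 1 ∧ j = 2 := by
  have hm := Hi.m_pos
  have hi := Hi.j_pos
  have hj := Hj.j_pos
  have heq : Real.negMulLog (i / m) = Real.negMulLog (j / m) :=
    le_antisymm (Hj.negMulLog_le Hi.pos Hi.lt) (Hi.negMulLog_le Hj.pos Hj.lt)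
  have hji : j = i + 1 := by
    by_contra hne
    have h1 : i + 1 < j := by omega
    have hij' : (i : ℝ) < j := by exact_mod_cast hij
    have hd : (0 : ℝ) < j - i := by linarith
    obtain ⟨-, hsc⟩ := Real.strictConcaveOn_negMulLog
    have hx : (i / m : ℝ) ∈ Ici (0 : ℝ) := by
      show (0 : ℝ) ≤ i / m
      positivity
    have hy : (j / m : ℝ) ∈ Ici (0 : ℝ) := by
      show (0 : ℝ) ≤ j / m
      positivity
    have hxy : (i / m : ℝ) ≠ j / m := by
      intro h
      rw [div_left_inj' hm.ne'] at h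
      linarith
    have ha : (0 : ℝ) < (j - i - 1) / (j - i) := by
      have : ((i + 1 : ℕ) : ℝ) < j := by exact_mod_cast h1
      push_cast at this
      apply div_pos <;> linarith
    have hb : (0 : ℝ) < 1 / (j - i) := by positivity
    have hab : ((j - i - 1) / (j - i) : ℝ) + 1 / (j - i) = 1 := by
      field_simp
      ring
    have h2 := hsc hx hy hxy ha hb hab
    have e : ((j - i - 1) / (j - i) : ℝ) • (i / m : ℝ) + (1 / (j - i) : ℝ) • (j / m : ℝ) =
        ((i + 1 : ℕ) : ℝ) / m := by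
      push_cast
      rw [smul_eq_mul, smul_eq_mul]
      field_simp
      ring
    rw [e, heq, smul_eq_mul, smul_eq_mul, ← add_mul] at h2
    rw [hab, one_mul] at h2
    have h3 := Hj.negMulLog_le (i := i + 1) (by omega) (h1.trans Hj.lt)
    linarith
  have h0 : (i : ℝ) * Real.log (m / i) = j * Real.log (m / j) := by
    have h2 := Hi.two_le
    rw [← ratio_log_eq (by omega) Hi.pos, ← ratio_log_eq (by omega) Hj.pos] at heq
    field_simp at heq
    exact heq
  have h1 : ((m : ℝ) / i) ^ i = ((m : ℝ) / j) ^ j := by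
    have a1 : (0 : ℝ) < (m / i) ^ i := by positivity
    have a2 : (0 : ℝ) < (m / j) ^ j := by positivity
    refine Real.log_injOn_pos a1 a2 ?_
    rw [Real.log_pow, Real.log_pow, h0]
  have h2 : (j : ℝ) ^ j = m * i ^ i := by
    rw [div_pow, div_pow, div_eq_div_iff (by positivity) (by positivity)] at h1
    have h3 : (m : ℝ) ^ i * j ^ j = m ^ i * (m * i ^ i) := by
      rw [h1, ← mul_assoc, ← pow_succ, hji]
    exact mul_left_cancel₀ (by positivity) h3
  have h3 : j ^ j = m * i ^ i := by exact_mod_cast h2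
  have h4 : i ^ i ∣ j ^ j := ⟨m, by rw [h3, mul_comm]⟩
  have hc : Nat.Coprime (i ^ i) (j ^ j) := by
    rw [hji]
    exact Nat.Coprime.pow _ _ (by simp)
  have h5 : i ^ i = 1 := Nat.eq_one_of_dvd_coprimes hc dvd_rfl h4
  have h6 : i = 1 := by
    rcases (Nat.pow_eq_one).1 h5 with h | h
    · exact h
    · have := Hi.pos
      omega
  subst h6
  subst hji
  norm_num at h3
  exact ⟨h3.symm, rfl, rfl⟩

/-- `j` is the largest minimiser -/
structure IsLast (m j : ℕ) : Prop extends IsMin m j where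
  last : ∀ i : ℕ, j < i → i < m →
    ((m : ℝ) / j) / Real.log (m / j) < ((m : ℝ) / i) / Real.log (m / i)

theorem IsLast.alt {m j : ℕ} (H : IsLast m j) {i : ℕ} (hi : 1 ≤ i) (him : i < m) :
    (∃ n : ℤ, Real.log ((m : ℝ) / i) = n * LL m j) ∨
      ((m : ℝ) / j) / Real.log (m / j) < ((m : ℝ) / i) / Real.log (m / i) := by
  rcases lt_trichotomy i j with hij | hij | hij
  · rcases (H.min i hi him).lt_or_eq with h | h
    · exact Or.inr h
    · left
      have Hi : IsMin m i := ⟨H.two_le, hi, him, fun k hk hkm => h.symm.le.trans (H.min k hk hkm)⟩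
      obtain ⟨rfl, rfl, rfl⟩ := Hi.tie H.toIsMin hij
      refine ⟨2, ?_⟩
      have e : (((4 : ℕ) : ℝ) / (1 : ℕ)) = (((4 : ℕ) : ℝ) / (2 : ℕ)) ^ 2 := by norm_num
      rw [LL, e, Real.log_pow]
      norm_num
  · left
    refine ⟨1, ?_⟩
    rw [hij, LL]
    norm_num
  · exact Or.inr (H.last i hij him)

theorem IsMin.PP_add_int {m j : ℕ} (H : IsMin m j) (t : ℝ) (n : ℤ) :
    PP m j (t + n * LL m j) = PP m j t := by
  obtain ⟨k, rfl | rfl⟩ := n.eq_nat_or_neg
  · rw [Int.cast_natCast, H.PP_add_nat]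
  · have h := H.PP_add_nat (t + ((-(k : ℤ) : ℤ) : ℝ) * LL m j) k
    rw [← h]
    congr 1
    push_cast
    ring

/-- the zeros of the periodic term -/
theorem IsLast.PP_eq_zero_iff {m j : ℕ} (H : IsLast m j) (t : ℝ) :
    PP m j t = 0 ↔ ∃ n : ℤ, t = n * Real.log (m / j) := by
  constructor
  · exact fun ht => H.PP_eq_zero (fun i hi him => H.alt hi him) ht
  · rintro ⟨n, rfl⟩
    have h := H.PP_add_int 0 n
    rwa [zero_add, H.PP_zero] at h

theorem IsMin.bounds {m j : ℕ} (H : IsMin m j) {x : ℝ} (hx : x ∈ Ioc (0 : ℝ) 1) :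
    cc m j * (x * Real.log (1 / x)) ≤ extremal m x ∧
      extremal m x ≤ cc m j * (x * Real.log (1 / x)) + CC m j * x := by
  have h1 := H.extremal_le_hh (x := x) ⟨hx.1.le, hx.2⟩
  have ht : 0 ≤ -Real.log x := by
    have := Real.log_nonpos hx.1.le hx.2
    linarith
  have h2 := H.nonneg ht
  unfold GG gg at h2
  rw [neg_neg, Real.exp_neg, Real.exp_log hx.1, inv_mul_eq_div] at h2
  rw [one_div, Real.log_inv]
  constructor
  · have h3 : cc m j * -Real.log x ≤ extremal m x / x := by linarith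
    rw [le_div_iff₀ hx.1] at h3
    linarith
  · unfold hh at h1
    linarith

theorem IsMin.value {m j : ℕ} (H : IsMin m j) (k : ℕ) :
    extremal m ((j / m : ℝ) ^ k) = k * (j / m : ℝ) ^ (k - 1) := by
  have h1 := H.zero_at k
  unfold GG gg at h1
  rw [H.exp_neg_mul, H.exp_mul] at h1
  have h4 : cc m j * (k * LL m j) = k * (m / j) := by
    rw [← H.cc_LL]
    ring
  rw [h4] at h1
  have hm := H.m_pos
  have hj := H.j_pos
  have h2 : ((m : ℝ) / j) ^ k * extremal m ((j / m : ℝ) ^ k) = k * (m / j) := by linarith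
  rcases Nat.eq_zero_or_pos k with rfl | hk
  · simpa using h2
  · obtain ⟨n, rfl⟩ : ∃ n, k = n + 1 := ⟨k - 1, by omega⟩
    rw [Nat.add_sub_cancel]
    have e : ((m : ℝ) / j) ^ n * (j / m : ℝ) ^ n = 1 := by
      rw [← mul_pow, div_mul_div_cancel₀ hj.ne', div_self hm.ne', one_pow]
    have h5 : ((m : ℝ) / j) ^ (n + 1) * extremal m ((j / m : ℝ) ^ (n + 1)) =
        ((m : ℝ) / j) ^ (n + 1) * (((n + 1 : ℕ) : ℝ) * (j / m : ℝ) ^ n) := by
      rw [h2, pow_succ]
      linear_combination -(((n + 1 : ℕ) : ℝ) * (m / j)) * e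
    exact mul_left_cancel₀ (by positivity) h5

end Pool.Agent.MP_56f843_an
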