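import Pool.Agent.MP_56f843_an.FiveBase
import Pool.Agent.MP_56f843_an.DefsFive

set_option autoImplicit false

namespace Pool.Agent.MP_56f843_an

open Filter Topology

/-- The operator for `m = 5`. -/
noncomputable def phi (f : ℝ → ℝ) (x : ℝ) : ℝ :=
  min 1 (5 / 2 * distInt x) + weightFive x * f (stepFive x)

theorem distInt_neg (x : ℝ) : distInt (-x) = distInt x := by
  have h : ∀ y : ℝ, distInt (-y) ≤ distInt y := by
    intro y
    have := distInt_le (-y) (-round y)
    have e : |(-y) - ((-round y : ℤ) : ℝ)| = distInt y := by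
      unfold distInt
      rw [← abs_neg]
      congr 1
      push_cast
      ring
    rw [e] at this
    exact this
  apply le_antisymm (h x)
  have := h (-x)
  rw [neg_neg] at this
  exact this

theorem stepFive_congr {x y : ℝ} (h : distInt x = distInt y) : stepFive x = stepFive y := by
  unfold stepFive
  rw [h]

theorem weightFive_congr {x y : ℝ} (h : distInt x = distInt y) : weightFive x = weightFive y := by
  unfold weightFive
  rw [h]

theorem phi_congr (f : ℝ → ℝ) {x y : ℝ} (h : distInt x = distInt y) : phi f x = phi f y := by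
  unfold phi
  rw [stepFive_congr h, weightFive_congr h, h]

theorem distInt_add_one (x : ℝ) : distInt (x + 1) = distInt x := by
  have := distInt_add_int x 1
  rw [Int.cast_one] at this
  exact this

theorem phi_left (f : ℝ → ℝ) {x : ℝ} (h : distInt x ≤ 2 / 5) :
    phi f x = 5 / 2 * distInt x + 2 / 5 * f (5 / 2 * distInt x) := by
  unfold phi weightFive stepFive
  rw [if_pos h, if_pos h, min_eq_right (by linarith)]

theorem phi_mid (f : ℝ → ℝ) {x : ℝ} (h : 2 / 5 < distInt x) :
    phi f x = 1 + 1 / 5 * f (5 * distInt x - 2) := by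
  unfold phi weightFive stepFive
  rw [if_neg (by linarith), if_neg (by linarith), min_eq_left (by linarith)]

theorem Good.rel_phi {f : ℝ → ℝ} (h : Good f) : Rel f (phi f) := by
  have hL : ∀ (x : ℝ) (n : ℤ), |x - n| ≤ 2 / 5 →
      phi f x = 5 / 2 * |x - n| + 2 / 5 * f (5 / 2 * (x - n)) := by
    intro x n hn
    have h1 : distInt x = |x - n| := distInt_eq x n (by linarith)
    rw [phi_left f (by rw [h1]; exact hn), h1, ← h.abs (5 / 2 * (x - n)), abs_mul,
      abs_of_pos (by norm_num : (0 : ℝ) < 5 / 2)]
  have hM : ∀ x : ℝ, 2 / 5 < distInt x → phi f x = 1 + 1 / 5 * f (5 * x) := by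
    intro x hx
    rw [phi_mid f hx]
    have h1 : f (5 * distInt x - 2) = f (5 * x) := by
      have h2 := h.add_int (5 * distInt x - 2) 2
      have e1 : 5 * distInt x - 2 + ((2 : ℤ) : ℝ) = 5 * distInt x := by push_cast; ring
      rw [e1] at h2
      rw [← h2]
      have e2 : 5 * distInt x = |5 * (x - round x)| := by
        rw [abs_mul, abs_of_pos (by norm_num : (0 : ℝ) < 5)]
        rfl
      rw [e2, h.abs]
      have h3 := h.add_int (5 * (x - round x)) (5 * round x)
      rw [← h3]
      congr 1
      push_cast
      ring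
    rw [h1]
  have hmid : ∀ x : ℝ, phi f x ≤ 1 + 1 / 5 * f (5 * x) := by
    intro x
    rcases le_or_gt (distInt x) (2 / 5) with hx | hx
    · have h1 := hL x (round x) hx
      rw [h1]
      have h2 := h.key (5 / 2 * |x - round x|)
      have h3 : |x - round x| ≤ 2 / 5 := hx
      rw [abs_of_nonneg (by linarith : 0 ≤ 1 - 5 / 2 * |x - round x|)] at h2
      have h4 : f (5 / 2 * |x - round x|) = f (5 / 2 * (x - round x)) := by
        rw [← h.abs (5 / 2 * (x - round x)), abs_mul, abs_of_pos (by norm_num : (0 : ℝ) < 5 / 2)]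
      have h5 : f (2 * (5 / 2 * |x - round x|)) = f (5 * x) := by
        have e1 : 2 * (5 / 2 * |x - round x|) = |5 * (x - round x)| := by
          rw [abs_mul, abs_of_pos (by norm_num : (0 : ℝ) < 5)]
          ring
        rw [e1, h.abs]
        have h3 := h.add_int (5 * (x - round x)) (5 * round x)
        rw [← h3]
        congr 1
        push_cast
        ring
      rw [h4, h5] at h2
      linarith
    · rw [hM x hx]
  refine ⟨?_, ?_, ?_, hmid, ?_⟩
  · intro x
    exact phi_congr f (distInt_neg x)
  · intro x
    exact phi_congr f (distInt_add_one x)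
  · intro x n
    rcases le_total |x - n| (2 / 5) with hn | hn
    · exact (hL x n hn).le
    · have h1 := hmid x
      have h2 := h.two_mul (5 / 2 * (x - n))
      have e1 : 2 * (5 / 2 * (x - n)) = 5 * (x - n) := by ring
      rw [e1] at h2
      have h3 := h.add_int (5 * (x - n)) (5 * n)
      have e2 : 5 * (x - n) + ((5 * n : ℤ) : ℝ) = 5 * x := by push_cast; ring
      rw [e2] at h3
      linarith
  · intro x
    rcases le_or_gt (distInt x) (2 / 5) with hx | hx
    · exact Or.inl ⟨round x, hx, hL x _ hx⟩
    · exact Or.inr ⟨fun n => hx.le.trans (distInt_le x n), hM x hx⟩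

/-- The partial sums. -/
noncomputable def partFive (n : ℕ) (x : ℝ) : ℝ :=
  ∑ k ∈ Finset.range n, (∏ j ∈ Finset.range k, weightFive (stepFive^[j] x)) *
    min 1 (5 / 2 * distInt (stepFive^[k] x))

theorem term_succ (k : ℕ) (x : ℝ) :
    (∏ j ∈ Finset.range (k + 1), weightFive (stepFive^[j] x)) *
      min 1 (5 / 2 * distInt (stepFive^[k + 1] x)) =
    weightFive x * ((∏ j ∈ Finset.range k, weightFive (stepFive^[j] (stepFive x))) *
      min 1 (5 / 2 * distInt (stepFive^[k] (stepFive x)))) := by
  rw [Finset.prod_range_succ', Function.iterate_succ_apply, Function.iterate_zero_apply]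
  have : ∀ j ∈ Finset.range k, weightFive (stepFive^[j + 1] x) =
      weightFive (stepFive^[j] (stepFive x)) := by
    intro j _
    rw [Function.iterate_succ_apply]
  rw [Finset.prod_congr rfl this]
  ring

theorem partFive_succ (n : ℕ) : partFive (n + 1) = phi (partFive n) := by
  funext x
  unfold partFive phi
  rw [Finset.sum_range_succ', Finset.sum_congr rfl (fun k _ => term_succ k x), ← Finset.mul_sum]
  simp only [Finset.range_zero, Finset.prod_empty, one_mul, Function.iterate_zero_apply]
  rw [add_comm]

theorem good_partFive (n : ℕ) : Good (partFive n) := by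
  induction n with
  | zero =>
    have : partFive 0 = fun _ => 0 := by
      funext x
      simp [partFive]
    rw [this]
    exact Good.zeroFn
  | succ n ih =>
    rw [partFive_succ]
    exact ih.map ih.rel_phi

theorem weightFive_nonneg (x : ℝ) : 0 ≤ weightFive x := by
  unfold weightFive
  split_ifs <;> norm_num

theorem weightFive_le (x : ℝ) : weightFive x ≤ 2 / 5 := by
  unfold weightFive
  split_ifs <;> norm_num

theorem termFive_bound (x : ℝ) (k : ℕ) :
    ‖(∏ j ∈ Finset.range k, weightFive (stepFive^[j] x)) *
      min 1 (5 / 2 * distInt (stepFive^[k] x))‖ ≤ (2 / 5) ^ k := by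
  have h1 : 0 ≤ ∏ j ∈ Finset.range k, weightFive (stepFive^[j] x) :=
    Finset.prod_nonneg fun _ _ => weightFive_nonneg _
  have h2 : ∏ j ∈ Finset.range k, weightFive (stepFive^[j] x) ≤ (2 / 5) ^ k := by
    calc ∏ j ∈ Finset.range k, weightFive (stepFive^[j] x)
        ≤ ∏ _j ∈ Finset.range k, (2 / 5 : ℝ) :=
          Finset.prod_le_prod (fun _ _ => weightFive_nonneg _) fun _ _ => weightFive_le _
      _ = (2 / 5) ^ k := by rw [Finset.prod_const, Finset.card_range]
  have h3 : 0 ≤ min 1 (5 / 2 * distInt (stepFive^[k] x)) :=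
    le_min zero_le_one (mul_nonneg (by norm_num) (distInt_nonneg _))
  have h4 : min 1 (5 / 2 * distInt (stepFive^[k] x)) ≤ 1 := min_le_left _ _
  rw [Real.norm_of_nonneg (mul_nonneg h1 h3)]
  calc _ ≤ (2 / 5 : ℝ) ^ k * 1 := mul_le_mul h2 h4 h3 (by positivity)
    _ = (2 / 5) ^ k := mul_one _

theorem summable_boundFive : Summable fun k : ℕ => (2 / 5 : ℝ) ^ k :=
  summable_geometric_of_lt_one (by norm_num) (by norm_num)

theorem summable_seriesFive (x : ℝ) :
    Summable fun k : ℕ => (∏ j ∈ Finset.range k, weightFive (stepFive^[j] x)) *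
      min 1 (5 / 2 * distInt (stepFive^[k] x)) :=
  Summable.of_norm_bounded summable_boundFive (termFive_bound x)

theorem tendsto_partFive (x : ℝ) :
    Tendsto (fun n => partFive n x) atTop (𝓝 (seriesFive x)) :=
  (summable_seriesFive x).hasSum.tendsto_sum_nat

theorem good_seriesFive : Good seriesFive := Good.limit good_partFive tendsto_partFive

theorem seriesFive_eq : phi seriesFive = seriesFive := by
  funext x
  have h1 : Tendsto (fun n => partFive (n + 1) x) atTop (𝓝 (seriesFive x)) :=
    (tendsto_partFive x).comp (tendsto_add_atTop_nat 1)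
  have h2 : (fun n => partFive (n + 1) x) =
      fun n => min 1 (5 / 2 * distInt x) + weightFive x * partFive n (stepFive x) := by
    funext n
    rw [partFive_succ]
    rfl
  rw [h2] at h1
  exact tendsto_nhds_unique (((tendsto_partFive (stepFive x)).const_mul _).const_add _) h1

theorem rel_seriesFive : Rel seriesFive seriesFive := by
  have := good_seriesFive.rel_phi
  rw [seriesFive_eq] at this
  exact this

end Pool.Agent.MP_56f843_an
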