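import Pool.Agent.MP_56f843_an.FiveStep
import Pool.Agent.MP_56f843_an.FiveSeries

set_option autoImplicit false

namespace Pool.Agent.MP_56f843_an

open Filter Topology

namespace Fix

variable {f : ℝ → ℝ}

/-- the inequality at one triple -/
def I2at (f : ℝ → ℝ) (ε a k b : ℝ) : Prop :=
  f ((2 * a + k + 2 * b) / 5) ≤ (2 * f a + f k + 2 * f b) / 5 + (b - a) + ε

theorem I2at_refl (h : Fix f) {ε a k b : ℝ} (hI : I2at f ε (1 - b) (1 - k) (1 - a)) :
    I2at f ε a k b := by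
  unfold I2at at hI ⊢
  have e1 : (2 * (1 - b) + (1 - k) + 2 * (1 - a)) / 5 = 1 - (2 * a + k + 2 * b) / 5 := by ring
  rw [e1, h.refl, h.refl, h.refl, h.refl] at hI
  linarith

theorem atLLL (h : Fix f) {ε : ℝ} (hI : I2 f ε) {a k b : ℝ} (ha : 0 ≤ a) (hak : a ≤ k)
    (hkb : k ≤ b) (hb : b ≤ 2 / 5) : I2at f (2 / 5 * ε) a k b := by
  have h1 := h.LLL hI (u := 5 / 2 * a) (w := 5 / 2 * k) (v := 5 / 2 * b) (by linarith)
    (by linarith) (by linarith) (by linarith)
  have e : ∀ x : ℝ, 2 / 5 * (5 / 2 * x) = x := fun x => by ring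
  rw [e, e, e] at h1
  exact h1

theorem atMMM (h : Fix f) {ε : ℝ} (hε : 0 ≤ ε) (hI : I2 f ε) {a k b : ℝ} (ha : 2 / 5 ≤ a)
    (hak : a ≤ k) (hkb : k ≤ b) (hb : b ≤ 3 / 5) : I2at f (2 / 5 * ε) a k b := by
  have h1 := h.MMM hI (u := 5 * a - 2) (w := 5 * k - 2) (v := 5 * b - 2) (by linarith)
    (by linarith) (by linarith) (by linarith)
  have e : ∀ x : ℝ, 2 / 5 + (5 * x - 2) / 5 = x := fun x => by ring
  rw [e, e, e] at h1
  unfold I2at
  linarith

theorem atLLM (h : Fix f) {ε : ℝ} (hε : 0 ≤ ε) (hI : I2 f ε) {a k b : ℝ} (ha : 0 ≤ a)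
    (hak : a ≤ k) (hk : k ≤ 2 / 5) (hb0 : 2 / 5 ≤ b) (hb : b ≤ 3 / 5) :
    I2at f (2 / 5 * ε) a k b := by
  have h1 := h.LLM hε hI (u := 5 / 2 * a) (w := 5 / 2 * k) (t := 5 * b - 2) (by linarith)
    (by linarith) (by linarith) (by linarith) (by linarith)
  have e : ∀ x : ℝ, 2 / 5 * (5 / 2 * x) = x := fun x => by ring
  have e' : ∀ x : ℝ, 2 / 5 + (5 * x - 2) / 5 = x := fun x => by ring
  rw [e, e, e'] at h1
  exact h1

theorem atLLR (h : Fix f) {ε : ℝ} (hε : 0 ≤ ε) {a k b : ℝ} (ha : 0 ≤ a)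
    (hak : a ≤ k) (hk : k ≤ 2 / 5) (hb0 : 3 / 5 ≤ b) (hb : b ≤ 1) :
    I2at f (2 / 5 * ε) a k b := by
  have h1 := h.LLR hε (u := 5 / 2 * a) (w := 5 / 2 * k) (v := 5 / 2 * (1 - b)) (by linarith)
    (by linarith) (by linarith) (by linarith) (by linarith)
  have e : ∀ x : ℝ, 2 / 5 * (5 / 2 * x) = x := fun x => by ring
  have e' : ∀ x : ℝ, 1 - (1 - x) = x := fun x => by ring
  rw [e, e, e, e'] at h1
  exact h1

theorem atLMM (h : Fix f) {ε : ℝ} (hε : 0 ≤ ε) (hI : I2 f ε) {a k b : ℝ} (ha : 0 ≤ a)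
    (ha1 : a ≤ 2 / 5) (hk : 2 / 5 ≤ k) (hkb : k ≤ b) (hb : b ≤ 3 / 5) :
    I2at f (2 / 5 * ε) a k b := by
  have h1 := h.LMM hε hI (u := 5 / 2 * a) (s := 5 * k - 2) (t := 5 * b - 2) (by linarith)
    (by linarith) (by linarith) (by linarith) (by linarith)
  have e : ∀ x : ℝ, 2 / 5 * (5 / 2 * x) = x := fun x => by ring
  have e' : ∀ x : ℝ, 2 / 5 + (5 * x - 2) / 5 = x := fun x => by ring
  rw [e, e', e'] at h1
  exact h1

theorem atLMR (h : Fix f) {ε : ℝ} (hε : 0 ≤ ε) (hI : I2 f ε) {a k b : ℝ} (ha : 0 ≤ a)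
    (hab : a ≤ 1 - b) (hk : 2 / 5 ≤ k) (hk' : k ≤ 3 / 5) (hb : 3 / 5 ≤ b) :
    I2at f (2 / 5 * ε) a k b := by
  have h1 := h.LMR hε hI (u := 5 / 2 * a) (s := 5 * k - 2) (v := 5 / 2 * (1 - b)) (by linarith)
    (by linarith) (by linarith) (by linarith) (by linarith)
  have e : ∀ x : ℝ, 2 / 5 * (5 / 2 * x) = x := fun x => by ring
  have e' : ∀ x : ℝ, 2 / 5 + (5 * x - 2) / 5 = x := fun x => by ring
  have e'' : ∀ x : ℝ, 1 - (1 - x) = x := fun x => by ring
  rw [e, e', e, e''] at h1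
  exact h1

theorem I2_step (h : Fix f) {ε : ℝ} (hε : 0 ≤ ε) (hI : I2 f ε) : I2 f (2 / 5 * ε) := by
  intro a k b ha hak hkb hb
  change I2at f (2 / 5 * ε) a k b
  rcases le_total b (2 / 5) with hb1 | hb1
  · exact h.atLLL hI ha hak hkb hb1
  rcases le_total (3 / 5) a with ha1 | ha1
  · exact h.I2at_refl (h.atLLL hI (by linarith) (by linarith) (by linarith) (by linarith))
  rcases le_total b (3 / 5) with hb2 | hb2
  · -- `b` in the middle
    rcases le_total a (2 / 5) with ha2 | ha2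
    · rcases le_total k (2 / 5) with hk | hk
      · exact h.atLLM hε hI ha hak hk hb1 hb2
      · exact h.atLMM hε hI ha ha2 hk hkb hb2
    · exact h.atMMM hε hI ha2 hak hkb hb2
  · -- `b` on the right
    rcases le_total a (2 / 5) with ha2 | ha2
    · rcases le_total k (2 / 5) with hk | hk
      · exact h.atLLR hε ha hak hk hb2 hb
      · rcases le_total k (3 / 5) with hk' | hk'
        · rcases le_total a (1 - b) with h1 | h1
          · exact h.atLMR hε hI ha h1 hk hk' hb2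
          · exact h.I2at_refl (h.atLMR hε hI (by linarith) (by linarith) (by linarith)
              (by linarith) (by linarith))
        · exact h.I2at_refl (h.atLLR hε (by linarith) (by linarith) (by linarith)
            (by linarith) (by linarith))
    · rcases le_total k (3 / 5) with hk' | hk'
      · exact h.I2at_refl (h.atLMM hε hI (by linarith) (by linarith) (by linarith)
          (by linarith) (by linarith))
      · exact h.I2at_refl (h.atLLM hε hI (by linarith) (by linarith) (by linarith)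
          (by linarith) (by linarith))

theorem I2_all (h : Fix f) {a k b : ℝ} (ha : 0 ≤ a) (hak : a ≤ k) (hkb : k ≤ b) (hb : b ≤ 1) :
    f ((2 * a + k + 2 * b) / 5) ≤ (2 * f a + f k + 2 * f b) / 5 + (b - a) := by
  have h0 : I2 f (5 / 4) := by
    intro a k b _ h1 h2 _
    have h3 := h.le ((2 * a + k + 2 * b) / 5)
    have h4 := h.nonneg a
    have h5 := h.nonneg k
    have h6 := h.nonneg b
    linarith
  exact le_of_contract (ε₀ := 5 / 4) fun n =>
    contract (P := I2 f) (by norm_num) h0 (fun ε hε hP => h.I2_step hε hP) n a k b ha hak hkb hb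

theorem sum_Icc_five (g : ℕ → ℝ) :
    ∑ i ∈ Finset.Icc 1 5, g i = g 1 + g 2 + g 3 + g 4 + g 5 := by
  have : Finset.Icc 1 5 = {1, 2, 3, 4, 5} := by decide
  rw [this]
  simp
  ring

theorem inClass (h : Fix f) : InClass 5 f := by
  refine ⟨by rw [h.zero, h.one, max_self], ?_⟩
  intro x hx1 hx2 hx3
  rw [sum_Icc_five, sum_Icc_five]
  have a1 := hx2 1 le_rfl (by norm_num)
  have a2 := hx2 2 (by norm_num) (by norm_num)
  have a3 := hx2 3 (by norm_num) (by norm_num)
  have a4 := hx2 4 (by norm_num) (by norm_num)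
  norm_num at a1 a2 a3 a4
  have h1 := h.I2_all (a := (x 1 + x 2) / 2) (k := x 3) (b := (x 4 + x 5) / 2) (by linarith)
    (by linarith) (by linarith) (by linarith)
  have h2 := h.mid (x 1) (x 2)
  have h3 := h.mid (x 4) (x 5)
  rw [abs_of_nonneg (by linarith)] at h2 h3
  have e1 : (2 * ((x 1 + x 2) / 2) + x 3 + 2 * ((x 4 + x 5) / 2)) / 5 =
    (x 1 + x 2 + x 3 + x 4 + x 5) / (5 : ℕ) := by push_cast; ring
  rw [e1] at h1
  push_cast at h1 ⊢
  linarith

end Fix

theorem fix_seriesFive : Fix seriesFive := ⟨good_seriesFive, rel_seriesFive⟩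

namespace Fix

variable {f : ℝ → ℝ}

theorem small (h : Fix f) (n : ℕ) : ∀ y : ℝ, |y| ≤ (2 / 5) ^ n → f y ≤ 25 / 2 * (1 / 2) ^ n := by
  induction n with
  | zero =>
    intro y _
    have := h.le y
    rw [pow_zero]
    linarith
  | succ n ih =>
    intro y hy
    have h1 := h.F1 (5 / 2 * y)
    have e1 : 2 / 5 * (5 / 2 * y) = y := by ring
    rw [e1, abs_mul, abs_of_pos (by norm_num : (0 : ℝ) < 5 / 2)] at h1
    rw [pow_succ] at hy
    have h2 := ih (5 / 2 * y) (by
      rw [abs_mul, abs_of_pos (by norm_num : (0 : ℝ) < 5 / 2)]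
      linarith)
    have h3 : (2 / 5 : ℝ) ^ n ≤ (1 / 2) ^ n := pow_le_pow_left₀ (by norm_num) (by norm_num) n
    have h4 : (0 : ℝ) ≤ (1 / 2) ^ n := by positivity
    rw [pow_succ]
    linarith

theorem continuous (h : Fix f) : Continuous f := by
  rw [Metric.continuous_iff]
  intro x ε hε
  have hlim : Tendsto (fun n : ℕ => 25 / 2 * (1 / 2 : ℝ) ^ n) atTop (𝓝 (25 / 2 * 0)) :=
    (tendsto_pow_atTop_nhds_zero_of_lt_one (by norm_num) (by norm_num)).const_mul _
  rw [mul_zero] at hlim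
  obtain ⟨n, hn⟩ := (hlim.eventually (gt_mem_nhds hε)).exists
  refine ⟨(2 / 5) ^ n, by positivity, ?_⟩
  intro y hy
  rw [Real.dist_eq] at hy ⊢
  have h1 := h.small n (y - x) hy.le
  have h2 := h.sub x (y - x)
  have h3 := h.sub' y (y - x)
  have e1 : x + (y - x) = y := by ring
  have e2 : y - (y - x) = x := by ring
  rw [e1] at h2
  rw [e2] at h3
  rw [abs_lt]
  constructor <;> linarith

end Fix

variable {f : ℝ → ℝ}

/-- One step of the upper bound for `m = 5`. -/
theorem InClass.step_five (h : InClass 5 f) {x : ℝ} (hx : x ∈ Set.Icc (0 : ℝ) 1) :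
    ∃ y ∈ Set.Icc (0 : ℝ) 1, (∀ q : ℚ, x = q → ∃ q' : ℚ, y = q') ∧ ∃ r : ℝ, 0 ≤ r ∧ r ≤ 2 / 5 ∧
      f x - seriesFive x ≤ r * (f y - seriesFive y) := by
  obtain ⟨hx0, hx1⟩ := hx
  have hF := fix_seriesFive
  rcases le_total x (2 / 5) with h1 | h1
  · refine ⟨5 / 2 * x, ⟨by linarith, by linarith⟩, ?_, 2 / 5, by norm_num, le_rfl, ?_⟩
    · intro q hq
      exact ⟨5 / 2 * q, by rw [hq]; push_cast; ring⟩
    · have h2 := h.tuple (b := 1) (by norm_num) (y := 5 / 2 * x) (v := 5 / 2 * x) (by linarith)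
        le_rfl (by linarith)
      have h3 := hF.eqL (u := 5 / 2 * x) (by linarith) (by linarith)
      have e1 : (5 / 2 * x + ((1 : ℕ) : ℝ) * (5 / 2 * x)) / ((5 : ℕ) : ℝ) = x := by
        push_cast; ring
      have e2 : 2 / 5 * (5 / 2 * x) = x := by ring
      rw [e1] at h2
      rw [e2] at h3
      push_cast at h2
      linarith
  · rcases le_total x (3 / 5) with h2 | h2
    · refine ⟨5 * x - 2, ⟨by linarith, by linarith⟩, ?_, 1 / 5, by norm_num, by norm_num, ?_⟩
      · intro q hq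
        exact ⟨5 * q - 2, by rw [hq]; push_cast; ring⟩
      · have h3 := h.tuple (b := 2) (by norm_num) (y := 5 * x - 2) (v := 1) (by linarith)
          (by linarith) le_rfl
        have h4 := hF.eqM (t := 5 * x - 2) (by linarith) (by linarith)
        have h5 := h.one_le
        have e1 : (5 * x - 2 + ((2 : ℕ) : ℝ) * 1) / ((5 : ℕ) : ℝ) = x := by push_cast; ring
        have e2 : 2 / 5 + (5 * x - 2) / 5 = x := by ring
        rw [e1] at h3
        rw [e2] at h4
        push_cast at h3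
        linarith
    · refine ⟨1 - 5 / 2 * (1 - x), ⟨by linarith, by linarith⟩, ?_, 2 / 5, by norm_num, le_rfl, ?_⟩
      · intro q hq
        exact ⟨1 - 5 / 2 * (1 - q), by rw [hq]; push_cast; ring⟩
      · have h3 := (h.reflect (by norm_num)).tuple (b := 1) (by norm_num) (y := 5 / 2 * (1 - x))
          (v := 5 / 2 * (1 - x)) (by linarith) le_rfl (by linarith)
        have h4 := hF.eqR (v := 5 / 2 * (1 - x)) (by linarith) (by linarith)
        have e1 : 1 - (5 / 2 * (1 - x) + ((1 : ℕ) : ℝ) * (5 / 2 * (1 - x))) / ((5 : ℕ) : ℝ) = x := by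
          push_cast; ring
        have e2 : 1 - 2 / 5 * (5 / 2 * (1 - x)) = x := by ring
        simp only [e1] at h3
        rw [e2, ← hF.refl (5 / 2 * (1 - x))] at h4
        push_cast at h3
        linarith

/-- Upper bound for `m = 5` on a suitable invariant set. -/
theorem InClass.le_seriesFive_on (h : InClass 5 f) (X : Set ℝ) (hX : X ⊆ Set.Icc (0 : ℝ) 1)
    (hinv : ∀ x ∈ X, ∀ y ∈ Set.Icc (0 : ℝ) 1, (∀ q : ℚ, x = q → ∃ q' : ℚ, y = q') → y ∈ X)
    {B : ℝ} (hB : ∀ x ∈ X, f x ≤ B) {x : ℝ} (hx : x ∈ X) : f x ≤ seriesFive x := by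
  have hn : ∀ (n : ℕ), ∀ x ∈ X, f x ≤ seriesFive x + (2 / 5) ^ n * |B| := by
    intro n
    induction n with
    | zero =>
      intro x hx
      have h1 := hB x hx
      have h2 := fix_seriesFive.nonneg x
      have h3 := le_abs_self B
      rw [pow_zero, one_mul]
      linarith
    | succ n ih =>
      intro x hx
      obtain ⟨y, hy, hq, r, hr0, hr1, hle⟩ := h.step_five (hX hx)
      have h1 := ih y (hinv x hx y hy hq)
      have h2 : r * (f y - seriesFive y) ≤ r * ((2 / 5) ^ n * |B|) :=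
        mul_le_mul_of_nonneg_left (by linarith) hr0
      have h3 : r * ((2 / 5) ^ n * |B|) ≤ 2 / 5 * ((2 / 5) ^ n * |B|) :=
        mul_le_mul_of_nonneg_right hr1 (by positivity)
      rw [pow_succ]
      linarith
  exact Fix.le_of_contract fun n => hn n x hx

theorem InClass.le_seriesFive (h : InClass 5 f) (hbd : BddAbove (f '' Set.Icc 0 1)) {x : ℝ}
    (hx : x ∈ Set.Icc (0 : ℝ) 1) : f x ≤ seriesFive x := by
  obtain ⟨B, hB⟩ := hbd
  exact h.le_seriesFive_on (Set.Icc 0 1) Set.Subset.rfl (fun _ _ y hy _ => hy)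
    (fun x hx => hB ⟨x, hx, rfl⟩) hx

/-- At rational points a function of the class is at most `5 / 4`. -/
theorem InClass.le_rat (h : InClass 5 f) (q : ℚ) (hq : (q : ℝ) ∈ Set.Icc (0 : ℝ) 1) :
    f q ≤ 5 / 4 := by
  set N : ℕ := q.den with hN
  have hNpos : 0 < (N : ℝ) := by exact_mod_cast q.den_pos
  let X : Set ℝ := {x | x ∈ Set.Icc (0 : ℝ) 1 ∧ ∃ k : ℤ, x = k / N}
  have hfin : X.Finite := by
    apply Set.Finite.subset (Set.Finite.image (fun k : ℤ => (k : ℝ) / N)
      (Set.finite_Icc (0 : ℤ) N))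
    rintro x ⟨⟨hx0, hx1⟩, k, rfl⟩
    refine ⟨k, ⟨?_, ?_⟩, rfl⟩
    · have h1 : (0 : ℝ) ≤ k := by
        by_contra hcon
        push Not at hcon
        have := div_neg_of_neg_of_pos hcon hNpos
        linarith
      exact_mod_cast h1
    · rw [div_le_one hNpos] at hx1
      exact_mod_cast hx1
  obtain ⟨B, hB⟩ := (hfin.image f).bddAbove
  have hB' : ∀ x ∈ X, f x ≤ B := fun x hx => hB ⟨x, hx, rfl⟩
  have hstep : ∀ x ∈ X, ∃ y ∈ X, f x ≤ 1 + 1 / 5 * f y := by
    rintro x ⟨⟨hx0, hx1⟩, k, rfl⟩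
    obtain ⟨b, hb, hb0, hb1⟩ : ∃ b : ℕ, b < 5 ∧ 0 ≤ 5 * ((k : ℝ) / N) - b ∧
        5 * ((k : ℝ) / N) - b ≤ 1 := by
      rcases le_total ((k : ℝ) / N) (1 / 5) with h1 | h1
      · exact ⟨0, by norm_num, by push_cast; linarith, by push_cast; linarith⟩
      rcases le_total ((k : ℝ) / N) (2 / 5) with h2 | h2
      · exact ⟨1, by norm_num, by push_cast; linarith, by push_cast; linarith⟩
      rcases le_total ((k : ℝ) / N) (3 / 5) with h3 | h3
      · exact ⟨2, by norm_num, by push_cast; linarith, by push_cast; linarith⟩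
      rcases le_total ((k : ℝ) / N) (4 / 5) with h4 | h4
      · exact ⟨3, by norm_num, by push_cast; linarith, by push_cast; linarith⟩
      · exact ⟨4, by norm_num, by push_cast; linarith, by push_cast; linarith⟩
    refine ⟨5 * ((k : ℝ) / N) - b, ⟨⟨hb0, hb1⟩, 5 * k - b * N, ?_⟩, ?_⟩
    · push_cast
      field_simp
    · have h3 := h.tuple (b := b) hb (y := 5 * ((k : ℝ) / N) - b) (v := 1) hb0 hb1 le_rfl
      have e1 : (5 * ((k : ℝ) / N) - b + (b : ℝ) * 1) / ((5 : ℕ) : ℝ) = (k : ℝ) / N := by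
        push_cast; ring
      rw [e1] at h3
      have h5 := h.one_le
      have h6 : (b : ℝ) * f 1 ≤ 0 := mul_nonpos_of_nonneg_of_nonpos (Nat.cast_nonneg _) h5
      push_cast at h3
      linarith
  have hn : ∀ (n : ℕ), ∀ x ∈ X, f x ≤ 5 / 4 + (2 / 5) ^ n * |B| := by
    intro n
    induction n with
    | zero =>
      intro x hx
      have h1 := hB' x hx
      have h3 := le_abs_self B
      rw [pow_zero, one_mul]
      linarith
    | succ n ih =>
      intro x hx
      obtain ⟨y, hy, hle⟩ := hstep x hx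
      have h1 := ih y hy
      have h2 : 0 ≤ (2 / 5) ^ n * |B| := by positivity
      rw [pow_succ]
      linarith
  refine Fix.le_of_contract fun n => hn n q ⟨hq, q.num, ?_⟩
  rw [hN]
  exact Rat.cast_def q

/-- At rational points no boundedness is needed. -/
theorem InClass.le_seriesFive_rat (h : InClass 5 f) (q : ℚ) (hq : (q : ℝ) ∈ Set.Icc (0 : ℝ) 1) :
    f q ≤ seriesFive q := by
  refine h.le_seriesFive_on {x | x ∈ Set.Icc (0 : ℝ) 1 ∧ ∃ q : ℚ, x = q} (fun x hx => hx.1) ?_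
    (B := 5 / 4) ?_ ⟨hq, q, rfl⟩
  · rintro x ⟨_, q, hq⟩ y hy hyq
    exact ⟨hy, hyq q hq⟩
  · rintro x ⟨hx, q, rfl⟩
    exact h.le_rat q hx

/-- Uniqueness of the bounded solution of the functional equations. -/
theorem seriesFive_unique {G : ℝ → ℝ} {B : ℝ} (hB : ∀ x ∈ Set.Icc (0 : ℝ) 1, |G x| ≤ B)
    (hR : ∀ x ∈ Set.Icc (0 : ℝ) 1, G (1 - x) = G x)
    (hL : ∀ x ∈ Set.Icc (0 : ℝ) (2 / 5), G x = 5 / 2 * x + 2 / 5 * G (5 / 2 * x))
    (hM : ∀ x ∈ Set.Icc (2 / 5 : ℝ) (3 / 5), G x = 1 + 1 / 5 * G (5 * x - 2))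
    {x : ℝ} (hx : x ∈ Set.Icc (0 : ℝ) 1) : G x = seriesFive x := by
  have hF := fix_seriesFive
  have hB0 : 0 ≤ B := (abs_nonneg _).trans (hB 0 (by simp))
  have hn : ∀ (n : ℕ), ∀ x ∈ Set.Icc (0 : ℝ) 1,
      |G x - seriesFive x| ≤ 0 + (2 / 5) ^ n * (B + 5 / 4) := by
    intro n
    induction n with
    | zero =>
      intro x hx
      have h1 := abs_le.1 (hB x hx)
      have h2 := hF.nonneg x
      have h3 := hF.le x
      rw [pow_zero, one_mul, zero_add, abs_le]
      constructor <;> linarith [h1.1, h1.2]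
    | succ n ih =>
      have hLL : ∀ x ∈ Set.Icc (0 : ℝ) (2 / 5),
          |G x - seriesFive x| ≤ 0 + (2 / 5) ^ (n + 1) * (B + 5 / 4) := by
        rintro x ⟨hx0, hx1⟩
        have h1 := hL x ⟨hx0, hx1⟩
        have h2 := hF.eqL (u := 5 / 2 * x) (by linarith) (by linarith)
        have e2 : 2 / 5 * (5 / 2 * x) = x := by ring
        rw [e2] at h2
        have h3 := abs_le.1 (ih (5 / 2 * x) ⟨by linarith, by linarith⟩)
        rw [pow_succ, abs_le]
        constructor <;> linarith [h3.1, h3.2]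
      rintro x ⟨hx0, hx1⟩
      rcases le_total x (2 / 5) with h1 | h1
      · exact hLL x ⟨hx0, h1⟩
      · rcases le_total x (3 / 5) with h2 | h2
        · have h3 := hM x ⟨h1, h2⟩
          have h4 := hF.eqM (t := 5 * x - 2) (by linarith) (by linarith)
          have e2 : 2 / 5 + (5 * x - 2) / 5 = x := by ring
          rw [e2] at h4
          have h5 := abs_le.1 (ih (5 * x - 2) ⟨by linarith, by linarith⟩)
          have h6 : (0 : ℝ) ≤ (2 / 5) ^ n * (B + 5 / 4) := by positivity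
          rw [pow_succ, abs_le]
          constructor <;> linarith [h5.1, h5.2]
        · have h3 := hLL (1 - x) ⟨by linarith, by linarith⟩
          rw [hR x ⟨hx0, hx1⟩, hF.refl] at h3
          exact h3
  have h1 := Fix.le_of_contract fun n => hn n x hx
  have h2 := abs_nonpos_iff.1 h1
  linarith

end Pool.Agent.MP_56f843_an
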