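import Pool.Agent.MP_56f843_an.Four

set_option autoImplicit false

namespace Pool.Agent.MP_56f843_an

open Filter Topology

/-- The properties that are preserved by the operator for `m = 5`. -/
structure Good (f : ℝ → ℝ) : Prop where
  even : ∀ x, f (-x) = f x
  per : ∀ x, f (x + 1) = f x
  zero : f 0 = 0
  nonneg : ∀ x, 0 ≤ f x
  le : ∀ x, f x ≤ 5 / 4
  lin : ∀ x, f x ≤ 5 / 8 + 5 / 2 * |x|
  sub : ∀ x y, f (x + y) ≤ f x + f y
  mid : ∀ x y, f ((x + y) / 2) ≤ (f x + f y) / 2 + 5 / 4 * |y - x|

/-- `g` is the image of `f` under the operator for `m = 5`. -/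
structure Rel (f g : ℝ → ℝ) : Prop where
  even : ∀ x, g (-x) = g x
  per : ∀ x, g (x + 1) = g x
  left : ∀ (x : ℝ) (n : ℤ), g x ≤ 5 / 2 * |x - n| + 2 / 5 * f (5 / 2 * (x - n))
  midl : ∀ x, g x ≤ 1 + 1 / 5 * f (5 * x)
  cases : ∀ x : ℝ, (∃ n : ℤ, |x - n| ≤ 2 / 5 ∧
      g x = 5 / 2 * |x - n| + 2 / 5 * f (5 / 2 * (x - n))) ∨
    ((∀ n : ℤ, 2 / 5 ≤ |x - n|) ∧ g x = 1 + 1 / 5 * f (5 * x))

namespace Good

variable {f : ℝ → ℝ}

theorem add_int (h : Good f) (x : ℝ) (n : ℤ) : f (x + n) = f x := by
  have hp : Function.Periodic f 1 := h.per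
  have := hp.int_mul n x
  rw [mul_one] at this
  exact this

theorem abs (h : Good f) (x : ℝ) : f |x| = f x := by
  rcases abs_choice x with h1 | h1 <;> rw [h1]
  exact h.even x

theorem refl (h : Good f) (x : ℝ) : f (1 - x) = f x := by
  have h1 := h.per (-x)
  have h2 : -x + 1 = 1 - x := by ring
  rw [h2, h.even] at h1
  exact h1

theorem one (h : Good f) : f 1 = 0 := by
  have := h.refl 0
  rw [sub_zero, h.zero] at this
  exact this

theorem two_mul (h : Good f) (x : ℝ) : f (2 * x) ≤ 2 * f x := by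
  have := h.sub x x
  rw [← _root_.two_mul] at this
  linarith

theorem sub' (h : Good f) (x y : ℝ) : f (x - y) ≤ f x + f y := by
  have := h.sub x (-y)
  rw [h.even] at this
  exact this

theorem half (h : Good f) (x : ℝ) : f (x / 2) ≤ f x / 2 + 5 / 4 * |x| := by
  have := h.mid 0 x
  rw [h.zero, zero_add, zero_add, sub_zero] at this
  exact this

/-- The key estimate that lets one compare the two branches. -/
theorem key (h : Good f) (w : ℝ) : 2 * f w ≤ f (2 * w) + 5 * |1 - w| := by
  have h1 := h.half (2 * (1 - w))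
  have e1 : 2 * (1 - w) / 2 = 1 - w := by ring
  have e2 : f (2 * (1 - w)) = f (2 * w) := by
    have := h.add_int (-(2 * w)) 2
    rw [h.even] at this
    rw [← this]
    congr 1
    push_cast
    ring
  rw [e1, h.refl, e2, abs_mul, abs_of_pos (by norm_num : (0 : ℝ) < 2)] at h1
  linarith

theorem zeroFn : Good (fun _ => 0) := by
  refine ⟨?_, ?_, ?_, ?_, ?_, ?_, ?_, ?_⟩ <;> intros <;> first | positivity | simp

/-- Pointwise limits. -/
theorem limit {F : ℕ → ℝ → ℝ} (h : ∀ n, Good (F n))
    (hF : ∀ x, Tendsto (fun n => F n x) atTop (𝓝 (f x))) : Good f where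
  even x := by
    refine tendsto_nhds_unique (hF (-x)) ?_
    have : (fun n => F n (-x)) = fun n => F n x := by
      funext n
      exact (h n).even x
    rw [this]
    exact hF x
  per x := by
    refine tendsto_nhds_unique (hF (x + 1)) ?_
    have : (fun n => F n (x + 1)) = fun n => F n x := by
      funext n
      exact (h n).per x
    rw [this]
    exact hF x
  zero := by
    refine tendsto_nhds_unique (hF 0) ?_
    have : (fun n => F n 0) = fun _ => 0 := by
      funext n
      exact (h n).zero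
    rw [this]
    exact tendsto_const_nhds
  nonneg x := ge_of_tendsto' (hF x) fun n => (h n).nonneg x
  le x := le_of_tendsto' (hF x) fun n => (h n).le x
  lin x := le_of_tendsto' (hF x) fun n => (h n).lin x
  sub x y := le_of_tendsto_of_tendsto' (hF _) ((hF x).add (hF y)) fun n => (h n).sub x y
  mid x y := le_of_tendsto_of_tendsto' (hF _)
    ((((hF x).add (hF y)).div_const 2).add_const _) fun n => (h n).mid x y

/-- The operator preserves the properties. -/
theorem map {g : ℝ → ℝ} (h : Good f) (hr : Rel f g) : Good g := by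
  have hle : ∀ x, g x ≤ 5 / 4 := by
    intro x
    rcases hr.cases x with ⟨n, hn, he⟩ | ⟨-, he⟩
    · have h1 := h.lin (1 - 5 / 2 * |x - n|)
      rw [h.refl] at h1
      have h2 : f (5 / 2 * (x - n)) = f (5 / 2 * |x - n|) := by
        rw [← h.abs (5 / 2 * (x - n)), abs_mul, abs_of_pos (by norm_num : (0 : ℝ) < 5 / 2)]
      have h3 : 0 ≤ 1 - 5 / 2 * |x - n| := by linarith
      rw [abs_of_nonneg h3] at h1
      rw [he, h2]
      linarith
    · rw [he]
      have := h.le (5 * x)
      linarith
  have hnn : ∀ x, 0 ≤ g x := by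
    intro x
    rcases hr.cases x with ⟨n, hn, he⟩ | ⟨-, he⟩
    · rw [he]
      have := h.nonneg (5 / 2 * (x - n))
      have := abs_nonneg (x - n)
      linarith
    · rw [he]
      have := h.nonneg (5 * x)
      linarith
  have hz : g 0 = 0 := by
    apply le_antisymm _ (hnn 0)
    have := hr.left 0 0
    simp only [Int.cast_zero, sub_zero, abs_zero, mul_zero, h.zero, add_zero] at this
    exact this
  refine ⟨hr.even, hr.per, hz, hnn, hle, ?_, ?_, ?_⟩
  · intro x
    have h1 := hr.left x 0
    rw [Int.cast_zero, sub_zero] at h1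
    have h2 := h.le (5 / 2 * x)
    linarith
  · intro x y
    rcases hr.cases x with ⟨n, hn, hx⟩ | ⟨-, hx⟩ <;> rcases hr.cases y with ⟨k, hk, hy⟩ | ⟨-, hy⟩
    · have h1 := hr.left (x + y) (n + k)
      have e1 : x + y - ((n + k : ℤ) : ℝ) = (x - n) + (y - k) := by push_cast; ring
      rw [e1] at h1
      have h2 := abs_add_le (x - n) (y - k)
      have h3 := h.sub (5 / 2 * (x - n)) (5 / 2 * (y - k))
      rw [← mul_add] at h3
      linarith
    · have h1 := hr.midl (x + y)
      have h2 := h.sub (5 * (x - n)) (5 * y)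
      have h3 := h.two_mul (5 / 2 * (x - n))
      have e1 : 2 * (5 / 2 * (x - n)) = 5 * (x - n) := by ring
      rw [e1] at h3
      have h4 := h.add_int (5 * (x - n) + 5 * y) (5 * n)
      have e2 : 5 * (x - n) + 5 * y + ((5 * n : ℤ) : ℝ) = 5 * (x + y) := by push_cast; ring
      rw [e2] at h4
      have := abs_nonneg (x - n)
      linarith
    · have h1 := hr.midl (x + y)
      have h2 := h.sub (5 * (y - k)) (5 * x)
      have h3 := h.two_mul (5 / 2 * (y - k))
      have e1 : 2 * (5 / 2 * (y - k)) = 5 * (y - k) := by ring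
      rw [e1] at h3
      have h4 := h.add_int (5 * (y - k) + 5 * x) (5 * k)
      have e2 : 5 * (y - k) + 5 * x + ((5 * k : ℤ) : ℝ) = 5 * (x + y) := by push_cast; ring
      rw [e2] at h4
      have := abs_nonneg (y - k)
      linarith
    · have h1 := hle (x + y)
      have h2 := h.nonneg (5 * x)
      have h3 := h.nonneg (5 * y)
      linarith
  · -- the midpoint inequality
    have hLM : ∀ (x y : ℝ) (n : ℤ), |x - n| ≤ 2 / 5 → 2 / 5 ≤ |y - n| →
        g ((x + y) / 2) ≤ (5 / 2 * |x - n| + 2 / 5 * f (5 / 2 * (x - n)) +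
          (1 + 1 / 5 * f (5 * y))) / 2 + 5 / 4 * |y - x| := by
      intro x y n hx hy
      have h1 := hr.midl ((x + y) / 2)
      -- by symmetry `y - n = s * (2/5 + r)`
      obtain ⟨s, hs, hs'⟩ : ∃ s : ℤ, (s = 1 ∨ s = -1) ∧ (s : ℝ) * (y - n) = |y - n| := by
        rcases abs_cases (y - n) with ⟨h2, _⟩ | ⟨h2, _⟩
        · exact ⟨1, Or.inl rfl, by rw [h2]; push_cast; ring⟩
        · exact ⟨-1, Or.inr rfl, by rw [h2]; push_cast; ring⟩
      have h2 := h.half (5 * (y - n) - 2 * s)
      have h3 := h.sub (5 / 2 * (x - n)) ((5 * (y - n) - 2 * s) / 2)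
      have h4 := h.add_int (5 / 2 * (x - n) + (5 * (y - n) - 2 * s) / 2) (5 * n + s)
      have e1 : 5 / 2 * (x - n) + (5 * (y - n) - 2 * s) / 2 + ((5 * n + s : ℤ) : ℝ) =
        5 * ((x + y) / 2) := by push_cast; ring
      rw [e1] at h4
      have h5 := h.add_int (5 * (y - n) - 2 * s) (5 * n + 2 * s)
      have e2 : 5 * (y - n) - 2 * s + ((5 * n + 2 * s : ℤ) : ℝ) = 5 * y := by push_cast; ring
      rw [e2] at h5
      have h6 : |5 * (y - n) - 2 * s| = 5 * |y - n| - 2 := by
        rcases hs with rfl | rfl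
        · push_cast at hs' ⊢
          rw [one_mul] at hs'
          rw [← hs'] at hy ⊢
          rw [abs_of_nonneg (by linarith)]
          ring
        · push_cast at hs' ⊢
          rw [← hs'] at hy ⊢
          rw [abs_of_nonpos (by linarith)]
          ring
      rw [h6] at h2
      have h7 : |y - n| ≤ |x - n| + |y - x| := by
        have := abs_add_le (x - n) (y - x)
        have e3 : x - n + (y - x) = y - n := by ring
        rw [e3] at this
        exact this
      linarith
    intro x y
    rcases hr.cases x with ⟨n, hn, hx⟩ | ⟨hn, hx⟩ <;> rcases hr.cases y with ⟨k, hk, hy⟩ | ⟨hk, hy⟩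
    · rw [hx, hy]
      by_cases hnk : n = k
      · subst hnk
        have h1 := hr.left ((x + y) / 2) n
        have e1 : (x + y) / 2 - n = ((x - n) + (y - n)) / 2 := by ring
        rw [e1] at h1
        have h2 := abs_add_le (x - n) (y - n)
        rw [abs_div, abs_of_pos (by norm_num : (0 : ℝ) < 2)] at h1
        have h3 := h.mid (5 / 2 * (x - n)) (5 / 2 * (y - n))
        have e2 : (5 / 2 * (x - n) + 5 / 2 * (y - n)) / 2 = 5 / 2 * (((x - n) + (y - n)) / 2) := by
          ring
        have e3 : 5 / 2 * (y - n) - 5 / 2 * (x - n) = 5 / 2 * (y - x) := by ring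
        rw [e2, e3, abs_mul, abs_of_pos (by norm_num : (0 : ℝ) < 5 / 2)] at h3
        linarith
      · have h1 : (1 : ℝ) ≤ |(n : ℝ) - k| := by
          have : (1 : ℤ) ≤ |n - k| := Int.one_le_abs (sub_ne_zero.2 hnk)
          exact_mod_cast this
        have h2 : |(n : ℝ) - k| ≤ |x - n| + |y - x| + |y - k| := by
          have h3 : (n : ℝ) - k = -(x - n) + (-(y - x) + (y - k)) := by ring
          rw [h3]
          have h4 := abs_add_le (-(x - n)) (-(y - x) + (y - k))
          have h5 := abs_add_le (-(y - x)) (y - k)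
          rw [abs_neg] at h4 h5
          linarith
        have h3 := h.nonneg (5 / 2 * (x - n))
        have h4 := h.nonneg (5 / 2 * (y - k))
        have h5 := hle ((x + y) / 2)
        linarith
    · rw [hx, hy]
      exact hLM x y n hn (hk n)
    · rw [hx, hy]
      have := hLM y x k hk (hn k)
      rw [add_comm y x, abs_sub_comm x y] at this
      linarith
    · rw [hx, hy]
      have h1 := hr.midl ((x + y) / 2)
      have h2 := h.mid (5 * x) (5 * y)
      have e1 : (5 * x + 5 * y) / 2 = 5 * ((x + y) / 2) := by ring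
      have e2 : 5 * y - 5 * x = 5 * (y - x) := by ring
      rw [e1, e2, abs_mul, abs_of_pos (by norm_num : (0 : ℝ) < 5)] at h2
      linarith

end Good

end Pool.Agent.MP_56f843_an
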