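import Pool.Agent.MP_56f843_an.FiveBase

set_option autoImplicit false

namespace Pool.Agent.MP_56f843_an

open Filter Topology

/-- A fixed point of the operator with the preserved properties. -/
structure Fix (f : ℝ → ℝ) : Prop extends Good f where
  rel : Rel f f

namespace Fix

variable {f : ℝ → ℝ}

theorem F1 (h : Fix f) (x : ℝ) : f (2 / 5 * x) ≤ |x| + 2 / 5 * f x := by
  have h1 := h.rel.left (2 / 5 * x) 0
  have e1 : 5 / 2 * (2 / 5 * x - ((0 : ℤ) : ℝ)) = x := by push_cast; ring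
  have e2 : 5 / 2 * |2 / 5 * x - ((0 : ℤ) : ℝ)| = |x| := by
    rw [Int.cast_zero, sub_zero, abs_mul, abs_of_pos (by norm_num : (0 : ℝ) < 2 / 5)]
    ring
  rw [e1, e2] at h1
  exact h1

theorem F2 (h : Fix f) (x : ℝ) : f x ≤ 1 + 1 / 5 * f (5 * x) := h.rel.midl x

theorem eqL (h : Fix f) {u : ℝ} (h0 : 0 ≤ u) (h1 : u ≤ 1) : f (2 / 5 * u) = u + 2 / 5 * f u := by
  apply le_antisymm
  · have := h.F1 u
    rw [abs_of_nonneg h0] at this
    exact this
  · rcases h.rel.cases (2 / 5 * u) with ⟨n, hn, he⟩ | ⟨hn, he⟩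
    · have hn0 : n = 0 := by
        rw [abs_le] at hn
        have h3 : (n : ℝ) < 1 := by linarith
        have h4 : (-1 : ℝ) < n := by linarith
        have h3' : n < 1 := by exact_mod_cast h3
        have h4' : -1 < n := by exact_mod_cast h4
        omega
      subst hn0
      rw [he]
      have e1 : 5 / 2 * (2 / 5 * u - ((0 : ℤ) : ℝ)) = u := by push_cast; ring
      have e2 : 5 / 2 * |2 / 5 * u - ((0 : ℤ) : ℝ)| = u := by
        rw [Int.cast_zero, sub_zero, abs_mul, abs_of_pos (by norm_num : (0 : ℝ) < 2 / 5),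
          abs_of_nonneg h0]
        ring
      rw [e1, e2]
    · have h3 := hn 0
      rw [Int.cast_zero, sub_zero, abs_of_nonneg (by linarith)] at h3
      have h4 : u = 1 := by linarith
      have h5 := h.nonneg (5 * (2 / 5 * u))
      rw [he, h4, h.one]
      rw [h4] at h5
      linarith

theorem eqM (h : Fix f) {t : ℝ} (h0 : 0 ≤ t) (h1 : t ≤ 1) : f (2 / 5 + t / 5) = 1 + 1 / 5 * f t := by
  have e5 : f (5 * (2 / 5 + t / 5)) = f t := by
    have h2 := h.add_int t 2
    rw [← h2]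
    congr 1
    push_cast
    ring
  rcases h.rel.cases (2 / 5 + t / 5) with ⟨n, hn, he⟩ | ⟨hn, he⟩
  · rw [abs_le] at hn
    have h3 : (-1 : ℝ) < n := by linarith
    have h4 : (n : ℝ) < 2 := by linarith
    have h3' : -1 < n := by exact_mod_cast h3
    have h4' : n < 2 := by exact_mod_cast h4
    have h5 : n = 0 ∨ n = 1 := by omega
    rcases h5 with rfl | rfl
    · push_cast at hn
      have : t = 0 := by linarith
      subst this
      have := h.eqL (u := 1) (by norm_num) le_rfl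
      rw [h.one] at this
      rw [h.zero]
      norm_num at this ⊢
      exact this
    · push_cast at hn
      have : t = 1 := by linarith
      subst this
      have h6 := h.eqL (u := 1) (by norm_num) le_rfl
      have h7 := h.refl (2 / 5 * 1)
      rw [h.one] at h6
      rw [h.one]
      have e1 : (1 : ℝ) - 2 / 5 * 1 = 2 / 5 + 1 / 5 := by norm_num
      rw [e1] at h7
      rw [h7, h6]
      ring
  · rw [he, e5]

theorem eqR (h : Fix f) {v : ℝ} (h0 : 0 ≤ v) (h1 : v ≤ 1) :
    f (1 - 2 / 5 * v) = v + 2 / 5 * f v := by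
  rw [h.refl]
  exact h.eqL h0 h1

/-- lower bounds -/
theorem lowL (h : Fix f) {x : ℝ} (h0 : 0 ≤ x) (h1 : x ≤ 2 / 5) : 5 / 2 * x ≤ f x := by
  have h2 := h.eqL (u := 5 / 2 * x) (by linarith) (by linarith)
  have h3 := h.nonneg (5 / 2 * x)
  have e1 : 2 / 5 * (5 / 2 * x) = x := by ring
  rw [e1] at h2
  linarith

theorem lowM (h : Fix f) {x : ℝ} (h0 : 2 / 5 ≤ x) (h1 : x ≤ 3 / 5) : 1 ≤ f x := by
  have h2 := h.eqM (t := 5 * x - 2) (by linarith) (by linarith)
  have h3 := h.nonneg (5 * x - 2)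
  have e1 : 2 / 5 + (5 * x - 2) / 5 = x := by ring
  rw [e1] at h2
  linarith

theorem low1 (h : Fix f) {x : ℝ} (h0 : 1 / 5 ≤ x) (h1 : x ≤ 4 / 5) : 9 / 10 ≤ f x := by
  have key : ∀ y, 1 / 5 ≤ y → y ≤ 2 / 5 → 9 / 10 ≤ f y := by
    intro y hy0 hy1
    have h2 := h.eqL (u := 5 / 2 * y) (by linarith) (by linarith)
    have e1 : 2 / 5 * (5 / 2 * y) = y := by ring
    rw [e1] at h2
    rcases le_total (5 / 2 * y) (3 / 5) with h3 | h3
    · have h5 := h.lowM (x := 5 / 2 * y) (by linarith) h3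
      linarith
    · have h5 := h.lowL (x := 1 - 5 / 2 * y) (by linarith) (by linarith)
      rw [h.refl] at h5
      linarith
  rcases le_total x (2 / 5) with h2 | h2
  · exact key x h0 h2
  · rcases le_total x (3 / 5) with h3 | h3
    · have := h.lowM h2 h3
      linarith
    · rw [← h.refl]
      exact key (1 - x) (by linarith) (by linarith)

theorem low2 (h : Fix f) {x : ℝ} (h0 : 1 / 8 ≤ x) (h1 : x ≤ 7 / 8) : 13 / 20 ≤ f x := by
  have key : ∀ y, 1 / 8 ≤ y → y ≤ 8 / 25 → 13 / 20 ≤ f y := by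
    intro y hy0 hy1
    have h2 := h.eqL (u := 5 / 2 * y) (by linarith) (by linarith)
    have e1 : 2 / 5 * (5 / 2 * y) = y := by ring
    rw [e1] at h2
    have h5 := h.low1 (x := 5 / 2 * y) (by linarith) (by linarith)
    linarith
  rcases le_total x (8 / 25) with h2 | h2
  · exact key x h0 h2
  · rcases le_total x (4 / 5) with h3 | h3
    · have := h.low1 (x := x) (by linarith) h3
      linarith
    · rw [← h.refl]
      exact key (1 - x) (by linarith) (by linarith)

theorem eqM' (h : Fix f) {x : ℝ} (h0 : 2 / 5 ≤ x) (h1 : x ≤ 3 / 5) :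
    f x = 1 + 1 / 5 * f (5 * x) := by
  have h2 := h.eqM (t := 5 * x - 2) (by linarith) (by linarith)
  have e1 : 2 / 5 + (5 * x - 2) / 5 = x := by ring
  rw [e1] at h2
  rw [h2]
  have h3 := h.add_int (5 * x - 2) 2
  have e2 : 5 * x - 2 + ((2 : ℤ) : ℝ) = 5 * x := by push_cast; ring
  rw [e2] at h3
  rw [h3]

/-- An auxiliary inequality with an error term. -/
def Q (f : ℝ → ℝ) (ε : ℝ) : Prop :=
  ∀ x d : ℝ, 0 ≤ d → 2 / 5 * d ≤ x → x + 4 / 5 * d ≤ 1 →
    f (x + 4 / 5 * d) ≤ f x + 4 / 5 * f d + ε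

theorem Q_step (h : Fix f) {ε : ℝ} (hε : 0 ≤ ε) (hQ : Q f ε) : Q f (2 / 5 * ε) := by
  intro x d hd hdx hxd
  have hε' : 0 ≤ 2 / 5 * ε := by linarith
  rcases le_total x (2 / 5) with hx | hx
  · -- `x` on the left
    have eX : 2 / 5 * (5 / 2 * x) = x := by ring
    have hfx := h.eqL (u := 5 / 2 * x) (by linarith) (by linarith)
    rw [eX] at hfx
    rcases le_total (5 / 2 * x + 2 * d) 1 with h1 | h1
    · have h2 := h.F1 (5 / 2 * x + 2 * d)
      rw [abs_of_nonneg (by linarith)] at h2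
      have e1 : 2 / 5 * (5 / 2 * x + 2 * d) = x + 4 / 5 * d := by ring
      rw [e1] at h2
      have h3 := hQ (5 / 2 * x) (5 / 2 * d) (by linarith) (by linarith) (by linarith)
      have e2 : 5 / 2 * x + 4 / 5 * (5 / 2 * d) = 5 / 2 * x + 2 * d := by ring
      rw [e2] at h3
      have h4 := h.eqL (u := 5 / 2 * d) (by linarith) (by linarith)
      have e3 : 2 / 5 * (5 / 2 * d) = d := by ring
      rw [e3] at h4
      linarith
    · rcases le_total (1 / 8) d with h2 | h2
      · have h3 := h.le (x + 4 / 5 * d)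
        rcases le_total (1 / 5) x with h4 | h4
        · have h5 := h.low1 h4 (by linarith)
          have h6 := h.low2 h2 (by linarith)
          linarith
        · have h5 := h.low1 (x := d) (by linarith) (by linarith)
          have h6 := h.low1 (x := 5 / 2 * x) (by linarith) (by linarith)
          linarith
      · -- `d` is small
        have h3 := h.F2 (x + 4 / 5 * d)
        set g : ℝ := 5 / 2 * (1 - 5 / 2 * x) with hg
        have h4 := hQ (1 - 4 * d) g (by linarith) (by linarith) (by linarith)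
        have e1 : 1 - 4 * d + 4 / 5 * g = 1 - (4 * d + 5 * x - 2) := by
          rw [hg]; ring
        rw [e1, h.refl, h.refl] at h4
        have h5 := h.add_int (4 * d + 5 * x - 2) 2
        have e2 : 4 * d + 5 * x - 2 + ((2 : ℤ) : ℝ) = 5 * (x + 4 / 5 * d) := by
          push_cast; ring
        rw [e2] at h5
        have h6 := h.two_mul d
        have h7 := h.two_mul (2 * d)
        have e3 : 2 * (2 * d) = 4 * d := by ring
        rw [e3] at h7
        have h8 := h.eqL (u := g) (by linarith) (by linarith)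
        have e4 : 2 / 5 * g = 1 - 5 / 2 * x := by rw [hg]; ring
        rw [e4, h.refl] at h8
        linarith
  · rcases le_total x (3 / 5) with hx' | hx'
    · -- `x` in the middle
      have h1 := h.F2 (x + 4 / 5 * d)
      have h2 := h.eqM' hx hx'
      have h3 := h.sub (5 * x) (4 * d)
      have e1 : 5 * x + 4 * d = 5 * (x + 4 / 5 * d) := by ring
      rw [e1] at h3
      have h6 := h.two_mul d
      have h7 := h.two_mul (2 * d)
      have e3 : 2 * (2 * d) = 4 * d := by ring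
      rw [e3] at h7
      linarith
    · -- `x` on the right
      have h1 := h.F1 (5 / 2 * (1 - x - 4 / 5 * d))
      rw [abs_of_nonneg (by linarith)] at h1
      have e1 : 2 / 5 * (5 / 2 * (1 - x - 4 / 5 * d)) = 1 - (x + 4 / 5 * d) := by ring
      rw [e1, h.refl] at h1
      have h2 := h.eqL (u := 5 / 2 * (1 - x)) (by linarith) (by linarith)
      have e2 : 2 / 5 * (5 / 2 * (1 - x)) = 1 - x := by ring
      rw [e2, h.refl] at h2
      have h3 := h.sub' (5 / 2 * (1 - x)) (2 * d)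
      have e3 : 5 / 2 * (1 - x) - 2 * d = 5 / 2 * (1 - x - 4 / 5 * d) := by ring
      rw [e3] at h3
      have h6 := h.two_mul d
      linarith

/-- A bounded defect that contracts is nonpositive. -/
theorem contract {P : ℝ → Prop} {ε₀ : ℝ} (hε₀ : 0 ≤ ε₀) (h0 : P ε₀)
    (hstep : ∀ ε, 0 ≤ ε → P ε → P (2 / 5 * ε)) (n : ℕ) : P ((2 / 5) ^ n * ε₀) := by
  induction n with
  | zero => simpa using h0
  | succ n ih =>
    have := hstep _ (by positivity) ih
    rw [pow_succ]
    have e : (2 / 5 : ℝ) ^ n * (2 / 5) * ε₀ = 2 / 5 * ((2 / 5) ^ n * ε₀) := by ring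
    rw [e]
    exact this

theorem le_of_contract {a b ε₀ : ℝ} (h : ∀ n : ℕ, a ≤ b + (2 / 5) ^ n * ε₀) : a ≤ b := by
  have hlim : Tendsto (fun n : ℕ => b + (2 / 5 : ℝ) ^ n * ε₀) atTop (𝓝 (b + 0 * ε₀)) :=
    ((tendsto_pow_atTop_nhds_zero_of_lt_one (by norm_num) (by norm_num)).mul_const _).const_add _
  rw [zero_mul, add_zero] at hlim
  exact ge_of_tendsto' hlim h

theorem Q_all (h : Fix f) {x d : ℝ} (hd : 0 ≤ d) (hdx : 2 / 5 * d ≤ x) (hxd : x + 4 / 5 * d ≤ 1) :
    f (x + 4 / 5 * d) ≤ f x + 4 / 5 * f d := by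
  have h0 : Q f (5 / 4) := by
    intro x d _ _ _
    have h1 := h.le (x + 4 / 5 * d)
    have h2 := h.nonneg x
    have h3 := h.nonneg d
    linarith
  exact le_of_contract (ε₀ := 5 / 4) fun n =>
    contract (P := Q f) (by norm_num) h0 (fun ε hε hP => h.Q_step hε hP) n x d hd hdx hxd

/-- The reduced five point inequality with an error term. -/
def I2 (f : ℝ → ℝ) (ε : ℝ) : Prop :=
  ∀ a k b : ℝ, 0 ≤ a → a ≤ k → k ≤ b → b ≤ 1 →
    f ((2 * a + k + 2 * b) / 5) ≤ (2 * f a + f k + 2 * f b) / 5 + (b - a) + ε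

theorem X' (h : Fix f) {u k : ℝ} (hk : 0 ≤ k) (hku : k ≤ 2 * u) :
    f ((2 * u - k) / 5) ≤ u + (2 * f u + f k) / 5 := by
  have h1 := h.F1 (u - k / 2)
  have e1 : 2 / 5 * (u - k / 2) = (2 * u - k) / 5 := by ring
  rw [e1, abs_of_nonneg (by linarith)] at h1
  have h2 := h.sub' u (k / 2)
  have h3 := h.half k
  rw [abs_of_nonneg hk] at h3
  linarith

theorem Q2 (h : Fix f) {s t : ℝ} (hs : 0 ≤ s) (hst : s ≤ t) :
    f ((s + 2 * t) / 4) ≤ (f s + 2 * f t) / 4 + 5 / 4 * t := by
  have h1 := h.mid (t / 2) ((s + t) / 2)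
  have e1 : (t / 2 + (s + t) / 2) / 2 = (s + 2 * t) / 4 := by ring
  have e2 : (s + t) / 2 - t / 2 = s / 2 := by ring
  rw [e1, e2, abs_of_nonneg (by linarith)] at h1
  have h2 := h.mid s t
  rw [abs_of_nonneg (by linarith)] at h2
  have h3 := h.half t
  rw [abs_of_nonneg (by linarith)] at h3
  linarith

theorem P7 (h : Fix f) {ε : ℝ} (hε : 0 ≤ ε) (hI : I2 f ε) {s t α : ℝ} (hs : 0 ≤ s) (hst : s ≤ t)
    (ht : t ≤ 1) (hα : 0 ≤ α) (hα2 : 2 * α ≤ s + 2 * t) :
    f ((s + 2 * t - 2 * α) / 5) ≤ t + (f s + 2 * f t + 2 * f α) / 5 + ε := by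
  rcases le_total α s with h1 | h1
  · rcases le_total s (t - α) with h2 | h2
    · have h3 := hI 0 s (t - α) le_rfl hs h2 (by linarith)
      have e1 : (2 * 0 + s + 2 * (t - α)) / 5 = (s + 2 * t - 2 * α) / 5 := by ring
      rw [e1, h.zero] at h3
      have h4 := h.sub' t α
      linarith
    · have h3 := hI 0 (t - α) ((t - α + s) / 2) le_rfl (by linarith) (by linarith) (by linarith)
      have e1 : (2 * 0 + (t - α) + 2 * ((t - α + s) / 2)) / 5 = (s + 2 * t - 2 * α) / 5 := by ring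
      rw [e1, h.zero] at h3
      have h5 := h.mid (t - α) s
      rw [abs_of_nonneg (by linarith)] at h5
      have h4 := h.sub' t α
      linarith
  · have h2 := h.F1 (s / 2 + t - α)
    have e1 : 2 / 5 * (s / 2 + t - α) = (s + 2 * t - 2 * α) / 5 := by ring
    rw [e1, abs_of_nonneg (by linarith)] at h2
    have h3 := h.sub' (s / 2 + t) α
    have h4 := h.sub (s / 2) t
    have h5 := h.half s
    rw [abs_of_nonneg hs] at h5
    linarith

end Fix

end Pool.Agent.MP_56f843_an
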