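import Pool.Agent.MP_56f843_an.FiveCore

set_option autoImplicit false

namespace Pool.Agent.MP_56f843_an

open Filter Topology

namespace Fix

variable {f : ℝ → ℝ}

theorem LLL (h : Fix f) {ε : ℝ} (hI : I2 f ε) {u w v : ℝ} (hu : 0 ≤ u)
    (huw : u ≤ w) (hwv : w ≤ v) (hv : v ≤ 1) :
    f ((2 * (2 / 5 * u) + 2 / 5 * w + 2 * (2 / 5 * v)) / 5) ≤
      (2 * f (2 / 5 * u) + f (2 / 5 * w) + 2 * f (2 / 5 * v)) / 5 +
        (2 / 5 * v - 2 / 5 * u) + 2 / 5 * ε := by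
  rw [h.eqL hu (by linarith), h.eqL (by linarith : 0 ≤ w) (by linarith),
    h.eqL (by linarith : 0 ≤ v) hv]
  have h1 := h.F1 ((2 * u + w + 2 * v) / 5)
  rw [abs_of_nonneg (by linarith)] at h1
  have h2 := hI u w v hu huw hwv hv
  have e1 : (2 * (2 / 5 * u) + 2 / 5 * w + 2 * (2 / 5 * v)) / 5 =
    2 / 5 * ((2 * u + w + 2 * v) / 5) := by ring
  rw [e1]
  linarith

theorem MMM (h : Fix f) {ε : ℝ} (hI : I2 f ε) {u w v : ℝ} (hu : 0 ≤ u)
    (huw : u ≤ w) (hwv : w ≤ v) (hv : v ≤ 1) :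
    f ((2 * (2 / 5 + u / 5) + (2 / 5 + w / 5) + 2 * (2 / 5 + v / 5)) / 5) ≤
      (2 * f (2 / 5 + u / 5) + f (2 / 5 + w / 5) + 2 * f (2 / 5 + v / 5)) / 5 +
        ((2 / 5 + v / 5) - (2 / 5 + u / 5)) + 1 / 5 * ε := by
  rw [h.eqM hu (by linarith), h.eqM (by linarith : 0 ≤ w) (by linarith),
    h.eqM (by linarith : 0 ≤ v) hv]
  have h1 := h.eqM (t := (2 * u + w + 2 * v) / 5) (by linarith) (by linarith)
  have h2 := hI u w v hu huw hwv hv
  have e1 : (2 * (2 / 5 + u / 5) + (2 / 5 + w / 5) + 2 * (2 / 5 + v / 5)) / 5 =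
    2 / 5 + ((2 * u + w + 2 * v) / 5) / 5 := by ring
  rw [e1, h1]
  linarith

theorem LLM (h : Fix f) {ε : ℝ} (hε : 0 ≤ ε) (hI : I2 f ε) {u w t : ℝ} (hu : 0 ≤ u)
    (huw : u ≤ w) (hw : w ≤ 1) (ht : 0 ≤ t) (ht1 : t ≤ 1) :
    f ((2 * (2 / 5 * u) + 2 / 5 * w + 2 * (2 / 5 + t / 5)) / 5) ≤
      (2 * f (2 / 5 * u) + f (2 / 5 * w) + 2 * f (2 / 5 + t / 5)) / 5 +
        ((2 / 5 + t / 5) - 2 / 5 * u) + 2 / 5 * ε := by
  rw [h.eqL hu (by linarith), h.eqL (by linarith : 0 ≤ w) hw, h.eqM ht ht1]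
  rcases le_total (w + t) 1 with h1 | h1
  · have h2 := h.F1 ((2 * u + (w + t) + 2 * 1) / 5)
    rw [abs_of_nonneg (by linarith)] at h2
    have h3 := hI u (w + t) 1 hu (by linarith) h1 le_rfl
    rw [h.one] at h3
    have h4 := h.sub w t
    have e1 : (2 * (2 / 5 * u) + 2 / 5 * w + 2 * (2 / 5 + t / 5)) / 5 =
      2 / 5 * ((2 * u + (w + t) + 2 * 1) / 5) := by ring
    rw [e1]
    linarith
  · -- `k' = w + t - 1`, `ū = 1 - u`
    have hk : f (w + t - 1) ≤ f w + f t := by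
      have h2 := h.sub w t
      have h3 := h.per (w + t - 1)
      have e1 : w + t - 1 + 1 = w + t := by ring
      rw [e1] at h3
      rw [h3] at h2
      exact h2
    rcases le_total (w + t - 1) (1 - u) with h2 | h2
    · have h3 := h.X' (u := 1 - u) (k := w + t - 1) (by linarith) (by linarith)
      have h4 := h.F1 ((2 * u + (w + t) + 2 * 1) / 5)
      rw [abs_of_nonneg (by linarith)] at h4
      have h5 := h.refl ((2 * u + (w + t) + 2 * 1) / 5)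
      have e2 : 1 - (2 * u + (w + t) + 2 * 1) / 5 = (2 * (1 - u) - (w + t - 1)) / 5 := by ring
      rw [e2] at h5
      rw [h5, h.refl] at h3
      have e1 : (2 * (2 / 5 * u) + 2 / 5 * w + 2 * (2 / 5 + t / 5)) / 5 =
        2 / 5 * ((2 * u + (w + t) + 2 * 1) / 5) := by ring
      rw [e1]
      linarith
    · have h3 := h.F1 ((w + t - 1) - 2 * (1 - u))
      have h4 : |(w + t - 1) - 2 * (1 - u)| ≤ w + t - 1 := by
        rw [abs_le]
        constructor <;> linarith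
      have h5 := h.sub' (w + t - 1) (2 * (1 - u))
      have h6 := h.two_mul (1 - u)
      rw [h.refl] at h6
      have h7 := h.F2 ((2 * (2 / 5 * u) + 2 / 5 * w + 2 * (2 / 5 + t / 5)) / 5)
      have h8 := h.add_int (2 / 5 * ((w + t - 1) - 2 * (1 - u))) 2
      have e1 : 2 / 5 * ((w + t - 1) - 2 * (1 - u)) + ((2 : ℤ) : ℝ) =
        5 * ((2 * (2 / 5 * u) + 2 / 5 * w + 2 * (2 / 5 + t / 5)) / 5) := by push_cast; ring
      rw [e1] at h8
      linarith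

theorem LLR (h : Fix f) {ε : ℝ} (hε : 0 ≤ ε) {u w v : ℝ} (hu : 0 ≤ u)
    (huw : u ≤ w) (hw : w ≤ 1) (hv : 0 ≤ v) (hv1 : v ≤ 1) :
    f ((2 * (2 / 5 * u) + 2 / 5 * w + 2 * (1 - 2 / 5 * v)) / 5) ≤
      (2 * f (2 / 5 * u) + f (2 / 5 * w) + 2 * f (1 - 2 / 5 * v)) / 5 +
        ((1 - 2 / 5 * v) - 2 / 5 * u) + 2 / 5 * ε := by
  have hfw := h.eqL (by linarith : 0 ≤ w) hw
  rw [h.eqL hu (by linarith), h.eqR hv hv1]
  rcases le_total u v with h1 | h1
  · have hs := h.sub' v u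
    rcases le_total w (v - u) with h2 | h2
    · have h3 := h.X' (u := v - u) (k := w) (by linarith) (by linarith)
      have h4 := h.F1 (1 - (2 * (v - u) - w) / 5)
      rw [abs_of_nonneg (by linarith), h.refl] at h4
      have e1 : (2 * (2 / 5 * u) + 2 / 5 * w + 2 * (1 - 2 / 5 * v)) / 5 =
        2 / 5 * (1 - (2 * (v - u) - w) / 5) := by ring
      rw [e1, hfw]
      linarith
    · have h3 := h.F1 (w - 2 * (v - u))
      have h4 : |w - 2 * (v - u)| ≤ w := by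
        rw [abs_le]
        constructor <;> linarith
      have h5 := h.sub' w (2 * (v - u))
      have h6 := h.two_mul (v - u)
      have h7 := h.F2 ((2 * (2 / 5 * u) + 2 / 5 * w + 2 * (1 - 2 / 5 * v)) / 5)
      have h8 := h.add_int (2 / 5 * (w - 2 * (v - u))) 2
      have e1 : 2 / 5 * (w - 2 * (v - u)) + ((2 : ℤ) : ℝ) =
        5 * ((2 * (2 / 5 * u) + 2 / 5 * w + 2 * (1 - 2 / 5 * v)) / 5) := by push_cast; ring
      rw [e1] at h8
      rw [hfw]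
      linarith
  · have hs := h.sub' u v
    rcases le_total (2 / 5 * w + 4 / 5 * (u - v)) 1 with h2 | h2
    · have h3 := h.Q_all (x := 2 / 5 * w) (d := u - v) (by linarith) (by linarith) h2
      have h7 := h.F2 ((2 * (2 / 5 * u) + 2 / 5 * w + 2 * (1 - 2 / 5 * v)) / 5)
      have h8 := h.add_int (2 / 5 * w + 4 / 5 * (u - v)) 2
      have e1 : 2 / 5 * w + 4 / 5 * (u - v) + ((2 : ℤ) : ℝ) =
        5 * ((2 * (2 / 5 * u) + 2 / 5 * w + 2 * (1 - 2 / 5 * v)) / 5) := by push_cast; ring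
      rw [e1] at h8
      linarith
    · -- far on the right
      set θ : ℝ := 4 * (1 - u) + 2 * (1 - w) + 4 * v with hθ
      have hθ0 : 0 ≤ θ := by rw [hθ]; linarith
      have hθ1 : θ ≤ 1 := by rw [hθ]; linarith
      have h3 := h.F1 ((9 + θ) / 10)
      rw [abs_of_nonneg (by linarith)] at h3
      have e1 : 2 / 5 * ((9 + θ) / 10) =
        1 - (2 * (2 / 5 * u) + 2 / 5 * w + 2 * (1 - 2 / 5 * v)) / 5 := by rw [hθ]; ring
      rw [e1, h.refl] at h3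
      have h4 := h.refl ((9 + θ) / 10)
      have h5 := h.F1 (5 / 2 * (1 - (9 + θ) / 10))
      rw [abs_of_nonneg (by linarith)] at h5
      have e2 : 2 / 5 * (5 / 2 * (1 - (9 + θ) / 10)) = 1 - (9 + θ) / 10 := by ring
      rw [e2, h4] at h5
      have h6 := h.lin (5 / 2 * (1 - (9 + θ) / 10))
      rw [abs_of_nonneg (by linarith)] at h6
      have h7 := h.nonneg u
      have h8 := h.nonneg v
      have h9 := h.nonneg w
      rw [hfw]
      linarith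

theorem LMM (h : Fix f) {ε : ℝ} (hε : 0 ≤ ε) (hI : I2 f ε) {u s t : ℝ} (hu : 0 ≤ u)
    (hu1 : u ≤ 1) (hs : 0 ≤ s) (hst : s ≤ t) (ht : t ≤ 1) :
    f ((2 * (2 / 5 * u) + (2 / 5 + s / 5) + 2 * (2 / 5 + t / 5)) / 5) ≤
      (2 * f (2 / 5 * u) + f (2 / 5 + s / 5) + 2 * f (2 / 5 + t / 5)) / 5 +
        ((2 / 5 + t / 5) - 2 / 5 * u) + 2 / 5 * ε := by
  rw [h.eqL hu hu1, h.eqM hs (by linarith), h.eqM (by linarith) ht]
  rcases le_total (4 * (1 - u)) (s + 2 * t) with h1 | h1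
  · have h2 := h.P7 hε hI (α := 2 * (1 - u)) hs hst ht (by linarith) (by linarith)
    have h6 := h.two_mul (1 - u)
    rw [h.refl] at h6
    have h7 := h.F2 ((2 * (2 / 5 * u) + (2 / 5 + s / 5) + 2 * (2 / 5 + t / 5)) / 5)
    have h8 := h.add_int ((s + 2 * t - 2 * (2 * (1 - u))) / 5) 2
    have e1 : (s + 2 * t - 2 * (2 * (1 - u))) / 5 + ((2 : ℤ) : ℝ) =
      5 * ((2 * (2 / 5 * u) + (2 / 5 + s / 5) + 2 * (2 / 5 + t / 5)) / 5) := by push_cast; ring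
    rw [e1] at h8
    linarith
  · have h2 := h.F1 ((1 - u) - (s + 2 * t) / 4)
    rw [abs_of_nonneg (by linarith)] at h2
    have h3 := h.sub' (1 - u) ((s + 2 * t) / 4)
    rw [h.refl] at h3
    have h4 := h.Q2 hs hst
    have h5 := h.F1 (1 - 2 / 5 * ((1 - u) - (s + 2 * t) / 4))
    rw [abs_of_nonneg (by linarith), h.refl] at h5
    have e1 : (2 * (2 / 5 * u) + (2 / 5 + s / 5) + 2 * (2 / 5 + t / 5)) / 5 =
      2 / 5 * (1 - 2 / 5 * ((1 - u) - (s + 2 * t) / 4)) := by ring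
    rw [e1]
    linarith

theorem LMR (h : Fix f) {ε : ℝ} (hε : 0 ≤ ε) (hI : I2 f ε) {u s v : ℝ} (hu : 0 ≤ u)
    (huv : u ≤ v) (hv : v ≤ 1) (hs : 0 ≤ s) (hs1 : s ≤ 1) :
    f ((2 * (2 / 5 * u) + (2 / 5 + s / 5) + 2 * (1 - 2 / 5 * v)) / 5) ≤
      (2 * f (2 / 5 * u) + f (2 / 5 + s / 5) + 2 * f (1 - 2 / 5 * v)) / 5 +
        ((1 - 2 / 5 * v) - 2 / 5 * u) + 2 / 5 * ε := by
  rw [h.eqL hu (by linarith), h.eqM hs hs1, h.eqR (by linarith) hv]
  rcases le_total (4 * (v - u)) (s + 2) with h1 | h1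
  · have h2 := h.P7 hε hI (t := 1) (α := 2 * (v - u)) hs hs1 le_rfl (by linarith) (by linarith)
    have h6 := h.two_mul (v - u)
    have h9 := h.sub' v u
    rw [h.one] at h2
    have h7 := h.F2 ((2 * (2 / 5 * u) + (2 / 5 + s / 5) + 2 * (1 - 2 / 5 * v)) / 5)
    have h8 := h.add_int ((s + 2 * 1 - 2 * (2 * (v - u))) / 5) 2
    have e1 : (s + 2 * 1 - 2 * (2 * (v - u))) / 5 + ((2 : ℤ) : ℝ) =
      5 * ((2 * (2 / 5 * u) + (2 / 5 + s / 5) + 2 * (1 - 2 / 5 * v)) / 5) := by push_cast; ring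
    rw [e1] at h8
    linarith
  · have h2 := h.F1 ((v - u) - 1 / 2 - s / 4)
    rw [abs_of_nonneg (by linarith)] at h2
    have h3 := h.le ((v - u) - 1 / 2 - s / 4)
    have h5 := h.F1 (1 - 2 / 5 * ((v - u) - 1 / 2 - s / 4) + 1 / 5 * 0)
    rw [abs_of_nonneg (by linarith)] at h5
    have e2 : 1 - 2 / 5 * ((v - u) - 1 / 2 - s / 4) + 1 / 5 * 0 =
      1 - 2 / 5 * ((v - u) - 1 / 2 - s / 4) := by ring
    rw [e2, h.refl] at h5
    have e1 : (2 * (2 / 5 * u) + (2 / 5 + s / 5) + 2 * (1 - 2 / 5 * v)) / 5 =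
      2 / 5 * (1 - 2 / 5 * ((v - u) - 1 / 2 - s / 4)) := by ring
    have h7 := h.nonneg u
    have h8 := h.nonneg v
    have h9 := h.nonneg s
    rw [e1]
    linarith

end Fix

end Pool.Agent.MP_56f843_an
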