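import Pool.Agent.MP_56f843_an.Takagi

set_option autoImplicit false

namespace Pool.Agent.MP_56f843_an

open Filter Topology

variable {m : ℕ} {f : ℝ → ℝ}

/-- The class is invariant under the reflection `x ↦ 1 - x`. -/
theorem InClass.reflect (h : InClass m f) (hm : 1 ≤ m) : InClass m (fun x => f (1 - x)) := by
  have hm0 : (m : ℝ) ≠ 0 := by
    have : (1 : ℝ) ≤ m := by exact_mod_cast hm
    linarith
  refine ⟨?_, ?_⟩
  · have h1 := h.zero_le
    have h2 := h.one_le
    simp only [sub_zero, sub_self]
    exact max_le h2 h1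
  · intro x hx1 hx2 hx3
    have h1 := h.2 (fun i => 1 - x (m + 1 - i)) ?_ ?_ ?_
    · have hsum : ∀ g : ℕ → ℝ, ∑ i ∈ Finset.Icc 1 m, g (m + 1 - i) =
          ∑ i ∈ Finset.Icc 1 m, g i := by
        intro g
        refine Finset.sum_nbij' (fun i => m + 1 - i) (fun i => m + 1 - i) ?_ ?_ ?_ ?_ ?_
        · intro i hi; simp only [Finset.mem_Icc] at hi ⊢; omega
        · intro i hi; simp only [Finset.mem_Icc] at hi ⊢; omega
        · intro i hi; simp only [Finset.mem_Icc] at hi; omega
        · intro i hi; simp only [Finset.mem_Icc] at hi; omega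
        · intro i hi; rfl
      have e1 : (∑ i ∈ Finset.Icc 1 m, (1 - x (m + 1 - i))) / (m : ℝ) =
          1 - (∑ i ∈ Finset.Icc 1 m, x i) / m := by
        rw [Finset.sum_sub_distrib, hsum x]
        rw [Finset.sum_const, Nat.card_Icc, nsmul_eq_mul, mul_one, sub_div]
        congr 1
        have : m + 1 - 1 = m := by omega
        rw [this, div_self hm0]
      have e2 : ∑ i ∈ Finset.Icc 1 m, f (1 - x (m + 1 - i)) =
          ∑ i ∈ Finset.Icc 1 m, f (1 - x i) := hsum (fun i => f (1 - x i))
      have e3 : m + 1 - m = 1 := by omega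
      have e4 : m + 1 - 1 = m := by omega
      rw [e1, e2, e3, e4] at h1
      have e5 : 1 - x 1 - (1 - x m) = x m - x 1 := by ring
      rw [e5] at h1
      exact h1
    · have e4 : m + 1 - 1 = m := by omega
      rw [e4]
      linarith
    · intro i hi1 hi2
      have := hx2 (m - i) (by omega) (by omega)
      have e1 : m + 1 - i = m - i + 1 := by omega
      have e2 : m + 1 - (i + 1) = m - i := by omega
      rw [e1, e2]
      linarith
    · have e3 : m + 1 - m = 1 := by omega
      rw [e3]
      linarith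

theorem distInt_double (t : ℝ) : distInt t + distInt (2 * t) / 2 = 2 * min (distInt t) (1 / 4) := by
  set n := round t with hn
  set r := t - n with hr
  have h1 : |r| ≤ 1 / 2 := abs_sub_round t
  have h2 : distInt t = |r| := rfl
  rcases le_total |r| (1 / 4) with h | h
  · have h3 : distInt (2 * t) = 2 * |r| := by
      rw [distInt_eq (2 * t) (2 * n)]
      · push_cast
        rw [← mul_sub, abs_mul, abs_of_nonneg (by norm_num : (0 : ℝ) ≤ 2)]
      · push_cast
        rw [← mul_sub, abs_mul, abs_of_nonneg (by norm_num : (0 : ℝ) ≤ 2)]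
        linarith
    rw [h2, h3, min_eq_left h]
    ring
  · rw [h2, min_eq_right h]
    have h3 : distInt (2 * t) = 1 - 2 * |r| := by
      rcases abs_cases r with ⟨h4, h5⟩ | ⟨h4, h5⟩
      · rw [h4] at h h1 ⊢
        rw [distInt_eq (2 * t) (2 * n + 1)]
        · push_cast
          rw [abs_of_nonpos (by linarith)]
          linarith
        · push_cast
          rw [abs_of_nonpos (by linarith)]
          linarith
      · rw [h4] at h h1 ⊢
        rw [distInt_eq (2 * t) (2 * n - 1)]
        · push_cast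
          rw [abs_of_nonneg (by linarith)]
          linarith
        · push_cast
          rw [abs_of_nonneg (by linarith)]
          linarith
    rw [h3]
    ring

theorem takagi_four (x : ℝ) : takagi x = 2 * min (distInt x) (1 / 4) + takagi (4 * x) / 4 := by
  rw [takagi_rec x, takagi_rec (2 * x), ← distInt_double]
  have : 2 * (2 * x) = 4 * x := by ring
  rw [this]
  ring

theorem series_term_bound (m : ℕ) (hm : 2 ≤ m) (x : ℝ) (k : ℕ) :
    ‖((m : ℝ) ^ (k + 1))⁻¹ * min (distInt ((m : ℝ) ^ k * x)) (1 / m)‖ ≤ (1 / 2) ^ k * (1 / 2) := by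
  have hm' : (2 : ℝ) ≤ m := by exact_mod_cast hm
  have h1 : 0 ≤ min (distInt ((m : ℝ) ^ k * x)) (1 / m) :=
    le_min (distInt_nonneg _) (by positivity)
  have h2 : min (distInt ((m : ℝ) ^ k * x)) (1 / m) ≤ 1 / 2 := (min_le_left _ _).trans
    (distInt_le_half _)
  rw [Real.norm_of_nonneg (mul_nonneg (by positivity) h1)]
  have h3 : ((m : ℝ) ^ (k + 1))⁻¹ ≤ (1 / 2) ^ k := by
    rw [one_div, inv_pow]
    apply inv_anti₀ (by positivity)
    calc (2 : ℝ) ^ k ≤ (m : ℝ) ^ k := pow_le_pow_left₀ (by norm_num) hm' k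
      _ ≤ (m : ℝ) ^ (k + 1) := pow_le_pow_right₀ (by linarith) (Nat.le_succ k)
  exact mul_le_mul h3 h2 h1 (by positivity)

theorem summable_series (m : ℕ) (hm : 2 ≤ m) (x : ℝ) :
    Summable fun k : ℕ => ((m : ℝ) ^ (k + 1))⁻¹ * min (distInt ((m : ℝ) ^ k * x)) (1 / m) :=
  Summable.of_norm_bounded summable_bound (series_term_bound m hm x)

theorem series_rec (m : ℕ) (hm : 2 ≤ m) (x : ℝ) :
    series m x = min (distInt x) (1 / m) / m + series m (m * x) / m := by
  have h1 : series m x = ((m : ℝ) ^ (0 + 1))⁻¹ * min (distInt ((m : ℝ) ^ 0 * x)) (1 / m) +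
      ∑' k : ℕ, ((m : ℝ) ^ (k + 1 + 1))⁻¹ * min (distInt ((m : ℝ) ^ (k + 1) * x)) (1 / m) :=
    (summable_series m hm x).tsum_eq_zero_add
  have h2 : ∑' k : ℕ, ((m : ℝ) ^ (k + 1 + 1))⁻¹ * min (distInt ((m : ℝ) ^ (k + 1) * x)) (1 / m) =
      ∑' k : ℕ, ((m : ℝ) ^ (k + 1))⁻¹ * min (distInt ((m : ℝ) ^ k * (m * x))) (1 / m) *
        (m : ℝ)⁻¹ := by
    apply tsum_congr
    intro k
    have : (m : ℝ) ^ (k + 1) * x = (m : ℝ) ^ k * (m * x) := by ring
    rw [this, pow_succ (m : ℝ) (k + 1), mul_inv]
    ring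
  rw [h1, h2, tsum_mul_right]
  unfold series
  rw [pow_zero, one_mul, zero_add, pow_one]
  ring

theorem series_nonneg (m : ℕ) (x : ℝ) : 0 ≤ series m x :=
  tsum_nonneg fun _ => mul_nonneg (by positivity) (le_min (distInt_nonneg _) (by positivity))

theorem series_four (x : ℝ) : 16 * series 4 x = 2 * takagi x := by
  -- compare the two bounded solutions of the same recursion
  have hb1 : ∀ x, |16 * series 4 x - 2 * takagi x| ≤ 16 := by
    intro x
    have h1 : series 4 x ≤ 1 := by
      have h2 : series 4 x ≤ ∑' k : ℕ, (1 / 2 : ℝ) ^ k * (1 / 2) :=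
        (summable_series 4 (by norm_num) x).tsum_le_tsum
          (fun k => (le_abs_self _).trans (series_term_bound 4 (by norm_num) x k)) summable_bound
      have h3 : ∑' k : ℕ, (1 / 2 : ℝ) ^ k * (1 / 2) = 1 := by
        rw [tsum_mul_right, tsum_geometric_of_lt_one (by norm_num) (by norm_num)]
        norm_num
      linarith
    have h4 : takagi x ≤ 1 := by
      have h2 : takagi x ≤ ∑' k : ℕ, (1 / 2 : ℝ) ^ k * (1 / 2) :=
        (summable_takagi x).tsum_le_tsum
          (fun k => (le_abs_self _).trans (takagi_term_bound x k)) summable_bound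
      have h3 : ∑' k : ℕ, (1 / 2 : ℝ) ^ k * (1 / 2) = 1 := by
        rw [tsum_mul_right, tsum_geometric_of_lt_one (by norm_num) (by norm_num)]
        norm_num
      linarith
    have h5 := series_nonneg 4 x
    have h6 := takagi_nonneg x
    rw [abs_le]
    constructor <;> linarith
  have hrec : ∀ x, 16 * series 4 x - 2 * takagi x =
      (16 * series 4 (4 * x) - 2 * takagi (4 * x)) / 4 := by
    intro x
    rw [series_rec 4 (by norm_num) x, takagi_four x]
    push_cast
    ring
  have hn : ∀ (n : ℕ) (x : ℝ), |16 * series 4 x - 2 * takagi x| ≤ 16 * (1 / 4) ^ n := by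
    intro n
    induction n with
    | zero => intro x; simpa using hb1 x
    | succ n ih =>
      intro x
      rw [hrec x, abs_div, abs_of_pos (by norm_num : (0 : ℝ) < 4), pow_succ]
      have := ih (4 * x)
      linarith
  have hlim : Tendsto (fun n : ℕ => 16 * (1 / 4 : ℝ) ^ n) atTop (𝓝 (16 * 0)) :=
    (tendsto_pow_atTop_nhds_zero_of_lt_one (by norm_num) (by norm_num)).const_mul 16
  rw [mul_zero] at hlim
  have h0 : |16 * series 4 x - 2 * takagi x| ≤ 0 := ge_of_tendsto' hlim fun n => hn n x
  have h1 := abs_nonpos_iff.1 h0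
  linarith

theorem sum_Icc_four (g : ℕ → ℝ) : ∑ i ∈ Finset.Icc 1 4, g i = g 1 + g 2 + g 3 + g 4 := by
  have : Finset.Icc 1 4 = {1, 2, 3, 4} := by decide
  rw [this]
  simp
  ring

/-- Twice the Takagi function belongs to the class for `m = 4`. -/
theorem inClass_four_takagi : InClass 4 (fun x => 2 * takagi x) := by
  refine ⟨?_, ?_⟩
  · have h0 := takagi_intCast 0
    have h1 := takagi_intCast 1
    simp only [Int.cast_zero, Int.cast_one] at h0 h1
    simp [h0, h1]
  · intro x hx1 hx2 hx3
    rw [sum_Icc_four, sum_Icc_four]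
    have a1 := hx2 1 le_rfl (by norm_num)
    have a2 := hx2 2 (by norm_num) (by norm_num)
    have a3 := hx2 3 (by norm_num) (by norm_num)
    norm_num at a1 a2 a3
    set a := x 1
    set b := x 2
    set c := x 3
    set d := x 4
    have h1 := takagi_mid ((a + d) / 2) ((b + c) / 2)
    have h2 := takagi_mid a d
    have h3 := takagi_mid b c
    have e1 : ((a + d) / 2 + (b + c) / 2) / 2 = (a + b + c + d) / (4 : ℕ) := by
      push_cast; ring
    rw [e1] at h1
    have h4 : |a - d| = d - a := by
      rw [abs_sub_comm]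
      exact abs_of_nonneg (by linarith)
    have h5 : |b - c| = c - b := by
      rw [abs_sub_comm]
      exact abs_of_nonneg (by linarith)
    rw [h4] at h2
    rw [h5] at h3
    have h6 : |(a + d) / 2 - (b + c) / 2| ≤ (d - a) - (c - b) / 2 - (d - a) / 2 := by
      rw [abs_le]
      constructor <;> linarith
    push_cast at h1 ⊢
    linarith

/-- One step of the upper bound for `m = 4`. -/
theorem InClass.step_four (h : InClass 4 f) {x : ℝ} (hx : x ∈ Set.Icc (0 : ℝ) 1) :
    ∃ j : ℤ, 4 * x - j ∈ Set.Icc (0 : ℝ) 1 ∧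
      f x - 2 * takagi x ≤ (f (4 * x - j) - 2 * takagi (4 * x - j)) / 4 := by
  obtain ⟨hx0, hx1⟩ := hx
  have h1 := h.one_le
  rcases le_total x (1 / 4) with h4 | h4
  · refine ⟨0, ⟨by push_cast; linarith, by push_cast; linarith⟩, ?_⟩
    have h2 := h.tuple (b := 0) (by norm_num) (y := 4 * x) (v := 4 * x) (by linarith) le_rfl
      (by linarith)
    have e1 : (4 * x + ((0 : ℕ) : ℝ) * (4 * x)) / ((4 : ℕ) : ℝ) = x := by push_cast; ring
    rw [e1] at h2
    push_cast at h2 ⊢
    rw [takagi_four x, sub_zero]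
    have e2 : distInt x = x := by
      rw [distInt_eq x 0]
      · simp [hx0, abs_of_nonneg]
      · simp only [Int.cast_zero, sub_zero]
        rw [abs_of_nonneg hx0]
        linarith
    rw [e2, min_eq_left h4]
    linarith
  · rcases le_total x (1 / 2) with h5 | h5
    · refine ⟨1, ⟨by push_cast; linarith, by push_cast; linarith⟩, ?_⟩
      have h2 := h.tuple (b := 1) (by norm_num) (y := 4 * x - 1) (v := 1) (by linarith)
        (by linarith) le_rfl
      have e1 : (4 * x - 1 + ((1 : ℕ) : ℝ) * 1) / ((4 : ℕ) : ℝ) = x := by push_cast; ring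
      rw [e1] at h2
      push_cast at h2 ⊢
      rw [takagi_four x]
      have e2 : distInt x = x := by
        rw [distInt_eq x 0]
        · simp [hx0, abs_of_nonneg]
        · simp only [Int.cast_zero, sub_zero]
          rw [abs_of_nonneg hx0]
          linarith
      have e3 : takagi (4 * x) = takagi (4 * x - 1) := by
        have := takagi_add_int (4 * x - 1) 1
        push_cast at this
        rw [sub_add_cancel] at this
        exact this
      rw [e2, min_eq_right h4, e3]
      linarith
    · rcases le_total x (3 / 4) with h6 | h6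
      · refine ⟨2, ⟨by push_cast; linarith, by push_cast; linarith⟩, ?_⟩
        have h2 := h.tuple (b := 2) (by norm_num) (y := 4 * x - 2) (v := 1) (by linarith)
          (by linarith) le_rfl
        have e1 : (4 * x - 2 + ((2 : ℕ) : ℝ) * 1) / ((4 : ℕ) : ℝ) = x := by push_cast; ring
        rw [e1] at h2
        push_cast at h2 ⊢
        rw [takagi_four x]
        have e2 : distInt x = 1 - x := by
          rw [distInt_eq x 1]
          · push_cast
            rw [abs_of_nonpos (by linarith)]
            ring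
          · push_cast
            rw [abs_of_nonpos (by linarith)]
            linarith
        have e3 : takagi (4 * x) = takagi (4 * x - 2) := by
          have := takagi_add_int (4 * x - 2) 2
          push_cast at this
          rw [sub_add_cancel] at this
          exact this
        rw [e2, min_eq_right (by linarith), e3]
        linarith
      · refine ⟨3, ⟨by push_cast; linarith, by push_cast; linarith⟩, ?_⟩
        have hr := h.reflect (by norm_num)
        have h2 := hr.tuple (b := 0) (by norm_num) (y := 4 * (1 - x)) (v := 4 * (1 - x))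
          (by linarith) le_rfl (by linarith)
        have e1 : (4 * (1 - x) + ((0 : ℕ) : ℝ) * (4 * (1 - x))) / ((4 : ℕ) : ℝ) = 1 - x := by
          push_cast; ring
        rw [e1] at h2
        push_cast at h2 ⊢
        have e4 : 1 - (1 - x) = x := by ring
        have e5 : 1 - 4 * (1 - x) = 4 * x - 3 := by ring
        rw [e4, e5] at h2
        rw [takagi_four x]
        have e2 : distInt x = 1 - x := by
          rw [distInt_eq x 1]
          · push_cast
            rw [abs_of_nonpos (by linarith)]
            ring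
          · push_cast
            rw [abs_of_nonpos (by linarith)]
            linarith
        have e3 : takagi (4 * x) = takagi (4 * x - 3) := by
          have := takagi_add_int (4 * x - 3) 3
          push_cast at this
          rw [sub_add_cancel] at this
          exact this
        rw [e2, min_eq_left (by linarith), e3]
        linarith

/-- Upper bound for `m = 4` on a set that is invariant under `x ↦ 4 x mod 1`. -/
theorem InClass.le_takagi_on (h : InClass 4 f) (X : Set ℝ) (hX : X ⊆ Set.Icc (0 : ℝ) 1)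
    (hinv : ∀ x ∈ X, ∀ j : ℤ, 4 * x - j ∈ Set.Icc (0 : ℝ) 1 → 4 * x - j ∈ X)
    (hbd : BddAbove (f '' X)) {x : ℝ} (hx : x ∈ X) : f x ≤ 2 * takagi x := by
  obtain ⟨B, hB⟩ := hbd
  have hB' : ∀ x ∈ X, f x ≤ B := fun x hx => hB ⟨x, hx, rfl⟩
  have hn : ∀ (n : ℕ), ∀ x ∈ X, f x - 2 * takagi x ≤ |B| * (1 / 4) ^ n := by
    intro n
    induction n with
    | zero =>
      intro x hx
      have h1 := hB' x hx
      have h2 := takagi_nonneg x
      have h3 := le_abs_self B
      rw [pow_zero, mul_one]
      linarith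
    | succ n ih =>
      intro x hx
      obtain ⟨j, ht, hle⟩ := h.step_four (hX hx)
      have h1 := ih _ (hinv x hx j ht)
      rw [pow_succ]
      linarith
  have hlim : Tendsto (fun n : ℕ => |B| * (1 / 4 : ℝ) ^ n) atTop (𝓝 (|B| * 0)) :=
    (tendsto_pow_atTop_nhds_zero_of_lt_one (by norm_num) (by norm_num)).const_mul _
  rw [mul_zero] at hlim
  have h0 : f x - 2 * takagi x ≤ 0 := ge_of_tendsto' hlim fun n => hn n x hx
  linarith

theorem InClass.le_takagi (h : InClass 4 f) (hbd : BddAbove (f '' Set.Icc 0 1)) {x : ℝ}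
    (hx : x ∈ Set.Icc (0 : ℝ) 1) : f x ≤ 2 * takagi x :=
  h.le_takagi_on (Set.Icc 0 1) Set.Subset.rfl (fun _ _ _ h => h) hbd hx

/-- At rational points no boundedness is needed. -/
theorem InClass.le_takagi_rat (h : InClass 4 f) (q : ℚ) (hq : (q : ℝ) ∈ Set.Icc (0 : ℝ) 1) :
    f q ≤ 2 * takagi q := by
  set N : ℕ := q.den with hN
  have hNpos : 0 < (N : ℝ) := by exact_mod_cast q.den_pos
  let X : Set ℝ := {x | x ∈ Set.Icc (0 : ℝ) 1 ∧ ∃ k : ℤ, x = k / N}
  have hfin : X.Finite := by
    apply Set.Finite.subset (Set.Finite.image (fun k : ℤ => (k : ℝ) / N)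
      (Set.finite_Icc (0 : ℤ) N))
    rintro x ⟨⟨hx0, hx1⟩, k, rfl⟩
    refine ⟨k, ⟨?_, ?_⟩, rfl⟩
    · have h1 : (0 : ℝ) ≤ k := by
        by_contra hcon
        push Not at hcon
        have := div_neg_of_neg_of_pos hcon hNpos
        linarith
      exact_mod_cast h1
    · rw [div_le_one hNpos] at hx1
      exact_mod_cast hx1
  refine h.le_takagi_on X (fun x hx => hx.1) ?_ (hfin.image f).bddAbove ?_
  · rintro x ⟨hx, k, rfl⟩ j hj
    refine ⟨hj, 4 * k - j * N, ?_⟩
    push_cast
    field_simp
  · refine ⟨hq, q.num, ?_⟩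
    rw [hN]
    exact Rat.cast_def q

/-- The zero function is in every class. -/
theorem inClass_zero (m : ℕ) (hm : 1 ≤ m) : InClass m (fun _ => 0) := by
  refine ⟨by simp, ?_⟩
  intro x hx1 hx2 hx3
  have hmono : ∀ n, 1 ≤ n → n ≤ m → x 1 ≤ x n := by
    intro n hn1 hn2
    induction n, hn1 using Nat.le_induction with
    | base => exact le_rfl
    | succ n hn ih => exact (ih (by omega)).trans (hx2 n hn (by omega))
  have := hmono m hm le_rfl
  simp
  exact this

theorem values_nonempty (m : ℕ) (hm : 1 ≤ m) (x : ℝ) : (values m x).Nonempty := by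
  refine ⟨0, fun _ => 0, inClass_zero m hm, ⟨0, ?_⟩, rfl⟩
  rintro _ ⟨t, -, rfl⟩
  exact le_rfl

/-- For `m ≥ 5` the extremal function at `4 / m ^ 2` is at most `4 / m`. -/
theorem InClass.le_four_div (h : InClass m f) (hm : 5 ≤ m) : f (4 / m ^ 2) ≤ 4 / m := by
  have hm' : (5 : ℝ) ≤ m := by exact_mod_cast hm
  have hm0 : (0 : ℝ) < m := by linarith
  have h1 := h.tuple (b := 2) (by omega) (y := 0) (v := 1) le_rfl zero_le_one le_rfl
  have h2 := h.tuple (b := 2) (by omega) (y := 0) (v := 2 / m) le_rfl (by positivity) (by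
    rw [div_le_one hm0]
    linarith)
  have e1 : (0 + ((2 : ℕ) : ℝ) * 1) / (m : ℝ) = 2 / m := by push_cast; ring
  have e2 : (0 + ((2 : ℕ) : ℝ) * (2 / m)) / (m : ℝ) = 4 / m ^ 2 := by
    push_cast
    field_simp
    ring
  rw [e1] at h1
  rw [e2] at h2
  push_cast at h1 h2
  have h3 := h.zero_le
  have h4 := h.one_le
  have h5 : (f 0 + 2 * f 1) / (m : ℝ) ≤ 0 := div_nonpos_of_nonpos_of_nonneg (by linarith) hm0.le
  have h6 : f (2 / m) ≤ 1 := by linarith
  have h7 : (f 0 + 2 * f (2 / m)) / (m : ℝ) ≤ 2 / m :=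
    div_le_div_of_nonneg_right (by linarith) hm0.le
  have h8 : (4 : ℝ) / m = 2 / m + 2 / m := by ring
  linarith

theorem series_ge (hm : 5 ≤ m) : 5 / (m : ℝ) ≤ (m : ℝ) ^ 2 * series m (4 / m ^ 2) := by
  have hm' : (5 : ℝ) ≤ m := by exact_mod_cast hm
  have hm0 : (0 : ℝ) < m := by linarith
  rw [series_rec m (by omega), series_rec m (by omega)]
  have h1 := series_nonneg m (m * (m * (4 / (m : ℝ) ^ 2)))
  have e1 : (m : ℝ) * (4 / (m : ℝ) ^ 2) = 4 / m := by field_simp
  rw [e1] at h1 ⊢
  have h25 : (25 : ℝ) ≤ (m : ℝ) ^ 2 := by nlinarith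
  have hsmall : 4 / (m : ℝ) ^ 2 ≤ 1 / 2 := by
    rw [div_le_div_iff₀ (by positivity) (by norm_num)]
    linarith
  have e2 : distInt (4 / (m : ℝ) ^ 2) = 4 / m ^ 2 := by
    rw [distInt_eq _ 0]
    · simp only [Int.cast_zero, sub_zero]
      exact abs_of_nonneg (by positivity)
    · simp only [Int.cast_zero, sub_zero]
      rw [abs_of_nonneg (by positivity)]
      exact hsmall
  have e3 : min (4 / (m : ℝ) ^ 2) (1 / (m : ℝ)) = 4 / (m : ℝ) ^ 2 := by
    apply min_eq_left
    rw [div_le_div_iff₀ (by positivity) hm0]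
    nlinarith
  have e4 : min (distInt (4 / (m : ℝ))) (1 / (m : ℝ)) = 1 / (m : ℝ) := by
    apply min_eq_right
    rcases le_total (4 / (m : ℝ)) (1 / 2) with h | h
    · rw [distInt_eq _ 0]
      · simp only [Int.cast_zero, sub_zero]
        rw [abs_of_nonneg (by positivity)]
        gcongr
        norm_num
      · simp only [Int.cast_zero, sub_zero]
        rw [abs_of_nonneg (by positivity)]
        exact h
    · have h2 : 4 / (m : ℝ) ≤ 4 / 5 := by gcongr
      rw [distInt_eq _ 1]
      · push_cast
        rw [abs_of_nonpos (by linarith), neg_sub, le_sub_iff_add_le, ← add_div, div_le_one hm0]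
        linarith
      · push_cast
        rw [abs_of_nonpos (by linarith)]
        linarith
  rw [e2, e3, e4]
  have h3 : (m : ℝ) ^ 2 * (4 / (m : ℝ) ^ 2 / m + (1 / (m : ℝ) / m + series m (m * (4 / m)) / m) / m)
      = 5 / m + series m (m * (4 / m)) := by
    field_simp
    ring
  rw [h3]
  linarith

end Pool.Agent.MP_56f843_an
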