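import Pool.Agent.MP_56f843_an.EndE

set_option autoImplicit false

/-!
# Large `m`, I: means, unsorted tuples, a criterion for concave functions
-/

namespace Pool.Agent.MP_56f843_an

open Set

/-- the mean of `f 1, ..., f m` -/
noncomputable def av (m : ℕ) (f : ℕ → ℝ) : ℝ := (∑ i ∈ Finset.Icc 1 m, f i) / m

section av
variable {m : ℕ}

theorem av_add (f g : ℕ → ℝ) : av m (fun i => f i + g i) = av m f + av m g := by
  unfold av
  rw [Finset.sum_add_distrib, add_div]

theorem av_sub (f g : ℕ → ℝ) : av m (fun i => f i - g i) = av m f - av m g := by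
  unfold av
  rw [Finset.sum_sub_distrib, sub_div]

theorem av_const (hm : 1 ≤ m) (c : ℝ) : av m (fun _ => c) = c := by
  unfold av
  have h : (m : ℝ) ≠ 0 := by
    have : m ≠ 0 := by omega
    exact_mod_cast this
  rw [Finset.sum_const, Nat.card_Icc, nsmul_eq_mul, Nat.add_sub_cancel]
  field_simp

theorem av_mul_left (c : ℝ) (f : ℕ → ℝ) : av m (fun i => c * f i) = c * av m f := by
  unfold av
  rw [← Finset.mul_sum, mul_div_assoc]

theorem av_mul_right (c : ℝ) (f : ℕ → ℝ) : av m (fun i => f i * c) = av m f * c := by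
  unfold av
  rw [← Finset.sum_mul, div_mul_eq_mul_div]

theorem av_mono {f g : ℕ → ℝ} (h : ∀ i ∈ Finset.Icc 1 m, f i ≤ g i) : av m f ≤ av m g :=
  div_le_div_of_nonneg_right (Finset.sum_le_sum h) (Nat.cast_nonneg _)

theorem av_congr {f g : ℕ → ℝ} (h : ∀ i ∈ Finset.Icc 1 m, f i = g i) : av m f = av m g := by
  unfold av
  rw [Finset.sum_congr rfl h]

theorem av_le (hm : 1 ≤ m) {f : ℕ → ℝ} {c : ℝ} (h : ∀ i ∈ Finset.Icc 1 m, f i ≤ c) : av m f ≤ c := by
  have := av_mono (m := m) h
  rwa [av_const hm] at this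

theorem le_av (hm : 1 ≤ m) {f : ℕ → ℝ} {c : ℝ} (h : ∀ i ∈ Finset.Icc 1 m, c ≤ f i) : c ≤ av m f := by
  have := av_mono (m := m) h
  rwa [av_const hm] at this

theorem mul_av (hm : 1 ≤ m) (f : ℕ → ℝ) : (m : ℝ) * av m f = ∑ i ∈ Finset.Icc 1 m, f i := by
  have h : (m : ℝ) ≠ 0 := by
    have : m ≠ 0 := by omega
    exact_mod_cast this
  unfold av
  field_simp

end av

variable {m : ℕ} {f : ℝ → ℝ}

/-- the inequality of the class for unsorted tuples -/
theorem InClass.av_le (h : InClass m f) (hm : 1 ≤ m) {a b : ℝ} (ha : 0 ≤ a) (hb : b ≤ 1)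
    {x : ℕ → ℝ} (hx : ∀ i ∈ Finset.Icc 1 m, a ≤ x i ∧ x i ≤ b) :
    f (av m x) ≤ av m (fun i => f (x i)) + (b - a) := by
  classical
  -- reindex by `Fin m` and sort
  set g : Fin m → ℝ := fun i => x (i + 1) with hg
  set σ := Tuple.sort g with hσ
  have hmono : Monotone (g ∘ σ) := Tuple.monotone_sort g
  set z : ℕ → ℝ := fun i => if hi : i - 1 < m then g (σ ⟨i - 1, hi⟩) else 0 with hz
  have hsum : ∀ u : ℝ → ℝ, ∑ i ∈ Finset.Icc 1 m, u (z i) = ∑ i ∈ Finset.Icc 1 m, u (x i) := by
    intro u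
    have e1 : ∀ w : ℕ → ℝ, ∑ i ∈ Finset.Icc 1 m, w i = ∑ i : Fin m, w (i + 1) := by
      intro w
      have : Finset.Icc 1 m = Finset.Ico 1 (m + 1) := by
        ext i; simp only [Finset.mem_Icc, Finset.mem_Ico]; omega
      rw [this, Finset.sum_Ico_eq_sum_range, Nat.add_sub_cancel, Finset.sum_range]
      exact Finset.sum_congr rfl fun i _ => by rw [add_comm]
    rw [e1, e1]
    have e2 : ∀ i : Fin m, u (z (i + 1)) = u (g (σ i)) := by
      intro i
      have hi : (i : ℕ) + 1 - 1 < m := by have := i.2; omega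
      simp only [hz]
      rw [dif_pos hi]
      congr 2
    rw [Finset.sum_congr rfl fun i _ => e2 i]
    exact Equiv.sum_comp σ (fun i => u (g i))
  have hz' : ∀ i, 1 ≤ i → i ≤ m → a ≤ z i ∧ z i ≤ b := by
    intro i h1 h2
    have hi : i - 1 < m := by omega
    simp only [hz]
    rw [dif_pos hi]
    exact hx _ (by rw [Finset.mem_Icc]; have := (σ ⟨i - 1, hi⟩).2; omega)
  have key := h.2 z (ha.trans (hz' 1 le_rfl hm).1) ?_ ((hz' m hm le_rfl).2.trans hb)
  · unfold av
    have s1 := hsum (fun t => t)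
    have s2 := hsum f
    rw [s1, s2] at key
    have h1 := (hz' 1 le_rfl hm).1
    have h2 := (hz' m hm le_rfl).2
    linarith
  · intro i h1 h2
    have hi : i - 1 < m := by omega
    have hi' : i + 1 - 1 < m := by omega
    simp only [hz]
    rw [dif_pos hi, dif_pos hi']
    exact hmono (by rw [Fin.mk_le_mk]; omega)

theorem InClass.of_av (h0 : f 0 ≤ 0) (h1 : f 1 ≤ 0) (hm : 1 ≤ m)
    (h : ∀ (x : ℕ → ℝ) (a b : ℝ), 0 ≤ a → a ≤ b → b ≤ 1 → x 1 = a → x m = b →
      (∀ i ∈ Finset.Icc 1 m, a ≤ x i ∧ x i ≤ b) →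
      f (av m x) ≤ av m (fun i => f (x i)) + (b - a)) : InClass m f := by
  refine ⟨max_le h0 h1, ?_⟩
  intro x hx1 hx2 hx3
  have hmono : ∀ i j : ℕ, 1 ≤ i → i ≤ j → j ≤ m → x i ≤ x j := by
    intro i j hi hij
    induction j, hij using Nat.le_induction with
    | base => exact fun _ => le_rfl
    | succ j hij ih =>
      intro hj
      exact (ih (by omega)).trans (hx2 j (by omega) (by omega))
  refine h x (x 1) (x m) hx1 (hmono 1 m le_rfl hm le_rfl) hx3 rfl rfl ?_
  intro i hi
  rw [Finset.mem_Icc] at hi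
  exact ⟨hmono 1 i le_rfl hi.1 hi.2, hmono i m hi.1 hi.2 le_rfl⟩

/-- the mean of a concave function is at least the chord -/
theorem av_chord (hm : 1 ≤ m) (hc : ConcaveOn ℝ (Icc 0 1) f) {a b : ℝ} (ha : 0 ≤ a) (hab : a < b)
    (hb : b ≤ 1) {x : ℕ → ℝ} (hx : ∀ i ∈ Finset.Icc 1 m, a ≤ x i ∧ x i ≤ b) :
    ((b - av m x) * f a + (av m x - a) * f b) / (b - a) ≤ av m (fun i => f (x i)) := by
  have hba : 0 < b - a := by linarith
  have h1 : ∀ i ∈ Finset.Icc 1 m, ((b - x i) * f a + (x i - a) * f b) / (b - a) ≤ f (x i) := by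
    intro i hi
    obtain ⟨h2, h3⟩ := hx i hi
    have m1 : a ∈ Icc (0 : ℝ) 1 := ⟨ha, by linarith⟩
    have m2 : b ∈ Icc (0 : ℝ) 1 := ⟨by linarith, hb⟩
    have w1 : 0 ≤ (b - x i) / (b - a) := div_nonneg (by linarith) hba.le
    have w2 : 0 ≤ (x i - a) / (b - a) := div_nonneg (by linarith) hba.le
    have w3 : (b - x i) / (b - a) + (x i - a) / (b - a) = 1 := by
      rw [← add_div, div_eq_one_iff_eq hba.ne']; ring
    have h4 := hc.2 m1 m2 w1 w2 w3
    simp only [smul_eq_mul] at h4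
    have h5 : (b - x i) / (b - a) * a + (x i - a) / (b - a) * b = x i := by
      field_simp
      ring
    rw [h5] at h4
    have h6 : ((b - x i) * f a + (x i - a) * f b) / (b - a) =
      (b - x i) / (b - a) * f a + (x i - a) / (b - a) * f b := by ring
    rw [h6]
    exact h4
  refine le_trans (le_of_eq ?_) (av_mono (m := m) h1)
  have h7 : (fun i => ((b - x i) * f a + (x i - a) * f b) / (b - a)) =
      fun i => ((b * f a - a * f b) / (b - a)) + (f b - f a) / (b - a) * x i := by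
    funext i
    field_simp
    ring
  rw [h7, av_add, av_const hm, av_mul_left]
  field_simp
  ring

/-- A concave symmetric function with `f (t b) ≤ t f b + b` is in the class. -/
theorem inClass_of_concave (hm : 1 ≤ m) (hc : ConcaveOn ℝ (Icc 0 1) f) (h0 : f 0 = 0)
    (hs : ∀ x ∈ Icc (0 : ℝ) 1, f (1 - x) = f x)
    (he : ∀ t ∈ Icc (0 : ℝ) 1, ∀ b ∈ Icc (0 : ℝ) 1, f (t * b) ≤ t * f b + b) : InClass m f := by
  have h1 : f 1 = 0 := by
    have := hs 0 ⟨le_rfl, zero_le_one⟩
    rw [sub_zero] at this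
    rw [this, h0]
  -- first half of the two-point inequality
  have two1 : ∀ a b t : ℝ, 0 ≤ a → a < b → b ≤ 1 → 0 < t → t < 1 → (1 - t) * a + t * b ≤ t →
      f ((1 - t) * a + t * b) ≤ (1 - t) * f a + t * f b + (b - a) := by
    intro a b t ha hab hb ht0 ht1 hxt
    obtain ⟨x, hx⟩ : ∃ x, x = (1 - t) * a + t * b := ⟨_, rfl⟩
    rw [← hx] at hxt ⊢
    have hax : a < x := by rw [hx]; nlinarith
    have hxb : x < b := by rw [hx]; nlinarith
    have hx0 : 0 < x := by linarith
    -- `b₀ = x / t`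
    have hb0 : x / t ≤ 1 := by rw [div_le_one ht0]; exact hxt
    have hb00 : 0 ≤ x / t := by positivity
    have e1 := he t ⟨ht0.le, ht1.le⟩ (x / t) ⟨hb00, hb0⟩
    rw [mul_div_cancel₀ _ ht0.ne'] at e1
    -- `l = 1 - a / x`
    obtain ⟨l, hl⟩ : ∃ l, l = 1 - a / x := ⟨_, rfl⟩
    have hl0 : 0 ≤ l := by
      rw [hl, sub_nonneg, div_le_one hx0]; exact hax.le
    have hl1 : l ≤ 1 := by
      rw [hl]
      have : 0 ≤ a / x := by positivity
      linarith
    have hxmem : x ∈ Icc (0 : ℝ) 1 := ⟨hx0.le, by linarith⟩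
    have m0 : (0 : ℝ) ∈ Icc (0 : ℝ) 1 := ⟨le_rfl, zero_le_one⟩
    have m1 : x / t ∈ Icc (0 : ℝ) 1 := ⟨hb00, hb0⟩
    have w1 : 0 ≤ 1 - l := by linarith
    have w2 : l + (1 - l) = 1 := by ring
    have c1 := hc.2 m0 hxmem hl0 w1 w2
    have c2 := hc.2 m1 hxmem hl0 w1 w2
    simp only [smul_eq_mul, mul_zero, zero_add, h0] at c1 c2
    have d1 : (1 - l) * x = a := by
      rw [hl]
      field_simp
      ring
    have d2 : l * (x / t) + (1 - l) * x = b := by
      rw [d1]
      have : l * (x / t) = (x - a) / t := by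
        rw [hl]
        field_simp
      rw [this, div_add' _ _ _ ht0.ne', div_eq_iff ht0.ne', hx]
      ring
    have d3 : b - a = l * (x / t) := by
      rw [← d2, d1]
      ring
    rw [d1] at c1
    rw [d2] at c2
    rw [d3]
    have f1 := mul_le_mul_of_nonneg_left c1 (by linarith : (0 : ℝ) ≤ 1 - t)
    have f2 := mul_le_mul_of_nonneg_left c2 ht0.le
    have f3 := mul_le_mul_of_nonneg_left e1 hl0
    nlinarith
  have two : ∀ a b t : ℝ, 0 ≤ a → a < b → b ≤ 1 → 0 ≤ t → t ≤ 1 →
      f ((1 - t) * a + t * b) ≤ (1 - t) * f a + t * f b + (b - a) := by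
    intro a b t ha hab hb ht0 ht1
    rcases ht0.eq_or_lt with rfl | ht0
    · simp only [sub_zero, one_mul, zero_mul, add_zero]
      linarith
    rcases ht1.eq_or_lt with rfl | ht1
    · simp only [sub_self, zero_mul, zero_add, one_mul]
      linarith
    rcases le_or_gt ((1 - t) * a + t * b) t with h | h
    · exact two1 a b t ha hab hb ht0 ht1 h
    · have g1 := two1 (1 - b) (1 - a) (1 - t) (by linarith) (by linarith) (by linarith)
        (by linarith) (by linarith) (by nlinarith)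
      have g2 : (1 - (1 - t)) * (1 - b) + (1 - t) * (1 - a) = 1 - ((1 - t) * a + t * b) := by ring
      rw [g2, hs _ ⟨by nlinarith, by nlinarith⟩, hs b ⟨by linarith, hb⟩,
        hs a ⟨ha, by linarith⟩] at g1
      linarith
  refine InClass.of_av h0.le h1.le hm ?_
  intro x a b ha hab hb _ _ hx
  rcases hab.eq_or_lt with rfl | hab
  · have hxa : ∀ i ∈ Finset.Icc 1 m, x i = a := fun i hi => le_antisymm (hx i hi).2 (hx i hi).1
    rw [av_congr hxa, av_const hm, av_congr (g := fun _ => f a)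
      (fun i hi => by rw [hxa i hi]), av_const hm]
    linarith
  · have hba : 0 < b - a := by linarith
    have g1 := av_chord hm hc ha hab hb hx
    have hav1 : a ≤ av m x := le_av hm fun i hi => (hx i hi).1
    have hav2 : av m x ≤ b := av_le hm fun i hi => (hx i hi).2
    have g2 := two a b ((av m x - a) / (b - a)) ha hab hb (div_nonneg (by linarith) hba.le)
      (by rw [div_le_one hba]; linarith)
    have g3 : (1 - (av m x - a) / (b - a)) * a + (av m x - a) / (b - a) * b = av m x := by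
      field_simp
      ring
    rw [g3] at g2
    have g4 : (1 - (av m x - a) / (b - a)) * f a + (av m x - a) / (b - a) * f b =
        ((b - av m x) * f a + (av m x - a) * f b) / (b - a) := by
      field_simp
      ring
    rw [g4] at g2
    linarith

end Pool.Agent.MP_56f843_an
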