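import Mathlib

set_option autoImplicit false

namespace Pool.Agent.MP_56f843_an

/-- The profile `inf_{n ≥ 1} n y ^ (1 - 1 / n)` with `y = min x (1 - x)`, `0 ≤ x ≤ 1`. -/
noncomputable def profile (x : ℝ) : ℝ :=
  ⨅ n : ℕ, ((n : ℝ) + 1) * (min x (1 - x)) ^ (1 - 1 / ((n : ℝ) + 1))

end Pool.Agent.MP_56f843_an
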