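import Pool.Agent.MP_56f843_an.LarA
import Pool.Agent.MP_56f843_an.LarDefs

set_option autoImplicit false

/-!
# Large `m`, II: the profile
-/

namespace Pool.Agent.MP_56f843_an

open Set

/-- the members of the family -/
noncomputable def pro (n : ℕ) (x : ℝ) : ℝ :=
  ((n : ℝ) + 1) * (min x (1 - x)) ^ (1 - 1 / ((n : ℝ) + 1))

theorem min_mem {x : ℝ} (hx : x ∈ Icc (0 : ℝ) 1) : min x (1 - x) ∈ Icc (0 : ℝ) (1 / 2) := by
  constructor
  · exact le_min hx.1 (by linarith [hx.2])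
  · rcases le_total x (1 / 2) with h | h
    · exact (min_le_left _ _).trans h
    · exact (min_le_right _ _).trans (by linarith)

theorem pro_exp (n : ℕ) : 0 ≤ 1 - 1 / ((n : ℝ) + 1) ∧ 1 - 1 / ((n : ℝ) + 1) ≤ 1 := by
  have h : (0 : ℝ) < n + 1 := by positivity
  constructor
  · rw [sub_nonneg, div_le_one h]
    have : (0 : ℝ) ≤ n := Nat.cast_nonneg _
    linarith
  · have : 0 ≤ 1 / ((n : ℝ) + 1) := by positivity
    linarith

theorem pro_nonneg (n : ℕ) {x : ℝ} (hx : x ∈ Icc (0 : ℝ) 1) : 0 ≤ pro n x :=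
  mul_nonneg (by positivity) (Real.rpow_nonneg (min_mem hx).1 _)

theorem pro_bdd {x : ℝ} (hx : x ∈ Icc (0 : ℝ) 1) : BddBelow (range fun n : ℕ => pro n x) :=
  ⟨0, by rintro _ ⟨n, rfl⟩; exact pro_nonneg n hx⟩

theorem profile_eq (x : ℝ) : profile x = ⨅ n : ℕ, pro n x := rfl

theorem profile_le_pro (n : ℕ) {x : ℝ} (hx : x ∈ Icc (0 : ℝ) 1) : profile x ≤ pro n x :=
  ciInf_le (pro_bdd hx) n

theorem le_profile {x c : ℝ} (h : ∀ n : ℕ, c ≤ pro n x) : c ≤ profile x := le_ciInf h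

theorem profile_symm (x : ℝ) : profile (1 - x) = profile x := by
  unfold profile
  rw [sub_sub_cancel, min_comm]

theorem profile_nonneg {x : ℝ} (hx : x ∈ Icc (0 : ℝ) 1) : 0 ≤ profile x :=
  le_profile fun n => pro_nonneg n hx

theorem pro_zero_apply (x : ℝ) : pro 0 x = 1 := by
  unfold pro
  norm_num

theorem profile_le_one {x : ℝ} (hx : x ∈ Icc (0 : ℝ) 1) : profile x ≤ 1 := by
  have := profile_le_pro 0 hx
  rwa [pro_zero_apply] at this

/-- for `x ≤ 1/2` -/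
theorem pro_of_le (n : ℕ) {x : ℝ} (hx : x ≤ 1 / 2) :
    pro n x = ((n : ℝ) + 1) * x ^ (1 - 1 / ((n : ℝ) + 1)) := by
  unfold pro
  rw [min_eq_left (by linarith)]

theorem profile_zero : profile 0 = 0 := by
  refine le_antisymm ?_ (profile_nonneg ⟨le_rfl, zero_le_one⟩)
  refine (profile_le_pro 1 ⟨le_rfl, zero_le_one⟩).trans (le_of_eq ?_)
  rw [pro_of_le 1 (by norm_num), Real.zero_rpow (by norm_num), mul_zero]

theorem profile_concave : ConcaveOn ℝ (Icc 0 1) profile := by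
  have hpro : ∀ n : ℕ, ConcaveOn ℝ (Icc 0 1) (pro n) := by
    intro n
    have hmin : ConcaveOn ℝ (Icc (0 : ℝ) 1) fun x => min x (1 - x) := by
      have h1 : ConcaveOn ℝ (Icc (0 : ℝ) 1) fun x => x := concaveOn_id (convex_Icc 0 1)
      have h2 : ConcaveOn ℝ (Icc (0 : ℝ) 1) fun x => 1 - x := by
        refine ⟨convex_Icc 0 1, ?_⟩
        intro x _ y _ a b _ _ hab
        simp only [smul_eq_mul]
        nlinarith
      exact h1.inf h2
    refine ⟨convex_Icc 0 1, ?_⟩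
    intro x hx y hy a b ha hb hab
    obtain ⟨hp0, hp1⟩ := pro_exp n
    have hc := (Real.concaveOn_rpow hp0 hp1).2 (min_mem hx).1 (min_mem hy).1 ha hb hab
    have hm := hmin.2 hx hy ha hb hab
    simp only [smul_eq_mul] at hc hm ⊢
    have hnn : 0 ≤ a * min x (1 - x) + b * min y (1 - y) :=
      add_nonneg (mul_nonneg ha (min_mem hx).1) (mul_nonneg hb (min_mem hy).1)
    have h3 := Real.rpow_le_rpow hnn hm hp0
    unfold pro
    have h4 := mul_le_mul_of_nonneg_left (hc.trans h3) (by positivity : (0 : ℝ) ≤ (n : ℝ) + 1)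
    linarith
  refine ⟨convex_Icc 0 1, ?_⟩
  intro x hx y hy a b ha hb hab
  refine le_profile fun n => ?_
  refine le_trans ?_ ((hpro n).2 hx hy ha hb hab)
  simp only [smul_eq_mul]
  exact add_le_add (mul_le_mul_of_nonneg_left (profile_le_pro n hx) ha)
    (mul_le_mul_of_nonneg_left (profile_le_pro n hy) hb)

/-- `N 4 ^ (1 / N) ≥ 4`, in the form needed -/
theorem pro_four (n : ℕ) {x : ℝ} (hx0 : 0 < x) (hx : x ≤ 1 / 4) :
    4 * x ≤ ((n : ℝ) + 1) * x ^ (1 - 1 / ((n : ℝ) + 1)) := by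
  have e : x ^ (1 - 1 / ((n : ℝ) + 1)) = x * x ^ (-(1 / ((n : ℝ) + 1))) := by
    rw [sub_eq_add_neg, Real.rpow_add hx0, Real.rpow_one]
  rw [e]
  -- `x ^ (-s) ≥ 4 ^ s`
  have h1 : (4 : ℝ) ^ (1 / ((n : ℝ) + 1)) ≤ x ^ (-(1 / ((n : ℝ) + 1))) := by
    rw [Real.rpow_neg hx0.le, ← Real.inv_rpow hx0.le]
    refine Real.rpow_le_rpow (by norm_num) ?_ (by positivity)
    rw [le_inv_comm₀ (by norm_num) hx0]
    linarith
  have h2 : 4 ≤ ((n : ℝ) + 1) * (4 : ℝ) ^ (1 / ((n : ℝ) + 1)) := by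
    rcases Nat.lt_or_ge n 3 with h | h
    · interval_cases n
      · norm_num
      · have : (4 : ℝ) ^ (1 / ((1 : ℕ) + 1 : ℝ)) = 2 := by
          rw [show (4 : ℝ) = 2 ^ (2 : ℝ) by norm_num, ← Real.rpow_mul (by norm_num)]
          norm_num
        rw [this]
        norm_num
      · have h3 : (4 / 3 : ℝ) ≤ (4 : ℝ) ^ (1 / ((2 : ℕ) + 1 : ℝ)) := by
          have : (4 / 3 : ℝ) = ((4 / 3 : ℝ) ^ (3 : ℝ)) ^ (1 / ((2 : ℕ) + 1 : ℝ)) := by
            rw [← Real.rpow_mul (by norm_num)]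
            norm_num
          rw [this]
          refine Real.rpow_le_rpow (by positivity) ?_ (by positivity)
          norm_num
        push_cast at h3 ⊢
        linarith
    · have h3 : (1 : ℝ) ≤ (4 : ℝ) ^ (1 / ((n : ℝ) + 1)) :=
        Real.one_le_rpow (by norm_num) (by positivity)
      have h4 : (3 : ℝ) ≤ n := by exact_mod_cast h
      nlinarith
  have h3 : ((n : ℝ) + 1) * (4 : ℝ) ^ (1 / ((n : ℝ) + 1)) ≤
      ((n : ℝ) + 1) * x ^ (-(1 / ((n : ℝ) + 1))) :=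
    mul_le_mul_of_nonneg_left h1 (by positivity)
  calc 4 * x ≤ (((n : ℝ) + 1) * x ^ (-(1 / ((n : ℝ) + 1)))) * x :=
        mul_le_mul_of_nonneg_right (h2.trans h3) hx0.le
    _ = _ := by ring

theorem four_mul_le_profile {x : ℝ} (hx0 : 0 ≤ x) (hx : x ≤ 1 / 4) : 4 * x ≤ profile x := by
  rcases hx0.eq_or_lt with rfl | hx0
  · rw [profile_zero, mul_zero]
  · refine le_profile fun n => ?_
    rw [pro_of_le n (by linarith)]
    exact pro_four n hx0 hx

theorem profile_mid {x : ℝ} (hx : x ∈ Icc (1 / 4 : ℝ) (3 / 4)) : profile x = 1 := by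
  refine le_antisymm (profile_le_one ⟨by linarith [hx.1], by linarith [hx.2]⟩) ?_
  refine le_profile fun n => ?_
  have h1 := pro_four n (x := 1 / 4) (by norm_num) le_rfl
  unfold pro
  have h2 : (1 / 4 : ℝ) ≤ min x (1 - x) := le_min hx.1 (by linarith [hx.2])
  have h3 := Real.rpow_le_rpow (by norm_num) h2 (pro_exp n).1
  have h4 := mul_le_mul_of_nonneg_left h3 (by positivity : (0 : ℝ) ≤ (n : ℝ) + 1)
  linarith

theorem exp_mul_le_profile {x : ℝ} (hx0 : 0 ≤ x) (hx : x ≤ 1 / 2) :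
    Real.exp 1 * Real.negMulLog x ≤ profile x := by
  rcases hx0.eq_or_lt with rfl | hx0
  · rw [profile_zero, Real.negMulLog_zero, mul_zero]
  · refine le_profile fun n => ?_
    rw [pro_of_le n hx]
    have e : x ^ (1 - 1 / ((n : ℝ) + 1)) = x * x ^ (-(1 / ((n : ℝ) + 1))) := by
      rw [sub_eq_add_neg, Real.rpow_add hx0, Real.rpow_one]
    rw [e, Real.rpow_def_of_pos hx0]
    have h1 : (0 : ℝ) < (n : ℝ) + 1 := by positivity
    have h2 := Real.add_one_le_exp (Real.log x * -(1 / ((n : ℝ) + 1)) - 1)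
    rw [sub_add_cancel, Real.exp_sub, le_div_iff₀ (Real.exp_pos 1)] at h2
    have h3 := mul_le_mul_of_nonneg_left h2 (by positivity : (0 : ℝ) ≤ ((n : ℝ) + 1) * x)
    unfold Real.negMulLog
    have h4 : ((n : ℝ) + 1) * x * (Real.log x * -(1 / ((n : ℝ) + 1)) * Real.exp 1) =
        Real.exp 1 * (-x * Real.log x) := by
      field_simp
    rw [h4] at h3
    linarith

/-- weighted AM-GM: `(n + 1) (t b) ^ (n / (n + 1)) ≤ t n b ^ (1 - 1 / n) + b` -/
theorem pro_amgm (n : ℕ) {t b : ℝ} (ht : 0 ≤ t) (hb : 0 < b) :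
    ((n + 1 : ℕ) + 1 : ℝ) * (t * b) ^ (1 - 1 / ((n + 1 : ℕ) + 1 : ℝ)) ≤
      t * (((n : ℝ) + 1) * b ^ (1 - 1 / ((n : ℝ) + 1))) + b := by
  have hn : (0 : ℝ) < (n : ℝ) + 1 := by positivity
  have hn2 : (0 : ℝ) < (n : ℝ) + 2 := by positivity
  set p : ℝ := 1 - 1 / ((n : ℝ) + 1) with hp
  have hA : 0 ≤ t * b ^ p := mul_nonneg ht (Real.rpow_nonneg hb.le _)
  have h := Real.geom_mean_le_arith_mean2_weighted (w₁ := ((n : ℝ) + 1) / (n + 2))
    (w₂ := 1 / ((n : ℝ) + 2)) (p₁ := t * b ^ p) (p₂ := b) (by positivity) (by positivity) hA hb.le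
    (by field_simp; ring)
  have e1 : (t * b ^ p) ^ (((n : ℝ) + 1) / (n + 2)) * b ^ (1 / ((n : ℝ) + 2)) =
      (t * b) ^ (1 - 1 / ((n + 1 : ℕ) + 1 : ℝ)) := by
    have e2 : (1 - 1 / ((n + 1 : ℕ) + 1 : ℝ)) = ((n : ℝ) + 1) / (n + 2) := by
      push_cast
      field_simp
      ring
    rw [e2, Real.mul_rpow ht (Real.rpow_nonneg hb.le _), Real.mul_rpow ht hb.le, mul_assoc,
      ← Real.rpow_mul hb.le, ← Real.rpow_add hb]
    congr 2
    rw [hp]
    field_simp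
    ring
  rw [e1] at h
  have h2 := mul_le_mul_of_nonneg_left h hn2.le
  push_cast
  have e3 : ((n : ℝ) + 2) * (((n : ℝ) + 1) / (n + 2) * (t * b ^ p) + 1 / ((n : ℝ) + 2) * b) =
      t * (((n : ℝ) + 1) * b ^ p) + b := by
    field_simp
  rw [e3] at h2
  have e4 : ((n : ℝ) + 1 + 1) = (n : ℝ) + 2 := by ring
  push_cast at h2
  rw [e4] at h2 ⊢
  exact h2

theorem profile_le_two_sqrt {x : ℝ} (hx0 : 0 ≤ x) (hx : x ≤ 1 / 2) :
    profile x ≤ 2 * Real.sqrt x := by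
  refine (profile_le_pro 1 ⟨hx0, by linarith⟩).trans (le_of_eq ?_)
  rw [pro_of_le 1 hx, Real.sqrt_eq_rpow]
  norm_num

theorem profile_end {t b : ℝ} (ht : t ∈ Icc (0 : ℝ) 1) (hb : b ∈ Icc (0 : ℝ) 1) :
    profile (t * b) ≤ t * profile b + b := by
  rcases hb.1.eq_or_lt with hb0 | hb0
  · rw [← hb0, mul_zero, profile_zero]
    simp
  have htb : t * b ∈ Icc (0 : ℝ) 1 := ⟨mul_nonneg ht.1 hb.1, mul_le_one₀ ht.2 hb.1 hb.2⟩
  rcases le_total b (1 / 2) with h | h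
  · -- `b ≤ 1/2`
    have h1 : t * b ≤ 1 / 2 := (mul_le_of_le_one_left hb.1 ht.2).trans h
    rcases ht.1.eq_or_lt with ht0 | ht0
    · rw [← ht0, zero_mul, profile_zero, zero_mul, zero_add]
      exact hb.1
    have h2 : ∀ n : ℕ, (profile (t * b) - b) / t ≤ pro n b := by
      intro n
      rw [div_le_iff₀ ht0, pro_of_le n h]
      have h3 := profile_le_pro (n + 1) htb
      rw [pro_of_le (n + 1) h1] at h3
      have h4 := pro_amgm n ht.1 hb0
      linarith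
    have h3 := le_profile h2
    rw [div_le_iff₀ ht0] at h3
    linarith
  · -- `b ≥ 1/2`
    obtain ⟨β, hβ⟩ : ∃ β, β = 1 - b := ⟨_, rfl⟩
    have hβ0 : 0 ≤ β := by rw [hβ]; linarith [hb.2]
    have hβ1 : β ≤ 1 / 2 := by rw [hβ]; linarith
    have e1 : profile b = profile β := by rw [hβ, profile_symm]
    -- `4 β (1 - β) ≤ profile β`
    have h4 : 4 * β * b ≤ profile b := by
      rw [e1]
      rcases le_total β (1 / 4) with h5 | h5
      · have := four_mul_le_profile hβ0 h5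
        nlinarith [hb.2]
      · rw [profile_mid ⟨h5, by linarith⟩, hβ]
        nlinarith [sq_nonneg (1 - 2 * b)]
    obtain ⟨x, hx⟩ : ∃ x, x = t * b := ⟨_, rfl⟩
    have h5 : 4 * β * x ≤ t * profile b := by
      have := mul_le_mul_of_nonneg_left h4 ht.1
      rw [hx]
      linarith
    rw [← hx] at htb ⊢
    have hb' : b = 1 - β := by rw [hβ]; ring
    rcases le_total x (1 / 4) with h6 | h6
    · have h7 := profile_le_two_sqrt htb.1 (by linarith : x ≤ 1 / 2)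
      obtain ⟨s, hs⟩ : ∃ s, s = Real.sqrt x := ⟨_, rfl⟩
      have hs2 : s ^ 2 = x := by rw [hs, Real.sq_sqrt htb.1]
      have hs0 : 0 ≤ s := by rw [hs]; exact Real.sqrt_nonneg _
      rw [← hs] at h7
      nlinarith [sq_nonneg (s - 1 / 2), mul_nonneg hβ0 (sub_nonneg.2 h6),
        mul_nonneg (sub_nonneg.2 hβ1) (sub_nonneg.2 h6)]
    · have h7 := profile_le_one htb
      nlinarith [mul_nonneg hβ0 (sub_nonneg.2 h6)]

theorem inClass_profile {m : ℕ} (hm : 1 ≤ m) : InClass m profile :=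
  inClass_of_concave hm profile_concave profile_zero (fun x _ => profile_symm x)
    (fun _ ht _ hb => profile_end ht hb)

theorem profile_le_extremal {m : ℕ} (hm : 2 ≤ m) {x : ℝ} (hx : x ∈ Icc (0 : ℝ) 1) :
    profile x ≤ extremal m x :=
  (inClass_profile (by omega)).le_extremal hm
    ⟨1, by rintro _ ⟨t, ht, rfl⟩; exact profile_le_one ht⟩ hx

end Pool.Agent.MP_56f843_an
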