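import Pool.Agent.MP_56f843_an.LarB

set_option autoImplicit false

/-!
# Large `m`, III: the upper bound by the profile
-/

namespace Pool.Agent.MP_56f843_an

open Set

variable {m : ℕ}

theorem extremal_grid (hm : 2 ≤ m) {j : ℕ} (hj : j ≤ m) : extremal m (j / m) ≤ 1 := by
  have hm0 : (0 : ℝ) < m := by
    have : 0 < m := by omega
    exact_mod_cast this
  rcases hj.eq_or_lt with rfl | hj
  · rw [div_self hm0.ne', extremal_one hm]
    exact zero_le_one
  · have h := (inClass_extremal hm).tuple hj (y := 0) (v := 1) le_rfl zero_le_one le_rfl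
    rw [extremal_zero hm, extremal_one hm] at h
    simpa using h

theorem extremal_pow (hm : 2 ≤ m) {j : ℕ} (hj : j ≤ m) (hj0 : 1 ≤ j) {z : ℝ}
    (hz : z ∈ Icc (0 : ℝ) 1) (k : ℕ) :
    extremal m ((j / m : ℝ) ^ k * z) ≤
      (j / m : ℝ) ^ k * extremal m z + (k : ℝ) / (j / m : ℝ) * ((j / m : ℝ) ^ k * z) := by
  have hm0 : (0 : ℝ) < m := by
    have : 0 < m := by omega
    exact_mod_cast this
  have hj' : (0 : ℝ) < j := by exact_mod_cast hj0
  have hq : (j / m : ℝ) ∈ Icc (0 : ℝ) 1 := by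
    refine ⟨by positivity, ?_⟩
    rw [div_le_one hm0]
    exact_mod_cast hj
  have hq0 : (0 : ℝ) < (j / m : ℝ) := by positivity
  obtain ⟨q, hqq⟩ : ∃ q : ℝ, q = (j / m : ℝ) := ⟨_, rfl⟩
  have hF := extremal_grid hm hj
  rw [← hqq] at hq hq0 hF ⊢
  induction k with
  | zero => simp
  | succ k ih =>
    have hz' : q ^ k * z ∈ Icc (0 : ℝ) 1 :=
      ⟨mul_nonneg (pow_nonneg hq.1 _) hz.1, mul_le_one₀ (pow_le_one₀ hq.1 hq.2) hz.1 hz.2⟩
    have h1 := extremal_mul hm hq hz'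
    have h2 : q ^ (k + 1) * z = q * (q ^ k * z) := by rw [pow_succ]; ring
    rw [h2]
    have h3 := mul_le_mul_of_nonneg_left ih hq.1
    have h4 := mul_le_mul_of_nonneg_left hF hz'.1
    have h5 : ((k + 1 : ℕ) : ℝ) / q * (q * (q ^ k * z)) =
        q * ((k : ℝ) / q * (q ^ k * z)) + q ^ k * z := by
      push_cast
      field_simp
    rw [h5, pow_succ]
    linarith

theorem rounding {q₁ q₂ u : ℝ} (hq1 : 0 < q₁) (h1 : q₁ ≤ u) (h2 : u ≤ q₂) (n : ℕ) :
    ∃ a b : ℕ, a + b = n ∧ q₁ / q₂ * (q₁ ^ a * q₂ ^ b) ≤ u ^ n ∧ u ^ n ≤ q₁ ^ a * q₂ ^ b := by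
  have hu : 0 < u := hq1.trans_le h1
  have hq2 : 0 < q₂ := hu.trans_le h2
  induction n with
  | zero =>
    refine ⟨0, 0, rfl, ?_, ?_⟩
    · simp only [pow_zero, mul_one]
      rw [div_le_one hq2]
      exact h1.trans h2
    · simp
  | succ n ih =>
    obtain ⟨a, b, hab, h3, h4⟩ := ih
    obtain ⟨P, hP⟩ : ∃ P, P = q₁ ^ a * q₂ ^ b := ⟨_, rfl⟩
    have hP0 : 0 < P := by rw [hP]; positivity
    rw [← hP] at h3 h4
    have hun : 0 < u ^ n := pow_pos hu n
    rcases le_or_gt (u ^ (n + 1)) (q₁ * P) with h | h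
    · refine ⟨a + 1, b, by omega, ?_, ?_⟩
      · have e : q₁ / q₂ * (q₁ ^ (a + 1) * q₂ ^ b) = q₁ * (q₁ / q₂ * P) := by
          rw [hP, pow_succ]; ring
        rw [e, pow_succ, mul_comm (u ^ n) u]
        exact mul_le_mul h1 h3 (by positivity) hu.le
      · have e : q₁ ^ (a + 1) * q₂ ^ b = q₁ * P := by rw [hP, pow_succ]; ring
        rw [e]
        exact h
    · refine ⟨a, b + 1, by omega, ?_, ?_⟩
      · have e : q₁ / q₂ * (q₁ ^ a * q₂ ^ (b + 1)) = q₁ * P := by
          rw [hP, pow_succ]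
          field_simp
        rw [e]
        exact h.le
      · have e : q₁ ^ a * q₂ ^ (b + 1) = q₂ * P := by rw [hP, pow_succ]; ring
        rw [e, pow_succ, mul_comm (u ^ n) u]
        exact mul_le_mul h2 h4 hun.le hq2.le

theorem extremal_pow_le (hm : 30 ≤ m) {u : ℝ} (hu : 1 / 4 ≤ u) (hu1 : u ≤ 1) (n : ℕ) :
    extremal m (u ^ (n + 1)) ≤ (1 + 6 / m) * (((n : ℝ) + 1) * u ^ n) := by
  have hm2 : 2 ≤ m := by omega
  have hm' : (30 : ℝ) ≤ m := by exact_mod_cast hm
  have hm0 : (0 : ℝ) < m := by linarith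
  have hu0 : 0 < u := by linarith
  rcases hu1.eq_or_lt with rfl | hu1
  · rw [one_pow, extremal_one hm2]
    positivity
  set j := ⌊(m : ℝ) * u⌋₊ with hj
  have hj1 : (j : ℝ) ≤ m * u := Nat.floor_le (by positivity)
  have hj2 : (m : ℝ) * u < j + 1 := Nat.lt_floor_add_one _
  have hjm : j < m := by
    have : (j : ℝ) < m := by nlinarith
    exact_mod_cast this
  have hj3 : (m : ℝ) / 4 - 1 < j := by nlinarith
  have hj0 : (0 : ℝ) < j := by linarith
  have hj0' : 1 ≤ j := by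
    have : 0 < j := by exact_mod_cast hj0
    omega
  set q₁ : ℝ := (j : ℝ) / m with hq1
  set q₂ : ℝ := ((j + 1 : ℕ) : ℝ) / m with hq2
  have hq10 : 0 < q₁ := by positivity
  have hq20 : 0 < q₂ := by rw [hq2]; positivity
  have h1 : q₁ ≤ u := by rw [hq1, div_le_iff₀ hm0]; linarith
  have h2 : u ≤ q₂ := by rw [hq2, le_div_iff₀ hm0]; push_cast; linarith
  have hq11 : q₁ ≤ 1 := by linarith
  have hq21 : q₂ ≤ 1 := by
    rw [hq2, div_le_one hm0]
    have : j + 1 ≤ m := hjm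
    exact_mod_cast this
  obtain ⟨a, b, hab, h3, h4⟩ := rounding hq10 h1 h2 n
  have hu_n : 0 < u ^ n := pow_pos hu0 n
  obtain ⟨P, hP⟩ : ∃ P, P = q₁ ^ a * q₂ ^ b := ⟨_, rfl⟩
  have hP0 : 0 < P := by rw [hP]; positivity
  rw [← hP] at h3 h4
  -- `y = u ^ (n+1) / P`
  obtain ⟨y, hy⟩ : ∃ y, y = u ^ (n + 1) / P := ⟨_, rfl⟩
  have hyu : y ≤ u := by
    rw [hy, div_le_iff₀ hP0, pow_succ, mul_comm]
    exact mul_le_mul_of_nonneg_left h4 hu0.le
  have hy0 : 0 < y := by rw [hy]; positivity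
  have hyP : P * y = u ^ (n + 1) := by rw [hy]; field_simp
  have hym : y ∈ Icc (0 : ℝ) 1 := ⟨hy0.le, by linarith⟩
  have hzm : q₂ ^ b * y ∈ Icc (0 : ℝ) 1 :=
    ⟨by positivity, mul_le_one₀ (pow_le_one₀ hq20.le hq21) hym.1 hym.2⟩
  have g1 := extremal_pow hm2 hjm.le hj0' hzm a
  have g2 := extremal_pow hm2 (j := j + 1) hjm (by omega) hym b
  rw [← hq1] at g1
  rw [← hq2] at g2
  have e1 : q₁ ^ a * (q₂ ^ b * y) = u ^ (n + 1) := by rw [← mul_assoc, ← hP, hyP]
  rw [e1] at g1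
  have g3 := mul_le_mul_of_nonneg_left g2 (pow_nonneg hq10.le a)
  have e2 : q₁ ^ a * (q₂ ^ b * extremal m y + (b : ℝ) / q₂ * (q₂ ^ b * y)) =
      P * extremal m y + (b : ℝ) / q₂ * u ^ (n + 1) := by
    rw [← hyP, hP]
    ring
  rw [e2] at g3
  have g4 : extremal m (u ^ (n + 1)) ≤
      P * extremal m y + ((b : ℝ) / q₂ + (a : ℝ) / q₁) * u ^ (n + 1) := by
    calc extremal m (u ^ (n + 1)) ≤ _ := g1
      _ ≤ _ := by rw [add_mul]; linarith
  have hρ : 0 < q₁ / q₂ := by positivity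
  -- first term
  have t1 : P * extremal m y ≤ u ^ n / (q₁ / q₂) * (m / (m - 1)) := by
    have h5 := extremal_le hm2 hym
    have h6 : P ≤ u ^ n / (q₁ / q₂) := by rw [le_div_iff₀ hρ]; linarith
    exact mul_le_mul h6 h5 (extremal_nonneg hm2 hym) (by positivity)
  have t2 : ((b : ℝ) / q₂ + (a : ℝ) / q₁) * u ^ (n + 1) ≤ n * (u ^ n / (q₁ / q₂)) := by
    have h5 : (b : ℝ) / q₂ ≤ (b : ℝ) / q₁ :=
      div_le_div_of_nonneg_left (Nat.cast_nonneg _) hq10 (h1.trans h2)
    have h6 : (b : ℝ) / q₂ + (a : ℝ) / q₁ ≤ n / q₁ := by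
      have : (n : ℝ) = a + b := by rw [← hab]; push_cast; ring
      rw [this, add_div]
      linarith
    have h7 : ((b : ℝ) / q₂ + (a : ℝ) / q₁) * u ^ (n + 1) ≤ n / q₁ * u ^ (n + 1) :=
      mul_le_mul_of_nonneg_right h6 (by positivity)
    refine h7.trans ?_
    have e3 : (n : ℝ) / q₁ * u ^ (n + 1) = n * (u ^ n / (q₁ / u)) := by
      rw [pow_succ]; field_simp
    rw [e3]
    refine mul_le_mul_of_nonneg_left ?_ (Nat.cast_nonneg _)
    refine div_le_div_of_nonneg_left hu_n.le hρ ?_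
    exact div_le_div_of_nonneg_left hq10.le hu0 h2
  have t3 : (1 : ℝ) ≤ m / (m - 1) := by
    rw [le_div_iff₀ (by linarith)]
    linarith
  have hX : 0 < u ^ n / (q₁ / q₂) := by positivity
  have t4 : extremal m (u ^ (n + 1)) ≤ (u ^ n / (q₁ / q₂)) * (((n : ℝ) + 1) * (m / (m - 1))) := by
    have h5 : (n : ℝ) * (u ^ n / (q₁ / q₂)) ≤ (n * (m / (m - 1))) * (u ^ n / (q₁ / q₂)) := by
      refine mul_le_mul_of_nonneg_right ?_ hX.le
      have : (0 : ℝ) ≤ n := Nat.cast_nonneg _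
      nlinarith
    nlinarith
  refine t4.trans ?_
  -- `q₂ / q₁ ≤ m / (m - 4)`
  have e4 : u ^ n / (q₁ / q₂) = u ^ n * ((j + 1) / j) := by
    rw [hq1, hq2]
    push_cast
    field_simp
  rw [e4]
  have t5 : ((j : ℝ) + 1) / j ≤ m / (m - 4) := by
    rw [div_le_div_iff₀ hj0 (by linarith)]
    nlinarith
  have t6 : (m : ℝ) / (m - 4) * (m / (m - 1)) ≤ 1 + 6 / m := by
    rw [div_mul_div_comm, div_le_iff₀ (by nlinarith)]
    have : (1 + 6 / (m : ℝ)) * ((m - 4) * (m - 1)) = ((m + 6) * ((m - 4) * (m - 1))) / m := by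
      field_simp
    rw [this, le_div_iff₀ hm0]
    nlinarith
  calc u ^ n * ((j + 1) / j) * (((n : ℝ) + 1) * (m / (m - 1)))
      = ((j + 1) / j * (m / (m - 1))) * (((n : ℝ) + 1) * u ^ n) := by ring
    _ ≤ (m / (m - 4) * (m / (m - 1))) * (((n : ℝ) + 1) * u ^ n) := by
        refine mul_le_mul_of_nonneg_right ?_ (by positivity)
        exact mul_le_mul_of_nonneg_right t5 (by linarith)
    _ ≤ _ := mul_le_mul_of_nonneg_right t6 (by positivity)

theorem extremal_le_pro (hm : 30 ≤ m) {x : ℝ} (hx0 : 0 < x) (hx1 : x ≤ 1 / 2) (k : ℕ) :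
    ∀ n : ℕ, (1 / 4 : ℝ) ^ ((n + 1) * 2 ^ k) ≤ x → extremal m x ≤ (1 + 6 / m) * pro n x := by
  have hm' : (30 : ℝ) ≤ m := by exact_mod_cast hm
  have direct : ∀ n : ℕ, (1 / 4 : ℝ) ^ (n + 1) ≤ x → extremal m x ≤ (1 + 6 / m) * pro n x := by
    intro n hn
    have hN : ((n + 1 : ℕ) : ℝ) ≠ 0 := by positivity
    set u : ℝ := x ^ (1 / ((n : ℝ) + 1)) with hu
    have hu0 : 0 < u := Real.rpow_pos_of_pos hx0 _
    have hun : u ^ (n + 1) = x := by
      rw [hu, ← Real.rpow_natCast, ← Real.rpow_mul hx0.le]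
      push_cast
      rw [one_div, inv_mul_cancel₀ (by positivity), Real.rpow_one]
    have hu4 : 1 / 4 ≤ u := by
      by_contra hlt
      push Not at hlt
      have := pow_lt_pow_left₀ hlt hu0.le (n := n + 1) (by omega)
      rw [hun] at this
      linarith
    have hu1 : u ≤ 1 := by
      rw [hu]
      exact Real.rpow_le_one hx0.le (by linarith) (by positivity)
    have h1 := extremal_pow_le hm hu4 hu1 n
    rw [hun] at h1
    rw [pro_of_le n hx1]
    have h2 : x ^ (1 - 1 / ((n : ℝ) + 1)) = u ^ n := by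
      rw [Real.rpow_sub hx0, Real.rpow_one, ← hu, ← hun, pow_succ]
      field_simp
    rw [h2]
    exact h1
  induction k with
  | zero =>
    intro n hn
    rw [pow_zero, mul_one] at hn
    exact direct n hn
  | succ k ih =>
    intro n hn
    rcases le_or_gt ((1 / 4 : ℝ) ^ (n + 1)) x with h | h
    · exact direct n h
    · have h1 := ih (2 * n + 1) (by
        have e : (2 * n + 1 + 1) * 2 ^ k = (n + 1) * 2 ^ (k + 1) := by rw [pow_succ]; ring
        rw [e]
        exact hn)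
      refine h1.trans (mul_le_mul_of_nonneg_left ?_ (by positivity))
      rw [pro_of_le _ hx1, pro_of_le _ hx1]
      push_cast
      have hN : (0 : ℝ) < (n : ℝ) + 1 := by positivity
      set v : ℝ := x ^ (1 / (2 * ((n : ℝ) + 1))) with hv
      have hv0 : 0 < v := Real.rpow_pos_of_pos hx0 _
      have hv2 : v ≤ 1 / 2 := by
        have h3 : v ^ (2 * (n + 1)) = x := by
          rw [hv, ← Real.rpow_natCast, ← Real.rpow_mul hx0.le]
          push_cast
          rw [one_div, inv_mul_cancel₀ (by positivity), Real.rpow_one]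
        by_contra hlt
        push Not at hlt
        have h4 := pow_lt_pow_left₀ hlt (by norm_num) (n := 2 * (n + 1)) (by omega)
        rw [h3, pow_mul] at h4
        norm_num at h4 h
        linarith
      have e1 : x ^ (1 - 1 / (2 * (n : ℝ) + 1 + 1)) =
          x ^ (1 - 1 / ((n : ℝ) + 1)) * v := by
        rw [hv, ← Real.rpow_add hx0]
        congr 1
        field_simp
        ring
      rw [e1]
      have hA : 0 < x ^ (1 - 1 / ((n : ℝ) + 1)) := Real.rpow_pos_of_pos hx0 _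
      have : (2 * (n : ℝ) + 1 + 1) * (x ^ (1 - 1 / ((n : ℝ) + 1)) * v) =
          ((n : ℝ) + 1) * x ^ (1 - 1 / ((n : ℝ) + 1)) * (2 * v) := by ring
      rw [this]
      refine mul_le_of_le_one_right (by positivity) (by linarith)

theorem extremal_le_profile (hm : 30 ≤ m) {x : ℝ} (hx : x ∈ Icc (0 : ℝ) 1) :
    extremal m x ≤ (1 + 6 / m) * profile x := by
  have hm2 : 2 ≤ m := by omega
  have hm' : (30 : ℝ) ≤ m := by exact_mod_cast hm
  have hC : 0 < 1 + 6 / (m : ℝ) := by positivity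
  have half : ∀ x : ℝ, 0 ≤ x → x ≤ 1 / 2 → extremal m x ≤ (1 + 6 / m) * profile x := by
    intro x hx0 hx1
    rcases hx0.eq_or_lt with rfl | hx0
    · rw [extremal_zero hm2, profile_zero, mul_zero]
    · have h1 : ∀ n : ℕ, extremal m x / (1 + 6 / m) ≤ pro n x := by
        intro n
        rw [div_le_iff₀ hC, mul_comm]
        -- choose `k`
        have h2 : ∃ k : ℕ, (1 / 4 : ℝ) ^ ((n + 1) * 2 ^ k) ≤ x := by
          obtain ⟨k, hk⟩ := exists_pow_lt_of_lt_one hx0 (by norm_num : (1 / 4 : ℝ) < 1)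
          refine ⟨k, le_trans ?_ hk.le⟩
          refine pow_le_pow_of_le_one (by norm_num) (by norm_num) ?_
          have h3 : k < 2 ^ k := Nat.lt_two_pow_self
          nlinarith
        obtain ⟨k, hk⟩ := h2
        exact extremal_le_pro hm hx0 hx1 k n hk
      have h3 := le_profile h1
      rw [div_le_iff₀ hC] at h3
      linarith
  rcases le_total x (1 / 2) with h | h
  · exact half x hx.1 h
  · have := half (1 - x) (by linarith [hx.2]) (by linarith)
    rwa [extremal_symm hm2 hx, profile_symm] at this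

end Pool.Agent.MP_56f843_an
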