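import Pool.Agent.MP_56f843_an.LarA

set_option autoImplicit false

/-!
# Large `m`, IV: constants and logarithmic bounds
-/

namespace Pool.Agent.MP_56f843_an

open Set

variable {m j : ℕ}

theorem exists_isMin (hm : 2 ≤ m) : ∃ j, IsMin m j := by
  obtain ⟨j, hj, hmin⟩ := Finset.exists_min_image (Finset.Ico 1 m)
    (fun i : ℕ => ((m : ℝ) / i) / Real.log (m / i)) ⟨1, by rw [Finset.mem_Ico]; omega⟩
  rw [Finset.mem_Ico] at hj
  exact ⟨j, hm, hj.1, hj.2, fun i h1 h2 => hmin i (by rw [Finset.mem_Ico]; omega)⟩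

theorem IsMin.exp_le_cc (H : IsMin m j) : Real.exp 1 ≤ cc m j := by
  have hLL := H.LL_pos
  unfold cc
  unfold LL at hLL
  rw [le_div_iff₀ hLL]
  have h0 : 0 < (m : ℝ) / j := one_pos.trans H.one_lt
  have h1 : 0 < (m : ℝ) / j / Real.exp 1 := div_pos h0 (Real.exp_pos 1)
  have h2 := Real.log_le_sub_one_of_pos h1
  rw [Real.log_div h0.ne' (Real.exp_pos 1).ne', Real.log_exp] at h2
  have h3 : Real.log ((m : ℝ) / j) ≤ (m : ℝ) / j / Real.exp 1 := by linarith
  rw [le_div_iff₀ (Real.exp_pos 1)] at h3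
  linarith

theorem IsMin.cc_ge (H : IsMin m j) : 2.7182 ≤ cc m j := by
  have h1 := H.exp_le_cc
  have h2 := Real.exp_one_gt_d9
  linarith

theorem IsMin.cc_le (H : IsMin m j) (hm : 1000 ≤ m) : cc m j ≤ 2.73 := by
  have hm' : (1000 : ℝ) ≤ m := by exact_mod_cast hm
  have he1 := Real.exp_one_gt_d9
  have he2 := Real.exp_one_lt_d9
  have he0 : 0 < Real.exp 1 := Real.exp_pos 1
  set i := ⌊(m : ℝ) / Real.exp 1⌋₊ with hi
  have hi1 : (i : ℝ) ≤ m / Real.exp 1 := Nat.floor_le (by positivity)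
  have hi2 : (m : ℝ) / Real.exp 1 < i + 1 := Nat.lt_floor_add_one _
  have hinv : (0.36787 : ℝ) ≤ 1 / Real.exp 1 := by
    rw [le_div_iff₀ he0]
    nlinarith
  have hinv2 : 1 / Real.exp 1 ≤ (1 / 2 : ℝ) := by
    rw [div_le_iff₀ he0]
    linarith
  have e1 : (m : ℝ) / Real.exp 1 = m * (1 / Real.exp 1) := by ring
  have hi3 : (0.36687 : ℝ) * m ≤ i := by
    rw [e1] at hi2
    nlinarith
  have hi0 : (0 : ℝ) < i := by nlinarith
  have hi1' : 1 ≤ i := by
    have : 0 < i := by exact_mod_cast hi0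
    omega
  have him : i < m := by
    have : (i : ℝ) < m := by
      rw [e1] at hi1
      nlinarith
    exact_mod_cast this
  have h1 := H.min i hi1' him
  have h2 : Real.exp 1 ≤ (m : ℝ) / i := by
    rw [le_div_iff₀ hi0]
    rw [le_div_iff₀ he0] at hi1
    linarith
  have h3 : 1 ≤ Real.log ((m : ℝ) / i) := by
    have := Real.log_le_log he0 h2
    rwa [Real.log_exp] at this
  have h4 : ((m : ℝ) / i) / Real.log (m / i) ≤ (m : ℝ) / i :=
    div_le_self (by positivity) h3
  have h5 : (m : ℝ) / i ≤ 2.73 := by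
    rw [div_le_iff₀ hi0]
    nlinarith
  unfold cc
  linarith

theorem IsMin.cc_log (H : IsMin m j) : cc m j * Real.log ((m : ℝ) / j) = m / j := H.cc_LL

theorem IsMin.ratio_le (H : IsMin m j) (hm : 1000 ≤ m) : (m : ℝ) / j ≤ 4 := by
  by_contra hlt
  push Not at hlt
  have h1 := H.cc_le hm
  have h2 := H.cc_log
  have h0 : 0 < (m : ℝ) / j := by linarith
  have h3 := Real.log_le_sub_one_of_pos (by positivity : 0 < (m : ℝ) / j / 4)
  rw [Real.log_div h0.ne' (by norm_num), show (4 : ℝ) = 2 ^ 2 by norm_num, Real.log_pow] at h3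
  have h4 := Real.log_two_lt_d9
  push_cast at h3
  obtain ⟨t, ht⟩ : ∃ t, t = (m : ℝ) / j := ⟨_, rfl⟩
  rw [← ht] at h0 h2 h3 hlt
  have h5 : 0 < Real.log t := Real.log_pos (by linarith)
  nlinarith

theorem IsMin.le_ratio (H : IsMin m j) (hm : 1000 ≤ m) : 2 ≤ (m : ℝ) / j := by
  by_contra hlt
  push Not at hlt
  have h1 := H.cc_le hm
  have h2 := H.cc_log
  have hone := H.one_lt
  have h0 : 0 < (m : ℝ) / j := by linarith
  have h3 := Real.log_le_sub_one_of_pos (by positivity : 0 < (m : ℝ) / j / 2)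
  rw [Real.log_div h0.ne' (by norm_num)] at h3
  have h4 := Real.log_two_lt_d9
  obtain ⟨t, ht⟩ : ∃ t, t = (m : ℝ) / j := ⟨_, rfl⟩
  rw [← ht] at h0 h2 h3 hlt hone
  have h5 : 0 < Real.log t := Real.log_pos (by linarith)
  nlinarith

/-- lower bound -/
theorem IsMin.lower_bound (H : IsMin m j) {x : ℝ} (hx : x ∈ Icc (0 : ℝ) 1) :
    cc m j * Real.negMulLog x ≤ extremal m x := by
  rcases hx.1.eq_or_lt with h | h
  · rw [← h, Real.negMulLog_zero, mul_zero, extremal_zero H.two_le]
  · have h1 := (H.bounds ⟨h, hx.2⟩).1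
    rw [one_div, Real.log_inv] at h1
    unfold Real.negMulLog
    linarith

/-- values of `x log (1/x)` at powers of `1/2` -/
theorem negMulLog_pow (k : ℕ) : Real.negMulLog ((1 / 2 : ℝ) ^ k) = k * (1 / 2 : ℝ) ^ k * Real.log 2 := by
  unfold Real.negMulLog
  rw [Real.log_pow, one_div, Real.log_inv]
  ring

theorem negMulLog_chord {a b x : ℝ} (ha : 0 ≤ a) (hab : a < b) (h1 : a ≤ x) (h2 : x ≤ b) :
    (b - x) * Real.negMulLog a + (x - a) * Real.negMulLog b ≤ (b - a) * Real.negMulLog x := by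
  have hba : 0 < b - a := by linarith
  have m1 : a ∈ Ici (0 : ℝ) := ha
  have m2 : b ∈ Ici (0 : ℝ) := ha.trans hab.le
  have w1 : 0 ≤ (b - x) / (b - a) := div_nonneg (by linarith) hba.le
  have w2 : 0 ≤ (x - a) / (b - a) := div_nonneg (by linarith) hba.le
  have w3 : (b - x) / (b - a) + (x - a) / (b - a) = 1 := by
    rw [← add_div, div_eq_one_iff_eq hba.ne']; ring
  have h4 := Real.concaveOn_negMulLog.2 m1 m2 w1 w2 w3
  simp only [smul_eq_mul] at h4
  have h5 : (b - x) / (b - a) * a + (x - a) / (b - a) * b = x := by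
    field_simp
    ring
  rw [h5] at h4
  have h6 := mul_le_mul_of_nonneg_left h4 hba.le
  refine le_trans (le_of_eq ?_) h6
  field_simp

theorem negMulLog_ge1 {x : ℝ} (h1 : 1 / 4 ≤ x) (h2 : x ≤ 1 / 2) :
    Real.log 2 / 2 ≤ Real.negMulLog x := by
  have h := negMulLog_chord (a := 1 / 4) (b := 1 / 2) (by norm_num) (by norm_num) h1 h2
  have e1 := negMulLog_pow 1
  have e2 := negMulLog_pow 2
  norm_num at e1 e2
  rw [e1, e2] at h
  nlinarith

theorem negMulLog_ge2 {x : ℝ} (h1 : 1 / 8 ≤ x) (h2 : x ≤ 1 / 4) :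
    Real.log 2 * (1 / 4 + x) ≤ Real.negMulLog x := by
  have h := negMulLog_chord (a := 1 / 8) (b := 1 / 4) (by norm_num) (by norm_num) h1 h2
  have e1 := negMulLog_pow 3
  have e2 := negMulLog_pow 2
  norm_num at e1 e2
  rw [e1, e2] at h
  nlinarith

theorem negMulLog_ge3 {x : ℝ} (h1 : 1 / 16 ≤ x) (h2 : x ≤ 1 / 4) :
    Real.log 2 * (1 / 6 + 4 / 3 * x) ≤ Real.negMulLog x := by
  have h := negMulLog_chord (a := 1 / 16) (b := 1 / 4) (by norm_num) (by norm_num) h1 h2
  have e1 := negMulLog_pow 4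
  have e2 := negMulLog_pow 2
  norm_num at e1 e2
  rw [e1, e2] at h
  nlinarith

/-- bound with a half -/
theorem extremal_half (hm : 2 ≤ m) {x : ℝ} (hx0 : 0 ≤ x) (hx1 : x ≤ 1 / 2) :
    extremal m x ≤ 1 / 2 + 1 / (m - 1) + 2 * x := by
  have hm' : (2 : ℝ) ≤ m := by exact_mod_cast hm
  have hm0 : (0 : ℝ) < m := by linarith
  set h := (m + 1) / 2 with hh
  have hh1 : m ≤ 2 * h := by omega
  have hh2 : 2 * h ≤ m + 1 := by omega
  have hh1' : (m : ℝ) ≤ 2 * h := by exact_mod_cast hh1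
  have hh2' : 2 * (h : ℝ) ≤ m + 1 := by exact_mod_cast hh2
  have hhm : h ≤ m := by omega
  obtain ⟨q, hq⟩ : ∃ q : ℝ, q = (h : ℝ) / m := ⟨_, rfl⟩
  have hq1 : 1 / 2 ≤ q := by rw [hq, le_div_iff₀ hm0]; linarith
  have hq2 : q ≤ 1 := by
    rw [hq, div_le_one hm0]
    exact_mod_cast hhm
  have hq0 : 0 < q := by linarith
  have hxq : x / q ≤ 2 * x := by
    rw [div_le_iff₀ hq0]
    nlinarith
  have hxq0 : 0 ≤ x / q := by positivity
  have h1 := extremal_mul hm (x := q) (y := x / q) ⟨hq0.le, hq2⟩ ⟨hxq0, by linarith⟩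
  rw [mul_div_cancel₀ _ hq0.ne'] at h1
  have h2 := extremal_le hm (x := x / q) ⟨hxq0, by linarith⟩
  have h3 : extremal m q ≤ 1 := by
    rw [hq]
    have hj0 : (0 : ℝ) < m := hm0
    rcases hhm.eq_or_lt with h4 | h4
    · rw [h4, div_self hm0.ne', extremal_one hm]
      exact zero_le_one
    · have h := (inClass_extremal hm).tuple h4 (y := 0) (v := 1) le_rfl zero_le_one le_rfl
      rw [extremal_zero hm, extremal_one hm] at h
      simpa using h
  have h4 : q * extremal m (x / q) ≤ q * (m / (m - 1)) := mul_le_mul_of_nonneg_left h2 hq0.le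
  have h5 : x / q * extremal m q ≤ x / q := mul_le_of_le_one_right hxq0 h3
  have h6 : q * (m / (m - 1)) ≤ 1 / 2 + 1 / (m - 1) := by
    have hm1 : (0 : ℝ) < m - 1 := by linarith
    have e : q * ((m : ℝ) / (m - 1)) = h / (m - 1) := by
      rw [hq]
      field_simp
    rw [e, div_add_div _ _ (by norm_num) hm1.ne', div_le_div_iff₀ hm1 (by positivity)]
    nlinarith
  linarith

/-- bound with a third -/
theorem extremal_third (hm : 4 ≤ m) {x : ℝ} (hx0 : 0 ≤ x) (hx1 : x ≤ 1 / 3) :
    extremal m x ≤ 1 / 3 + 1 / (m - 1) + 3 * x := by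
  have hm2 : 2 ≤ m := by omega
  have hm' : (4 : ℝ) ≤ m := by exact_mod_cast hm
  have hm0 : (0 : ℝ) < m := by linarith
  set h := (m + 2) / 3 with hh
  have hh1 : m ≤ 3 * h := by omega
  have hh2 : 3 * h ≤ m + 2 := by omega
  have hh1' : (m : ℝ) ≤ 3 * h := by exact_mod_cast hh1
  have hh2' : 3 * (h : ℝ) ≤ m + 2 := by exact_mod_cast hh2
  have hhm : h < m := by omega
  obtain ⟨q, hq⟩ : ∃ q : ℝ, q = (h : ℝ) / m := ⟨_, rfl⟩
  have hq1 : 1 / 3 ≤ q := by rw [hq, le_div_iff₀ hm0]; linarith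
  have hq2 : q ≤ 1 := by
    rw [hq, div_le_one hm0]
    exact_mod_cast hhm.le
  have hq0 : 0 < q := by linarith
  have hxq : x / q ≤ 3 * x := by
    rw [div_le_iff₀ hq0]
    nlinarith
  have hxq0 : 0 ≤ x / q := by positivity
  have h1 := extremal_mul hm2 (x := q) (y := x / q) ⟨hq0.le, hq2⟩ ⟨hxq0, by linarith⟩
  rw [mul_div_cancel₀ _ hq0.ne'] at h1
  have h2 := extremal_le hm2 (x := x / q) ⟨hxq0, by linarith⟩
  have h3 : extremal m q ≤ 1 := by
    rw [hq]
    have h := (inClass_extremal hm2).tuple hhm (y := 0) (v := 1) le_rfl zero_le_one le_rfl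
    rw [extremal_zero hm2, extremal_one hm2] at h
    simpa using h
  have h4 : q * extremal m (x / q) ≤ q * (m / (m - 1)) := mul_le_mul_of_nonneg_left h2 hq0.le
  have h5 : x / q * extremal m q ≤ x / q := mul_le_of_le_one_right hxq0 h3
  have h6 : q * (m / (m - 1)) ≤ 1 / 3 + 1 / (m - 1) := by
    have hm1 : (0 : ℝ) < m - 1 := by linarith
    have e : q * ((m : ℝ) / (m - 1)) = h / (m - 1) := by
      rw [hq]
      field_simp
    rw [e, div_add_div _ _ (by norm_num) hm1.ne', div_le_div_iff₀ hm1 (by positivity)]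
    nlinarith
  linarith

theorem inv_sub_one_le (hm : 1000 ≤ m) : 1 / ((m : ℝ) - 1) ≤ 0.0011 := by
  have hm' : (1000 : ℝ) ≤ m := by exact_mod_cast hm
  rw [div_le_iff₀ (by linarith)]
  nlinarith

theorem bound_eq (hm : 2 ≤ m) : (m : ℝ) / (m - 1) = 1 + 1 / (m - 1) := by
  have hm' : (2 : ℝ) ≤ m := by exact_mod_cast hm
  have : (m : ℝ) - 1 ≠ 0 := by linarith
  field_simp
  ring

/-- upper bound on `[0, 1/2]` -/
theorem IsMin.upper_bound (H : IsMin m j) (hm : 1000 ≤ m) {x : ℝ} (hx0 : 0 ≤ x) (hx1 : x ≤ 1 / 2) :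
    extremal m x ≤ cc m j * Real.negMulLog x + x / 3 := by
  have hm2 : 2 ≤ m := H.two_le
  have hm' : (1000 : ℝ) ≤ m := by exact_mod_cast hm
  have hi := inv_sub_one_le hm
  have hl := Real.log_two_gt_d9
  have hc := H.cc_ge
  have base : ∀ x : ℝ, 1 / 8 ≤ x → x ≤ 1 / 2 →
      extremal m x ≤ cc m j * Real.negMulLog x + x / 3 := by
    intro x h1 h2
    rcases le_total x (1 / 4) with h3 | h3
    · have e := negMulLog_ge2 h1 h3
      have e2 : 0.69 * (1 / 4 + x) ≤ Real.negMulLog x := by nlinarith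
      have e3 : 2.7182 * (0.6931 * (1 / 4 + x)) ≤ cc m j * Real.negMulLog x := by
        have e4 : 0.6931 * (1 / 4 + x) ≤ Real.negMulLog x := by nlinarith
        exact mul_le_mul hc e4 (by nlinarith) (by linarith)
      rcases le_total x (1 / 6) with h4 | h4
      · have := extremal_third (m := m) (by omega) (by linarith) (by linarith : x ≤ 1 / 3)
        linarith
      · have := extremal_half hm2 (by linarith) h2
        linarith
    · have e := negMulLog_ge1 h3 h2
      have e3 : 2.7182 * (0.6931 / 2) ≤ cc m j * Real.negMulLog x :=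
        mul_le_mul hc (by linarith) (by norm_num) (by linarith)
      have := extremal_le hm2 (x := x) ⟨by linarith, by linarith⟩
      rw [bound_eq hm2] at this
      linarith
  have hq0 : 0 < (j : ℝ) / m := div_pos H.j_pos H.m_pos
  obtain ⟨q, hq⟩ : ∃ q : ℝ, q = (j : ℝ) / m := ⟨_, rfl⟩
  have hqinv : 1 / q = (m : ℝ) / j := by rw [hq, one_div_div]
  rw [← hq] at hq0
  have hq4 : 1 / q ≤ 4 := by rw [hqinv]; exact H.ratio_le hm
  have hq2 : 2 ≤ 1 / q := by rw [hqinv]; exact H.le_ratio hm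
  have hq1 : q ≤ 1 / 2 := by
    rw [le_div_iff₀ hq0] at hq2
    linarith
  have hql : cc m j * Real.log q = -(1 / q) := by
    have h1 := H.cc_log
    rw [← hqinv, one_div, Real.log_inv] at h1
    rw [one_div]
    linarith
  have hFq : extremal m q ≤ 1 := by
    rw [hq]
    have h := (inClass_extremal hm2).tuple H.lt (y := 0) (v := 1) le_rfl zero_le_one le_rfl
    rw [extremal_zero hm2, extremal_one hm2] at h
    simpa using h
  have main : ∀ k : ℕ, ∀ x : ℝ, 1 / 8 * q ^ k ≤ x → x ≤ 1 / 2 →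
      extremal m x ≤ cc m j * Real.negMulLog x + x / 3 := by
    intro k
    induction k with
    | zero =>
      intro x h1 h2
      exact base x (by simpa using h1) h2
    | succ k ih =>
      intro x h1 h2
      rcases le_or_gt (1 / 8) x with h3 | h3
      · exact base x h3 h2
      · have hx0 : 0 < x := lt_of_lt_of_le (by positivity) h1
        have hxq : x / q ≤ 1 / 2 := by
          have : x / q = x * (1 / q) := by ring
          rw [this]
          nlinarith
        have h4 : 1 / 8 * q ^ k ≤ x / q := by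
          rw [le_div_iff₀ hq0, mul_assoc, ← pow_succ]
          exact h1
        have h5 := ih (x / q) h4 hxq
        have hxq0 : 0 < x / q := by positivity
        have h6 := extremal_mul hm2 (x := q) (y := x / q) ⟨hq0.le, by linarith⟩
          ⟨hxq0.le, by linarith⟩
        rw [mul_div_cancel₀ _ hq0.ne'] at h6
        have h7 := mul_le_mul_of_nonneg_left h5 hq0.le
        have h8 : x / q * extremal m q ≤ x / q := mul_le_of_le_one_right hxq0.le hFq
        have h9 : q * (cc m j * Real.negMulLog (x / q) + x / q / 3) =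
            cc m j * Real.negMulLog x - x / q + x / 3 := by
          unfold Real.negMulLog
          rw [Real.log_div hx0.ne' hq0.ne']
          have e1 : q * (cc m j * (-(x / q) * (Real.log x - Real.log q)) + x / q / 3) =
              cc m j * (-x * Real.log x) + x * (cc m j * Real.log q) + x / 3 := by
            field_simp
            ring
          rw [e1, hql]
          ring
        rw [h9] at h7
        linarith
  rcases hx0.eq_or_lt with h | h
  · rw [← h, extremal_zero hm2, Real.negMulLog_zero]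
    simp
  · obtain ⟨k, hk⟩ := exists_pow_lt_of_lt_one h (by linarith : q < 1)
    refine main k x ?_ hx1
    have : 0 < q ^ k := pow_pos hq0 k
    linarith

end Pool.Agent.MP_56f843_an
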