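import Pool.Agent.MP_56f843_an.LarB
import Pool.Agent.MP_56f843_an.LarD

set_option autoImplicit false

/-!
# Large `m`, V: strong subadditivity
-/

namespace Pool.Agent.MP_56f843_an

open Set

variable {m j : ℕ}

theorem IsMin.crude (H : IsMin m j) (hm : 1000 ≤ m) {x y : ℝ} (hx : 0 ≤ x) (hx1 : x < 1)
    (hy : 0 ≤ y) (hyx : y ≤ (1 - x) / 2) :
    extremal m (x + y) ≤ extremal m x + (cc m j * Real.negMulLog y + y / 3) := by
  have hm2 := H.two_le
  have h1x : 0 < 1 - x := by linarith
  obtain ⟨s, hs⟩ : ∃ s, s = y / (1 - x) := ⟨_, rfl⟩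
  have hs0 : 0 ≤ s := by rw [hs]; positivity
  have hs1 : s ≤ 1 / 2 := by rw [hs, div_le_iff₀ h1x]; linarith
  have hsy : s * (1 - x) = y := by rw [hs]; field_simp
  have h1 := extremal_affine hm2 hx hx1.le le_rfl (s := s) ⟨hs0, by linarith⟩
  rw [extremal_one hm2] at h1
  have e1 : (1 - s) * x + s * 1 = x + y := by rw [← hsy]; ring
  rw [e1] at h1
  have h2 := H.upper_bound hm hs0 hs1
  have h3 := mul_le_mul_of_nonneg_left h2 h1x.le
  have h4 : 0 ≤ s * extremal m x := mul_nonneg hs0 (extremal_nonneg hm2 ⟨hx, hx1.le⟩)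
  have h5 : (1 - x) * Real.negMulLog s ≤ Real.negMulLog y := by
    rw [← hsy, Real.negMulLog_mul]
    have : 0 ≤ s * Real.negMulLog (1 - x) :=
      mul_nonneg hs0 (Real.negMulLog_nonneg h1x.le (by linarith))
    linarith
  have h6 := mul_le_mul_of_nonneg_left h5 H.cc_pos.le
  have h7 : (1 - x) * (cc m j * Real.negMulLog s + s / 3) =
      cc m j * ((1 - x) * Real.negMulLog s) + y / 3 := by rw [← hsy]; ring
  rw [h7] at h3
  linarith

theorem IsMin.node (H : IsMin m j) (hm : 1000 ≤ m) {x Y : ℝ} (hx : 0 ≤ x) (hY0 : 0 < Y)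
    (hY1 : Y ≤ 1 / 2) (hxY : x + Y ≤ 1)
    (hdir : ∀ y, Y / 16 ≤ y → y ≤ Y → extremal m (x + y) + 2 * y ≤ extremal m x + extremal m y)
    {y : ℝ} (hy0 : 0 ≤ y) (hyY : y ≤ Y) :
    extremal m (x + y) + 2 * y ≤ extremal m x + extremal m y := by
  have hm2 := H.two_le
  have hm1 : 1 ≤ m := by omega
  have hF := inClass_extremal hm2
  have hx1 : x < 1 := by linarith
  obtain ⟨g, hg⟩ : ∃ g : ℝ → ℝ, ∀ y, g y = extremal m (x + y) - extremal m x + 2 * y :=
    ⟨_, fun _ => rfl⟩
  obtain ⟨G, hG⟩ : ∃ G : ℝ → ℝ, ∀ y, G y = if y ≤ Y then max (extremal m y) (g y)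
      else extremal m y := ⟨_, fun _ => rfl⟩
  have hFG : ∀ y, extremal m y ≤ G y := by
    intro y
    rw [hG]
    split_ifs
    · exact le_max_left _ _
    · exact le_rfl
  have hgG : ∀ y, y ≤ Y → g y ≤ G y := by
    intro y hy
    rw [hG, if_pos hy]
    exact le_max_right _ _
  have hGcl : InClass m G := by
    refine InClass.of_av ?_ ?_ hm1 ?_
    · rw [hG, if_pos hY0.le, extremal_zero hm2, hg, add_zero]
      simp
    · rw [hG, if_neg (by linarith), extremal_one hm2]
    · intro z a b ha hab hb _ hzb hz
      have hz1 : a ≤ av m z := le_av hm1 fun i hi => (hz i hi).1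
      have hz2 : av m z ≤ b := av_le hm1 fun i hi => (hz i hi).2
      have hFA : extremal m (av m z) ≤ av m (fun i => G (z i)) + (b - a) := by
        have h1 := hF.av_le hm1 ha hb hz
        have h2 : av m (fun i => extremal m (z i)) ≤ av m (fun i => G (z i)) :=
          av_mono fun i _ => hFG _
        linarith
      rw [hG]
      split_ifs with hzY
      swap
      · exact hFA
      refine max_le hFA ?_
      rcases le_or_gt (Y / 16) (av m z) with h1 | h1
      · have h2 := hdir _ h1 hzY
        rw [hg]
        linarith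
      rcases le_or_gt b Y with h2 | h2
      · -- all `z i ≤ Y`
        have h3 := hF.av_le hm1 (a := x + a) (b := x + b) (x := fun i => x + z i) (by linarith)
          (by linarith) (fun i hi => ⟨by linarith [(hz i hi).1], by linarith [(hz i hi).2]⟩)
        rw [av_add, av_const hm1] at h3
        have h4 : av m (fun i => g (z i)) =
            av m (fun i => extremal m (x + z i)) - extremal m x + 2 * av m z := by
          have : (fun i => g (z i)) =
              fun i => (extremal m (x + z i) - extremal m x) + 2 * z i := by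
            funext i
            rw [hg]
          rw [this, av_add, av_sub, av_const hm1, av_mul_left]
        have h5 : av m (fun i => g (z i)) ≤ av m (fun i => G (z i)) :=
          av_mono fun i hi => hgG _ ((hz i hi).2.trans h2)
        rw [hg]
        linarith
      · -- some `z i > Y`
        obtain ⟨w, hw⟩ : ∃ w, w = av m z := ⟨_, rfl⟩
        rw [← hw] at h1 hz1 hz2 hzY ⊢
        have hb0 : 0 < b := by linarith
        have hw0 : 0 < w := by
          have h3 : 0 < ∑ i ∈ Finset.Icc 1 m, z i := by
            refine Finset.sum_pos' (fun i hi => ha.trans (hz i hi).1) ⟨m, ?_, ?_⟩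
            · rw [Finset.mem_Icc]; omega
            · rw [hzb]; exact hb0
          rw [hw]
          unfold av
          have : (0 : ℝ) < m := H.m_pos
          positivity
        -- lower bound of the mean
        have h3 : cc m j * (w * -Real.log b) ≤ av m (fun i => G (z i)) := by
          have h4 : ∀ i ∈ Finset.Icc 1 m, cc m j * (z i * -Real.log b) ≤ G (z i) := by
            intro i hi
            obtain ⟨h5, h6⟩ := hz i hi
            have h7 := H.lower_bound (x := z i) ⟨ha.trans h5, h6.trans hb⟩
            refine le_trans ?_ (h7.trans (hFG _))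
            refine mul_le_mul_of_nonneg_left ?_ H.cc_pos.le
            unfold Real.negMulLog
            rcases (ha.trans h5).eq_or_lt with h8 | h8
            · rw [← h8]; simp
            · have h9 := Real.log_le_log h8 h6
              nlinarith
          have h5 := av_mono (m := m) h4
          rw [av_mul_left, av_mul_right, ← hw] at h5
          exact h5
        have h4 := H.crude hm hx hx1 hw0.le (by linarith)
        have hc1 := H.cc_ge
        have hc2 := H.cc_le hm
        have hlog : Real.log (b / w / 16) ≤ b / w / 16 - 1 :=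
          Real.log_le_sub_one_of_pos (by positivity)
        rw [Real.log_div (by positivity) (by norm_num), Real.log_div hb0.ne' hw0.ne',
          show (16 : ℝ) = 2 ^ 4 by norm_num, Real.log_pow] at hlog
        have hl2 := Real.log_two_lt_d9
        push_cast at hlog
        have hbw : 16 < b / w := by rw [lt_div_iff₀ hw0]; linarith
        obtain ⟨r, hr⟩ : ∃ r, r = b / w := ⟨_, rfl⟩
        have hbr : b = r * w := by rw [hr]; field_simp
        rw [← hr] at hlog hbw
        have h5 : Real.log b - Real.log w ≤ 1.7728 + r / 16 := by norm_num at hlog ⊢; linarith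
        have h6 : cc m j * (Real.log b - Real.log w) ≤ r - 10 / 3 := by
          rcases le_or_gt 0 (Real.log b - Real.log w) with h7 | h7
          · have h8 : cc m j * (Real.log b - Real.log w) ≤ 2.73 * (1.7728 + r / 16) :=
              mul_le_mul hc2 h5 h7 (by norm_num)
            linarith
          · have : cc m j * (Real.log b - Real.log w) ≤ 0 :=
              mul_nonpos_of_nonneg_of_nonpos H.cc_pos.le h7.le
            linarith
        have h7 := mul_le_mul_of_nonneg_left h6 hw0.le
        rw [hg]
        have h8 : cc m j * Real.negMulLog w =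
            cc m j * (w * -Real.log b) + w * (cc m j * (Real.log b - Real.log w)) := by
          unfold Real.negMulLog
          ring
        nlinarith
  have hbd : BddAbove (G '' Icc 0 1) := by
    refine ⟨m / (m - 1) + 2, ?_⟩
    rintro _ ⟨t, ht, rfl⟩
    have hb := extremal_le hm2 ht
    rw [hG]
    split_ifs with h
    · refine max_le (by linarith) ?_
      rw [hg]
      have h1 := extremal_le hm2 (x := x + t) ⟨by linarith [ht.1], by linarith⟩
      have h2 := extremal_nonneg hm2 (x := x) ⟨hx, by linarith⟩
      linarith [ht.2]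
    · linarith
  have h1 := hGcl.le_extremal hm2 hbd (x := y) ⟨hy0, by linarith⟩
  have h2 := (hgG y hyY).trans h1
  rw [hg] at h2
  linarith

theorem entropy_ge {p : ℝ} (h1 : 1 / 17 ≤ p) (h2 : p ≤ 1 / 2) :
    1 / 3 + 2 * p ≤ 2.7182 * (Real.negMulLog p + Real.negMulLog (1 - p)) := by
  have hl := Real.log_two_gt_d9
  have e1 := negMulLog_chord (a := 1 / 17) (b := 1 / 2) (by norm_num) (by norm_num) h1 h2
  have e2 := negMulLog_chord (a := 1 / 2) (b := 16 / 17) (x := 1 - p) (by norm_num) (by norm_num)
    (by linarith) (by linarith)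
  have f1 := negMulLog_pow 1
  norm_num at f1
  have f2 : 0.163 ≤ Real.negMulLog (1 / 17) := by
    unfold Real.negMulLog
    rw [one_div, Real.log_inv]
    have : Real.log 16 ≤ Real.log 17 := Real.log_le_log (by norm_num) (by norm_num)
    rw [show (16 : ℝ) = 2 ^ 4 by norm_num, Real.log_pow] at this
    push_cast at this
    linarith
  have f3 : 0.0553 ≤ Real.negMulLog (16 / 17) := by
    unfold Real.negMulLog
    have : Real.log (16 / 17) ≤ 16 / 17 - 1 := Real.log_le_sub_one_of_pos (by norm_num)
    nlinarith
  rw [f1] at e1 e2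
  have f4 : 0.34657 ≤ 1 / 2 * Real.log 2 := by linarith
  nlinarith

theorem IsMin.directA (H : IsMin m j) (hm : 1000 ≤ m) {x y : ℝ} (hx0 : 0 < x) (hx : x ≤ 1 / 4)
    (hy : x / 16 ≤ y) (hyx : y ≤ x) :
    extremal m (x + y) + 2 * y ≤ extremal m x + extremal m y := by
  have hy0 : 0 < y := by linarith
  have h1 := H.lower_bound (x := x) ⟨hx0.le, by linarith⟩
  have h2 := H.lower_bound (x := y) ⟨hy0.le, by linarith⟩
  have h3 := H.upper_bound hm (x := x + y) (by linarith) (by linarith)
  obtain ⟨s, hs⟩ : ∃ s, s = x + y := ⟨_, rfl⟩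
  have hs0 : 0 < s := by linarith
  obtain ⟨p, hp⟩ : ∃ p, p = y / s := ⟨_, rfl⟩
  have hsp : s * p = y := by rw [hp]; field_simp
  have hsp' : s * (1 - p) = x := by rw [mul_sub, hsp, hs]; ring
  have hp1 : 1 / 17 ≤ p := by rw [hp, le_div_iff₀ hs0]; linarith
  have hp2 : p ≤ 1 / 2 := by rw [hp, div_le_iff₀ hs0]; linarith
  have h4 := entropy_ge hp1 hp2
  have h5 : 0 ≤ Real.negMulLog p + Real.negMulLog (1 - p) :=
    add_nonneg (Real.negMulLog_nonneg (by linarith) (by linarith))
      (Real.negMulLog_nonneg (by linarith) (by linarith))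
  have h6 : 1 / 3 + 2 * p ≤ cc m j * (Real.negMulLog p + Real.negMulLog (1 - p)) :=
    h4.trans (mul_le_mul_of_nonneg_right H.cc_ge h5)
  have h7 := mul_le_mul_of_nonneg_left h6 hs0.le
  have h8 : Real.negMulLog x + Real.negMulLog y =
      Real.negMulLog s + s * (Real.negMulLog p + Real.negMulLog (1 - p)) := by
    rw [← hsp, ← hsp', Real.negMulLog_mul, Real.negMulLog_mul]
    ring
  have h9 : cc m j * Real.negMulLog x + cc m j * Real.negMulLog y =
      cc m j * Real.negMulLog s + s * (cc m j * (Real.negMulLog p + Real.negMulLog (1 - p))) := by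
    rw [← mul_add, h8]
    ring
  rw [← hs] at h3 ⊢
  nlinarith

theorem directB (hm : 1000 ≤ m) {x y : ℝ} (hx0 : 1 / 4 ≤ x) (hx : x ≤ 3 / 4)
    (hy : 1 / 64 ≤ y) (hyx : y ≤ x) (hxy : x + y ≤ 1) :
    extremal m (x + y) + 2 * y ≤ extremal m x + extremal m y := by
  have hm2 : 2 ≤ m := by omega
  have hi := inv_sub_one_le hm
  have h1 : 1 ≤ extremal m x := by
    have := profile_le_extremal hm2 (x := x) ⟨by linarith, by linarith⟩
    rwa [profile_mid ⟨hx0, hx⟩] at this
  have h2 := extremal_le hm2 (x := x + y) ⟨by linarith, hxy⟩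
  rw [bound_eq hm2] at h2
  rcases le_total y (1 / 4) with h3 | h3
  · have h4 := profile_le_extremal hm2 (x := y) ⟨by linarith, by linarith⟩
    have h5 := four_mul_le_profile (by linarith : 0 ≤ y) h3
    linarith
  · have h4 := profile_le_extremal hm2 (x := y) ⟨by linarith, by linarith⟩
    rw [profile_mid ⟨h3, by linarith⟩] at h4
    obtain ⟨u, hu⟩ : ∃ u, u = 1 - (x + y) := ⟨_, rfl⟩
    have h5 := extremal_symm hm2 (x := x + y) ⟨by linarith, hxy⟩
    rw [← hu] at h5
    rcases le_total u (49 / 100) with h6 | h6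
    · have h7 := extremal_half hm2 (x := u) (by linarith) (by linarith)
      rw [h5] at h7
      linarith
    · linarith

theorem negMulLog_mono {w v : ℝ} (hw : 0 ≤ w) (hwv : w ≤ v) (hv : v ≤ 1 / 4) :
    Real.negMulLog w ≤ Real.negMulLog v := by
  rcases hw.eq_or_lt with rfl | hw
  · rw [Real.negMulLog_zero]
    exact Real.negMulLog_nonneg hwv (by linarith)
  · have hv0 : 0 < v := hw.trans_le hwv
    have h1 : Real.log v ≤ -1 := by
      have h2 := Real.log_le_log hv0 hv
      have h3 := Real.log_two_gt_d9
      rw [one_div, Real.log_inv, show (4 : ℝ) = 2 ^ 2 by norm_num, Real.log_pow] at h2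
      push_cast at h2
      linarith
    have h2 : Real.log (v / w) ≤ v / w - 1 := Real.log_le_sub_one_of_pos (by positivity)
    rw [Real.log_div hv0.ne' hw.ne'] at h2
    have h3 := mul_le_mul_of_nonneg_left h2 hw.le
    have h4 : w * (v / w - 1) = v - w := by field_simp
    rw [h4] at h3
    unfold Real.negMulLog
    nlinarith

theorem IsMin.directC (H : IsMin m j) (hm : 1000 ≤ m) {x y : ℝ} (hx0 : 3 / 4 ≤ x) (hx : x < 1)
    (hy : (1 - x) / 16 ≤ y) (hyx : y ≤ 1 - x) :
    extremal m (x + y) + 2 * y ≤ extremal m x + extremal m y := by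
  have hm2 : 2 ≤ m := by omega
  obtain ⟨v, hv⟩ : ∃ v, v = 1 - x := ⟨_, rfl⟩
  have e1 := extremal_symm hm2 (x := x) ⟨by linarith, hx.le⟩
  have e2 := extremal_symm hm2 (x := x + y) ⟨by linarith, by linarith⟩
  rw [← hv] at e1
  have e3 : 1 - (x + y) = v - y := by rw [hv]; ring
  rw [e3] at e2
  rw [← e1, ← e2]
  rw [← hv] at hy hyx
  have hv0 : 0 < v := by linarith
  have hy0 : 0 < y := by linarith
  have h1 := H.lower_bound (x := v) ⟨hv0.le, by linarith⟩
  have h2 := H.lower_bound (x := y) ⟨hy0.le, by linarith⟩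
  have h3 := H.upper_bound hm (x := v - y) (by linarith) (by linarith)
  have h4 := negMulLog_mono (w := v - y) (v := v) (by linarith) (by linarith) (by linarith)
  have h5 := mul_le_mul_of_nonneg_left h4 H.cc_pos.le
  have hl := Real.log_two_gt_d9
  have hc := H.cc_ge
  rcases le_total y (1 / 16) with h6 | h6
  · have h7 : 2.7724 * y ≤ Real.negMulLog y := by
      have h8 := Real.log_le_log hy0 h6
      rw [one_div, Real.log_inv, show (16 : ℝ) = 2 ^ 4 by norm_num, Real.log_pow] at h8
      push_cast at h8
      unfold Real.negMulLog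
      nlinarith
    have h8 : 2.7182 * (2.7724 * y) ≤ cc m j * Real.negMulLog y :=
      mul_le_mul hc h7 (by positivity) (by linarith)
    linarith
  · have h7 := negMulLog_ge3 h6 (by linarith : y ≤ 1 / 4)
    have h8 : 0.6931 * (1 / 6 + 4 / 3 * y) ≤ Real.negMulLog y := by nlinarith
    have h9 : 2.7182 * (0.6931 * (1 / 6 + 4 / 3 * y)) ≤ cc m j * Real.negMulLog y :=
      mul_le_mul hc h8 (by positivity) (by linarith)
    linarith

/-- Strong subadditivity -/
theorem extremal_strong' (hm : 1000 ≤ m) {x y : ℝ} (hy : 0 ≤ y) (hyx : y ≤ x) (hxy : x + y ≤ 1) :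
    extremal m (x + y) + 2 * y ≤ extremal m x + extremal m y := by
  have hm2 : 2 ≤ m := by omega
  obtain ⟨j, H⟩ := exists_isMin hm2
  rcases hy.eq_or_lt with rfl | hy0
  · rw [add_zero, extremal_zero hm2]
    linarith
  have hx0 : 0 < x := by linarith
  rcases le_total x (1 / 4) with h1 | h1
  · exact H.node hm hx0.le hx0 (by linarith) (by linarith)
      (fun y h2 h3 => H.directA hm hx0 h1 h2 h3) hy hyx
  · rcases le_total x (3 / 4) with h2 | h2
    · have hY : 1 / 4 ≤ min x (1 - x) := le_min h1 (by linarith)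
      refine H.node hm hx0.le (Y := min x (1 - x)) (by linarith) ?_ ?_ ?_ hy ?_
      · rcases le_total x (1 / 2) with h3 | h3
        · exact (min_le_left _ _).trans h3
        · exact (min_le_right _ _).trans (by linarith)
      · have := min_le_right x (1 - x)
        linarith
      · intro y h3 h4
        have h5 := min_le_left x (1 - x)
        have h6 := min_le_right x (1 - x)
        exact directB hm h1 h2 (by linarith) (by linarith) (by linarith)
      · exact le_min hyx (by linarith)
    · refine H.node hm hx0.le (Y := 1 - x) (by linarith) (by linarith) (by linarith) ?_ hy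
        (by linarith)
      intro y h3 h4
      exact H.directC hm h2 (by linarith) h3 h4

theorem extremal_strong (hm : 1000 ≤ m) {x y : ℝ} (hx : 0 ≤ x) (hy : 0 ≤ y) (hxy : x + y ≤ 1) :
    extremal m (x + y) + 2 * min x y ≤ extremal m x + extremal m y := by
  rcases le_total y x with h | h
  · rw [min_eq_right h]
    exact extremal_strong' hm hy h hxy
  · rw [min_eq_left h]
    have := extremal_strong' hm hx h (by linarith)
    rw [add_comm y x] at this
    linarith

theorem extremal_subadd (hm : 1000 ≤ m) {x y : ℝ} (hx : 0 ≤ x) (hy : 0 ≤ y) (hxy : x + y ≤ 1) :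
    extremal m (x + y) ≤ extremal m x + extremal m y := by
  have := extremal_strong hm hx hy hxy
  have := le_min hx hy
  linarith

end Pool.Agent.MP_56f843_an
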