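import Pool.Agent.MP_56f843_an.LarE

set_option autoImplicit false

/-!
# Large `m`, VI: the periodic extension, merging
-/

namespace Pool.Agent.MP_56f843_an

open Set

variable {m : ℕ}

/-- the periodic extension of the extremal function -/
noncomputable def per (m : ℕ) (t : ℝ) : ℝ := extremal m (Int.fract t)

theorem fract_mem (t : ℝ) : Int.fract t ∈ Icc (0 : ℝ) 1 :=
  ⟨Int.fract_nonneg t, (Int.fract_lt_one t).le⟩

theorem per_add_int (t : ℝ) (k : ℤ) : per m (t + k) = per m t := by
  unfold per
  rw [Int.fract_add_intCast]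

theorem per_sub_int (t : ℝ) (k : ℤ) : per m (t - k) = per m t := by
  unfold per
  rw [Int.fract_sub_intCast]

theorem per_of_mem (hm : 2 ≤ m) {t : ℝ} (ht : t ∈ Icc (0 : ℝ) 1) : per m t = extremal m t := by
  unfold per
  rcases ht.2.eq_or_lt with rfl | h
  · rw [Int.fract_one, extremal_zero hm, extremal_one hm]
  · rw [Int.fract_eq_self.2 ⟨ht.1, h⟩]

theorem per_neg (hm : 2 ≤ m) (t : ℝ) : per m (-t) = per m t := by
  have h1 : per m (-t) = per m (1 - Int.fract t) := by
    have e : -t = (1 - Int.fract t) - ((⌊t⌋ + 1 : ℤ) : ℝ) := by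
      have := Int.floor_add_fract t
      push_cast
      linarith
    rw [e, per_sub_int]
  rw [h1, per_of_mem hm ⟨by linarith [Int.fract_lt_one t], by linarith [Int.fract_nonneg t]⟩,
    extremal_symm hm (fract_mem t)]
  rfl

theorem per_nonneg (hm : 2 ≤ m) (t : ℝ) : 0 ≤ per m t := extremal_nonneg hm (fract_mem t)

theorem per_le (hm : 2 ≤ m) (t : ℝ) : per m t ≤ m / (m - 1) := extremal_le hm (fract_mem t)

theorem per_zero (hm : 2 ≤ m) : per m 0 = 0 := by
  rw [per_of_mem hm ⟨le_rfl, zero_le_one⟩, extremal_zero hm]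

theorem per_add_le (hm : 1000 ≤ m) (s t : ℝ) : per m (s + t) ≤ per m s + per m t := by
  have hm2 : 2 ≤ m := by omega
  obtain ⟨x, hx⟩ : ∃ x, x = Int.fract s := ⟨_, rfl⟩
  obtain ⟨y, hy⟩ : ∃ y, y = Int.fract t := ⟨_, rfl⟩
  have hx0 : 0 ≤ x := by rw [hx]; exact Int.fract_nonneg s
  have hy0 : 0 ≤ y := by rw [hy]; exact Int.fract_nonneg t
  have hx1 : x < 1 := by rw [hx]; exact Int.fract_lt_one s
  have hy1 : y < 1 := by rw [hy]; exact Int.fract_lt_one t
  have e1 : per m (s + t) = per m (x + y) := by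
    have : s + t = (x + y) + ((⌊s⌋ + ⌊t⌋ : ℤ) : ℝ) := by
      have h1 := Int.floor_add_fract s
      have h2 := Int.floor_add_fract t
      rw [hx, hy]
      push_cast
      linarith
    rw [this, per_add_int]
  have e2 : per m s = extremal m x := by rw [hx]; rfl
  have e3 : per m t = extremal m y := by rw [hy]; rfl
  rw [e1, e2, e3]
  rcases le_total (x + y) 1 with h | h
  · rw [per_of_mem hm2 ⟨by linarith, h⟩]
    exact extremal_subadd hm hx0 hy0 h
  · have h1 := extremal_subadd hm (x := 1 - x) (y := 1 - y) (by linarith) (by linarith)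
      (by linarith)
    rw [extremal_symm hm2 ⟨hx0, hx1.le⟩, extremal_symm hm2 ⟨hy0, hy1.le⟩] at h1
    have h2 : per m (x + y) = extremal m (1 - x + (1 - y)) := by
      have e : 1 - x + (1 - y) = 1 - (x + y - 1) := by ring
      rw [e, extremal_symm hm2 ⟨by linarith, by linarith⟩,
        ← per_of_mem hm2 ⟨by linarith, by linarith⟩]
      have := per_sub_int (m := m) (x + y) 1
      rw [← this]
      norm_num
    rw [h2]
    exact h1

theorem per_sum_le (hm : 1000 ≤ m) {ι : Type*} (S : Finset ι) (y : ι → ℝ) :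
    per m (∑ i ∈ S, y i) ≤ ∑ i ∈ S, per m (y i) := by
  classical
  induction S using Finset.induction_on with
  | empty =>
    rw [Finset.sum_empty, Finset.sum_empty, per_zero (by omega)]
  | insert i S hi ih =>
    rw [Finset.sum_insert hi, Finset.sum_insert hi]
    have := per_add_le hm (y i) (∑ k ∈ S, y k)
    linarith

/-- the trivial upper bound `F (x) ≤ 1 + F ({m x}) / m` -/
theorem extremal_le_step (hm : 2 ≤ m) {x : ℝ} (hx : x ∈ Icc (0 : ℝ) 1) :
    m * extremal m x ≤ m + per m (m * x) := by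
  have hm' : (2 : ℝ) ≤ m := by exact_mod_cast hm
  have hm0 : (0 : ℝ) < m := by linarith
  rcases hx.2.eq_or_lt with rfl | hx1
  · rw [extremal_one hm, mul_zero]
    have := per_nonneg hm ((m : ℝ) * 1)
    linarith
  · have hmt : 0 ≤ m * x := mul_nonneg hm0.le hx.1
    set b := ⌊m * x⌋₊ with hb
    have hb1 : (b : ℝ) ≤ m * x := Nat.floor_le hmt
    have hb2 : m * x < b + 1 := Nat.lt_floor_add_one _
    have hbm : b < m := by
      have : (b : ℝ) < m := by nlinarith
      exact_mod_cast this
    have h1 := (inClass_extremal hm).tuple hbm (y := m * x - b) (v := 1) (by linarith)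
      (by linarith) le_rfl
    have h2 : (m * x - b + b * 1) / (m : ℝ) = x := by
      field_simp
      ring
    rw [h2, extremal_one hm, mul_zero, add_zero] at h1
    have h3 : per m (m * x) = extremal m (m * x - b) := by
      have e : m * x = (m * x - b) + ((b : ℤ) : ℝ) := by push_cast; ring
      rw [e, per_add_int, per_of_mem hm ⟨by linarith, by linarith⟩]
      push_cast
      ring_nf
    rw [h3]
    have h4 := mul_le_mul_of_nonneg_left h1 hm0.le
    have h5 : (m : ℝ) * (extremal m (m * x - b) / m + 1) = m + extremal m (m * x - b) := by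
      field_simp
      ring
    rw [h5] at h4
    exact h4

theorem per_le_step (hm : 2 ≤ m) (t : ℝ) : m * per m t ≤ m + per m (m * t) := by
  have h1 := extremal_le_step hm (fract_mem t)
  have h2 : per m (m * Int.fract t) = per m (m * t) := by
    have e : (m : ℝ) * Int.fract t = m * t - ((m * ⌊t⌋ : ℤ) : ℝ) := by
      have h3 : Int.fract t = t - ⌊t⌋ := rfl
      push_cast
      rw [h3]
      ring
    rw [e, per_sub_int]
  rw [h2] at h1
  exact h1

/-- sequential merging -/
theorem seq_merge (hm : 1000 ≤ m) {ι : Type*} (S : Finset ι) (w : ι → ℝ) {A : ℝ} (hA : 0 ≤ A)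
    (hw0 : ∀ i ∈ S, 0 ≤ w i) (hwA : ∀ i ∈ S, w i ≤ A) (hsum : ∑ i ∈ S, w i ≤ 1) :
    extremal m (∑ i ∈ S, w i) + 2 * max 0 (∑ i ∈ S, w i - A) ≤ ∑ i ∈ S, extremal m (w i) := by
  classical
  induction S using Finset.induction_on with
  | empty =>
    rw [Finset.sum_empty, Finset.sum_empty, extremal_zero (by omega), max_eq_left (by linarith)]
    simp
  | insert i S hi ih =>
    rw [Finset.sum_insert hi] at hsum ⊢
    rw [Finset.sum_insert hi]
    have h0 : ∀ k ∈ S, 0 ≤ w k := fun k hk => hw0 k (Finset.mem_insert_of_mem hk)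
    have hW0 : 0 ≤ ∑ k ∈ S, w k := Finset.sum_nonneg h0
    have hwi := hw0 i (Finset.mem_insert_self _ _)
    have hwi2 := hwA i (Finset.mem_insert_self _ _)
    have ih' := ih h0 (fun k hk => hwA k (Finset.mem_insert_of_mem hk)) (by linarith)
    obtain ⟨W, hW⟩ : ∃ W, W = ∑ k ∈ S, w k := ⟨_, rfl⟩
    rw [← hW] at hsum ih' hW0 ⊢
    have h1 := extremal_strong hm hwi hW0 hsum
    have h2 : max 0 (w i + W - A) ≤ max 0 (W - A) + min (w i) W := by
      have h3 : 0 ≤ min (w i) W := le_min hwi hW0
      refine max_le (by linarith [le_max_left 0 (W - A)]) ?_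
      rcases le_total (w i) W with h4 | h4
      · rw [min_eq_left h4]
        linarith [le_max_right 0 (W - A)]
      · rw [min_eq_right h4]
        linarith [le_max_left 0 (W - A)]
    linarith

theorem list_subadd (hm : 1000 ≤ m) (l : List ℝ) (h0 : ∀ x ∈ l, 0 ≤ x) (hs : l.sum ≤ 1) :
    extremal m l.sum ≤ (l.map (extremal m)).sum := by
  induction l with
  | nil => simp [extremal_zero (by omega : 2 ≤ m)]
  | cons x l ih =>
    rw [List.sum_cons, List.map_cons, List.sum_cons]
    rw [List.sum_cons] at hs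
    have hx := h0 x (List.mem_cons_self)
    have hl : ∀ y ∈ l, 0 ≤ y := fun y hy => h0 y (List.mem_cons_of_mem _ hy)
    have hl' : 0 ≤ l.sum := List.sum_nonneg hl
    have h1 := extremal_subadd hm hx hl' hs
    have h2 := ih hl (by linarith)
    linarith

theorem list_sum_ge {l : List ℝ} {a : ℝ} (h : ∀ x ∈ l, a ≤ x) : l.length * a ≤ l.sum := by
  induction l with
  | nil => simp
  | cons x l ih =>
    rw [List.sum_cons, List.length_cons]
    have h1 := h x (List.mem_cons_self)
    have h2 := ih fun y hy => h y (List.mem_cons_of_mem _ hy)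
    push_cast
    linarith

/-- binary merging -/
theorem bin_merge (hm : 1000 ≤ m) {a : ℝ} (ha : 0 ≤ a) (n : ℕ) :
    ∀ l : List ℝ, (∀ x ∈ l, a ≤ x) → l.sum ≤ 1 →
      extremal m l.sum + a * (n * (l.length - 2 ^ n + 1)) ≤ (l.map (extremal m)).sum := by
  induction n with
  | zero =>
    intro l h hs
    have := list_subadd hm l (fun x hx => ha.trans (h x hx)) hs
    simpa using this
  | succ n ih =>
    intro l h hs
    rcases Nat.lt_or_ge l.length 2 with hk | hk
    · have h1 := list_subadd hm l (fun x hx => ha.trans (h x hx)) hs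
      have h2 : (l.length : ℝ) ≤ 1 := by
        have : l.length ≤ 1 := by omega
        exact_mod_cast this
      have h3 : (1 : ℝ) ≤ 2 ^ n := one_le_pow₀ (by norm_num)
      have h4 : ((l.length : ℝ) - 2 ^ (n + 1) + 1) ≤ 0 := by
        rw [pow_succ]
        linarith
      have h5 : a * (((n + 1 : ℕ) : ℝ) * ((l.length : ℝ) - 2 ^ (n + 1) + 1)) ≤ 0 :=
        mul_nonpos_of_nonneg_of_nonpos ha
          (mul_nonpos_of_nonneg_of_nonpos (Nat.cast_nonneg _) h4)
      linarith
    · set k₁ := l.length / 2 with hk1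
      have hl1 : (l.take k₁).length = k₁ := by
        rw [List.length_take]
        omega
      have hl2 : (l.drop k₁).length = l.length - k₁ := List.length_drop
      have hsplit : l.take k₁ ++ l.drop k₁ = l := List.take_append_drop k₁ l
      have hsum : (l.take k₁).sum + (l.drop k₁).sum = l.sum := by
        rw [← List.sum_append, hsplit]
      have hmap : ((l.take k₁).map (extremal m)).sum + ((l.drop k₁).map (extremal m)).sum =
          (l.map (extremal m)).sum := by
        rw [← List.sum_append, ← List.map_append, hsplit]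
      have a1 : ∀ x ∈ l.take k₁, a ≤ x := fun x hx => h x (List.mem_of_mem_take hx)
      have a2 : ∀ x ∈ l.drop k₁, a ≤ x := fun x hx => h x (List.mem_of_mem_drop hx)
      have s1 := list_sum_ge a1
      have s2 := list_sum_ge a2
      have p1 : 0 ≤ (l.take k₁).sum := List.sum_nonneg fun x hx => ha.trans (a1 x hx)
      have p2 : 0 ≤ (l.drop k₁).sum := List.sum_nonneg fun x hx => ha.trans (a2 x hx)
      have i1 := ih _ a1 (by linarith)
      have i2 := ih _ a2 (by linarith)
      have h1 := extremal_strong hm p1 p2 (by linarith)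
      rw [hsum] at h1
      rw [hl1] at s1 i1
      rw [hl2] at s2 i2
      have hc : ((l.length - k₁ : ℕ) : ℝ) = l.length - k₁ := by
        rw [Nat.cast_sub (by omega)]
      rw [hc] at s2 i2
      have hk2 : (l.length : ℝ) ≤ 2 * k₁ + 1 := by
        have : l.length ≤ 2 * k₁ + 1 := by omega
        exact_mod_cast this
      have hk3 : 2 * (k₁ : ℝ) ≤ l.length := by
        have : 2 * k₁ ≤ l.length := by omega
        exact_mod_cast this
      have h2 : k₁ * a ≤ min (l.take k₁).sum (l.drop k₁).sum := by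
        refine le_min s1 (le_trans ?_ s2)
        exact mul_le_mul_of_nonneg_right (by linarith) ha
      rw [← hmap]
      obtain ⟨K, hK⟩ : ∃ K : ℝ, K = l.length := ⟨_, rfl⟩
      obtain ⟨k, hk⟩ : ∃ k : ℝ, k = k₁ := ⟨_, rfl⟩
      obtain ⟨E, hE⟩ : ∃ E : ℝ, E = 2 ^ n := ⟨_, rfl⟩
      have hE1 : 1 ≤ E := by rw [hE]; exact one_le_pow₀ (by norm_num)
      have hn0 : (0 : ℝ) ≤ n := Nat.cast_nonneg n
      rw [← hK] at hk2 hk3 i2 ⊢
      rw [← hk] at hk2 hk3 i1 i2 h2
      rw [← hE] at i1 i2
      have hE2 : (2 : ℝ) ^ (n + 1) = 2 * E := by rw [pow_succ, hE]; ring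
      rw [hE2]
      push_cast
      have key : a * (((n : ℝ) + 1) * (K - 2 * E + 1)) ≤
          a * (n * (k - E + 1)) + a * (n * (K - k - E + 1)) + 2 * (k * a) := by
        have : ((n : ℝ) + 1) * (K - 2 * E + 1) ≤
            n * (k - E + 1) + n * (K - k - E + 1) + 2 * k := by nlinarith
        nlinarith
      linarith

/-- binary merging for finite sets -/
theorem bin_merge' (hm : 1000 ≤ m) {a : ℝ} (ha : 0 ≤ a) (n : ℕ) {ι : Type*} (S : Finset ι)
    (x : ι → ℝ) (hx : ∀ i ∈ S, a ≤ x i) (hs : ∑ i ∈ S, x i ≤ 1) :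
    extremal m (∑ i ∈ S, x i) + a * (n * (S.card - 2 ^ n + 1)) ≤ ∑ i ∈ S, extremal m (x i) := by
  have h := bin_merge hm ha n (S.toList.map x) (by
    intro y hy
    rw [List.mem_map] at hy
    obtain ⟨i, hi, rfl⟩ := hy
    exact hx i (Finset.mem_toList.1 hi)) (by rw [Finset.sum_map_toList]; exact hs)
  rw [Finset.sum_map_toList, List.length_map, Finset.length_toList, List.map_map] at h
  have e : (S.toList.map (extremal m ∘ x)).sum = ∑ i ∈ S, extremal m (x i) :=
    Finset.sum_map_toList S _
  rw [e] at h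
  exact h

end Pool.Agent.MP_56f843_an
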