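import Pool.Agent.MP_56f843_an.LarF

set_option autoImplicit false

/-!
# Large `m`, VII: the periodic inequality with a gain at the integers
-/

namespace Pool.Agent.MP_56f843_an

open Set

variable {m : ℕ}

/-- Jensen gap of the function `max (y - t) 0` -/
noncomputable def gap (m : ℕ) (y : ℕ → ℝ) (t : ℝ) : ℝ :=
  av m (fun i => max (y i - t) 0) - max (av m y - t) 0

theorem max_sub (u : ℝ) : max u 0 = u + max (-u) 0 := by
  rcases le_total u 0 with h | h
  · rw [max_eq_right h, max_eq_left (by linarith)]; ring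
  · rw [max_eq_left h, max_eq_right (by linarith)]; ring

theorem gap_eq (hm : 1 ≤ m) (y : ℕ → ℝ) (t : ℝ) :
    gap m y t = av m (fun i => max (t - y i) 0) - max (t - av m y) 0 := by
  unfold gap
  have h1 : (fun i => max (y i - t) 0) = fun i => (y i - t) + max (t - y i) 0 := by
    funext i
    rw [max_sub, neg_sub]
  have h2 := max_sub (av m y - t)
  rw [neg_sub] at h2
  rw [h1, av_add, av_sub, av_const hm, h2]
  ring

theorem gap_nonneg (hm : 1 ≤ m) (y : ℕ → ℝ) (t : ℝ) : 0 ≤ gap m y t := by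
  unfold gap
  have h1 : av m y - t ≤ av m (fun i => max (y i - t) 0) := by
    have h2 : av m (fun i => y i - t) ≤ av m (fun i => max (y i - t) 0) :=
      av_mono fun i _ => le_max_left _ _
    rwa [av_sub, av_const hm] at h2
  have h2 : 0 ≤ av m (fun i => max (y i - t) 0) := le_av hm fun i _ => le_max_right _ _
  have := max_le h1 h2
  linarith

theorem gap_of_ge (hm : 1 ≤ m) {y : ℕ → ℝ} {t : ℝ} (h : ∀ i ∈ Finset.Icc 1 m, t ≤ y i) :
    gap m y t = 0 := by
  rw [gap_eq hm, av_congr (g := fun _ => 0) (fun i hi => max_eq_right (by linarith [h i hi])),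
    av_const hm, max_eq_right (by linarith [le_av hm h])]
  ring

theorem gap_of_le (hm : 1 ≤ m) {y : ℕ → ℝ} {t : ℝ} (h : ∀ i ∈ Finset.Icc 1 m, y i ≤ t) :
    gap m y t = 0 := by
  unfold gap
  rw [av_congr (g := fun _ => 0) (fun i hi => max_eq_right (by linarith [h i hi])),
    av_const hm, max_eq_right (by linarith [av_le hm h])]
  ring

theorem gap_le_left (hm : 1 ≤ m) (y : ℕ → ℝ) (t : ℝ) :
    gap m y t ≤ av m (fun i => max (t - y i) 0) := by
  rw [gap_eq hm]
  linarith [le_max_right (t - av m y) 0]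

theorem gap_le_right (y : ℕ → ℝ) (t : ℝ) : gap m y t ≤ av m (fun i => max (y i - t) 0) := by
  unfold gap
  linarith [le_max_right (av m y - t) 0]

/-- no integer inside -/
theorem window0 (hm : 2 ≤ m) {y : ℕ → ℝ} {a b : ℝ} (k : ℤ) (ha : k ≤ a) (hb : b ≤ k + 1)
    (hy : ∀ i ∈ Finset.Icc 1 m, a ≤ y i ∧ y i ≤ b) :
    per m (av m y) ≤ av m (fun i => per m (y i)) + (b - a) := by
  have hm1 : 1 ≤ m := by omega
  have h := (inClass_extremal hm).av_le hm1 (a := a - k) (b := b - k) (x := fun i => y i - k)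
    (by linarith) (by linarith) (fun i hi => ⟨by linarith [(hy i hi).1], by linarith [(hy i hi).2]⟩)
  rw [av_sub, av_const hm1] at h
  have h1 : per m (av m y) = extremal m (av m y - k) := by
    rw [← per_of_mem hm, per_sub_int]
    exact ⟨by linarith [le_av hm1 fun i hi => (hy i hi).1],
      by linarith [av_le hm1 fun i hi => (hy i hi).2]⟩
  have h2 : av m (fun i => per m (y i)) = av m (fun i => extremal m (y i - k)) := by
    refine av_congr fun i hi => ?_
    rw [← per_of_mem hm, per_sub_int]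
    exact ⟨by linarith [(hy i hi).1], by linarith [(hy i hi).2]⟩
  rw [h1, h2]
  linarith

/-- `F (P - Q) + 2 min P Q ≤ F P + F Q` on the circle -/
theorem per_sub_strong (hm : 1000 ≤ m) {P Q : ℝ} (hP : 0 ≤ P) (hQ : 0 ≤ Q) (hPQ : P + Q ≤ 1) :
    per m (P - Q) + 2 * min P Q ≤ extremal m P + extremal m Q := by
  have hm2 : 2 ≤ m := by omega
  have key : ∀ P Q : ℝ, 0 ≤ P → 0 ≤ Q → P + Q ≤ 1 → Q ≤ P →
      per m (P - Q) + 2 * Q ≤ extremal m P + extremal m Q := by
    intro P Q hP hQ hPQ hle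
    have h1 := extremal_strong hm (x := 1 - P) (y := Q) (by linarith) hQ (by linarith)
    rw [min_eq_right (by linarith), extremal_symm hm2 ⟨hP, by linarith⟩] at h1
    have h2 : extremal m (1 - P + Q) = per m (P - Q) := by
      rw [per_of_mem hm2 ⟨by linarith, by linarith⟩,
        ← extremal_symm hm2 (x := P - Q) ⟨by linarith, by linarith⟩]
      congr 1
      ring
    rw [h2] at h1
    exact h1
  rcases le_total Q P with h | h
  · rw [min_eq_right h]
    exact key P Q hP hQ hPQ h
  · rw [min_eq_left h]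
    have h1 := key Q P hQ hP (by linarith) h
    rw [← per_neg hm2, neg_sub] at h1
    linarith

/-- splitting at an integer -/
theorem per_split (hm : 2 ≤ m) (k : ℤ) {y : ℝ} (h1 : k - 1 ≤ y) (h2 : y ≤ k + 1) :
    per m y = extremal m (max (y - k) 0) + extremal m (max (k - y) 0) := by
  rcases le_total (k : ℝ) y with h | h
  · rw [max_eq_left (by linarith), max_eq_right (by linarith), extremal_zero hm, add_zero,
      ← per_of_mem hm ⟨by linarith, by linarith⟩, per_sub_int]
  · rw [max_eq_right (by linarith), max_eq_left (by linarith), extremal_zero hm, zero_add,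
      ← per_of_mem hm ⟨by linarith, by linarith⟩]
    have : (k : ℝ) - y = -(y - k) := by ring
    rw [this, per_neg hm, per_sub_int]

/-- one integer inside -/
theorem window1 (hm : 1000 ≤ m) {y : ℕ → ℝ} {α β : ℝ} (k : ℤ) (hα0 : 0 ≤ α) (hα : α ≤ 1)
    (hβ0 : 0 ≤ β) (hβ : β ≤ 1)
    (hy : ∀ i ∈ Finset.Icc 1 m, k - α ≤ y i ∧ y i ≤ k + β) :
    per m (av m y) + 2 * gap m y k ≤ av m (fun i => per m (y i)) + (α + β) := by
  have hm2 : 2 ≤ m := by omega
  have hm1 : 1 ≤ m := by omega
  obtain ⟨p, hp⟩ : ∃ p : ℕ → ℝ, p = fun i => max (y i - k) 0 := ⟨_, rfl⟩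
  obtain ⟨q, hq⟩ : ∃ q : ℕ → ℝ, q = fun i => max (k - y i) 0 := ⟨_, rfl⟩
  have hpi : ∀ i, p i = max (y i - k) 0 := fun i => by rw [hp]
  have hqi : ∀ i, q i = max (k - y i) 0 := fun i => by rw [hq]
  have hp1 : ∀ i ∈ Finset.Icc 1 m, 0 ≤ p i ∧ p i ≤ β := fun i hi => by
    rw [hpi]
    exact ⟨le_max_right _ _, max_le (by linarith [(hy i hi).2]) hβ0⟩
  have hq1 : ∀ i ∈ Finset.Icc 1 m, 0 ≤ q i ∧ q i ≤ α := fun i hi => by
    rw [hqi]
    exact ⟨le_max_right _ _, max_le (by linarith [(hy i hi).1]) hα0⟩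
  have hpq : ∀ i, p i - q i = y i - k := fun i => by
    rw [hpi, hqi, max_sub, neg_sub]
    ring
  have hF := inClass_extremal hm2
  have h1 := hF.av_le hm1 le_rfl hβ hp1
  have h2 := hF.av_le hm1 le_rfl hα hq1
  have hP0 : 0 ≤ av m p := le_av hm1 fun i hi => (hp1 i hi).1
  have hQ0 : 0 ≤ av m q := le_av hm1 fun i hi => (hq1 i hi).1
  have hPQ : av m p + av m q ≤ 1 := by
    rw [← av_add]
    refine Pool.Agent.MP_56f843_an.av_le hm1 fun i hi => ?_
    rw [hpi, hqi]
    rcases le_total (y i) k with h | h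
    · rw [max_eq_right (by linarith), max_eq_left (by linarith)]
      linarith [(hy i hi).1]
    · rw [max_eq_left (by linarith), max_eq_right (by linarith)]
      linarith [(hy i hi).2]
  have hd : av m p - av m q = av m y - k := by
    rw [← av_sub, av_congr (g := fun i => y i - k) (fun i _ => hpq i), av_sub, av_const hm1]
  have h3 := per_sub_strong hm hP0 hQ0 hPQ
  rw [hd, per_sub_int] at h3
  have h4 : gap m y k = min (av m p) (av m q) := by
    unfold gap
    rw [← hp, ← hd]
    rcases le_total (av m p) (av m q) with h | h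
    · rw [min_eq_left h, max_eq_right (by linarith)]; ring
    · rw [min_eq_right h, max_eq_left (by linarith)]; ring
  have h5 : av m (fun i => per m (y i)) =
      av m (fun i => extremal m (p i)) + av m (fun i => extremal m (q i)) := by
    rw [← av_add]
    refine av_congr fun i hi => ?_
    rw [hpi, hqi]
    exact per_split hm2 k (by linarith [(hy i hi).1]) (by linarith [(hy i hi).2])
  rw [h4, h5]
  linarith

/-- two integers inside -/
theorem window2 (hm : 1000 ≤ m) {y : ℕ → ℝ} {α β : ℝ} (k : ℤ) (hα0 : 0 ≤ α) (hα : α ≤ 1)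
    (hβ0 : 0 ≤ β) (hβ : β ≤ 1)
    (hy : ∀ i ∈ Finset.Icc 1 m, k - α ≤ y i ∧ y i ≤ k + 1 + β)
    (hs1 : ∑ i ∈ Finset.Icc 1 m, max (k - y i) 0 ≤ 1)
    (hs2 : ∑ i ∈ Finset.Icc 1 m, max (y i - (k + 1)) 0 ≤ 1) :
    per m (av m y) + 2 * gap m y k + 2 * gap m y (k + 1) ≤
      av m (fun i => per m (y i)) + (1 + α + β) := by
  have hm2 : 2 ≤ m := by omega
  have hm1 : 1 ≤ m := by omega
  have hm' : (1000 : ℝ) ≤ m := by exact_mod_cast hm
  have hm0 : (0 : ℝ) < m := by linarith
  obtain ⟨q, hq⟩ : ∃ q : ℕ → ℝ, q = fun i => max (k - y i) 0 := ⟨_, rfl⟩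
  obtain ⟨p, hp⟩ : ∃ p : ℕ → ℝ, p = fun i => max (y i - (k + 1)) 0 := ⟨_, rfl⟩
  obtain ⟨c, hc⟩ : ∃ c : ℕ → ℝ, c = fun i => y i + q i - p i := ⟨_, rfl⟩
  have hpi : ∀ i, p i = max (y i - (k + 1)) 0 := fun i => by rw [hp]
  have hqi : ∀ i, q i = max (k - y i) 0 := fun i => by rw [hq]
  have hci : ∀ i, c i = y i + q i - p i := fun i => by rw [hc]
  have hp1 : ∀ i ∈ Finset.Icc 1 m, 0 ≤ p i := fun i _ => by
    rw [hpi]
    exact le_max_right _ _
  have hp2 : ∀ i ∈ Finset.Icc 1 m, p i ≤ β := fun i hi => by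
    rw [hpi]
    exact max_le (by linarith [(hy i hi).2]) hβ0
  have hq1 : ∀ i ∈ Finset.Icc 1 m, 0 ≤ q i := fun i _ => by
    rw [hqi]
    exact le_max_right _ _
  have hq2 : ∀ i ∈ Finset.Icc 1 m, q i ≤ α := fun i hi => by
    rw [hqi]
    exact max_le (by linarith [(hy i hi).1]) hα0
  have hs1' : ∑ i ∈ Finset.Icc 1 m, q i ≤ 1 := by
    rw [Finset.sum_congr rfl fun i _ => hqi i]
    exact hs1
  have hs2' : ∑ i ∈ Finset.Icc 1 m, p i ≤ 1 := by
    rw [Finset.sum_congr rfl fun i _ => hpi i]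
    exact hs2
  -- pointwise
  have hpt : ∀ i ∈ Finset.Icc 1 m,
      per m (y i) = per m (c i) + extremal m (q i) + extremal m (p i) := by
    intro i hi
    obtain ⟨h1, h2⟩ := hy i hi
    rw [hci]
    rcases le_total (y i) k with h | h
    · have e1 : p i = 0 := by rw [hpi]; exact max_eq_right (by linarith)
      have e2 : q i = k - y i := by rw [hqi]; exact max_eq_left (by linarith)
      rw [e1, e2, extremal_zero hm2]
      have e3 : y i + (k - y i) - 0 = (0 : ℝ) + k := by ring
      rw [e3, per_add_int, per_zero hm2]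
      have e4 : per m (y i) = per m (-(k - y i)) := by
        have : y i = -(k - y i) + k := by ring
        conv_lhs => rw [this]
        rw [per_add_int]
      rw [e4, per_neg hm2, per_of_mem hm2 ⟨by linarith, by linarith⟩]
      ring
    · have e2 : q i = 0 := by rw [hqi]; exact max_eq_right (by linarith)
      rcases le_total (y i) (k + 1) with h' | h'
      · have e1 : p i = 0 := by rw [hpi]; exact max_eq_right (by linarith)
        rw [e1, e2, extremal_zero hm2]
        simp
      · have e1 : p i = y i - (k + 1) := by rw [hpi]; exact max_eq_left (by linarith)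
        rw [e1, e2, extremal_zero hm2]
        have e3 : y i + 0 - (y i - (k + 1)) = (0 : ℝ) + ((k + 1 : ℤ) : ℝ) := by push_cast; ring
        rw [e3, per_add_int, per_zero hm2]
        have e4 : per m (y i) = per m (y i - (k + 1)) := by
          have := per_sub_int (m := m) (y i) (k + 1)
          push_cast at this
          rw [this]
        rw [e4, per_of_mem hm2 ⟨by linarith, by linarith⟩]
        ring
  -- the sum
  have hsum : (m : ℝ) * av m y =
      ∑ i ∈ Finset.Icc 1 m, c i + (-(∑ i ∈ Finset.Icc 1 m, q i) + ∑ i ∈ Finset.Icc 1 m, p i) := by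
    rw [mul_av hm1, Finset.sum_congr rfl fun i _ => hci i, Finset.sum_sub_distrib,
      Finset.sum_add_distrib]
    ring
  have hQ0 : 0 ≤ ∑ i ∈ Finset.Icc 1 m, q i := Finset.sum_nonneg hq1
  have hP0 : 0 ≤ ∑ i ∈ Finset.Icc 1 m, p i := Finset.sum_nonneg hp1
  have g1 := per_le_step hm2 (av m y)
  rw [hsum] at g1
  have g2 := per_add_le hm (∑ i ∈ Finset.Icc 1 m, c i)
    (-(∑ i ∈ Finset.Icc 1 m, q i) + ∑ i ∈ Finset.Icc 1 m, p i)
  have g3 := per_add_le hm (-(∑ i ∈ Finset.Icc 1 m, q i)) (∑ i ∈ Finset.Icc 1 m, p i)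
  rw [per_neg hm2, per_of_mem hm2 ⟨hQ0, hs1'⟩, per_of_mem hm2 ⟨hP0, hs2'⟩] at g3
  have g4 := per_sum_le hm (Finset.Icc 1 m) c
  have g5 := seq_merge hm (Finset.Icc 1 m) q hα0 hq1 hq2 hs1'
  have g6 := seq_merge hm (Finset.Icc 1 m) p hβ0 hp1 hp2 hs2'
  have g7 : ∑ i ∈ Finset.Icc 1 m, per m (y i) = ∑ i ∈ Finset.Icc 1 m, per m (c i) +
      ∑ i ∈ Finset.Icc 1 m, extremal m (q i) + ∑ i ∈ Finset.Icc 1 m, extremal m (p i) := by
    rw [Finset.sum_congr rfl hpt, Finset.sum_add_distrib, Finset.sum_add_distrib]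
  have g8 := le_max_right 0 (∑ i ∈ Finset.Icc 1 m, q i - α)
  have g9 := le_max_right 0 (∑ i ∈ Finset.Icc 1 m, p i - β)
  have k1 : m * gap m y k ≤ ∑ i ∈ Finset.Icc 1 m, q i := by
    have h1 := mul_le_mul_of_nonneg_left (gap_le_left hm1 y (k : ℝ)) hm0.le
    rw [← hq, mul_av hm1] at h1
    exact h1
  have k2 : m * gap m y (k + 1) ≤ ∑ i ∈ Finset.Icc 1 m, p i := by
    have h1 := mul_le_mul_of_nonneg_left (gap_le_right (m := m) y ((k : ℝ) + 1)) hm0.le
    rw [← hp, mul_av hm1] at h1
    exact h1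
  have k3 := mul_av hm1 (fun i => per m (y i))
  have total : (m : ℝ) * (per m (av m y) + 2 * gap m y k + 2 * gap m y (k + 1)) ≤
      m * (av m (fun i => per m (y i)) + (1 + α + β)) := by
    have h1 : 2 * α ≤ m * α := mul_le_mul_of_nonneg_right (by linarith) hα0
    have h2 : 2 * β ≤ m * β := mul_le_mul_of_nonneg_right (by linarith) hβ0
    have e1 : (m : ℝ) * (per m (av m y) + 2 * gap m y k + 2 * gap m y (k + 1)) =
      m * per m (av m y) + 2 * (m * gap m y k) + 2 * (m * gap m y (k + 1)) := by ring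
    have e2 : (m : ℝ) * (av m (fun i => per m (y i)) + (1 + α + β)) =
      m * av m (fun i => per m (y i)) + m + m * α + m * β := by ring
    rw [e1, e2]
    linarith
  exact le_of_mul_le_mul_left total hm0

/-- short windows, a pair of consecutive integers -/
theorem window (hm : 1000 ≤ m) {y : ℕ → ℝ} {a b : ℝ} (hab : b - a ≤ 1 + 1 / (m - 1))
    (hy : ∀ i ∈ Finset.Icc 1 m, a ≤ y i ∧ y i ≤ b) (hy1 : y 1 = a) (hym : y m = b) (s : ℤ) :
    per m (av m y) + 2 * gap m y s + 2 * gap m y (s + 1) ≤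
      av m (fun i => per m (y i)) + (b - a) := by
  have hm2 : 2 ≤ m := by omega
  have hm1 : 1 ≤ m := by omega
  have hm' : (1000 : ℝ) ≤ m := by exact_mod_cast hm
  have hm0 : (0 : ℝ) < m := by linarith
  have hi := inv_sub_one_le hm
  have hi0 : 0 < 1 / ((m : ℝ) - 1) := div_pos one_pos (by linarith)
  have hab0 : a ≤ b := by
    rw [← hy1]
    exact (hy 1 (by rw [Finset.mem_Icc]; omega)).2
  obtain ⟨k, hk⟩ : ∃ k : ℤ, k = ⌊a⌋ := ⟨_, rfl⟩
  have hk1 : (k : ℝ) ≤ a := by rw [hk]; exact Int.floor_le a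
  have hk2 : a < k + 1 := by rw [hk]; exact Int.lt_floor_add_one a
  have gz1 : ∀ t : ℤ, t ≤ k → gap m y t = 0 := fun t ht => gap_of_ge hm1 fun i hi => by
    have : (t : ℝ) ≤ k := by exact_mod_cast ht
    linarith [(hy i hi).1]
  have hs1 : ((s + 1 : ℤ) : ℝ) = (s : ℝ) + 1 := by push_cast; ring
  rw [← hs1]
  rcases le_or_gt b (k + 1) with h1 | h1
  · have gz2 : ∀ t : ℤ, k + 1 ≤ t → gap m y t = 0 := fun t ht => gap_of_le hm1 fun i hi => by
      have : ((k + 1 : ℤ) : ℝ) ≤ t := by exact_mod_cast ht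
      push_cast at this
      linarith [(hy i hi).2]
    have gz : ∀ t : ℤ, gap m y t = 0 := by
      intro t
      rcases le_or_gt t k with h | h
      · exact gz1 t h
      · exact gz2 t (by omega)
    rw [gz, gz]
    have := window0 hm2 k hk1 h1 hy
    linarith
  · rcases le_or_gt b (k + 2) with h2 | h2
    · have gz2 : ∀ t : ℤ, k + 2 ≤ t → gap m y t = 0 := fun t ht => gap_of_le hm1 fun i hi => by
        have : ((k + 2 : ℤ) : ℝ) ≤ t := by exact_mod_cast ht
        push_cast at this
        linarith [(hy i hi).2]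
      have gn := gap_nonneg hm1 y ((k + 1 : ℤ) : ℝ)
      have gz : gap m y s + gap m y ((s + 1 : ℤ) : ℝ) ≤ gap m y ((k + 1 : ℤ) : ℝ) := by
        rcases lt_trichotomy s k with h | h | h
        · rw [gz1 s h.le, gz1 (s + 1) (by omega)]
          linarith
        · rw [gz1 s h.le, h]
          linarith
        · rw [gz2 (s + 1) (by omega)]
          rcases (show s = k + 1 ∨ k + 2 ≤ s by omega) with h' | h'
          · rw [h']
            linarith
          · rw [gz2 s h']
            linarith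
      have := window1 hm (y := y) (α := k + 1 - a) (β := b - (k + 1)) (k + 1) (by linarith)
        (by linarith) (by linarith) (by linarith) (fun i hi => by
          push_cast
          exact ⟨by linarith [(hy i hi).1], by linarith [(hy i hi).2]⟩)
      linarith
    · -- two integers inside
      have hb3 : b < k + 3 := by linarith
      have gz2 : ∀ t : ℤ, k + 3 ≤ t → gap m y t = 0 := fun t ht => gap_of_le hm1 fun i hi => by
        have : ((k + 3 : ℤ) : ℝ) ≤ t := by exact_mod_cast ht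
        push_cast at this
        linarith [(hy i hi).2]
      have gn1 := gap_nonneg hm1 y ((k + 1 : ℤ) : ℝ)
      have gn2 := gap_nonneg hm1 y ((k + 2 : ℤ) : ℝ)
      have gz : gap m y s + gap m y ((s + 1 : ℤ) : ℝ) ≤
          gap m y ((k + 1 : ℤ) : ℝ) + gap m y ((k + 2 : ℤ) : ℝ) := by
        rcases lt_trichotomy s k with h | h | h
        · rw [gz1 s h.le, gz1 (s + 1) (by omega)]
          linarith
        · rw [gz1 s h.le, h]
          linarith
        · rcases (show s = k + 1 ∨ s = k + 2 ∨ k + 3 ≤ s by omega) with h' | h' | h'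
          · rw [h']
            have : (k + 1 + 1 : ℤ) = k + 2 := by ring
            rw [this]
          · rw [gz2 (s + 1) (by omega), h']
            linarith
          · rw [gz2 s h', gz2 (s + 1) (by omega)]
            linarith
      have hαb : (k : ℝ) + 1 - a ≤ 1 / (m - 1) := by linarith
      have hβb : b - ((k : ℝ) + 1 + 1) ≤ 1 / (m - 1) := by linarith
      have hcount : ∀ (f : ℕ → ℝ) (i₀ : ℕ), i₀ ∈ Finset.Icc 1 m → f i₀ = 0 →
          (∀ i ∈ Finset.Icc 1 m, f i ≤ 1 / ((m : ℝ) - 1)) →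
          ∑ i ∈ Finset.Icc 1 m, f i ≤ 1 := by
        intro f i₀ hi₀ hf0 hf
        rw [← Finset.add_sum_erase _ _ hi₀, hf0, zero_add]
        refine (Finset.sum_le_card_nsmul _ _ (1 / ((m : ℝ) - 1)) fun i hi =>
          hf i (Finset.mem_of_mem_erase hi)).trans ?_
        rw [Finset.card_erase_of_mem hi₀, Nat.card_Icc, nsmul_eq_mul, Nat.add_sub_cancel]
        have : ((m - 1 : ℕ) : ℝ) = m - 1 := by rw [Nat.cast_sub hm1]; simp
        rw [this]
        have hne : (m : ℝ) - 1 ≠ 0 := by linarith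
        rw [mul_one_div_cancel hne]
      have hm_mem : m ∈ Finset.Icc 1 m := by rw [Finset.mem_Icc]; omega
      have h1_mem : 1 ∈ Finset.Icc 1 m := by rw [Finset.mem_Icc]; omega
      have s1 : ∑ i ∈ Finset.Icc 1 m, max (((k + 1 : ℤ) : ℝ) - y i) 0 ≤ 1 := by
        refine hcount _ m hm_mem ?_ ?_
        · push_cast
          exact max_eq_right (by linarith)
        · intro i hi
          push_cast
          exact max_le (by linarith [(hy i hi).1]) hi0.le
      have s2 : ∑ i ∈ Finset.Icc 1 m, max (y i - (((k + 1 : ℤ) : ℝ) + 1)) 0 ≤ 1 := by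
        refine hcount _ 1 h1_mem ?_ ?_
        · push_cast
          exact max_eq_right (by linarith)
        · intro i hi
          push_cast
          exact max_le (by linarith [(hy i hi).2]) hi0.le
      have := window2 hm (y := y) (α := k + 1 - a) (β := b - (k + 1 + 1)) (k + 1) (by linarith)
        (by linarith) (by linarith) (by linarith) (fun i hi => by
          push_cast
          exact ⟨by linarith [(hy i hi).1], by linarith [(hy i hi).2]⟩) s1 s2
      have e : ((k + 1 : ℤ) : ℝ) + 1 = ((k + 2 : ℤ) : ℝ) := by push_cast; ring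
      rw [e] at this
      linarith

end Pool.Agent.MP_56f843_an
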