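import Pool.Agent.MP_56f843_an.LarG

set_option autoImplicit false

/-!
# Large `m`, VIII: the minorant
-/

namespace Pool.Agent.MP_56f843_an

open Set

variable {m : ℕ}

/-- the least integer `J` with `m / 4 + 2 ≤ J` -/
def JJ (m : ℕ) : ℕ := (m + 3) / 4 + 2

/-- `m` minus hinges at `J - 1, J` and at `m - J, m - J + 1` -/
noncomputable def WW (m : ℕ) (y : ℝ) : ℝ :=
  m - 2 * max (JJ m - y) 0 - 2 * max (JJ m - 1 - y) 0 - 2 * max (y - (m - JJ m)) 0 -
    2 * max (y - (m - JJ m + 1)) 0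

/-- the minorant of the extremal function -/
noncomputable def KK (m : ℕ) (x : ℝ) : ℝ := (WW m (m * x) + per m (m * x)) / m

theorem JJ_ge (m : ℕ) : (m : ℝ) / 4 + 2 ≤ JJ m := by
  have h : m + 8 ≤ 4 * JJ m := by unfold JJ; omega
  have h' : (m : ℝ) + 8 ≤ 4 * JJ m := by exact_mod_cast h
  linarith

theorem JJ_le (m : ℕ) : (JJ m : ℝ) ≤ m / 4 + 11 / 4 := by
  have h : 4 * JJ m ≤ m + 11 := by unfold JJ; omega
  have h' : 4 * (JJ m : ℝ) ≤ m + 11 := by exact_mod_cast h
  linarith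

theorem WW_le (m : ℕ) (y : ℝ) : WW m y ≤ m := by
  unfold WW
  have h1 := le_max_right ((JJ m : ℝ) - y) 0
  have h2 := le_max_right ((JJ m : ℝ) - 1 - y) 0
  have h3 := le_max_right (y - (m - (JJ m : ℝ))) 0
  have h4 := le_max_right (y - (m - (JJ m : ℝ) + 1)) 0
  linarith

theorem WW_symm (m : ℕ) (y : ℝ) : WW m (m - y) = WW m y := by
  unfold WW
  have e1 : (JJ m : ℝ) - (m - y) = y - (m - JJ m) := by ring
  have e2 : (JJ m : ℝ) - 1 - (m - y) = y - (m - JJ m + 1) := by ring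
  have e3 : (m : ℝ) - y - (m - JJ m) = JJ m - y := by ring
  have e4 : (m : ℝ) - y - (m - JJ m + 1) = JJ m - 1 - y := by ring
  rw [e1, e2, e3, e4]
  ring

theorem WW_mid {y : ℝ} (h1 : (JJ m : ℝ) ≤ y) (h2 : y ≤ m - JJ m) : WW m y = m := by
  unfold WW
  rw [max_eq_right (by linarith), max_eq_right (by linarith), max_eq_right (by linarith),
    max_eq_right (by linarith)]
  ring

theorem WW_le_left (m : ℕ) (y : ℝ) : WW m y ≤ m - 2 * (JJ m - y) - 2 * (JJ m - 1 - y) := by
  unfold WW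
  have h1 := le_max_left ((JJ m : ℝ) - y) 0
  have h2 := le_max_left ((JJ m : ℝ) - 1 - y) 0
  have h3 := le_max_right (y - (m - (JJ m : ℝ))) 0
  have h4 := le_max_right (y - (m - (JJ m : ℝ) + 1)) 0
  linarith

theorem WW_le_left' (m : ℕ) (y : ℝ) : WW m y ≤ m - 2 * (JJ m - y) := by
  unfold WW
  have h1 := le_max_left ((JJ m : ℝ) - y) 0
  have h2 := le_max_right ((JJ m : ℝ) - 1 - y) 0
  have h3 := le_max_right (y - (m - (JJ m : ℝ))) 0
  have h4 := le_max_right (y - (m - (JJ m : ℝ) + 1)) 0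
  linarith

theorem m_bound (hm : 1000 ≤ m) : (m : ℝ) / (m - 1) ≤ 1.0011 := by
  rw [bound_eq (by omega)]
  linarith [inv_sub_one_le hm]

theorem KK_symm (hm : 2 ≤ m) (x : ℝ) : KK m (1 - x) = KK m x := by
  unfold KK
  have e1 : (m : ℝ) * (1 - x) = m - m * x := by ring
  have e2 : (m : ℝ) - m * x = -(m * x) + ((m : ℤ) : ℝ) := by push_cast; ring
  rw [e1, WW_symm, e2, per_add_int, per_neg hm]

/-- `K ≤ 1 + 1 / (m - 1)` -/
theorem KK_le (hm : 1000 ≤ m) (x : ℝ) : KK m x ≤ m / (m - 1) := by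
  have hm' : (1000 : ℝ) ≤ m := by exact_mod_cast hm
  have hm0 : (0 : ℝ) < m := by linarith
  unfold KK
  rw [div_le_iff₀ hm0]
  have h1 := WW_le m (m * x)
  have h2 := per_le (by omega : 2 ≤ m) ((m : ℝ) * x)
  have h3 : (m : ℝ) / (m - 1) * m = m + m / (m - 1) := by
    have : (m : ℝ) - 1 ≠ 0 := by linarith
    field_simp
    ring
  rw [h3]
  linarith

/-- `K x ≤ 4 x` -/
theorem KK_le_four (hm : 1000 ≤ m) (x : ℝ) : KK m x ≤ 4 * x := by
  have hm' : (1000 : ℝ) ≤ m := by exact_mod_cast hm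
  have hm0 : (0 : ℝ) < m := by linarith
  unfold KK
  rw [div_le_iff₀ hm0]
  have h1 := WW_le_left m (m * x)
  have h2 := (per_le (by omega : 2 ≤ m) ((m : ℝ) * x)).trans (m_bound hm)
  have h3 := JJ_ge m
  linarith

/-- `K x ≤ 3 / 4 + x` -/
theorem KK_le_shift (hm : 1000 ≤ m) (x : ℝ) : KK m x ≤ 3 / 4 + x := by
  have hm' : (1000 : ℝ) ≤ m := by exact_mod_cast hm
  have hm0 : (0 : ℝ) < m := by linarith
  unfold KK
  rw [div_le_iff₀ hm0]
  have h1 := WW_le_left' m (m * x)
  have h1' := WW_le m (m * x)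
  have h2 := (per_le (by omega : 2 ≤ m) ((m : ℝ) * x)).trans (m_bound hm)
  have h3 := JJ_ge m
  rcases le_total (m * x) (JJ m : ℝ) with h | h
  · linarith
  · linarith

/-- the maximum of `F` and `K` -/
noncomputable def GM (m : ℕ) (x : ℝ) : ℝ := max (extremal m x) (KK m x)

theorem profile_ge_one_of {x : ℝ} (h1 : 1 / 4 ≤ x) (h2 : x ≤ 3 / 4) : 1 ≤ profile x :=
  (profile_mid ⟨h1, h2⟩).ge

/-- Case 1a: all values in the middle, range at least `1 / (m - 1)` -/
theorem case1a (hm : 1000 ≤ m) {z : ℕ → ℝ} {a b : ℝ} (ha : 1 / 4 ≤ a) (hb : b ≤ 3 / 4)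
    (hab : 1 / ((m : ℝ) - 1) ≤ b - a) (hz : ∀ i ∈ Finset.Icc 1 m, a ≤ z i ∧ z i ≤ b) :
    KK m (av m z) ≤ av m (fun i => GM m (z i)) + (b - a) := by
  have hm2 : 2 ≤ m := by omega
  have hm1 : 1 ≤ m := by omega
  have h1 : 1 ≤ av m (fun i => GM m (z i)) := by
    refine le_av hm1 fun i hi => ?_
    obtain ⟨h2, h3⟩ := hz i hi
    have h4 := profile_le_extremal hm2 (x := z i) ⟨by linarith, by linarith⟩
    have h5 := profile_ge_one_of (x := z i) (by linarith) (by linarith)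
    exact (h5.trans h4).trans (le_max_left _ _)
  have h2 := KK_le hm (av m z)
  rw [bound_eq hm2] at h2
  linarith

theorem av_WW (hm : 1 ≤ m) (y : ℕ → ℝ) : WW m (av m y) - av m (fun i => WW m (y i)) =
    2 * (gap m y (JJ m) + gap m y (JJ m - 1) + gap m y (m - JJ m) + gap m y (m - JJ m + 1)) := by
  have h1 := gap_eq hm y (JJ m)
  have h2 := gap_eq hm y (JJ m - 1)
  have e : av m (fun i => WW m (y i)) = m - 2 * av m (fun i => max (JJ m - y i) 0) -
      2 * av m (fun i => max (JJ m - 1 - y i) 0) - 2 * av m (fun i => max (y i - (m - JJ m)) 0) -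
      2 * av m (fun i => max (y i - (m - JJ m + 1)) 0) := by
    unfold WW
    rw [av_sub, av_sub, av_sub, av_sub, av_const hm, av_mul_left, av_mul_left, av_mul_left,
      av_mul_left]
  rw [e, h1, h2]
  unfold gap WW
  ring

/-- Case 1b: all values in the middle, range less than `1 / (m - 1)` -/
theorem case1b (hm : 1000 ≤ m) {z : ℕ → ℝ} {a b : ℝ} (hab : b - a < 1 / ((m : ℝ) - 1))
    (hz1 : z 1 = a) (hzm : z m = b) (hz : ∀ i ∈ Finset.Icc 1 m, a ≤ z i ∧ z i ≤ b) :
    KK m (av m z) ≤ av m (fun i => GM m (z i)) + (b - a) := by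
  have hm2 : 2 ≤ m := by omega
  have hm1 : 1 ≤ m := by omega
  have hm' : (1000 : ℝ) ≤ m := by exact_mod_cast hm
  have hm0 : (0 : ℝ) < m := by linarith
  obtain ⟨y, hy⟩ : ∃ y : ℕ → ℝ, y = fun i => m * z i := ⟨_, rfl⟩
  have hyi : ∀ i, y i = m * z i := fun i => by rw [hy]
  have hav : av m y = m * av m z := by rw [hy, av_mul_left]
  have hyr : ∀ i ∈ Finset.Icc 1 m, m * a ≤ y i ∧ y i ≤ m * b := fun i hi => by
    rw [hyi]
    exact ⟨mul_le_mul_of_nonneg_left (hz i hi).1 hm0.le,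
      mul_le_mul_of_nonneg_left (hz i hi).2 hm0.le⟩
  have hr : m * b - m * a ≤ 1 + 1 / ((m : ℝ) - 1) := by
    rw [← mul_sub, ← bound_eq hm2]
    have := mul_le_mul_of_nonneg_left hab.le hm0.le
    rwa [mul_one_div] at this
  have hJ1 := JJ_ge m
  have hJ2 := JJ_le m
  have hi := inv_sub_one_le hm
  have w1 := window hm hr hyr (by rw [hyi, hz1]) (by rw [hyi, hzm]) ((JJ m : ℤ) - 1)
  have w2 := window hm hr hyr (by rw [hyi, hz1]) (by rw [hyi, hzm]) ((m : ℤ) - JJ m)
  push_cast at w1 w2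
  rw [sub_add_cancel] at w1
  have key : WW m (av m y) + per m (av m y) ≤
      av m (fun i => WW m (y i)) + av m (fun i => per m (y i)) + (m * b - m * a) := by
    have hW := av_WW hm1 y
    rcases le_total b (3 / 5) with h | h
    · have z1 : gap m y (m - JJ m) = 0 := gap_of_le hm1 fun i hi' => by
        have := (hyr i hi').2
        nlinarith
      have z2 : gap m y (m - JJ m + 1) = 0 := gap_of_le hm1 fun i hi' => by
        have := (hyr i hi').2
        nlinarith
      rw [z1, z2] at hW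
      linarith
    · have z1 : gap m y (JJ m) = 0 := gap_of_ge hm1 fun i hi' => by
        have := (hyr i hi').1
        nlinarith
      have z2 : gap m y (JJ m - 1) = 0 := gap_of_ge hm1 fun i hi' => by
        have := (hyr i hi').1
        nlinarith
      rw [z1, z2] at hW
      linarith
  have h1 : av m (fun i => KK m (z i)) ≤ av m (fun i => GM m (z i)) :=
    av_mono fun i _ => le_max_right _ _
  have h2 : av m (fun i => KK m (z i)) =
      (av m (fun i => WW m (y i)) + av m (fun i => per m (y i))) / m := by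
    unfold KK
    rw [← av_add]
    have : (fun i => (WW m (m * z i) + per m (m * z i)) / m) =
        fun i => (WW m (y i) + per m (y i)) * (1 / m) := by
      funext i
      rw [hyi]
      ring
    rw [this, av_mul_right]
    ring
  have h3 : KK m (av m z) = (WW m (av m y) + per m (av m y)) / m := by
    unfold KK
    rw [hav]
  rw [h3]
  have h4 := div_le_div_of_nonneg_right key hm0.le
  have h5 : (av m (fun i => WW m (y i)) + av m (fun i => per m (y i)) + (m * b - m * a)) / m =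
      av m (fun i => KK m (z i)) + (b - a) := by
    rw [h2]
    field_simp
  rw [h5] at h4
  linarith

/-- Case 2 -/
theorem case2 (hm : 1000 ≤ m) {z : ℕ → ℝ} {a b : ℝ} (ha0 : 0 ≤ a) (ha : a < 1 / 4)
    (hb : b ≤ 3 / 4) (hz : ∀ i ∈ Finset.Icc 1 m, a ≤ z i ∧ z i ≤ b) (hx : 1 / 4 < av m z) :
    KK m (av m z) ≤ av m (fun i => GM m (z i)) + (b - a) := by
  have hm2 : 2 ≤ m := by omega
  have hm1 : 1 ≤ m := by omega
  obtain ⟨x, hxx⟩ : ∃ x, x = av m z := ⟨_, rfl⟩
  have hxb : x ≤ b := by rw [hxx]; exact av_le hm1 fun i hi => (hz i hi).2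
  rw [← hxx] at hx ⊢
  have hba : 0 < b - a := by linarith
  have h1 := av_chord hm1 profile_concave ha0 (by linarith : a < b) (by linarith) hz
  rw [← hxx, profile_mid (x := b) ⟨by linarith, hb⟩] at h1
  have h2 := four_mul_le_profile ha0 ha.le
  have h3 : av m (fun i => profile (z i)) ≤ av m (fun i => GM m (z i)) :=
    av_mono fun i hi => (profile_le_extremal hm2 (x := z i)
      ⟨ha0.trans (hz i hi).1, by linarith [(hz i hi).2]⟩).trans (le_max_left _ _)
  have h4 := KK_le_shift hm x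
  have h5 : (3 / 4 + x - (b - a)) ≤ ((b - x) * profile a + (x - a) * 1) / (b - a) := by
    rw [le_div_iff₀ hba]
    have h6 : (b - x) * (4 * a) ≤ (b - x) * profile a :=
      mul_le_mul_of_nonneg_left h2 (by linarith)
    refine le_trans ?_ (add_le_add_left h6 _)
    obtain ⟨v, hv⟩ : ∃ v, v = 1 / 4 - a := ⟨_, rfl⟩
    obtain ⟨d, hd⟩ : ∃ d, d = x - 1 / 4 := ⟨_, rfl⟩
    obtain ⟨e, he⟩ : ∃ e, e = b - x := ⟨_, rfl⟩
    have ha' : a = 1 / 4 - v := by rw [hv]; ring
    have hx' : x = 1 / 4 + d := by rw [hd]; ring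
    have hb' : b = 1 / 4 + d + e := by rw [he, hx']; ring
    have hv0 : 0 < v := by linarith
    have hd0 : 0 < d := by linarith
    have he0 : 0 ≤ e := by linarith
    rw [ha', hx', hb']
    nlinarith [sq_nonneg (v - e), mul_nonneg hd0.le hv0.le, mul_nonneg hd0.le he0]
  linarith

/-- Case 3 -/
theorem case3 (hm : 1000 ≤ m) {z : ℕ → ℝ} {a b : ℝ} (ha : 1 / 4 ≤ a) (hb : 3 / 4 < b)
    (hb1 : b ≤ 1) (hz : ∀ i ∈ Finset.Icc 1 m, a ≤ z i ∧ z i ≤ b) (hx : av m z < 3 / 4) :
    KK m (av m z) ≤ av m (fun i => GM m (z i)) + (b - a) := by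
  have hm2 : 2 ≤ m := by omega
  have hm1 : 1 ≤ m := by omega
  obtain ⟨x, hxx⟩ : ∃ x, x = av m z := ⟨_, rfl⟩
  have hxa : a ≤ x := by rw [hxx]; exact le_av hm1 fun i hi => (hz i hi).1
  rw [← hxx] at hx ⊢
  have hba : 0 < b - a := by linarith
  have h1 := av_chord hm1 profile_concave (by linarith : 0 ≤ a) (by linarith : a < b) hb1 hz
  rw [← hxx, profile_mid (x := a) ⟨ha, by linarith⟩] at h1
  have h2 := four_mul_le_profile (x := 1 - b) (by linarith) (by linarith)
  rw [profile_symm] at h2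
  have h3 : av m (fun i => profile (z i)) ≤ av m (fun i => GM m (z i)) :=
    av_mono fun i hi => (profile_le_extremal hm2 (x := z i)
      ⟨by linarith [(hz i hi).1], (hz i hi).2.trans hb1⟩).trans (le_max_left _ _)
  have h4 := KK_le_shift hm (1 - x)
  rw [KK_symm hm2] at h4
  have h5 : (3 / 4 + (1 - x) - (b - a)) ≤ ((b - x) * 1 + (x - a) * profile b) / (b - a) := by
    rw [le_div_iff₀ hba]
    have h6 : (x - a) * (4 * (1 - b)) ≤ (x - a) * profile b :=
      mul_le_mul_of_nonneg_left h2 (by linarith)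
    refine le_trans ?_ (add_le_add_right h6 _)
    obtain ⟨v, hv⟩ : ∃ v, v = b - 3 / 4 := ⟨_, rfl⟩
    obtain ⟨d, hd⟩ : ∃ d, d = 3 / 4 - x := ⟨_, rfl⟩
    obtain ⟨e, he⟩ : ∃ e, e = x - a := ⟨_, rfl⟩
    have hb' : b = 3 / 4 + v := by rw [hv]; ring
    have hx' : x = 3 / 4 - d := by rw [hd]; ring
    have ha' : a = 3 / 4 - d - e := by rw [he, hx']; ring
    have hv0 : 0 < v := by linarith
    have hd0 : 0 < d := by linarith
    have he0 : 0 ≤ e := by linarith
    rw [ha', hx', hb']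
    nlinarith [sq_nonneg (v - e), mul_nonneg hd0.le hv0.le, mul_nonneg hd0.le he0]
  linarith

end Pool.Agent.MP_56f843_an
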