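import Pool.Agent.MP_56f843_an.LarC
import Pool.Agent.MP_56f843_an.LarH

set_option autoImplicit false

/-!
# Large `m`, IX: tuples of range close to `1`, the exact identity
-/

namespace Pool.Agent.MP_56f843_an

open Set

variable {m : ℕ}

theorem num_ge {a a' x : ℝ} (ha0 : 0 ≤ a) (ha : a ≤ 1 / 4) (ha0' : 0 ≤ a') (ha' : a' ≤ 1 / 4)
    (hx1 : 1 / 4 ≤ x) (hx2 : x ≤ 3 / 4) :
    (a + a') ^ 2 ≤ (1 - a' - x) * (4 * a) + (x - a) * (4 * a') - (a + a') * (1 - a - a') := by
  have key : 0 ≤ (3 - 4 * x) * a + (4 * x - 1) * a' - 8 * (a * a') := by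
    rcases le_total a a' with h | h
    · nlinarith [mul_nonneg (by linarith : 0 ≤ 4 * x - 1) (sub_nonneg.2 h),
        mul_nonneg ha0 (sub_nonneg.2 ha')]
    · nlinarith [mul_nonneg (by linarith : 0 ≤ 3 - 4 * x) (sub_nonneg.2 h),
        mul_nonneg ha0' (sub_nonneg.2 ha)]
  nlinarith

theorem log_m_ge (hm : 1000 ≤ m) : 6.9 ≤ Real.log m := by
  have hm' : (1000 : ℝ) ≤ m := by exact_mod_cast hm
  have h1 : Real.log 1000 ≤ Real.log m := Real.log_le_log (by norm_num) hm'
  have h2 : Real.log ((2 : ℝ) ^ 10 / 1.024) = Real.log 1000 := by norm_num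
  rw [Real.log_div (by norm_num) (by norm_num), Real.log_pow] at h2
  have h3 : Real.log 1.024 ≤ 1.024 - 1 := Real.log_le_sub_one_of_pos (by norm_num)
  have h4 := Real.log_two_gt_d9
  push_cast at h2
  linarith

theorem eps_ge (hm : 1000 ≤ m) {e : ℝ} (h1 : 1 / (3 * m) ≤ e) (h2 : e ≤ 0.0332) :
    1 / ((m : ℝ) - 1) ≤ 0.2168 * (profile e - 4 * e) := by
  have hm' : (1000 : ℝ) ≤ m := by exact_mod_cast hm
  have hm0 : (0 : ℝ) < m := by linarith
  have he0 : 0 < e := lt_of_lt_of_le (by positivity) h1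
  have h3 := exp_mul_le_profile he0.le (by linarith)
  have he1 := Real.exp_one_gt_d9
  have key : ∀ c : ℝ, 0 ≤ c → c ≤ -Real.log e → (2.7182 * c - 4) * e ≤ profile e - 4 * e := by
    intro c hc hce
    have h4 : 2.7182 * (e * c) ≤ Real.exp 1 * Real.negMulLog e := by
      refine mul_le_mul (by linarith) ?_ (by positivity) (Real.exp_pos 1).le
      unfold Real.negMulLog
      nlinarith
    linarith
  rcases le_total e (1 / m) with h4 | h4
  · have h5 : 6.9 ≤ -Real.log e := by
      have h6 := Real.log_le_log he0 h4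
      rw [one_div, Real.log_inv] at h6
      linarith [log_m_ge hm]
    have h6 := key 6.9 (by norm_num) h5
    have h7 : 1 / (3 * (m : ℝ)) * (2.7182 * 6.9 - 4) ≤ (2.7182 * 6.9 - 4) * e := by
      rw [mul_comm]
      exact mul_le_mul_of_nonneg_left h1 (by norm_num)
    have h8 : 1 / ((m : ℝ) - 1) ≤ 0.2168 * (1 / (3 * (m : ℝ)) * (2.7182 * 6.9 - 4)) := by
      have e1 : 0.2168 * (1 / (3 * (m : ℝ)) * (2.7182 * 6.9 - 4)) =
        (0.2168 * (2.7182 * 6.9 - 4) / 3) / m := by field_simp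
      rw [e1, div_le_div_iff₀ (by linarith) hm0]
      norm_num
      linarith
    linarith
  · have h5 : 3.4 ≤ -Real.log e := by
      have h6 := Real.log_le_log he0 h2
      have h7 : Real.log 0.0332 ≤ -3.4 := by
        have h8 : Real.log (1.0624 / (2 : ℝ) ^ 5) = Real.log 0.0332 := by norm_num
        rw [Real.log_div (by norm_num) (by norm_num), Real.log_pow] at h8
        have h9 : Real.log 1.0624 ≤ 1.0624 - 1 := Real.log_le_sub_one_of_pos (by norm_num)
        have h10 := Real.log_two_gt_d9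
        push_cast at h8
        linarith
      linarith
    have h6 := key 3.4 (by norm_num) h5
    have h7 : 1 / (m : ℝ) * (2.7182 * 3.4 - 4) ≤ (2.7182 * 3.4 - 4) * e := by
      rw [mul_comm]
      exact mul_le_mul_of_nonneg_left h4 (by norm_num)
    have h8 : 1 / ((m : ℝ) - 1) ≤ 0.2168 * (1 / (m : ℝ) * (2.7182 * 3.4 - 4)) := by
      have e1 : 0.2168 * (1 / (m : ℝ) * (2.7182 * 3.4 - 4)) =
        (0.2168 * (2.7182 * 3.4 - 4)) / m := by field_simp
      rw [e1, div_le_div_iff₀ (by linarith) hm0]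
      norm_num
      linarith
    linarith

/-- `F x ≥ 2 x` on `[0, 1/2]` -/
theorem two_mul_le_extremal (hm : 2 ≤ m) {x : ℝ} (hx0 : 0 ≤ x) (hx1 : x ≤ 1 / 2) :
    2 * x ≤ extremal m x := by
  have h1 := profile_le_extremal hm (x := x) ⟨hx0, by linarith⟩
  rcases le_total x (1 / 4) with h | h
  · have := four_mul_le_profile hx0 h
    linarith
  · rw [profile_mid ⟨h, by linarith⟩] at h1
    linarith

/-- merging: tuples with all values in `[a, 1 - a']`, both ends less than `1 / (3 m)` -/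
theorem merge (hm : 1000 ≤ m) {z : ℕ → ℝ} {a a' : ℝ} (ha0 : 0 ≤ a) (ha : a ≤ 1 / (3 * m))
    (ha0' : 0 ≤ a') (ha' : a' ≤ 1 / (3 * m))
    (hz : ∀ i ∈ Finset.Icc 1 m, a ≤ z i ∧ z i ≤ 1 - a') (hx1 : 1 / 4 ≤ av m z)
    (hx2 : av m z ≤ 3 / 4) :
    per m (m * av m z) + m * (a + a') ≤ ∑ i ∈ Finset.Icc 1 m, extremal m (z i) := by
  classical
  have hm2 : 2 ≤ m := by omega
  have hm1 : 1 ≤ m := by omega
  have hm' : (1000 : ℝ) ≤ m := by exact_mod_cast hm
  have hm0 : (0 : ℝ) < m := by linarith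
  have hma : m * (a + a') ≤ 2 / 3 := by
    have h1 : a + a' ≤ 2 / (3 * m) := by
      have : (2 : ℝ) / (3 * m) = 1 / (3 * m) + 1 / (3 * m) := by ring
      rw [this]
      linarith
    have h2 := mul_le_mul_of_nonneg_left h1 hm0.le
    have h3 : (m : ℝ) * (2 / (3 * m)) = 2 / 3 := by field_simp
    linarith
  have hper := (per_le hm2 ((m : ℝ) * av m z)).trans (m_bound hm)
  obtain ⟨S, hS⟩ : ∃ S, S = ∑ i ∈ Finset.Icc 1 m, extremal m (z i) := ⟨_, rfl⟩
  rw [← hS]
  rcases le_or_gt 1.668 S with hbig | hsmall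
  · linarith
  obtain ⟨L, hL⟩ : ∃ L, L = (Finset.Icc 1 m).filter (fun i => z i ≤ 1 / 2) := ⟨_, rfl⟩
  obtain ⟨U, hU⟩ : ∃ U, U = (Finset.Icc 1 m).filter (fun i => ¬ z i ≤ 1 / 2) := ⟨_, rfl⟩
  have hsplit : ∀ f : ℕ → ℝ, ∑ i ∈ L, f i + ∑ i ∈ U, f i = ∑ i ∈ Finset.Icc 1 m, f i := by
    intro f
    rw [hL, hU]
    exact Finset.sum_filter_add_sum_filter_not _ _ _
  have hLm : ∀ i ∈ L, i ∈ Finset.Icc 1 m ∧ z i ≤ 1 / 2 := by
    intro i hi
    rw [hL, Finset.mem_filter] at hi
    exact hi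
  have hUm : ∀ i ∈ U, i ∈ Finset.Icc 1 m ∧ 1 / 2 < z i := by
    intro i hi
    rw [hU, Finset.mem_filter] at hi
    exact ⟨hi.1, not_le.1 hi.2⟩
  have hcard : (L.card : ℝ) + U.card = m := by
    have h1 := hsplit (fun _ => 1)
    simp only [Finset.sum_const, nsmul_eq_mul, mul_one, Nat.card_Icc, Nat.add_sub_cancel] at h1
    exact h1
  obtain ⟨X, hX⟩ : ∃ X, X = ∑ i ∈ L, z i := ⟨_, rfl⟩
  obtain ⟨X', hX'⟩ : ∃ X', X' = ∑ i ∈ U, (1 - z i) := ⟨_, rfl⟩
  have hX0 : 0 ≤ X := by
    rw [hX]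
    exact Finset.sum_nonneg fun i hi => ha0.trans (hz i (hLm i hi).1).1
  have hX0' : 0 ≤ X' := by
    rw [hX']
    exact Finset.sum_nonneg fun i hi => by linarith [(hz i (hUm i hi).1).2]
  have hSF : S = ∑ i ∈ L, extremal m (z i) + ∑ i ∈ U, extremal m (1 - z i) := by
    rw [hS, ← hsplit]
    congr 1
    refine Finset.sum_congr rfl fun i hi => ?_
    rw [extremal_symm hm2]
    exact ⟨ha0.trans (hz i (hUm i hi).1).1, by linarith [(hz i (hUm i hi).1).2]⟩
  have g1 : 2 * X ≤ ∑ i ∈ L, extremal m (z i) := by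
    rw [hX, Finset.mul_sum]
    exact Finset.sum_le_sum fun i hi => two_mul_le_extremal hm2
      (ha0.trans (hz i (hLm i hi).1).1) (hLm i hi).2
  have g2 : 2 * X' ≤ ∑ i ∈ U, extremal m (1 - z i) := by
    rw [hX', Finset.mul_sum]
    exact Finset.sum_le_sum fun i hi => two_mul_le_extremal hm2
      (by linarith [(hz i (hUm i hi).1).2]) (by linarith [(hUm i hi).2])
  have hXX : X + X' ≤ 0.834 := by linarith
  have hmx : m * av m z = X - X' + U.card := by
    rw [mul_av hm1, ← hsplit, ← hX, hX', Finset.sum_sub_distrib, Finset.sum_const, nsmul_eq_mul,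
      mul_one]
    ring
  have hLc : (m : ℝ) / 4 - 0.834 ≤ L.card := by
    have : m * av m z ≤ m * (3 / 4) := mul_le_mul_of_nonneg_left hx2 hm0.le
    linarith
  have hUc : (m : ℝ) / 4 - 0.834 ≤ U.card := by
    have : m * (1 / 4) ≤ m * av m z := mul_le_mul_of_nonneg_left hx1 hm0.le
    linarith
  have b1 := bin_merge' hm ha0 5 L z (fun i hi => (hz i (hLm i hi).1).1)
    (by rw [← hX]; linarith)
  have b2 := bin_merge' hm ha0' 5 U (fun i => 1 - z i)
    (fun i hi => by linarith [(hz i (hUm i hi).1).2]) (by rw [← hX']; linarith)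
  rw [← hX] at b1
  rw [← hX'] at b2
  have c1 : m * a ≤ a * (((5 : ℕ) : ℝ) * ((L.card : ℝ) - 2 ^ 5 + 1)) := by
    rw [mul_comm]
    refine mul_le_mul_of_nonneg_left ?_ ha0
    push_cast
    linarith
  have c2 : m * a' ≤ a' * (((5 : ℕ) : ℝ) * ((U.card : ℝ) - 2 ^ 5 + 1)) := by
    rw [mul_comm]
    refine mul_le_mul_of_nonneg_left ?_ ha0'
    push_cast
    linarith
  have d1 : per m (m * av m z) ≤ extremal m X + extremal m X' := by
    have e : m * av m z = (X + -X') + ((U.card : ℤ) : ℝ) := by rw [hmx]; push_cast; ring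
    rw [e, per_add_int]
    have h1 := per_add_le hm X (-X')
    rw [per_neg hm2, per_of_mem hm2 ⟨hX0, by linarith⟩, per_of_mem hm2 ⟨hX0', by linarith⟩] at h1
    exact h1
  have e1 : m * (a + a') = m * a + m * a' := by ring
  rw [e1, hSF]
  linarith

/-- Case 4 -/
theorem case4 (hm : 1000 ≤ m) {z : ℕ → ℝ} {a b : ℝ} (ha0 : 0 ≤ a) (ha : a < 1 / 4)
    (hb : 3 / 4 < b) (hb1 : b ≤ 1) (hz : ∀ i ∈ Finset.Icc 1 m, a ≤ z i ∧ z i ≤ b)
    (hx1 : 1 / 4 < av m z) (hx2 : av m z < 3 / 4) :
    KK m (av m z) ≤ av m (fun i => GM m (z i)) + (b - a) := by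
  have hm2 : 2 ≤ m := by omega
  have hm1 : 1 ≤ m := by omega
  have hm' : (1000 : ℝ) ≤ m := by exact_mod_cast hm
  have hm0 : (0 : ℝ) < m := by linarith
  have hi := inv_sub_one_le hm
  obtain ⟨a', ha'⟩ : ∃ a', a' = 1 - b := ⟨_, rfl⟩
  have hba' : b = 1 - a' := by rw [ha']; ring
  have ha0' : 0 ≤ a' := by linarith
  have ha4' : a' < 1 / 4 := by linarith
  have hav0 : av m (fun i => extremal m (z i)) ≤ av m (fun i => GM m (z i)) :=
    av_mono fun i _ => le_max_left _ _
  by_cases hend : a ≤ 1 / (3 * m) ∧ a' ≤ 1 / (3 * m)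
  · -- merging
    have h1 := merge hm ha0 hend.1 ha0' hend.2 (z := z) (fun i hi => by
      rw [← hba']
      exact hz i hi) hx1.le hx2.le
    have h2 := mul_av hm1 (fun i => extremal m (z i))
    rw [← h2] at h1
    refine le_trans ?_ (add_le_add_left hav0 _)
    unfold KK
    rw [div_le_iff₀ hm0]
    have h3 := WW_le m (m * av m z)
    rw [hba']
    linarith
  · obtain ⟨x, hxx⟩ : ∃ x, x = av m z := ⟨_, rfl⟩
    have h1 := av_chord hm1 profile_concave ha0 (by linarith : a < b) hb1 hz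
    rw [← hxx] at h1 hx1 hx2 ⊢
    have hD : 0 < b - a := by linarith
    have hφb : profile b = profile a' := by rw [ha', profile_symm]
    rw [hφb] at h1
    have h3 : av m (fun i => profile (z i)) ≤ av m (fun i => GM m (z i)) :=
      av_mono fun i hi => (profile_le_extremal hm2 (x := z i)
        ⟨ha0.trans (hz i hi).1, (hz i hi).2.trans hb1⟩).trans (le_max_left _ _)
    have h4 := KK_le hm x
    rw [bound_eq hm2] at h4
    have p1 := four_mul_le_profile ha0 ha.le
    have p2 := four_mul_le_profile ha0' ha4'.le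
    have hnum := num_ge ha0 ha.le ha0' ha4'.le hx1.le hx2.le
    have hu : 0 ≤ b - x := by linarith
    have hv : 0 ≤ x - a := by linarith
    have q1 : (1 - a' - x) * (4 * a) ≤ (b - x) * profile a := by
      rw [← hba']
      exact mul_le_mul_of_nonneg_left p1 hu
    have q2 : (x - a) * (4 * a') ≤ (x - a) * profile a' := mul_le_mul_of_nonneg_left p2 hv
    have goal : 1 + 1 / ((m : ℝ) - 1) - (b - a) ≤
        ((b - x) * profile a + (x - a) * profile a') / (b - a) := by
      rw [le_div_iff₀ hD]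
      obtain ⟨D, hDD⟩ : ∃ D, D = b - a := ⟨_, rfl⟩
      have hDs : 1 - a - a' = D := by rw [hDD, hba']; ring
      have hD1 : D ≤ 1 := by linarith
      have has : a + a' = 1 - D := by linarith
      rw [← hDD] at hD ⊢
      rw [hDs, has] at hnum
      have hinv0 : 0 ≤ 1 / ((m : ℝ) - 1) := div_nonneg zero_le_one (by linarith)
      rcases le_or_gt (1 / ((m : ℝ) - 1)) ((1 - D) ^ 2) with h5 | h5
      · nlinarith [mul_nonneg hD.le (sub_nonneg.2 h5), mul_nonneg (sub_nonneg.2 hD1)
          (sq_nonneg (1 - D))]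
      · have hs : 1 - D < 0.0332 := by
          by_contra hcon
          push Not at hcon
          nlinarith
        have hax : a ≤ 0.0332 := by linarith
        have hax' : a' ≤ 0.0332 := by linarith
        have hu2 : 0.2168 ≤ b - x := by linarith
        have hv2 : 0.2168 ≤ x - a := by linarith
        have hn0 : 0 ≤ (1 - D) ^ 2 := sq_nonneg _
        -- the larger end
        have h6 : 1 / ((m : ℝ) - 1) ≤ (b - x) * (profile a - 4 * a) +
            (x - a) * (profile a' - 4 * a') := by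
          have t1 : 0 ≤ (b - x) * (profile a - 4 * a) := mul_nonneg hu (by linarith)
          have t2 : 0 ≤ (x - a) * (profile a' - 4 * a') := mul_nonneg hv (by linarith)
          rw [not_and_or, not_le, not_le] at hend
          rcases hend with h7 | h7
          · have h8 := eps_ge hm h7.le hax
            have h9 : 0.2168 * (profile a - 4 * a) ≤ (b - x) * (profile a - 4 * a) :=
              mul_le_mul_of_nonneg_right hu2 (by linarith)
            linarith
          · have h8 := eps_ge hm h7.le hax'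
            have h9 : 0.2168 * (profile a' - 4 * a') ≤ (x - a) * (profile a' - 4 * a') :=
              mul_le_mul_of_nonneg_right hv2 (by linarith)
            linarith
        have e3 : 1 - a' - x = b - x := by rw [hba']
        rw [e3] at hnum
        nlinarith [mul_nonneg hinv0 (sub_nonneg.2 hD1)]
    linarith

theorem extremal_ge_one (hm : 2 ≤ m) {x : ℝ} (h1 : 1 / 4 ≤ x) (h2 : x ≤ 3 / 4) :
    1 ≤ extremal m x :=
  (profile_ge_one_of h1 h2).trans (profile_le_extremal hm ⟨by linarith, by linarith⟩)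

theorem KK_le_of_le (hm : 1000 ≤ m) {x : ℝ} (hx0 : 0 ≤ x) (hx : x ≤ 1 / 4) :
    KK m x ≤ extremal m x :=
  (KK_le_four hm x).trans ((four_mul_le_profile hx0 hx).trans
    (profile_le_extremal (by omega) ⟨hx0, by linarith⟩))

theorem KK_le_of_ge (hm : 1000 ≤ m) {x : ℝ} (hx1 : x ≤ 1) (hx : 3 / 4 ≤ x) :
    KK m x ≤ extremal m x := by
  have hm2 : 2 ≤ m := by omega
  have h := KK_le_of_le hm (x := 1 - x) (by linarith) (by linarith)
  rwa [KK_symm hm2, extremal_symm hm2 ⟨by linarith, hx1⟩] at h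

theorem inClass_GM (hm : 1000 ≤ m) : InClass m (GM m) := by
  have hm2 : 2 ≤ m := by omega
  have hm1 : 1 ≤ m := by omega
  refine InClass.of_av ?_ ?_ hm1 ?_
  · unfold GM
    refine max_le (extremal_zero hm2).le ?_
    have := KK_le_of_le hm (x := 0) le_rfl (by norm_num)
    rwa [extremal_zero hm2] at this
  · unfold GM
    refine max_le (extremal_one hm2).le ?_
    have := KK_le_of_ge hm (x := 1) le_rfl (by norm_num)
    rwa [extremal_one hm2] at this
  · intro z a b ha hab hb hz1 hzm hz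
    have hav1 : a ≤ av m z := le_av hm1 fun i hi => (hz i hi).1
    have hav2 : av m z ≤ b := av_le hm1 fun i hi => (hz i hi).2
    have hF : extremal m (av m z) ≤ av m (fun i => GM m (z i)) + (b - a) := by
      have h1 := (inClass_extremal hm2).av_le hm1 ha hb hz
      have h2 : av m (fun i => extremal m (z i)) ≤ av m (fun i => GM m (z i)) :=
        av_mono fun i _ => le_max_left _ _
      linarith
    have hGdef : GM m (av m z) = max (extremal m (av m z)) (KK m (av m z)) := rfl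
    rw [hGdef]
    refine max_le hF ?_
    rcases le_or_gt (av m z) (1 / 4) with h1 | h1
    · exact (KK_le_of_le hm (ha.trans hav1) h1).trans hF
    rcases le_or_gt (3 / 4) (av m z) with h2 | h2
    · exact (KK_le_of_ge hm (hav2.trans hb) h2).trans hF
    rcases le_or_gt (1 / 4) a with h3 | h3
    · rcases le_or_gt b (3 / 4) with h4 | h4
      · rcases le_or_gt (1 / ((m : ℝ) - 1)) (b - a) with h5 | h5
        · exact case1a hm h3 h4 h5 hz
        · exact case1b hm h5 hz1 hzm hz
      · exact case3 hm h3 h4 hb hz h2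
    · rcases le_or_gt b (3 / 4) with h4 | h4
      · exact case2 hm ha h3 h4 hz h1
      · exact case4 hm ha h3 h4 hb hz h1 h2

/-- the minorant -/
theorem KK_le_extremal (hm : 1000 ≤ m) {x : ℝ} (hx : x ∈ Icc (0 : ℝ) 1) :
    KK m x ≤ extremal m x := by
  have hm2 : 2 ≤ m := by omega
  have h := (inClass_GM hm).le_extremal hm2 (x := x) ⟨m / (m - 1), by
    rintro _ ⟨t, ht, rfl⟩
    exact max_le (extremal_le hm2 ht) (KK_le hm t)⟩ hx
  exact (le_max_right _ _).trans h

/-- the exact identity -/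
theorem extremal_identity (hm : 1000 ≤ m) {x : ℝ} (hx1 : (JJ m : ℝ) / m ≤ x)
    (hx2 : x ≤ 1 - (JJ m : ℝ) / m) : extremal m x = 1 + extremal m (Int.fract (m * x)) / m := by
  have hm2 : 2 ≤ m := by omega
  have hm' : (1000 : ℝ) ≤ m := by exact_mod_cast hm
  have hm0 : (0 : ℝ) < m := by linarith
  have hJ0 : (0 : ℝ) ≤ (JJ m : ℝ) / m := by positivity
  have hx : x ∈ Icc (0 : ℝ) 1 := ⟨by linarith, by linarith⟩
  have h1 := KK_le_extremal hm hx
  have h2 := extremal_le_step hm2 hx
  have h3 : WW m (m * x) = m := by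
    refine WW_mid ?_ ?_
    · rw [div_le_iff₀ hm0] at hx1
      linarith
    · have : (m : ℝ) * (1 - (JJ m : ℝ) / m) = m - JJ m := by field_simp
      rw [← this]
      exact mul_le_mul_of_nonneg_left hx2 hm0.le
  unfold KK at h1
  rw [h3] at h1
  have h4 : ((m : ℝ) + per m (m * x)) / m = 1 + extremal m (Int.fract (m * x)) / m := by
    unfold per
    field_simp
  rw [h4] at h1
  refine le_antisymm ?_ h1
  rw [← h4, le_div_iff₀ hm0]
  linarith

end Pool.Agent.MP_56f843_an
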