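import Pool.Agent.MP_56f843_an.LarI

set_option autoImplicit false

/-!
# Large `m`, X: consequences
-/

namespace Pool.Agent.MP_56f843_an

open Set

variable {m : ℕ}

theorem extremal_second (hm : 1000 ≤ m) {x : ℝ} (hx1 : (JJ m : ℝ) / m ≤ x)
    (hx2 : x ≤ 1 - (JJ m : ℝ) / m) :
    |extremal m x - (1 + profile (Int.fract (m * x)) / m)| ≤ 6 / m ^ 2 := by
  have hm2 : 2 ≤ m := by omega
  have hm' : (1000 : ℝ) ≤ m := by exact_mod_cast hm
  have hm0 : (0 : ℝ) < m := by linarith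
  rw [extremal_identity hm hx1 hx2]
  obtain ⟨t, ht⟩ : ∃ t, t = Int.fract (m * x) := ⟨_, rfl⟩
  have htm : t ∈ Icc (0 : ℝ) 1 := by rw [ht]; exact fract_mem _
  rw [← ht]
  have h1 := profile_le_extremal hm2 htm
  have h2 := extremal_le_profile (m := m) (by omega) htm
  have h3 := profile_le_one htm
  have e : 1 + extremal m t / m - (1 + profile t / m) = (extremal m t - profile t) / m := by ring
  rw [e, abs_of_nonneg (div_nonneg (by linarith) hm0.le), div_le_div_iff₀ hm0 (by positivity)]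
  have h4 : extremal m t - profile t ≤ 6 / m := by
    have : 6 / (m : ℝ) * profile t ≤ 6 / m := mul_le_of_le_one_right (by positivity) h3
    linarith
  have h5 : (extremal m t - profile t) * m ^ 2 ≤ 6 / m * m ^ 2 :=
    mul_le_mul_of_nonneg_right h4 (by positivity)
  have h6 : 6 / (m : ℝ) * m ^ 2 = 6 * m := by field_simp
  linarith

/-- iteration of the identity -/
theorem extremal_iterate (hm : 1000 ≤ m) (K : ℕ) : ∀ x : ℝ, x ∈ Icc (0 : ℝ) 1 →
    (∀ k < K, Int.fract ((m : ℝ) ^ k * x) ∈ Icc ((JJ m : ℝ) / m) (1 - (JJ m : ℝ) / m)) →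
    extremal m x = ∑ k ∈ Finset.range K, (1 / (m : ℝ)) ^ k +
      (1 / (m : ℝ)) ^ K * extremal m (Int.fract ((m : ℝ) ^ K * x)) := by
  have hm2 : 2 ≤ m := by omega
  have hm' : (1000 : ℝ) ≤ m := by exact_mod_cast hm
  have hm0 : (0 : ℝ) < m := by linarith
  induction K with
  | zero =>
    intro x hx _
    rw [Finset.sum_range_zero, pow_zero, pow_zero, one_mul, one_mul, zero_add]
    exact (per_of_mem hm2 hx).symm
  | succ K ih =>
    intro x hx h
    have h0 := h 0 (by omega)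
    rw [pow_zero, one_mul] at h0
    have e0 : extremal m x = extremal m (Int.fract x) := (per_of_mem hm2 hx).symm
    have e1 := extremal_identity hm h0.1 h0.2
    have e2 : ∀ k : ℕ, Int.fract ((m : ℝ) ^ k * Int.fract (m * Int.fract x)) =
        Int.fract ((m : ℝ) ^ (k + 1) * x) := by
      intro k
      have f1 : (m : ℝ) ^ k * Int.fract (m * Int.fract x) =
          (m : ℝ) ^ (k + 1) * x -
            ((m ^ (k + 1) * ⌊x⌋ + m ^ k * ⌊(m : ℝ) * Int.fract x⌋ : ℤ) : ℝ) := by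
        have f2 : Int.fract (m * Int.fract x) = m * Int.fract x - ⌊(m : ℝ) * Int.fract x⌋ := rfl
        have f3 : Int.fract x = x - ⌊x⌋ := rfl
        rw [f2]
        push_cast
        rw [mul_sub]
        have f4 : (m : ℝ) ^ k * (m * Int.fract x) = (m : ℝ) ^ (k + 1) * x -
          (m : ℝ) ^ (k + 1) * ⌊x⌋ := by rw [f3, pow_succ]; ring
        rw [f4]
        ring
      rw [f1, Int.fract_sub_intCast]
    have e3 := ih (Int.fract (m * Int.fract x)) (fract_mem _) (fun k hk => by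
      rw [e2]
      exact h (k + 1) (by omega))
    rw [e2] at e3
    rw [e0, e1, e3, Finset.sum_range_succ' _ K]
    have e4 : ∑ k ∈ Finset.range K, (1 / (m : ℝ)) ^ (k + 1) =
        (∑ k ∈ Finset.range K, (1 / (m : ℝ)) ^ k) / m := by
      rw [Finset.sum_div]
      refine Finset.sum_congr rfl fun k _ => ?_
      rw [pow_succ]
      ring
    rw [e4, pow_zero, pow_succ]
    ring

theorem extremal_eq_max (hm : 1000 ≤ m) {x : ℝ} (hx : x ∈ Icc (0 : ℝ) 1)
    (h : ∀ k : ℕ, Int.fract ((m : ℝ) ^ k * x) ∈ Icc ((JJ m : ℝ) / m) (1 - (JJ m : ℝ) / m)) :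
    extremal m x = m / (m - 1) := by
  have hm2 : 2 ≤ m := by omega
  have hm' : (1000 : ℝ) ≤ m := by exact_mod_cast hm
  have hm0 : (0 : ℝ) < m := by linarith
  refine le_antisymm (extremal_le hm2 hx) ?_
  have h1 : ∀ K : ℕ, ∑ k ∈ Finset.range K, (1 / (m : ℝ)) ^ k ≤ extremal m x := by
    intro K
    rw [extremal_iterate hm K x hx fun k _ => h k]
    have := mul_nonneg (by positivity : 0 ≤ (1 / (m : ℝ)) ^ K)
      (extremal_nonneg hm2 (fract_mem ((m : ℝ) ^ K * x)))
    linarith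
  have h2 : HasSum (fun k : ℕ => (1 / (m : ℝ)) ^ k) (1 - 1 / (m : ℝ))⁻¹ :=
    hasSum_geometric_of_lt_one (by positivity) (by rw [div_lt_one hm0]; linarith)
  have h3 : (1 - 1 / (m : ℝ))⁻¹ = m / (m - 1) := by
    have : (m : ℝ) - 1 ≠ 0 := by linarith
    field_simp
  rw [h3] at h2
  exact le_of_tendsto' h2.tendsto_sum_nat h1

/-- the points `d / (m - 1)` with `d` in the middle -/
theorem fract_digit (hm : 2 ≤ m) {d : ℕ} (hd : d < m - 1) (k : ℕ) :
    Int.fract ((m : ℝ) ^ k * (d / (m - 1))) = d / (m - 1) := by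
  have hm' : (2 : ℝ) ≤ m := by exact_mod_cast hm
  have hm1 : (0 : ℝ) < m - 1 := by linarith
  have hdm : (d : ℝ) < m - 1 := by
    have h1 : d + 1 < m := by omega
    have : (d : ℝ) + 1 < m := by exact_mod_cast h1
    linarith
  -- `m ^ k - 1` is divisible by `m - 1`
  have hdiv : ∃ q : ℤ, (m : ℝ) ^ k = (m - 1) * q + 1 := by
    induction k with
    | zero => exact ⟨0, by simp⟩
    | succ k ih =>
      obtain ⟨q, hq⟩ := ih
      refine ⟨m * q + 1, ?_⟩
      rw [pow_succ, hq]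
      push_cast
      ring
  obtain ⟨q, hq⟩ := hdiv
  have e : (m : ℝ) ^ k * (d / (m - 1)) = d / (m - 1) + ((q * d : ℤ) : ℝ) := by
    rw [hq]
    push_cast
    field_simp
    ring
  rw [e, Int.fract_add_intCast, Int.fract_eq_self]
  exact ⟨by positivity, by rw [div_lt_one hm1]; exact hdm⟩

theorem extremal_digit (hm : 1000 ≤ m) {d : ℕ} (h1 : JJ m ≤ d) (h2 : d + 1 + JJ m ≤ m) :
    extremal m (d / (m - 1)) = m / (m - 1) := by
  have hm2 : 2 ≤ m := by omega
  have hm' : (1000 : ℝ) ≤ m := by exact_mod_cast hm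
  have hm0 : (0 : ℝ) < m := by linarith
  have hm1 : (0 : ℝ) < m - 1 := by linarith
  have hJ := JJ_ge m
  have h1' : (JJ m : ℝ) ≤ d := by exact_mod_cast h1
  have h2' : (d : ℝ) + 1 + JJ m ≤ m := by exact_mod_cast h2
  have hd : d < m - 1 := by
    have : 0 < JJ m := by unfold JJ; omega
    omega
  have hJ0 : (0 : ℝ) ≤ JJ m := Nat.cast_nonneg _
  have hmem : (d : ℝ) / (m - 1) ∈ Icc ((JJ m : ℝ) / m) (1 - (JJ m : ℝ) / m) := by
    constructor
    · rw [div_le_div_iff₀ hm0 hm1]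
      nlinarith
    · have e : 1 - (JJ m : ℝ) / m = (m - JJ m) / m := by field_simp
      rw [e, div_le_div_iff₀ hm1 hm0]
      nlinarith
  have hJm : (0 : ℝ) ≤ (JJ m : ℝ) / m := by positivity
  refine extremal_eq_max hm ⟨by linarith [hmem.1], by linarith [hmem.2]⟩ fun k => ?_
  rw [fract_digit hm2 hd k]
  exact hmem

end Pool.Agent.MP_56f843_an
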