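import Pool.Agent.MP_56f843_an.Basic

set_option autoImplicit false

namespace Pool.Agent.MP_56f843_an

open Filter Topology

theorem distInt_nonneg (t : ℝ) : 0 ≤ distInt t := abs_nonneg _

theorem distInt_le_half (t : ℝ) : distInt t ≤ 1 / 2 := abs_sub_round t

theorem distInt_le (t : ℝ) (z : ℤ) : distInt t ≤ |t - z| := round_le t z

theorem distInt_eq (t : ℝ) (z : ℤ) (h : |t - z| ≤ 1 / 2) : distInt t = |t - z| := by
  apply le_antisymm (distInt_le t z)
  unfold distInt
  by_cases hz : round t = z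
  · rw [hz]
  · have h1 : (1 : ℝ) ≤ |((round t : ℤ) : ℝ) - z| := by
      have h2 : round t - z ≠ 0 := sub_ne_zero.2 hz
      have h3 : (1 : ℤ) ≤ |round t - z| := Int.one_le_abs h2
      exact_mod_cast h3
    have h2 : |((round t : ℤ) : ℝ) - z| ≤ |t - round t| + |t - z| := by
      have := abs_sub_le ((round t : ℤ) : ℝ) t z
      rw [abs_sub_comm ((round t : ℤ) : ℝ) t] at this
      exact this
    linarith

theorem distInt_add_int (t : ℝ) (z : ℤ) : distInt (t + z) = distInt t := by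
  unfold distInt
  rw [round_add_intCast]
  push_cast
  congr 1
  ring

theorem distInt_intCast (z : ℤ) : distInt z = 0 := by
  rw [distInt_eq z z (by simp)]
  simp

theorem continuous_distInt : Continuous distInt := by
  have h : distInt = fun t : ℝ => ‖(t : UnitAddCircle)‖ := by
    funext t
    rw [UnitAddCircle.norm_eq]
    rfl
  rw [h]
  exact continuous_norm.comp (AddCircle.continuous_mk' 1)

/-- The Takagi function. -/
noncomputable def takagi (x : ℝ) : ℝ := ∑' k : ℕ, (1 / 2 : ℝ) ^ k * distInt (2 ^ k * x)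

theorem takagi_term_bound (x : ℝ) (k : ℕ) :
    ‖(1 / 2 : ℝ) ^ k * distInt (2 ^ k * x)‖ ≤ (1 / 2) ^ k * (1 / 2) := by
  rw [Real.norm_of_nonneg (mul_nonneg (by positivity) (distInt_nonneg _))]
  exact mul_le_mul_of_nonneg_left (distInt_le_half _) (by positivity)

theorem summable_bound : Summable fun k : ℕ => (1 / 2 : ℝ) ^ k * (1 / 2) :=
  (summable_geometric_of_lt_one (by norm_num) (by norm_num)).mul_right _

theorem summable_takagi (x : ℝ) : Summable fun k : ℕ => (1 / 2 : ℝ) ^ k * distInt (2 ^ k * x) :=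
  Summable.of_norm_bounded summable_bound (takagi_term_bound x)

theorem continuous_takagi : Continuous takagi := by
  unfold takagi
  apply continuous_tsum _ summable_bound (fun k x => takagi_term_bound x k)
  intro k
  exact continuous_const.mul (continuous_distInt.comp (continuous_const.mul continuous_id))

theorem takagi_rec (x : ℝ) : takagi x = distInt x + takagi (2 * x) / 2 := by
  have h1 : takagi x = (1 / 2 : ℝ) ^ 0 * distInt (2 ^ 0 * x) +
      ∑' k : ℕ, (1 / 2 : ℝ) ^ (k + 1) * distInt (2 ^ (k + 1) * x) :=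
    (summable_takagi x).tsum_eq_zero_add
  have h2 : ∑' k : ℕ, (1 / 2 : ℝ) ^ (k + 1) * distInt (2 ^ (k + 1) * x) =
      ∑' k : ℕ, (1 / 2 : ℝ) ^ k * distInt (2 ^ k * (2 * x)) * (1 / 2) := by
    apply tsum_congr
    intro k
    rw [pow_succ, pow_succ]
    have : (2 : ℝ) ^ k * 2 * x = 2 ^ k * (2 * x) := by ring
    rw [this]
    ring
  rw [h1, h2, tsum_mul_right]
  unfold takagi
  rw [pow_zero, pow_zero, one_mul, one_mul]
  ring

theorem takagi_add_int (x : ℝ) (z : ℤ) : takagi (x + z) = takagi x := by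
  unfold takagi
  apply tsum_congr
  intro k
  have : (2 : ℝ) ^ k * (x + z) = 2 ^ k * x + ((2 ^ k * z : ℤ) : ℝ) := by
    push_cast
    ring
  rw [this, distInt_add_int]

theorem takagi_intCast (z : ℤ) : takagi z = 0 := by
  have h : takagi 0 = 0 := by
    unfold takagi
    have : ∀ k : ℕ, (1 / 2 : ℝ) ^ k * distInt (2 ^ k * 0) = 0 := by
      intro k
      have h0 := distInt_intCast 0
      rw [mul_zero]
      simp only [Int.cast_zero] at h0
      rw [h0, mul_zero]
    rw [tsum_congr this]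
    exact tsum_zero
  have := takagi_add_int 0 z
  rw [zero_add] at this
  rw [this, h]

theorem takagi_nonneg (x : ℝ) : 0 ≤ takagi x :=
  tsum_nonneg fun _ => mul_nonneg (by positivity) (distInt_nonneg _)

/-- `distInt` is affine between consecutive half-integers. -/
theorem distInt_mid (a : ℤ) (n : ℕ) :
    distInt ((2 * a + 1 : ℤ) / 2 ^ (n + 2)) =
      (distInt (a / 2 ^ (n + 1)) + distInt ((a + 1 : ℤ) / 2 ^ (n + 1))) / 2 := by
  set N : ℤ := 2 ^ n with hN
  have hNpos : 0 < N := by positivity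
  have hNr : (0 : ℝ) < (N : ℝ) := by exact_mod_cast hNpos
  have e1 : (2 : ℝ) ^ (n + 1) = 2 * N := by
    rw [hN]; push_cast; ring
  have e2 : (2 : ℝ) ^ (n + 2) = 4 * N := by
    rw [hN]; push_cast; ring
  rw [e1, e2]
  set k := a / N with hk
  have h1 : k * N ≤ a := Int.ediv_mul_le a hNpos.ne'
  have h2 : a < (k + 1) * N := by
    have := Int.lt_ediv_add_one_mul_self a hNpos
    exact this
  have h2' : a + 1 ≤ (k + 1) * N := h2
  have h1r : (k : ℝ) * N ≤ a := by exact_mod_cast h1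
  have h2r : (a : ℝ) + 1 ≤ (k + 1) * N := by exact_mod_cast h2'
  have p1 : (k : ℝ) / 2 ≤ a / (2 * N) := by
    rw [div_le_div_iff₀ (by norm_num) (by positivity)]
    linarith
  have p2 : ((a : ℝ) + 1) / (2 * N) ≤ (k + 1) / 2 := by
    rw [div_le_div_iff₀ (by positivity) (by norm_num)]
    linarith
  have p3 : (a : ℝ) / (2 * N) ≤ (a + 1) / (2 * N) := by
    apply div_le_div_of_nonneg_right _ (by positivity)
    linarith
  have p4 : (2 * (a : ℝ) + 1) / (4 * N) = (a / (2 * N) + (a + 1) / (2 * N)) / 2 := by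
    field_simp
    ring
  push_cast
  rw [p4]
  set u := (a : ℝ) / (2 * N)
  set v := ((a : ℝ) + 1) / (2 * N)
  rcases Int.even_or_odd' k with ⟨l, hl | hl⟩
  · have hl' : (k : ℝ) = 2 * l := by exact_mod_cast hl
    rw [hl'] at p1 p2
    have q : ∀ t : ℝ, u ≤ t → t ≤ v → distInt t = t - l := by
      intro t ht1 ht2
      rw [distInt_eq t l (by rw [abs_le]; constructor <;> linarith), abs_of_nonneg (by linarith)]
    rw [q u le_rfl p3, q v p3 le_rfl, q ((u + v) / 2) (by linarith) (by linarith)]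
    ring
  · have hl' : (k : ℝ) = 2 * l + 1 := by exact_mod_cast hl
    rw [hl'] at p1 p2
    have q : ∀ t : ℝ, u ≤ t → t ≤ v → distInt t = l + 1 - t := by
      intro t ht1 ht2
      rw [distInt_eq t (l + 1) (by push_cast; rw [abs_le]; constructor <;> linarith)]
      push_cast
      rw [abs_of_nonpos (by linarith)]
      ring
    rw [q u le_rfl p3, q v p3 le_rfl, q ((u + v) / 2) (by linarith) (by linarith)]
    ring

theorem takagi_mid_dyadic (n : ℕ) (a : ℤ) :
    takagi ((2 * a + 1 : ℤ) / 2 ^ (n + 1)) =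
      (takagi (a / 2 ^ n) + takagi ((a + 1 : ℤ) / 2 ^ n)) / 2 + 1 / 2 ^ (n + 1) := by
  induction n generalizing a with
  | zero =>
    rw [takagi_rec]
    have e1 : 2 * (((2 * a + 1 : ℤ) : ℝ) / 2 ^ (0 + 1)) = ((2 * a + 1 : ℤ) : ℝ) := by
      push_cast; ring
    rw [e1, takagi_intCast, pow_zero, div_one, div_one, takagi_intCast, takagi_intCast]
    rw [distInt_eq _ a]
    · push_cast
      have : (2 * (a : ℝ) + 1) / 2 ^ (0 + 1) - a = 1 / 2 := by ring
      rw [this, abs_of_nonneg (by norm_num)]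
      norm_num
    · push_cast
      have : (2 * (a : ℝ) + 1) / 2 ^ (0 + 1) - a = 1 / 2 := by ring
      rw [this, abs_of_nonneg (by norm_num)]
  | succ n ih =>
    have e1 : 2 * (((2 * a + 1 : ℤ) : ℝ) / 2 ^ (n + 1 + 1)) = ((2 * a + 1 : ℤ) : ℝ) / 2 ^ (n + 1) := by
      rw [pow_succ (2 : ℝ) (n + 1)]
      field_simp
    have e2 : ∀ z : ℤ, 2 * ((z : ℝ) / 2 ^ (n + 1)) = (z : ℝ) / 2 ^ n := by
      intro z
      rw [pow_succ (2 : ℝ) n]
      field_simp
    rw [takagi_rec ((2 * a + 1 : ℤ) / 2 ^ (n + 1 + 1)), e1, ih, takagi_rec (a / 2 ^ (n + 1)),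
      takagi_rec ((a + 1 : ℤ) / 2 ^ (n + 1)), e2, e2, distInt_mid a n]
    have e3 : (1 : ℝ) / 2 ^ (n + 1 + 1) = 1 / 2 ^ (n + 1) / 2 := by
      rw [pow_succ (2 : ℝ) (n + 1)]
      field_simp
    rw [e3]
    ring

/-- integer version -/
noncomputable def G (n : ℕ) (a : ℤ) : ℝ := 2 ^ n * takagi (a / 2 ^ n)

theorem G_zero (a : ℤ) : G 0 a = 0 := by
  unfold G
  rw [pow_zero, div_one, takagi_intCast, mul_zero]

theorem G_even (n : ℕ) (a : ℤ) : G (n + 1) (2 * a) = 2 * G n a := by
  unfold G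
  have : ((2 * a : ℤ) : ℝ) / 2 ^ (n + 1) = a / 2 ^ n := by
    push_cast
    rw [pow_succ]
    field_simp
  rw [this]
  ring

theorem G_odd (n : ℕ) (a : ℤ) : G (n + 1) (2 * a + 1) = G n a + G n (a + 1) + 1 := by
  unfold G
  rw [takagi_mid_dyadic]
  have : (2 : ℝ) ^ (n + 1) ≠ 0 := by positivity
  rw [mul_add, mul_one_div_cancel this]
  ring

theorem G_ineq (n : ℕ) (a b : ℤ) : G (n + 1) (a + b) ≤ G n a + G n b + |(a : ℝ) - b| := by
  induction n generalizing a b with
  | zero =>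
    rcases Int.even_or_odd' (a + b) with ⟨c, hc | hc⟩
    · rw [hc, G_even, G_zero, G_zero, G_zero]
      simp
    · rw [hc, G_odd, G_zero, G_zero, G_zero, G_zero]
      have h1 : a - b ≠ 0 := by omega
      have h2 : (1 : ℤ) ≤ |a - b| := Int.one_le_abs h1
      have h3 : (1 : ℝ) ≤ |(a : ℝ) - b| := by exact_mod_cast h2
      linarith
  | succ n ih =>
    rcases Int.even_or_odd' a with ⟨p, rfl | rfl⟩ <;> rcases Int.even_or_odd' b with ⟨q, rfl | rfl⟩
    · have h1 : 2 * p + 2 * q = 2 * (p + q) := by ring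
      rw [h1, G_even, G_even, G_even]
      have h2 := ih p q
      have h3 : |((2 * p : ℤ) : ℝ) - (2 * q : ℤ)| = 2 * |(p : ℝ) - q| := by
        push_cast
        rw [← mul_sub, abs_mul, abs_of_nonneg (by norm_num : (0 : ℝ) ≤ 2)]
      rw [h3]
      linarith
    · have h1 : 2 * p + (2 * q + 1) = 2 * (p + q) + 1 := by ring
      rw [h1, G_odd, G_even, G_odd]
      have h2 := ih p q
      have h3 := ih p (q + 1)
      have h4 : p + (q + 1) = p + q + 1 := by ring
      rw [h4] at h3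
      have h5 : |(p : ℝ) - q| + |(p : ℝ) - (q + 1 : ℤ)| ≤
          |((2 * p : ℤ) : ℝ) - (2 * q + 1 : ℤ)| := by
        have : |p - q| + |p - (q + 1)| ≤ |2 * p - (2 * q + 1)| := by
          rcases le_total p q with h | h
          · rw [abs_of_nonpos (by omega), abs_of_nonpos (by omega), abs_of_nonpos (by omega)]
            omega
          · rcases h.lt_or_eq with h | h
            · rw [abs_of_nonneg (by omega), abs_of_nonneg (by omega), abs_of_nonneg (by omega)]
              omega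
            · subst h
              simp
        exact_mod_cast this
      linarith
    · have h1 : 2 * p + 1 + 2 * q = 2 * (p + q) + 1 := by ring
      rw [h1, G_odd, G_even, G_odd]
      have h2 := ih p q
      have h3 := ih (p + 1) q
      have h4 : p + 1 + q = p + q + 1 := by ring
      rw [h4] at h3
      have h5 : |(p : ℝ) - q| + |((p + 1 : ℤ) : ℝ) - q| ≤
          |((2 * p + 1 : ℤ) : ℝ) - (2 * q : ℤ)| := by
        have : |p - q| + |p + 1 - q| ≤ |2 * p + 1 - 2 * q| := by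
          rcases le_total q p with h | h
          · rw [abs_of_nonneg (by omega), abs_of_nonneg (by omega), abs_of_nonneg (by omega)]
            omega
          · rcases h.lt_or_eq with h | h
            · rw [abs_of_nonpos (by omega), abs_of_nonpos (by omega), abs_of_nonpos (by omega)]
              omega
            · subst h
              simp
        exact_mod_cast this
      linarith
    · have h1 : 2 * p + 1 + (2 * q + 1) = 2 * (p + q + 1) := by ring
      rw [h1, G_even, G_odd, G_odd]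
      have h2 := ih p (q + 1)
      have h3 := ih (p + 1) q
      have h4 : p + (q + 1) = p + q + 1 := by ring
      have h4' : p + 1 + q = p + q + 1 := by ring
      rw [h4] at h2
      rw [h4'] at h3
      have h5 : |(p : ℝ) - (q + 1 : ℤ)| + |((p + 1 : ℤ) : ℝ) - q| ≤
          |((2 * p + 1 : ℤ) : ℝ) - (2 * q + 1 : ℤ)| + 2 := by
        have : |p - (q + 1)| + |p + 1 - q| ≤ |2 * p + 1 - (2 * q + 1)| + 2 := by
          rcases abs_cases (p - (q + 1)) with h | h <;> rcases abs_cases (p + 1 - q) with h' | h' <;>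
            rcases abs_cases (2 * p + 1 - (2 * q + 1)) with h'' | h'' <;> omega
        exact_mod_cast this
      linarith

/-- The Boros inequality for the Takagi function. -/
theorem takagi_mid (x y : ℝ) :
    takagi ((x + y) / 2) ≤ (takagi x + takagi y) / 2 + |x - y| / 2 := by
  have hlim : ∀ z : ℝ, Tendsto (fun n : ℕ => (⌊2 ^ n * z⌋ : ℝ) / 2 ^ n) atTop (𝓝 z) := by
    intro z
    have h1 : Tendsto (fun n : ℕ => z - (1 / 2 : ℝ) ^ n) atTop (𝓝 (z - 0)) :=
      tendsto_const_nhds.sub (tendsto_pow_atTop_nhds_zero_of_lt_one (by norm_num) (by norm_num))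
    rw [sub_zero] at h1
    refine tendsto_of_tendsto_of_tendsto_of_le_of_le h1 tendsto_const_nhds ?_ ?_
    · intro n
      have h2 : (2 : ℝ) ^ n * z < ⌊2 ^ n * z⌋ + 1 := Int.lt_floor_add_one _
      have h3 : (0 : ℝ) < 2 ^ n := by positivity
      change z - (1 / 2) ^ n ≤ (⌊2 ^ n * z⌋ : ℝ) / 2 ^ n
      rw [le_div_iff₀ h3, sub_mul, ← mul_pow]
      norm_num
      linarith
    · intro n
      have h2 : (⌊2 ^ n * z⌋ : ℝ) ≤ 2 ^ n * z := Int.floor_le _
      have h3 : (0 : ℝ) < 2 ^ n := by positivity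
      change (⌊2 ^ n * z⌋ : ℝ) / 2 ^ n ≤ z
      rw [div_le_iff₀ h3]
      linarith
  have hx := hlim x
  have hy := hlim y
  have hL : Tendsto (fun n : ℕ => takagi (((⌊2 ^ n * x⌋ : ℝ) / 2 ^ n + (⌊2 ^ n * y⌋ : ℝ) / 2 ^ n) / 2))
      atTop (𝓝 (takagi ((x + y) / 2))) :=
    (continuous_takagi.tendsto _).comp ((hx.add hy).div_const 2)
  have hR : Tendsto (fun n : ℕ => (takagi ((⌊2 ^ n * x⌋ : ℝ) / 2 ^ n) +
      takagi ((⌊2 ^ n * y⌋ : ℝ) / 2 ^ n)) / 2 +
      |(⌊2 ^ n * x⌋ : ℝ) / 2 ^ n - (⌊2 ^ n * y⌋ : ℝ) / 2 ^ n| / 2)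
      atTop (𝓝 ((takagi x + takagi y) / 2 + |x - y| / 2)) := by
    refine Tendsto.add ?_ ?_
    · exact ((((continuous_takagi.tendsto _).comp hx).add
        ((continuous_takagi.tendsto _).comp hy))).div_const 2
    · exact (hx.sub hy).abs.div_const 2
  refine le_of_tendsto_of_tendsto' hL hR ?_
  intro n
  have h := G_ineq n ⌊2 ^ n * x⌋ ⌊2 ^ n * y⌋
  unfold G at h
  set a := ⌊(2 : ℝ) ^ n * x⌋
  set b := ⌊(2 : ℝ) ^ n * y⌋
  have h3 : (0 : ℝ) < 2 ^ n := by positivity
  have e1 : ((a : ℝ) / 2 ^ n + (b : ℝ) / 2 ^ n) / 2 = ((a + b : ℤ) : ℝ) / 2 ^ (n + 1) := by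
    push_cast
    rw [pow_succ]
    field_simp
  have e2 : |(a : ℝ) / 2 ^ n - (b : ℝ) / 2 ^ n| = |(a : ℝ) - b| / 2 ^ n := by
    rw [← sub_div, abs_div, abs_of_pos h3]
  rw [e1, e2]
  have e3 : (2 : ℝ) ^ (n + 1) = 2 ^ n * 2 := pow_succ _ _
  have h4 : (2 : ℝ) ^ n * takagi (((a + b : ℤ) : ℝ) / 2 ^ (n + 1)) ≤
      2 ^ n * ((takagi (a / 2 ^ n) + takagi (b / 2 ^ n)) / 2 + |(a : ℝ) - b| / 2 ^ n / 2) := by
    have e4 : (2 : ℝ) ^ n * ((takagi (a / 2 ^ n) + takagi (b / 2 ^ n)) / 2 +
        |(a : ℝ) - b| / 2 ^ n / 2) =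
        (2 ^ n * takagi (a / 2 ^ n) + 2 ^ n * takagi (b / 2 ^ n) + |(a : ℝ) - b|) / 2 := by
      field_simp
    rw [e4]
    rw [e3] at h ⊢
    linarith
  exact le_of_mul_le_mul_left h4 h3

end Pool.Agent.MP_56f843_an
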